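import Pool.Agent.BL.Defs

set_option autoImplicit false
open Set Filter Topology MeasureTheory
open scoped ContDiff


namespace Pool.Agent.BL.ActAlg
open Pool.Agent.BL

open Set Filter Topology MeasureTheory
open scoped ContDiff

/-! ## TARGET (prove this) -/


/-- auxiliary: the complex coordinate. -/
noncomputable def zt (z : V3) : ℂ := ⟨z 0, z 1⟩

/-- auxiliary: denominator. -/
noncomputable def NN (A : Matrix (Fin 2) (Fin 2) ℂ) (z : V3) : ℝ :=
  Complex.normSq (A 1 0 * zt z + A 1 1) + Complex.normSq (A 1 0) * (z 2) ^ 2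

/-- auxiliary: numerator. -/
noncomputable def EE (A : Matrix (Fin 2) (Fin 2) ℂ) (z : V3) : ℂ :=
  (A 0 0 * zt z + A 0 1) * (starRingEnd ℂ) (A 1 0 * zt z + A 1 1)
    + A 0 0 * (starRingEnd ℂ) (A 1 0) * ((z 2) ^ 2 : ℝ)

theorem act_eq (A : Matrix (Fin 2) (Fin 2) ℂ) (z : V3) :
    act A z = ![(EE A z).re / NN A z, (EE A z).im / NN A z, z 2 / NN A z] := rfl

theorem NN_coe (A : Matrix (Fin 2) (Fin 2) ℂ) (z : V3) :
    (NN A z : ℂ) = (A 1 0 * zt z + A 1 1) * (starRingEnd ℂ) (A 1 0 * zt z + A 1 1)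
      + A 1 0 * (starRingEnd ℂ) (A 1 0) * ((z 2) : ℂ) ^ 2 := by
  unfold NN
  push_cast
  rw [Complex.mul_conj, Complex.mul_conj]

theorem NN_pos (A : Matrix (Fin 2) (Fin 2) ℂ) (hA : A.det = 1) (z : V3) (hz : z ∈ U) :
    0 < NN A z := by
  unfold NN
  have hz2 : 0 < z 2 := hz
  rcases eq_or_ne (A 1 0) 0 with hc | hc
  · rw [Matrix.det_fin_two] at hA
    have hd : A 1 1 ≠ 0 := by
      intro hd
      rw [hc, hd] at hA
      simp at hA
    rw [hc]
    have := Complex.normSq_pos.2 hd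
    simpa using hd
  · have h1 := Complex.normSq_pos.2 hc
    have h2 := Complex.normSq_nonneg (A 1 0 * zt z + A 1 1)
    positivity

theorem zt_act (A : Matrix (Fin 2) (Fin 2) ℂ) (z : V3) :
    zt (act A z) = EE A z / (NN A z : ℂ) := by
  rw [act_eq]
  apply Complex.ext
  · simp [zt, Complex.div_ofReal_re]
  · simp [zt, Complex.div_ofReal_im]

theorem t_act (A : Matrix (Fin 2) (Fin 2) ℂ) (z : V3) :
    act A z 2 = z 2 / NN A z := by
  rw [act_eq]
  simp

theorem act_mem (A : Matrix (Fin 2) (Fin 2) ℂ) (hA : A.det = 1) (z : V3) (hz : z ∈ U) :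
    act A z ∈ U := by
  show 0 < act A z 2
  rw [t_act]
  exact div_pos hz (NN_pos A hA z hz)

theorem act_one (z : V3) (hz : z ∈ U) : act 1 z = z := by
  have hN : NN 1 z = 1 := by simp [NN]
  have hE : EE 1 z = zt z := by simp [EE]
  rw [act_eq, hN, hE]
  funext i
  fin_cases i <;> simp [zt]

theorem NN_mul (A B : Matrix (Fin 2) (Fin 2) ℂ) (hB : B.det = 1)
    (z : V3) (hz : z ∈ U) : NN (A * B) z = NN A (act B z) * NN B z := by
  have hN := NN_pos B hB z hz
  have hNc : (NN B z : ℂ) ≠ 0 := by exact_mod_cast hN.ne'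
  have hdet : B 0 0 * B 1 1 - B 0 1 * B 1 0 = 1 := by rw [← Matrix.det_fin_two]; exact hB
  have hdet' : (starRingEnd ℂ) (B 0 0) * (starRingEnd ℂ) (B 1 1)
      - (starRingEnd ℂ) (B 0 1) * (starRingEnd ℂ) (B 1 0) = 1 := by
    have := congrArg (starRingEnd ℂ) hdet
    simpa using this
  have key : ((NN (A * B) z : ℝ) : ℂ) * NN B z = ((NN A (act B z) * NN B z : ℝ) : ℂ) * NN B z := by
    push_cast
    rw [NN_coe A (act B z), zt_act, t_act]
    have hconj : (starRingEnd ℂ) ((NN B z : ℂ)) = NN B z := Complex.conj_ofReal _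
    have hE : EE B z = (B 0 0 * zt z + B 0 1) * (starRingEnd ℂ) (B 1 0 * zt z + B 1 1)
      + B 0 0 * (starRingEnd ℂ) (B 1 0) * (z 2 : ℂ) ^ 2 := by
      unfold EE; push_cast; rfl
    have e1 : ((A 1 0 * (EE B z / (NN B z : ℂ)) + A 1 1) *
        (starRingEnd ℂ) (A 1 0 * (EE B z / (NN B z : ℂ)) + A 1 1)
      + A 1 0 * (starRingEnd ℂ) (A 1 0) * ((z 2 / NN B z : ℝ) : ℂ) ^ 2) * (NN B z : ℂ) * (NN B z : ℂ)
      = (A 1 0 * EE B z + A 1 1 * NN B z) * (starRingEnd ℂ) (A 1 0 * EE B z + A 1 1 * NN B z)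
        + A 1 0 * (starRingEnd ℂ) (A 1 0) * (z 2 : ℂ) ^ 2 := by
      push_cast
      simp only [map_add, map_mul, map_div₀, hconj]
      field_simp
    rw [e1, NN_coe (A * B), NN_coe B, hE]
    simp only [Matrix.mul_apply, Fin.sum_univ_two, map_add, map_mul, Complex.conj_ofReal, map_pow,
      Complex.conj_conj]
    generalize (starRingEnd ℂ) (B 0 0) = e' at *
    generalize (starRingEnd ℂ) (B 0 1) = f' at *
    generalize (starRingEnd ℂ) (B 1 0) = g' at *
    generalize (starRingEnd ℂ) (B 1 1) = h' at *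
    generalize (starRingEnd ℂ) (A 1 0) = c' at *
    generalize (starRingEnd ℂ) (A 1 1) = d' at *
    generalize (starRingEnd ℂ) (zt z) = w' at *
    generalize (zt z) = w at *
    generalize B 0 0 = e at *
    generalize B 0 1 = f at *
    generalize B 1 0 = g at *
    generalize B 1 1 = h at *
    generalize A 1 0 = c at *
    generalize A 1 1 = d at *
    generalize (z 2 : ℂ) = t at *
    linear_combination (c * c' * t ^ 2 * (e' * h' - f' * g')) * hdet + (c * c' * t ^ 2) * hdet'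
  have := mul_right_cancel₀ hNc key
  exact_mod_cast this

theorem EE_mul (A B : Matrix (Fin 2) (Fin 2) ℂ) (hB : B.det = 1)
    (z : V3) (hz : z ∈ U) : EE (A * B) z = EE A (act B z) * NN B z := by
  have hN := NN_pos B hB z hz
  have hNc : (NN B z : ℂ) ≠ 0 := by exact_mod_cast hN.ne'
  have hdet : B 0 0 * B 1 1 - B 0 1 * B 1 0 = 1 := by rw [← Matrix.det_fin_two]; exact hB
  have hdet' : (starRingEnd ℂ) (B 0 0) * (starRingEnd ℂ) (B 1 1)
      - (starRingEnd ℂ) (B 0 1) * (starRingEnd ℂ) (B 1 0) = 1 := by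
    have := congrArg (starRingEnd ℂ) hdet
    simpa using this
  apply mul_right_cancel₀ hNc
  have hE : ∀ (A : Matrix (Fin 2) (Fin 2) ℂ) (z : V3), EE A z =
      (A 0 0 * zt z + A 0 1) * (starRingEnd ℂ) (A 1 0 * zt z + A 1 1)
      + A 0 0 * (starRingEnd ℂ) (A 1 0) * (z 2 : ℂ) ^ 2 := by
      intro A z; unfold EE; push_cast; rfl
  rw [hE A (act B z), zt_act, t_act]
  have hconj : (starRingEnd ℂ) ((NN B z : ℂ)) = NN B z := Complex.conj_ofReal _
  have e1 : ((A 0 0 * (EE B z / (NN B z : ℂ)) + A 0 1) *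
      (starRingEnd ℂ) (A 1 0 * (EE B z / (NN B z : ℂ)) + A 1 1)
    + A 0 0 * (starRingEnd ℂ) (A 1 0) * ((z 2 / NN B z : ℝ) : ℂ) ^ 2) * (NN B z : ℂ) * (NN B z : ℂ)
    = (A 0 0 * EE B z + A 0 1 * NN B z) * (starRingEnd ℂ) (A 1 0 * EE B z + A 1 1 * NN B z)
      + A 0 0 * (starRingEnd ℂ) (A 1 0) * (z 2 : ℂ) ^ 2 := by
    push_cast
    simp only [map_add, map_mul, map_div₀, hconj]
    field_simp
  rw [e1, NN_coe B, hE B, hE (A * B)]
  simp only [Matrix.mul_apply, Fin.sum_univ_two, map_add, map_mul, Complex.conj_ofReal, map_pow,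
      Complex.conj_conj]
  generalize (starRingEnd ℂ) (B 0 0) = e' at *
  generalize (starRingEnd ℂ) (B 0 1) = f' at *
  generalize (starRingEnd ℂ) (B 1 0) = g' at *
  generalize (starRingEnd ℂ) (B 1 1) = h' at *
  generalize (starRingEnd ℂ) (A 1 0) = c' at *
  generalize (starRingEnd ℂ) (A 1 1) = d' at *
  generalize (starRingEnd ℂ) (zt z) = w' at *
  generalize (zt z) = w at *
  generalize B 0 0 = e at *
  generalize B 0 1 = f at *
  generalize B 1 0 = g at *
  generalize B 1 1 = h at *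
  generalize A 0 0 = a at *
  generalize A 0 1 = b at *
  generalize A 1 0 = c at *
  generalize A 1 1 = d at *
  generalize (z 2 : ℂ) = t at *
  linear_combination (a * c' * t ^ 2 * (e' * h' - f' * g')) * hdet + (a * c' * t ^ 2) * hdet'

theorem act_mul (A B : Matrix (Fin 2) (Fin 2) ℂ) (hA : A.det = 1) (hB : B.det = 1)
    (z : V3) (hz : z ∈ U) : act (A * B) z = act A (act B z) := by
  have hN := (NN_pos B hB z hz).ne'
  have hz' := act_mem B hB z hz
  have hN2 := (NN_pos A hA _ hz').ne'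
  rw [act_eq (A * B), act_eq A (act B z), NN_mul A B hB z hz, EE_mul A B hB z hz, t_act]
  funext i
  fin_cases i
  · simp only [Complex.re_mul_ofReal]
    simp
    field_simp
  · simp only [Complex.im_mul_ofReal]
    simp
    field_simp
  · simp
    field_simp

end Pool.Agent.BL.ActAlg
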