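import Pool.Agent.BL.Defs
import Pool.Agent.BL.ActAlg

set_option autoImplicit false
open Set Filter Topology MeasureTheory
open scoped ContDiff


namespace Pool.Agent.BL.ActCh
open Pool.Agent.BL
open Pool.Agent.BL.ActAlg (act_mem)

open Set Filter Topology MeasureTheory
open scoped ContDiff



/-! ## TARGET (prove this) -/

/-- real form of the denominator -/
def h170_N (c1 c2 d1 d2 x y t : ℝ) : ℝ :=
  (c1 * x - c2 * y + d1) ^ 2 + (c1 * y + c2 * x + d2) ^ 2 + (c1 ^ 2 + c2 ^ 2) * t ^ 2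

/-- real part of the numerator -/
def h170_R (a1 a2 b1 b2 c1 c2 d1 d2 x y t : ℝ) : ℝ :=
  (a1 * x - a2 * y + b1) * (c1 * x - c2 * y + d1) + (a1 * y + a2 * x + b2) * (c1 * y + c2 * x + d2)
    + (a1 * c1 + a2 * c2) * t ^ 2

/-- imaginary part of the numerator -/
def h170_J (a1 a2 b1 b2 c1 c2 d1 d2 x y t : ℝ) : ℝ :=
  (a1 * y + a2 * x + b2) * (c1 * x - c2 * y + d1) - (a1 * x - a2 * y + b1) * (c1 * y + c2 * x + d2)
    + (a2 * c1 - a1 * c2) * t ^ 2

def h170_D (a1 a2 b1 b2 c1 c2 d1 d2 : ℝ) : ℝ :=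
  (a1 * d1 - a2 * d2 - b1 * c1 + b2 * c2) ^ 2 + (a1 * d2 + a2 * d1 - b1 * c2 - b2 * c1) ^ 2

theorem h170_I (a1 a2 b1 b2 c1 c2 d1 d2 x y t : ℝ) :
    h170_N a1 a2 b1 b2 x y t * h170_N c1 c2 d1 d2 x y t -
      (h170_R a1 a2 b1 b2 c1 c2 d1 d2 x y t ^ 2 + h170_J a1 a2 b1 b2 c1 c2 d1 d2 x y t ^ 2) =
      t ^ 2 * h170_D a1 a2 b1 b2 c1 c2 d1 d2 := by
  unfold h170_N h170_R h170_J h170_D
  ring

theorem h170_II (a1 a2 b1 b2 c1 c2 d1 d2 x y t u v s : ℝ) :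
    h170_N a1 a2 b1 b2 x y t * h170_N c1 c2 d1 d2 u v s +
      h170_N a1 a2 b1 b2 u v s * h170_N c1 c2 d1 d2 x y t -
      2 * (h170_R a1 a2 b1 b2 c1 c2 d1 d2 x y t * h170_R a1 a2 b1 b2 c1 c2 d1 d2 u v s +
        h170_J a1 a2 b1 b2 c1 c2 d1 d2 x y t * h170_J a1 a2 b1 b2 c1 c2 d1 d2 u v s) =
      ((x - u) ^ 2 + (y - v) ^ 2 + t ^ 2 + s ^ 2) * h170_D a1 a2 b1 b2 c1 c2 d1 d2 := by
  unfold h170_N h170_R h170_J h170_D
  ring

theorem h170_fin {N R J M N' R' J' M' x y t u v s : ℝ} (hN : 0 < N) (hN' : 0 < N') (ht : 0 < t)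
    (hs : 0 < s) (e1 : M * N - (R ^ 2 + J ^ 2) = t ^ 2) (e2 : M' * N' - (R' ^ 2 + J' ^ 2) = s ^ 2)
    (e3 : M * N' + M' * N - 2 * (R * R' + J * J') = (x - u) ^ 2 + (y - v) ^ 2 + t ^ 2 + s ^ 2) :
    1 + ((R' / N' - R / N) ^ 2 + (J' / N' - J / N) ^ 2 + (s / N' - t / N) ^ 2) /
      (2 * (t / N) * (s / N')) = 1 + ((u - x) ^ 2 + (v - y) ^ 2 + (s - t) ^ 2) / (2 * t * s) := by
  have key : (R' * N - R * N') ^ 2 + (J' * N - J * N') ^ 2 + (s * N - t * N') ^ 2 =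
      N * N' * ((u - x) ^ 2 + (v - y) ^ 2 + (s - t) ^ 2) := by
    linear_combination (-(N' ^ 2)) * e1 + (-(N ^ 2)) * e2 + (N * N') * e3
  have h1 : (R' / N' - R / N) ^ 2 + (J' / N' - J / N) ^ 2 + (s / N' - t / N) ^ 2 =
      ((u - x) ^ 2 + (v - y) ^ 2 + (s - t) ^ 2) / (N * N') := by
    rw [eq_div_iff (by positivity)]
    have h2 : (R' / N' - R / N) ^ 2 + (J' / N' - J / N) ^ 2 + (s / N' - t / N) ^ 2 =
        ((R' * N - R * N') ^ 2 + (J' * N - J * N') ^ 2 + (s * N - t * N') ^ 2) / (N * N') ^ 2 := by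
      field_simp
    rw [h2, key]
    field_simp
  rw [h1]
  congr 1
  field_simp

theorem act_ch (A : Matrix (Fin 2) (Fin 2) ℂ) (hA : A.det = 1) (z w : V3) (hz : z ∈ U)
    (hw : w ∈ U) : ch (act A z) (act A w) = ch z w := by
  have hz' := act_mem A hA z hz
  have hw' := act_mem A hA w hw
  have hz0 : 0 < z 2 := hz
  have hw0 : 0 < w 2 := hw
  have f2 : ∀ z : V3, act A z 2 = z 2 /
      h170_N (A 1 0).re (A 1 0).im (A 1 1).re (A 1 1).im (z 0) (z 1) (z 2) := by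
    intro z
    have : act A z 2 = z 2 / (Complex.normSq (A 1 0 * ⟨z 0, z 1⟩ + A 1 1) +
      Complex.normSq (A 1 0) * (z 2) ^ 2) := rfl
    rw [this]
    congr 1
    simp only [Complex.normSq_apply, Complex.add_re, Complex.add_im, Complex.mul_re, Complex.mul_im,
      h170_N]
    ring
  have f0 : ∀ z : V3, act A z 0 =
      h170_R (A 0 0).re (A 0 0).im (A 0 1).re (A 0 1).im (A 1 0).re (A 1 0).im (A 1 1).re (A 1 1).im
        (z 0) (z 1) (z 2) /
      h170_N (A 1 0).re (A 1 0).im (A 1 1).re (A 1 1).im (z 0) (z 1) (z 2) := by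
    intro z
    have : act A z 0 = ((A 0 0 * ⟨z 0, z 1⟩ + A 0 1) * (starRingEnd ℂ) (A 1 0 * ⟨z 0, z 1⟩ + A 1 1)
      + A 0 0 * (starRingEnd ℂ) (A 1 0) * ((z 2) ^ 2 : ℝ)).re /
        (Complex.normSq (A 1 0 * ⟨z 0, z 1⟩ + A 1 1) + Complex.normSq (A 1 0) * (z 2) ^ 2) := rfl
    rw [this]
    congr 1
    · simp only [Complex.add_re, Complex.add_im, Complex.mul_re, Complex.mul_im, Complex.conj_re,
        Complex.conj_im, Complex.ofReal_re, Complex.ofReal_im, h170_R]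
      ring
    · simp only [Complex.normSq_apply, Complex.add_re, Complex.add_im, Complex.mul_re, Complex.mul_im,
        h170_N]
      ring
  have f1 : ∀ z : V3, act A z 1 =
      h170_J (A 0 0).re (A 0 0).im (A 0 1).re (A 0 1).im (A 1 0).re (A 1 0).im (A 1 1).re (A 1 1).im
        (z 0) (z 1) (z 2) /
      h170_N (A 1 0).re (A 1 0).im (A 1 1).re (A 1 1).im (z 0) (z 1) (z 2) := by
    intro z
    have : act A z 1 = ((A 0 0 * ⟨z 0, z 1⟩ + A 0 1) * (starRingEnd ℂ) (A 1 0 * ⟨z 0, z 1⟩ + A 1 1)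
      + A 0 0 * (starRingEnd ℂ) (A 1 0) * ((z 2) ^ 2 : ℝ)).im /
        (Complex.normSq (A 1 0 * ⟨z 0, z 1⟩ + A 1 1) + Complex.normSq (A 1 0) * (z 2) ^ 2) := rfl
    rw [this]
    congr 1
    · simp only [Complex.add_re, Complex.add_im, Complex.mul_re, Complex.mul_im, Complex.conj_re,
        Complex.conj_im, Complex.ofReal_re, Complex.ofReal_im, h170_J]
      ring
    · simp only [Complex.normSq_apply, Complex.add_re, Complex.add_im, Complex.mul_re, Complex.mul_im,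
        h170_N]
      ring
  have hN0 : ∀ z : V3, 0 ≤ h170_N (A 1 0).re (A 1 0).im (A 1 1).re (A 1 1).im (z 0) (z 1) (z 2) := by
    intro z
    unfold h170_N
    positivity
  have hNpos : ∀ z : V3, act A z ∈ U →
      0 < h170_N (A 1 0).re (A 1 0).im (A 1 1).re (A 1 1).im (z 0) (z 1) (z 2) := by
    intro z h
    rcases (hN0 z).lt_or_eq with h1 | h1
    · exact h1
    · exfalso
      have h2 : 0 < act A z 2 := h
      rw [f2, ← h1, div_zero] at h2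
      exact lt_irrefl _ h2
  have hD : h170_D (A 0 0).re (A 0 0).im (A 0 1).re (A 0 1).im (A 1 0).re (A 1 0).im (A 1 1).re
      (A 1 1).im = 1 := by
    rw [Matrix.det_fin_two] at hA
    have r1 := congrArg Complex.re hA
    have r2 := congrArg Complex.im hA
    simp only [Complex.sub_re, Complex.sub_im, Complex.mul_re, Complex.mul_im, Complex.one_re,
      Complex.one_im] at r1 r2
    unfold h170_D
    have q1 : (A 0 0).re * (A 1 1).re - (A 0 0).im * (A 1 1).im - (A 0 1).re * (A 1 0).re +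
        (A 0 1).im * (A 1 0).im = 1 := by linarith
    have q2 : (A 0 0).re * (A 1 1).im + (A 0 0).im * (A 1 1).re - (A 0 1).re * (A 1 0).im -
        (A 0 1).im * (A 1 0).re = 0 := by linarith
    rw [q1, q2]
    norm_num
  unfold ch
  rw [f0, f1, f2, f0, f1, f2]
  have e1 := h170_I (A 0 0).re (A 0 0).im (A 0 1).re (A 0 1).im (A 1 0).re (A 1 0).im (A 1 1).re
      (A 1 1).im (z 0) (z 1) (z 2)
  have e2 := h170_I (A 0 0).re (A 0 0).im (A 0 1).re (A 0 1).im (A 1 0).re (A 1 0).im (A 1 1).re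
      (A 1 1).im (w 0) (w 1) (w 2)
  have e3 := h170_II (A 0 0).re (A 0 0).im (A 0 1).re (A 0 1).im (A 1 0).re (A 1 0).im (A 1 1).re
      (A 1 1).im (z 0) (z 1) (z 2) (w 0) (w 1) (w 2)
  rw [hD, mul_one] at e1 e2 e3
  exact h170_fin (hNpos z hz') (hNpos w hw') hz0 hw0 e1 e2 e3

end Pool.Agent.BL.ActCh
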