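import Pool.Agent.BL.Defs
import Pool.Agent.BL.ActAlg

set_option autoImplicit false
open Set Filter Topology MeasureTheory
open scoped ContDiff


namespace Pool.Agent.BL.ActSm
open Pool.Agent.BL
open Pool.Agent.BL.ActAlg (act_mem)

open Set Filter Topology MeasureTheory
open scoped ContDiff



/-! ## TARGET (prove this) -/

theorem act_smooth_pos (A : Matrix (Fin 2) (Fin 2) ℂ) (hA : A.det = 1) (z : V3) (hz : z ∈ U) :
    Complex.normSq (A 1 0 * (⟨z 0, z 1⟩ : ℂ) + A 1 1) + Complex.normSq (A 1 0) * (z 2) ^ 2 ≠ 0 := by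
  have hz2 : 0 < z 2 := hz
  intro h
  have h1 : 0 ≤ Complex.normSq (A 1 0 * (⟨z 0, z 1⟩ : ℂ) + A 1 1) := Complex.normSq_nonneg _
  have h2 : 0 ≤ Complex.normSq (A 1 0) * (z 2) ^ 2 :=
    mul_nonneg (Complex.normSq_nonneg _) (sq_nonneg _)
  have h3 : Complex.normSq (A 1 0 * (⟨z 0, z 1⟩ : ℂ) + A 1 1) = 0 := by linarith
  have h4 : Complex.normSq (A 1 0) * (z 2) ^ 2 = 0 := by linarith
  have h5 : A 1 0 = 0 := by
    rcases mul_eq_zero.1 h4 with h6 | h6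
    · exact Complex.normSq_eq_zero.1 h6
    · exact absurd h6 (by positivity)
  have h6 : A 1 1 = 0 := by
    have h7 := Complex.normSq_eq_zero.1 h3
    rw [h5, zero_mul, zero_add] at h7
    exact h7
  rw [Matrix.det_fin_two, h5, h6] at hA
  simp at hA

theorem act_smooth (A : Matrix (Fin 2) (Fin 2) ℂ) (hA : A.det = 1) :
    ContDiffOn ℝ ∞ (act A) U := by
  have h0 : ContDiff ℝ ∞ (fun z : V3 => z 0) := contDiff_apply ℝ ℝ 0
  have h1 : ContDiff ℝ ∞ (fun z : V3 => z 1) := contDiff_apply ℝ ℝ 1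
  have h2 : ContDiff ℝ ∞ (fun z : V3 => z 2) := contDiff_apply ℝ ℝ 2
  have hζ : ContDiff ℝ ∞ (fun z : V3 => (⟨z 0, z 1⟩ : ℂ)) := by
    have h3 : (fun z : V3 => (⟨z 0, z 1⟩ : ℂ)) =
        fun z => ((z 0 : ℝ) : ℂ) + ((z 1 : ℝ) : ℂ) * Complex.I := by
      funext z
      apply Complex.ext <;> simp
    rw [h3]
    exact (Complex.ofRealCLM.contDiff.comp h0).add
      ((Complex.ofRealCLM.contDiff.comp h1).mul contDiff_const)
  have hW : ContDiff ℝ ∞ (fun z : V3 => A 1 0 * (⟨z 0, z 1⟩ : ℂ) + A 1 1) :=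
    (contDiff_const.mul hζ).add contDiff_const
  have hWc : ContDiff ℝ ∞ (fun z : V3 => (starRingEnd ℂ) (A 1 0 * (⟨z 0, z 1⟩ : ℂ) + A 1 1)) :=
    Complex.conjCLE.contDiff.comp hW
  have hre : ∀ f : V3 → ℂ, ContDiff ℝ ∞ f → ContDiff ℝ ∞ (fun z => (f z).re) :=
    fun f hf => Complex.reCLM.contDiff.comp hf
  have him : ∀ f : V3 → ℂ, ContDiff ℝ ∞ f → ContDiff ℝ ∞ (fun z => (f z).im) :=
    fun f hf => Complex.imCLM.contDiff.comp hf
  have hN : ContDiff ℝ ∞ (fun z : V3 => Complex.normSq (A 1 0 * (⟨z 0, z 1⟩ : ℂ) + A 1 1) +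
      Complex.normSq (A 1 0) * (z 2) ^ 2) := by
    simp only [Complex.normSq_apply]
    exact (((hre _ hW).mul (hre _ hW)).add ((him _ hW).mul (him _ hW))).add
      (contDiff_const.mul (h2.pow 2))
  have hsq : ContDiff ℝ ∞ (fun z : V3 => (((z 2) ^ 2 : ℝ) : ℂ)) :=
    Complex.ofRealCLM.contDiff.comp (h2.pow 2)
  have hη : ContDiff ℝ ∞ (fun z : V3 => (A 0 0 * (⟨z 0, z 1⟩ : ℂ) + A 0 1) *
      (starRingEnd ℂ) (A 1 0 * (⟨z 0, z 1⟩ : ℂ) + A 1 1)
      + A 0 0 * (starRingEnd ℂ) (A 1 0) * (((z 2) ^ 2 : ℝ) : ℂ)) :=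
    (((contDiff_const.mul hζ).add contDiff_const).mul hWc).add (contDiff_const.mul hsq)
  have hne := act_smooth_pos A hA
  rw [contDiffOn_pi]
  intro i
  fin_cases i
  · exact (hre _ hη).contDiffOn.div hN.contDiffOn hne
  · exact (him _ hη).contDiffOn.div hN.contDiffOn hne
  · exact h2.contDiffOn.div hN.contDiffOn hne

end Pool.Agent.BL.ActSm
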