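import Pool.Agent.BL.Defs
import Pool.Agent.BL.ActAlg
import Pool.Agent.BL.ActSm
import Pool.Agent.BL.ActCh

set_option autoImplicit false
open Set Filter Topology MeasureTheory
open scoped ContDiff


namespace Pool.Agent.BL.ActDer
open Pool.Agent.BL
open Pool.Agent.BL.ActAlg (act_mem)
open Pool.Agent.BL.ActSm (act_smooth)
open Pool.Agent.BL.ActCh (act_ch)

open Set Filter Topology MeasureTheory
open scoped ContDiff





/-! ## TARGET (prove this) -/

theorem act_deriv_diag (A : Matrix (Fin 2) (Fin 2) ℂ) (hA : A.det = 1) (z : V3) (hz : z ∈ U)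
    (v : V3) : dot (fderiv ℝ (act A) z v) (fderiv ℝ (act A) z v)
      = ((act A z) 2 / z 2) ^ 2 * dot v v := by
  have hUo : IsOpen U := isOpen_lt continuous_const (continuous_apply 2)
  have hd : DifferentiableAt ℝ (act A) z :=
    ((act_smooth A hA).contDiffAt (hUo.mem_nhds hz)).differentiableAt (by simp)
  have hline : HasDerivAt (fun h : ℝ => z + h • v) v 0 := by
    have h1 : HasDerivAt (fun h : ℝ => h • v) ((1 : ℝ) • v) 0 := (hasDerivAt_id (0:ℝ)).smul_const v
    rw [one_smul] at h1
    exact h1.const_add z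
  have hcomp : HasDerivAt (fun h : ℝ => act A (z + h • v)) (fderiv ℝ (act A) z v) 0 := by
    have h2 : HasFDerivAt (act A) (fderiv ℝ (act A) z) (z + (0:ℝ) • v) := by
      rw [zero_smul, add_zero]
      exact hd.hasFDerivAt
    exact h2.comp_hasDerivAt 0 hline
  rw [hasDerivAt_iff_tendsto_slope_zero] at hcomp
  simp only [zero_add, zero_smul, add_zero] at hcomp
  have hdotc : Continuous fun x : V3 => dot x x := by
    unfold dot
    fun_prop
  have hlim1 := (hdotc.tendsto _).comp hcomp
  have hz2 : 0 < z 2 := hz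
  have hAz : 0 < act A z 2 := act_mem A hA z hz
  have hcont : Tendsto (fun h : ℝ => act A (z + h • v)) (𝓝[≠] 0) (𝓝 (act A z)) := by
    have h1 : Tendsto (fun h : ℝ => z + h • v) (𝓝 0) (𝓝 (z + (0:ℝ) • v)) := hline.continuousAt
    rw [zero_smul, add_zero] at h1
    exact (hd.continuousAt.tendsto.comp h1).mono_left nhdsWithin_le_nhds
  have hcont2 : Tendsto (fun h : ℝ => z + h • v) (𝓝[≠] 0) (𝓝 z) := by
    have h1 : Tendsto (fun h : ℝ => z + h • v) (𝓝 0) (𝓝 (z + (0:ℝ) • v)) := hline.continuousAt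
    rw [zero_smul, add_zero] at h1
    exact h1.mono_left nhdsWithin_le_nhds
  have hlim2 : Tendsto (fun h : ℝ => act A z 2 * act A (z + h • v) 2 / (z 2 * (z + h • v) 2)
      * dot v v) (𝓝[≠] 0) (𝓝 (act A z 2 * act A z 2 / (z 2 * z 2) * dot v v)) := by
    refine Tendsto.mul ?_ tendsto_const_nhds
    refine Tendsto.div (tendsto_const_nhds.mul ?_) (tendsto_const_nhds.mul ?_) (by positivity)
    · exact ((continuous_apply 2).tendsto (act A z)).comp hcont
    · exact ((continuous_apply 2).tendsto z).comp hcont2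
  have heq : ∀ᶠ h : ℝ in 𝓝[≠] 0, ((fun x : V3 => dot x x) ∘ fun h : ℝ =>
        h⁻¹ • (act A (z + h • v) - act A z)) h
      = act A z 2 * act A (z + h • v) 2 / (z 2 * (z + h • v) 2) * dot v v := by
    filter_upwards [hcont2.eventually (hUo.mem_nhds hz), self_mem_nhdsWithin] with h hU hne
    have hne' : h ≠ 0 := hne
    have hw : 0 < (z + h • v) 2 := hU
    have hAw : 0 < act A (z + h • v) 2 := act_mem A hA _ hU
    have hch := act_ch A hA z (z + h • v) hz hU
    unfold ch at hch
    have hch2 : ((act A (z + h • v) 0 - act A z 0) ^ 2 + (act A (z + h • v) 1 - act A z 1) ^ 2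
        + (act A (z + h • v) 2 - act A z 2) ^ 2) / (2 * act A z 2 * act A (z + h • v) 2)
        = (((z + h • v) 0 - z 0) ^ 2 + ((z + h • v) 1 - z 1) ^ 2 + ((z + h • v) 2 - z 2) ^ 2)
          / (2 * z 2 * (z + h • v) 2) := by linarith
    have e0 : ((z + h • v) 0 - z 0) ^ 2 + ((z + h • v) 1 - z 1) ^ 2 + ((z + h • v) 2 - z 2) ^ 2
        = h ^ 2 * dot v v := by
      simp only [Pi.add_apply, Pi.smul_apply, smul_eq_mul, dot]
      ring
    rw [e0] at hch2
    rw [div_eq_div_iff (by positivity) (by positivity)] at hch2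
    have e1 : ((fun x : V3 => dot x x) ∘ fun h : ℝ =>
        h⁻¹ • (act A (z + h • v) - act A z)) h
        = (h⁻¹) ^ 2 * ((act A (z + h • v) 0 - act A z 0) ^ 2 + (act A (z + h • v) 1 - act A z 1) ^ 2
        + (act A (z + h • v) 2 - act A z 2) ^ 2) := by
      simp only [Function.comp_apply, dot, Pi.smul_apply, Pi.sub_apply, smul_eq_mul]
      ring
    rw [e1]
    set N := (act A (z + h • v) 0 - act A z 0) ^ 2 + (act A (z + h • v) 1 - act A z 1) ^ 2
        + (act A (z + h • v) 2 - act A z 2) ^ 2 with hN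
    have e2 : N = h ^ 2 * dot v v * (act A z 2 * act A (z + h • v) 2) / (z 2 * (z + h • v) 2) := by
      rw [eq_div_iff (by positivity)]
      linarith
    rw [e2]
    field_simp
  have hlim3 := hlim1.congr' heq
  have := tendsto_nhds_unique hlim3 hlim2
  rw [this]
  field_simp

theorem act_deriv (A : Matrix (Fin 2) (Fin 2) ℂ) (hA : A.det = 1) (z : V3) (hz : z ∈ U)
    (v w : V3) : dot (fderiv ℝ (act A) z v) (fderiv ℝ (act A) z w)
      = ((act A z) 2 / z 2) ^ 2 * dot v w := by
  have h1 := act_deriv_diag A hA z hz (v + w)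
  have h2 := act_deriv_diag A hA z hz (v - w)
  rw [map_add] at h1
  rw [map_sub] at h2
  have e1 : ∀ a b : V3, dot (a + b) (a + b) - dot (a - b) (a - b) = 4 * dot a b := by
    intro a b
    simp only [dot, Pi.add_apply, Pi.sub_apply]
    ring
  have h3 := e1 (fderiv ℝ (act A) z v) (fderiv ℝ (act A) z w)
  have h4 := e1 v w
  rw [h1, h2, ← mul_sub, h4] at h3
  linarith


end Pool.Agent.BL.ActDer

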