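import Pool.Agent.BL.Defs

set_option autoImplicit false
open Set Filter Topology MeasureTheory
open scoped ContDiff


namespace Pool.Agent.BL.VisB
open Pool.Agent.BL

open Set Filter Topology MeasureTheory
open scoped ContDiff

/-! ## TARGET (prove this) -/

theorem gp_nonneg {α : Type} (d : α → α → ℝ) (hpm : PM d) (o x y : α) : 0 ≤ gp d o x y := by
  have h1 := hpm.tri x o y
  have h2 := hpm.symm x o
  unfold gp
  linarith

theorem h400_exp_mem {α : Type} (d : α → α → ℝ) (hpm : PM d) (o x y : α) :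
    0 ≤ Real.exp (-(gp d o x y)) ∧ Real.exp (-(gp d o x y)) ≤ 1 := by
  refine ⟨(Real.exp_pos _).le, ?_⟩
  rw [Real.exp_le_one_iff]
  linarith [gp_nonneg d hpm o x y]

theorem h400_bdd {α : Type} (d : α → α → ℝ) (hpm : PM d) (o : α) (x y : ℕ → α) :
    IsBoundedUnder (· ≤ ·) atTop (fun n => Real.exp (-(gp d o (x n) (y n)))) :=
  isBoundedUnder_of ⟨1, fun n => (h400_exp_mem d hpm o _ _).2⟩

theorem h400_cobdd {α : Type} (d : α → α → ℝ) (hpm : PM d) (o : α) (x y : ℕ → α) :
    IsCoboundedUnder (· ≤ ·) atTop (fun n => Real.exp (-(gp d o (x n) (y n)))) := by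
  have h : IsBoundedUnder (· ≥ ·) atTop (fun n => Real.exp (-(gp d o (x n) (y n)))) :=
    isBoundedUnder_of ⟨0, fun n => (h400_exp_mem d hpm o _ _).1⟩
  exact h.isCoboundedUnder_le

theorem h400_limsup_nonneg {α : Type} (d : α → α → ℝ) (hpm : PM d) (o : α) (x y : ℕ → α) :
    0 ≤ limsup (fun n => Real.exp (-(gp d o (x n) (y n)))) atTop := by
  apply le_limsup_of_frequently_le _ (h400_bdd d hpm o x y)
  exact Frequently.of_forall (fun n => (h400_exp_mem d hpm o _ _).1)

theorem h400_limsup_le {α : Type} (d : α → α → ℝ) (hpm : PM d) (o : α) (x y : ℕ → α) :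
    limsup (fun n => Real.exp (-(gp d o (x n) (y n)))) atTop ≤ 1 := by
  apply limsup_le_of_le (h400_cobdd d hpm o x y)
  exact Eventually.of_forall (fun n => (h400_exp_mem d hpm o _ _).2)

theorem vis_nonneg {α : Type} (d : α → α → ℝ) (hpm : PM d) (o : α) (ξ η : Bdry d o) :
    0 ≤ vis d o ξ η := by
  unfold vis
  apply Real.sSup_nonneg
  rintro r ⟨x, y, _, _, rfl⟩
  exact h400_limsup_nonneg d hpm o _ _

theorem vis_ge {α : Type} (d : α → α → ℝ) (hpm : PM d) (o : α)
    (x y : {x : ℕ → α // Conv d o x}) (K : ℝ) (h : ∃ᶠ n in atTop, gp d o (x.1 n) (y.1 n) ≤ K) :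
    Real.exp (-K) ≤ vis d o (Bdry.mk x) (Bdry.mk y) := by
  have h1 : Real.exp (-K) ≤ limsup (fun n => Real.exp (-(gp d o (x.1 n) (y.1 n)))) atTop := by
    apply le_limsup_of_frequently_le _ (h400_bdd d hpm o _ _)
    refine h.mono (fun n hn => ?_)
    exact Real.exp_le_exp.mpr (by linarith)
  refine h1.trans ?_
  unfold vis
  apply le_csSup
  · refine ⟨1, ?_⟩
    rintro r ⟨x', y', _, _, rfl⟩
    exact h400_limsup_le d hpm o _ _
  · exact ⟨x, y, rfl, rfl, rfl⟩

end Pool.Agent.BL.VisB
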