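import Pool.Agent.BL.Defs
import Pool.Agent.BL.VisB

set_option autoImplicit false
open Set Filter Topology MeasureTheory
open scoped ContDiff


namespace Pool.Agent.BL.BEq
open Pool.Agent.BL
open Pool.Agent.BL.VisB (gp_nonneg vis_nonneg)

open Set Filter Topology MeasureTheory
open scoped ContDiff




/-! ## TARGET (prove this) -/

theorem lim_nonneg (u : ℕ → ℝ) (h0 : ∀ n, 0 ≤ u n) (h1 : ∀ n, u n ≤ 1) :
    0 ≤ limsup u atTop := by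
  apply le_limsup_of_le
  · exact isBoundedUnder_of ⟨1, h1⟩
  · intro b hb
    obtain ⟨n, hn⟩ := hb.exists
    exact (h0 n).trans hn

theorem lim_le_one (u : ℕ → ℝ) (h0 : ∀ n, 0 ≤ u n) (h1 : ∀ n, u n ≤ 1) :
    limsup u atTop ≤ 1 := by
  apply limsup_le_of_le
  · exact (isBoundedUnder_of (r := (· ≥ ·)) ⟨0, h0⟩).isCoboundedUnder_le
  · exact Eventually.of_forall h1

theorem lim_le (u1 u2 : ℕ → ℝ) (h1 : ∀ n, 0 ≤ u1 n) (h1' : ∀ n, u1 n ≤ 1) (h2 : ∀ n, 0 ≤ u2 n)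
    (K p : ℝ) (hK : 0 < K) (hp : 0 < p) (h : ∀ n, u2 n ≤ K * (u1 n) ^ p) :
    limsup u2 atTop ≤ K * (limsup u1 atTop) ^ p := by
  have hcont : Tendsto (fun v : ℝ => K * v ^ p) (𝓝[>] (limsup u1 atTop))
      (𝓝 (K * (limsup u1 atTop) ^ p)) := by
    have hc : Continuous (fun v : ℝ => K * v ^ p) :=
      continuous_const.mul (Real.continuous_rpow_const hp.le)
    exact (hc.tendsto _).mono_left nhdsWithin_le_nhds
  apply ge_of_tendsto hcont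
  filter_upwards [self_mem_nhdsWithin] with v hv
  have h3 := eventually_lt_of_limsup_lt (f := atTop) (u := u1) hv (isBoundedUnder_of ⟨1, h1'⟩)
  apply limsup_le_of_le
  · exact (isBoundedUnder_of (r := (· ≥ ·)) ⟨0, h2⟩).isCoboundedUnder_le
  · filter_upwards [h3] with n hn
    exact (h n).trans (mul_le_mul_of_nonneg_left
      (Real.rpow_le_rpow (h1 n) hn.le hp.le) hK.le)

theorem vis_le {α : Type} (d1 d2 : α → α → ℝ) (pm1 : PM d1) (pm2 : PM d2) (o : α)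
    (A1 C1 : ℝ) (hA1 : 0 < A1) (h12 : ∀ x y, gp d1 o x y ≤ A1 * gp d2 o x y + C1)
    (ξ1 η1 : Bdry d1 o) (ξ2 η2 : Bdry d2 o)
    (hξ : ∀ x : {x : ℕ → α // Conv d2 o x}, Bdry.mk x = ξ2 →
      ∃ x' : {x : ℕ → α // Conv d1 o x}, x'.1 = x.1 ∧ Bdry.mk x' = ξ1)
    (hη : ∀ x : {x : ℕ → α // Conv d2 o x}, Bdry.mk x = η2 →
      ∃ x' : {x : ℕ → α // Conv d1 o x}, x'.1 = x.1 ∧ Bdry.mk x' = η1) :
    vis d2 o ξ2 η2 ≤ Real.exp (C1 / A1) * (vis d1 o ξ1 η1) ^ (1 / A1) := by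
  have hexp0 : ∀ (d : α → α → ℝ) (x y : ℕ → α), ∀ n, 0 ≤ Real.exp (-(gp d o (x n) (y n))) :=
    fun d x y n => (Real.exp_pos _).le
  have hexp1 : ∀ (d : α → α → ℝ), PM d → ∀ (x y : ℕ → α), ∀ n,
      Real.exp (-(gp d o (x n) (y n))) ≤ 1 := by
    intro d hd x y n
    rw [Real.exp_le_one_iff]
    have := gp_nonneg d hd o (x n) (y n)
    linarith
  have hv1 := vis_nonneg d1 pm1 o ξ1 η1
  conv_lhs => unfold vis
  apply Real.sSup_le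
  · rintro r ⟨x, y, hx, hy, rfl⟩
    obtain ⟨x', hx', hx1⟩ := hξ x hx
    obtain ⟨y', hy', hy1⟩ := hη y hy
    have hs := lim_nonneg (fun n => Real.exp (-(gp d1 o (x'.1 n) (y'.1 n))))
      (hexp0 d1 x'.1 y'.1) (hexp1 d1 pm1 x'.1 y'.1)
    have h1 : limsup (fun n => Real.exp (-(gp d1 o (x'.1 n) (y'.1 n)))) atTop ≤
        vis d1 o ξ1 η1 := by
      unfold vis
      apply le_csSup
      · refine ⟨1, ?_⟩
        rintro r ⟨a, b, _, _, rfl⟩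
        exact lim_le_one _ (hexp0 d1 a.1 b.1) (hexp1 d1 pm1 a.1 b.1)
      · exact ⟨x', y', hx1, hy1, rfl⟩
    have h2 := lim_le (fun n => Real.exp (-(gp d1 o (x'.1 n) (y'.1 n))))
      (fun n => Real.exp (-(gp d2 o (x.1 n) (y.1 n)))) (hexp0 d1 x'.1 y'.1)
      (hexp1 d1 pm1 x'.1 y'.1) (hexp0 d2 x.1 y.1) (Real.exp (C1 / A1)) (1 / A1)
      (Real.exp_pos _) (by positivity) (by
        intro n
        rw [← Real.exp_mul, ← Real.exp_add, Real.exp_le_exp, hx', hy']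
        have h3 := h12 (x.1 n) (y.1 n)
        have h4 : gp d1 o (x.1 n) (y.1 n) / A1 ≤ gp d2 o (x.1 n) (y.1 n) + C1 / A1 := by
          rw [div_le_iff₀ hA1, add_mul, div_mul_cancel₀ _ hA1.ne']
          linarith
        have h5 : -gp d1 o (x.1 n) (y.1 n) * (1 / A1) = -(gp d1 o (x.1 n) (y.1 n) / A1) := by
          ring
        rw [h5]
        linarith)
    exact h2.trans (mul_le_mul_of_nonneg_left
      (Real.rpow_le_rpow hs h1 (by positivity)) (Real.exp_pos _).le)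
  · exact mul_nonneg (Real.exp_pos _).le (Real.rpow_nonneg hv1 _)

theorem tend_of {α β : Type} (d1 d2 : α → α → ℝ) (o : α) (A1 C1 : ℝ) (hA1 : 0 < A1)
    (h12 : ∀ x y, gp d1 o x y ≤ A1 * gp d2 o x y + C1) (F : Filter β) (x y : β → α)
    (h : Tendsto (fun b => gp d1 o (x b) (y b)) F atTop) :
    Tendsto (fun b => gp d2 o (x b) (y b)) F atTop := by
  have h1 : Tendsto (fun b => (gp d1 o (x b) (y b) + -C1) / A1) F atTop :=
    (tendsto_atTop_add_const_right _ _ h).atTop_div_const hA1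
  apply tendsto_atTop_mono _ h1
  intro b
  rw [div_le_iff₀ hA1]
  have := h12 (x b) (y b)
  linarith

theorem bdry_equiv {α : Type} (d1 d2 : α → α → ℝ) (pm1 : PM d1) (pm2 : PM d2) (o : α)
    (A1 A2 C1 C2 : ℝ) (hA1 : 0 < A1) (hA2 : 0 < A2)
    (h12 : ∀ x y, gp d1 o x y ≤ A1 * gp d2 o x y + C1)
    (h21 : ∀ x y, gp d2 o x y ≤ A2 * gp d1 o x y + C2) :
    ∃ e : Bdry d1 o ≃ Bdry d2 o,
      (∀ (x : ℕ → α) (h1 : Conv d1 o x) (h2 : Conv d2 o x),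
        e (Bdry.mk ⟨x, h1⟩) = Bdry.mk ⟨x, h2⟩) ∧
      (∃ K : ℝ, 0 < K ∧ ∀ ξ η, vis d2 o (e ξ) (e η) ≤ K * (vis d1 o ξ η) ^ (1 / A1)) ∧
      (∃ K : ℝ, 0 < K ∧ ∀ ξ η, vis d1 o ξ η ≤ K * (vis d2 o (e ξ) (e η)) ^ (1 / A2)) := by
  have c12 : ∀ x : ℕ → α, Conv d1 o x → Conv d2 o x := fun x h =>
    tend_of d1 d2 o A1 C1 hA1 h12 _ (fun p : ℕ × ℕ => x p.1) (fun p : ℕ × ℕ => x p.2) h
  have c21 : ∀ x : ℕ → α, Conv d2 o x → Conv d1 o x := fun x h =>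
    tend_of d2 d1 o A2 C2 hA2 h21 _ (fun p : ℕ × ℕ => x p.1) (fun p : ℕ × ℕ => x p.2) h
  obtain ⟨e, he⟩ : ∃ e : Bdry d1 o ≃ Bdry d2 o,
      ∀ (x : ℕ → α) (h1 : Conv d1 o x) (h2 : Conv d2 o x),
        e (Bdry.mk ⟨x, h1⟩) = Bdry.mk ⟨x, h2⟩ :=
    ⟨{ toFun := Quot.map (fun x => ⟨x.1, c12 x.1 x.2⟩) (fun x y h =>
          tend_of d1 d2 o A1 C1 hA1 h12 _ x.1 y.1 h)
       invFun := Quot.map (fun x => ⟨x.1, c21 x.1 x.2⟩) (fun x y h =>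
          tend_of d2 d1 o A2 C2 hA2 h21 _ x.1 y.1 h)
       left_inv := by
        intro ξ
        induction ξ using Quot.ind
        rfl
       right_inv := by
        intro ξ
        induction ξ using Quot.ind
        rfl }, fun _ _ _ => rfl⟩
  have hk2 : ∀ (ξ : Bdry d1 o) (x : {x : ℕ → α // Conv d2 o x}), Bdry.mk x = e ξ →
      ∃ x' : {x : ℕ → α // Conv d1 o x}, x'.1 = x.1 ∧ Bdry.mk x' = ξ := by
    intro ξ x hx
    refine ⟨⟨x.1, c21 x.1 x.2⟩, rfl, ?_⟩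
    apply e.injective
    rw [he x.1 (c21 x.1 x.2) x.2]
    exact hx
  have hk1 : ∀ (ξ : Bdry d1 o) (x : {x : ℕ → α // Conv d1 o x}), Bdry.mk x = ξ →
      ∃ x' : {x : ℕ → α // Conv d2 o x}, x'.1 = x.1 ∧ Bdry.mk x' = e ξ := by
    intro ξ x hx
    refine ⟨⟨x.1, c12 x.1 x.2⟩, rfl, ?_⟩
    rw [← he x.1 x.2 (c12 x.1 x.2), ← hx]
  refine ⟨e, he, ⟨Real.exp (C1 / A1), Real.exp_pos _, fun ξ η => ?_⟩,
    ⟨Real.exp (C2 / A2), Real.exp_pos _, fun ξ η => ?_⟩⟩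
  · exact vis_le d1 d2 pm1 pm2 o A1 C1 hA1 h12 ξ η (e ξ) (e η) (hk2 ξ) (hk2 η)
  · exact vis_le d2 d1 pm2 pm1 o A2 C2 hA2 h21 (e ξ) (e η) ξ η (hk1 ξ) (hk1 η)

end Pool.Agent.BL.BEq
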