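import Pool.Agent.BL.Defs

set_option autoImplicit false
open Set Filter Topology MeasureTheory
open scoped ContDiff


namespace Pool.Agent.BL.Center
open Pool.Agent.BL

open Set Filter Topology MeasureTheory
open scoped ContDiff

/-! ## TARGET (prove this) -/

theorem center {α : Type} (d : α → α → ℝ) (hpm : PM d) (δ : ℝ) (hyp : Hyp d δ) (geo : Geod d) :
    ∃ K : ℝ, 0 ≤ K ∧ ∀ o x y, ∃ z, d x z + d z y = d x y ∧ d o z + d z x ≤ d o x + K ∧
      d o z + d z y ≤ d o y + K := by
  refine ⟨2 * |δ|, by positivity, fun o x y => ?_⟩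
  have h1 := hpm.tri o x y
  have h2 := hpm.tri x y o
  have s1 := hpm.symm x o
  have s2 := hpm.symm y o
  obtain ⟨z, hz1, hz2⟩ := geo x y ((d o x + d x y - d o y) / 2) (by linarith) (by linarith)
  have h3 := hyp o z x y
  have s3 := hpm.symm z x
  have h4 : max (d o x + d z y) (d o y + d z x) = d o y + (d o x + d x y - d o y) / 2 := by
    rw [s3, hz1, hz2, max_eq_right (by linarith)]
  rw [h4] at h3
  have h5 := le_abs_self δ
  refine ⟨z, by linarith, by linarith, by linarith⟩

end Pool.Agent.BL.Center
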