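import Pool.Agent.BL.Defs

set_option autoImplicit false
open Set Filter Topology MeasureTheory
open scoped ContDiff


namespace Pool.Agent.BL.ChNear
open Pool.Agent.BL

open Set Filter Topology MeasureTheory
open scoped ContDiff

theorem hyp_gp {α : Type} (d : α → α → ℝ) (hpm : PM d) (δ : ℝ) (hyp : Hyp d δ) (x y w z : α) :
    min (gp d z x y) (gp d z y w) ≤ gp d z x w + δ := by
  have h := hyp x w y z
  unfold gp
  have h1 := hpm.symm w z
  have h2 := hpm.symm x z
  have h3 := hpm.symm w y
  have h4 := hpm.symm y z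
  rcases le_total (d x y + d w z) (d x z + d w y) with h5 | h5
  · rw [max_eq_right h5] at h
    refine (min_le_right _ _).trans ?_
    linarith
  · rw [max_eq_left h5] at h
    refine (min_le_left _ _).trans ?_
    linarith

theorem chain_aux {α : Type} (d : α → α → ℝ) (hpm : PM d) (δ : ℝ) (hyp : Hyp d δ) (z : α) (m : ℕ) :
    ∀ (k : ℕ) (q : ℕ → α), 0 < k → k ≤ 2 ^ m →
      ∃ i < k, gp d z (q i) (q (i + 1)) ≤ gp d z (q 0) (q k) + δ * m := by
  have hδ : 0 ≤ δ := by
    have h := hyp z z z z
    rw [hpm.self z, max_self] at h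
    linarith
  induction m with
  | zero =>
    intro k q hk hk2
    have h1 : k = 1 := by
      rw [pow_zero] at hk2
      omega
    subst h1
    refine ⟨0, by norm_num, ?_⟩
    simp
  | succ m ih =>
    intro k q hk hk2
    by_cases h1 : k = 1
    · subst h1
      refine ⟨0, by norm_num, ?_⟩
      have : 0 ≤ δ * ((m + 1 : ℕ) : ℝ) := by positivity
      simp only [zero_add]
      linarith
    · have h2 : 0 < k / 2 := by omega
      have h3 : k / 2 ≤ 2 ^ m := by
        rw [pow_succ] at hk2
        omega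
      have h4 : 0 < k - k / 2 := by omega
      have h5 : k - k / 2 ≤ 2 ^ m := by
        rw [pow_succ] at hk2
        omega
      have h6 := hyp_gp d hpm δ hyp (q 0) (q (k / 2)) (q k) z
      rcases min_le_iff.1 h6 with h7 | h7
      · obtain ⟨i, hi, hi2⟩ := ih (k / 2) q h2 h3
        refine ⟨i, by omega, ?_⟩
        push_cast
        linarith
      · obtain ⟨i, hi, hi2⟩ := ih (k - k / 2) (fun i => q (k / 2 + i)) h4 h5
        refine ⟨k / 2 + i, by omega, ?_⟩
        have h8 : k / 2 + (k - k / 2) = k := by omega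
        simp only [add_zero, h8] at hi2
        rw [add_assoc]
        push_cast
        linarith

/-! ## TARGET (prove this) -/

/-- a chain with steps at most `1` passes close to every point `z`, in terms of the Gromov product
of its ends at `z` -/
theorem chain_near {α : Type} (d : α → α → ℝ) (hpm : PM d) (δ : ℝ) (hyp : Hyp d δ) (s : ℝ)
    (hs : 0 ≤ s) (k : ℕ) (q : ℕ → α) (hk : 0 < k) (hq : ∀ i < k, d (q i) (q (i + 1)) ≤ s) (z : α) :
    ∃ i ≤ k, d z (q i) ≤ gp d z (q 0) (q k) + δ * (Nat.log 2 k + 1) + s := by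
  obtain ⟨i, hi, hi2⟩ := chain_aux d hpm δ hyp z (Nat.log 2 k + 1) k q hk
    (Nat.lt_pow_succ_log_self (by norm_num) k).le
  refine ⟨i, hi.le, ?_⟩
  have h1 := hq i hi
  have h2 := hpm.tri z (q (i + 1)) (q i)
  have h3 := hpm.symm (q (i + 1)) (q i)
  have h4 : gp d z (q i) (q (i + 1)) = (d z (q i) + d z (q (i + 1)) - d (q i) (q (i + 1))) / 2 := rfl
  push_cast at hi2
  linarith

end Pool.Agent.BL.ChNear
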