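import Pool.Agent.BL.Defs
import Pool.Agent.BL.ChNear

set_option autoImplicit false
open Set Filter Topology MeasureTheory
open scoped ContDiff


namespace Pool.Agent.BL.Morse
open Pool.Agent.BL
open Pool.Agent.BL.ChNear (chain_near)

open Set Filter Topology MeasureTheory
open scoped ContDiff



/-! ## TARGET (prove this) -/

theorem morse_nonneg {α : Type} {d : α → α → ℝ} (hpm : PM d) (x y : α) : 0 ≤ d x y := by
  have h1 := hpm.tri x y x
  have h2 := hpm.self x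
  have h3 := hpm.symm x y
  linarith

theorem morse_tri {α : Type} {d : α → α → ℝ} (hpm : PM d) (q : ℕ → α) (a b : ℕ) (hab : a ≤ b) :
    d (q a) (q b) ≤ ∑ i ∈ Finset.Ico a b, d (q i) (q (i + 1)) := by
  induction b, hab using Nat.le_induction with
  | base => rw [Finset.Ico_self, Finset.sum_empty, hpm.self]
  | succ b hab ih =>
    rw [Finset.sum_Ico_succ_top hab]
    exact (hpm.tri _ (q b) _).trans (add_le_add ih le_rfl)

theorem morse_greedy (l : ℕ → ℝ) (a b : ℕ) (hab : a ≤ b) (h1 : ∀ i, a ≤ i → i < b → l i ≤ 1) :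
    ∃ (n c : ℕ) (p : ℕ → ℕ), p 0 = a ∧ p n = c ∧ a ≤ c ∧ c ≤ b ∧ (∀ j ≤ n, p j ≤ b) ∧
      (∀ j < n, p j ≤ p (j + 1) ∧ ∑ i ∈ Finset.Ico (p j) (p (j + 1)), l i ≤ 2) ∧
      ∑ i ∈ Finset.Ico c b, l i ≤ 1 ∧ (n : ℝ) ≤ ∑ i ∈ Finset.Ico a c, l i := by
  induction b, hab using Nat.le_induction with
  | base =>
    refine ⟨0, a, fun _ => a, rfl, rfl, le_rfl, le_rfl, fun _ _ => le_rfl,
      fun j hj => absurd hj (Nat.not_lt_zero j), ?_, ?_⟩
    · rw [Finset.Ico_self, Finset.sum_empty]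
      exact zero_le_one
    · rw [Finset.Ico_self, Finset.sum_empty, Nat.cast_zero]
  | succ b hab ih =>
    obtain ⟨n, c, p, hp0, hpn, hac, hcb, hpb, hst, hlast, hn⟩ :=
      ih (fun i hi hi' => h1 i hi (by omega))
    by_cases hcase : ∑ i ∈ Finset.Ico c (b + 1), l i ≤ 1
    · exact ⟨n, c, p, hp0, hpn, hac, by omega, fun j hj => (hpb j hj).trans (by omega), hst,
        hcase, hn⟩
    · have hcase' : 1 < ∑ i ∈ Finset.Ico c (b + 1), l i := not_le.1 hcase
      have hsum : ∑ i ∈ Finset.Ico c (b + 1), l i ≤ 2 := by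
        rw [Finset.sum_Ico_succ_top hcb]
        have := h1 b hab (by omega)
        linarith
      refine ⟨n + 1, b + 1, Function.update p (n + 1) (b + 1), ?_, ?_, by omega, le_rfl, ?_, ?_,
        ?_, ?_⟩
      · rw [Function.update_of_ne (by omega)]
        exact hp0
      · rw [Function.update_self]
      · intro j hj
        rcases Nat.lt_or_ge n j with h | h
        · have : j = n + 1 := by omega
          rw [this, Function.update_self]
        · rw [Function.update_of_ne (by omega)]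
          exact (hpb j h).trans (by omega)
      · intro j hj
        rcases Nat.lt_or_ge j n with h | h
        · rw [Function.update_of_ne (by omega : j ≠ n + 1),
            Function.update_of_ne (by omega : j + 1 ≠ n + 1)]
          exact hst j h
        · have hjn : j = n := by omega
          rw [hjn, Function.update_of_ne (by omega : n ≠ n + 1), Function.update_self, hpn]
          exact ⟨by omega, hsum⟩
      · rw [Finset.Ico_self, Finset.sum_empty]
        exact zero_le_one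
      · rw [← Finset.sum_Ico_consecutive l hac (by omega : c ≤ b + 1)]
        push_cast
        linarith

theorem morse_sum {α : Type} {d' : α → α → ℝ} (hpm : PM d') (k : ℕ) (q : ℕ → α)
    (hsum : ∑ i ∈ Finset.range k, d' (q i) (q (i + 1)) ≤ d' (q 0) (q k) + 1)
    (a b : ℕ) (hab : a ≤ b) (hb : b ≤ k) :
    ∑ i ∈ Finset.Ico a b, d' (q i) (q (i + 1)) ≤ d' (q a) (q b) + 1 := by
  have h1 : ∑ i ∈ Finset.range k, d' (q i) (q (i + 1)) =
      ∑ i ∈ Finset.Ico 0 a, d' (q i) (q (i + 1)) + ∑ i ∈ Finset.Ico a b, d' (q i) (q (i + 1)) +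
      ∑ i ∈ Finset.Ico b k, d' (q i) (q (i + 1)) := by
    rw [Finset.sum_Ico_consecutive _ (Nat.zero_le a) hab,
      Finset.sum_Ico_consecutive _ (Nat.zero_le b) hb, Finset.range_eq_Ico]
  have h2 := morse_tri hpm q 0 a (Nat.zero_le a)
  have h3 := morse_tri hpm q b k hb
  have h4 := hpm.tri (q 0) (q a) (q k)
  have h5 := hpm.tri (q a) (q b) (q k)
  linarith

theorem morse_sub {α : Type} (d : α → α → ℝ) (hpm : PM d) (δ : ℝ) (hyp : Hyp d δ)
    (L : ℝ) (hL : 1 ≤ L) (d' : α → α → ℝ) (hc : Comp d d' L) (k : ℕ) (q : ℕ → α)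
    (hs : ∀ i < k, d (q i) (q (i + 1)) ≤ 1)
    (hsum : ∑ i ∈ Finset.range k, d' (q i) (q (i + 1)) ≤ d' (q 0) (q k) + 1)
    (z0 : α) (R : ℝ) (h1 : ∀ i ≤ k, R ≤ d z0 (q i)) (a b : ℕ) (hab : a ≤ b) (hb : b ≤ k) :
    ∃ t : ℕ, R ≤ gp d z0 (q a) (q b) + δ * (t + 1) + 2 ∧
      (2 : ℝ) ^ t ≤ L * (L * d (q a) (q b) + 1) + 1 := by
  obtain ⟨n, c, p, hp0, hpn, hac, hcb, hpb, hst, hlast, hn⟩ :=
    morse_greedy (fun i => d (q i) (q (i + 1))) a b hab (fun i _ hi => hs i (by omega))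
  obtain ⟨p', hp'⟩ : ∃ p' : ℕ → ℕ, p' = Function.update p (n + 1) b := ⟨_, rfl⟩
  have hp'j : ∀ j ≤ n, p' j = p j := by
    intro j hj
    rw [hp', Function.update_of_ne (by omega)]
  have hp'n : p' (n + 1) = b := by rw [hp', Function.update_self]
  have hstep : ∀ j < n + 1, d (q (p' j)) (q (p' (j + 1))) ≤ 2 := by
    intro j hj
    rcases Nat.lt_or_ge j n with h | h
    · rw [hp'j j (by omega), hp'j (j + 1) (by omega)]
      exact (morse_tri hpm q _ _ (hst j h).1).trans (hst j h).2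
    · have hjn : j = n := by omega
      rw [hjn, hp'j n le_rfl, hp'n, hpn]
      have := (morse_tri hpm q c b hcb).trans hlast
      linarith
  obtain ⟨i, hi, hdi⟩ := chain_near d hpm δ hyp 2 (by norm_num) (n + 1) (fun j => q (p' j))
    (Nat.succ_pos n) hstep z0
  beta_reduce at hdi
  rw [hp'j 0 (Nat.zero_le n), hp'n, hp0] at hdi
  have hpk : p' i ≤ k := by
    rcases Nat.lt_or_ge n i with h | h
    · have : i = n + 1 := by omega
      rw [this, hp'n]
      exact hb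
    · rw [hp'j i h]
      exact (hpb i h).trans hb
  refine ⟨Nat.log 2 (n + 1), (h1 _ hpk).trans hdi, ?_⟩
  have h2 : 2 ^ Nat.log 2 (n + 1) ≤ n + 1 := Nat.pow_log_le_self 2 (Nat.succ_ne_zero n)
  have h3 : (2 : ℝ) ^ Nat.log 2 (n + 1) ≤ (n : ℝ) + 1 := by exact_mod_cast h2
  have h4 : ∑ i ∈ Finset.Ico a c, d (q i) (q (i + 1)) ≤
      ∑ i ∈ Finset.Ico a b, d (q i) (q (i + 1)) := by
    rw [← Finset.sum_Ico_consecutive _ hac hcb]
    have : 0 ≤ ∑ i ∈ Finset.Ico c b, d (q i) (q (i + 1)) :=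
      Finset.sum_nonneg fun i _ => morse_nonneg hpm _ _
    linarith
  have h5 : ∑ i ∈ Finset.Ico a b, d (q i) (q (i + 1)) ≤
      L * ∑ i ∈ Finset.Ico a b, d' (q i) (q (i + 1)) := by
    rw [Finset.mul_sum]
    exact Finset.sum_le_sum fun i _ => hc.lower _ _
  have h6 := morse_sum hc.pm k q hsum a b hab hb
  have h7 := hc.upper (q a) (q b)
  have h8 : L * ∑ i ∈ Finset.Ico a b, d' (q i) (q (i + 1)) ≤ L * (L * d (q a) (q b) + 1) :=
    mul_le_mul_of_nonneg_left (by linarith) (by linarith)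
  linarith

theorem morse_hyp {α : Type} {d : α → α → ℝ} (hpm : PM d) {δ : ℝ} (hyp : Hyp d δ) (o a b c : α) :
    min (gp d o a b) (gp d o b c) ≤ gp d o a c + δ := by
  have h := hyp a c o b
  have s1 := hpm.symm a o
  have s2 := hpm.symm c o
  have s3 := hpm.symm c b
  unfold gp
  rcases le_total (d a o + d c b) (d a b + d c o) with h1 | h1
  · rw [max_eq_right h1] at h
    refine (min_le_left _ _).trans ?_
    linarith
  · rw [max_eq_left h1] at h
    refine (min_le_right _ _).trans ?_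
    linarith

theorem morse_end {α : Type} (d : α → α → ℝ) (hpm : PM d) (geo : Geod d) (k : ℕ) (q : ℕ → α)
    (z0 x : α) (i0 : ℕ) (hi0 : i0 ≤ k) (hx : q i0 = x) (R : ℝ) (hR : 0 ≤ R)
    (h1 : ∀ i ≤ k, R ≤ d z0 (q i))
    (h2 : ∀ z, d x z + d z z0 = d x z0 → ∃ i ≤ k, d z (q i) ≤ R + 1) :
    ∃ y1, ∃ a ≤ k, d x y1 + d y1 z0 = d x z0 ∧ d y1 z0 ≤ 2 * (R + 1) ∧ d y1 (q a) ≤ R + 1 ∧
      R ≤ gp d z0 y1 (q a) := by
  rcases le_or_gt (d x z0) (2 * (R + 1)) with hcase | hcase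
  · refine ⟨x, i0, hi0, ?_, hcase, ?_, ?_⟩
    · rw [hpm.self, zero_add]
    · rw [hx, hpm.self]
      linarith
    · have h3 := h1 i0 hi0
      rw [hx] at h3 ⊢
      unfold gp
      rw [hpm.self]
      linarith
  · have hs := hpm.symm z0 x
    obtain ⟨y1, hy1, hy1'⟩ := geo z0 x (2 * (R + 1)) (by linarith) (by linarith)
    have s1 := hpm.symm z0 y1
    have s2 := hpm.symm y1 x
    have e1 : d x y1 + d y1 z0 = d x z0 := by linarith
    obtain ⟨a, ha, hda⟩ := h2 y1 e1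
    refine ⟨y1, a, ha, e1, by linarith, hda, ?_⟩
    have h3 := h1 a ha
    unfold gp
    linarith

theorem morse_core {α : Type} (d : α → α → ℝ) (hpm : PM d) (δ : ℝ) (hδ : 0 ≤ δ) (hyp : Hyp d δ)
    (geo : Geod d) (L : ℝ) (hL : 1 ≤ L) (d' : α → α → ℝ) (hc : Comp d d' L) (x y : α) (k : ℕ)
    (q : ℕ → α) (hq0 : q 0 = x) (hqk : q k = y) (hs : ∀ i < k, d (q i) (q (i + 1)) ≤ 1)
    (hsum : ∑ i ∈ Finset.range k, d' (q i) (q (i + 1)) ≤ d' x y + 1)
    (z0 : α) (hz0 : d x z0 + d z0 y = d x y) (R : ℝ) (hR : 0 ≤ R)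
    (h1 : ∀ i ≤ k, R ≤ d z0 (q i))
    (h2 : ∀ z, d x z + d z y = d x y → ∃ i ≤ k, d z (q i) ≤ R + 1) :
    ∃ t : ℕ, R ≤ δ * (t + 3) + 2 ∧ (2 : ℝ) ^ t ≤ L * (L * (6 * (R + 1)) + 1) + 1 := by
  obtain ⟨y1, a, ha, ea, la, da, ga⟩ := morse_end d hpm geo k q z0 x 0 (Nat.zero_le k) hq0 R hR h1
    (by
      intro z hz
      refine h2 z ?_
      have t1 := hpm.tri z z0 y
      have t2 := hpm.tri x z y
      linarith)
  obtain ⟨y2, b, hb, eb, lb, db, gb⟩ := morse_end d hpm geo k q z0 y k le_rfl hqk R hR h1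
    (by
      intro z hz
      refine h2 z ?_
      have t1 := hpm.tri x z0 z
      have t2 := hpm.tri x z y
      have s1 := hpm.symm z0 z
      have s2 := hpm.symm z0 y
      have s3 := hpm.symm y z
      linarith)
  have sy1 := hpm.symm y1 z0
  have sy2 := hpm.symm y2 z0
  have hg : gp d z0 y1 y2 ≤ 0 := by
    unfold gp
    have t1 := hpm.tri x y1 y
    have t2 := hpm.tri y1 y2 y
    have s1 := hpm.symm z0 y
    have s2 := hpm.symm y y2
    linarith
  have hdab : d (q a) (q b) ≤ 6 * (R + 1) := by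
    have t1 := hpm.tri (q a) y1 (q b)
    have t2 := hpm.tri y1 z0 (q b)
    have t3 := hpm.tri z0 y2 (q b)
    have s1 := hpm.symm (q a) y1
    linarith
  have hsum' : ∑ i ∈ Finset.range k, d' (q i) (q (i + 1)) ≤ d' (q 0) (q k) + 1 := by
    rw [hq0, hqk]
    exact hsum
  have key : ∃ t : ℕ, R ≤ gp d z0 (q a) (q b) + δ * (t + 1) + 2 ∧
      (2 : ℝ) ^ t ≤ L * (L * d (q a) (q b) + 1) + 1 := by
    rcases le_total a b with hab | hab
    · exact morse_sub d hpm δ hyp L hL d' hc k q hs hsum' z0 R h1 a b hab hb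
    · obtain ⟨t, ht1, ht2⟩ := morse_sub d hpm δ hyp L hL d' hc k q hs hsum' z0 R h1 b a hab ha
      refine ⟨t, ?_, ?_⟩
      · have : gp d z0 (q b) (q a) = gp d z0 (q a) (q b) := by
          unfold gp
          rw [hpm.symm (q b) (q a)]
          ring
        rw [this] at ht1
        exact ht1
      · rw [hpm.symm (q b) (q a)] at ht2
        exact ht2
  obtain ⟨t, ht1, ht2⟩ := key
  refine ⟨t, ?_, ?_⟩
  · have g1 := morse_hyp hpm hyp z0 y1 (q a) y2
    have g2 := morse_hyp hpm hyp z0 (q a) (q b) y2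
    have gb' : R ≤ gp d z0 (q b) y2 := by
      have : gp d z0 y2 (q b) = gp d z0 (q b) y2 := by
        unfold gp
        rw [hpm.symm y2 (q b)]
        ring
      rw [← this]
      exact gb
    have ht0 : (0 : ℝ) ≤ δ * t := mul_nonneg hδ (Nat.cast_nonneg t)
    rcases min_le_iff.1 g1 with h3 | h3
    · linarith [mul_add δ (t : ℝ) 3]
    · rcases min_le_iff.1 g2 with h4 | h4
      · linarith [mul_add δ (t : ℝ) 3, mul_add δ (t : ℝ) 1]
      · linarith [mul_add δ (t : ℝ) 3]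
  · refine ht2.trans ?_
    have h3 : L * d (q a) (q b) ≤ L * (6 * (R + 1)) :=
      mul_le_mul_of_nonneg_left hdab (by linarith)
    have h4 : L * (L * d (q a) (q b) + 1) ≤ L * (L * (6 * (R + 1)) + 1) :=
      mul_le_mul_of_nonneg_left (by linarith) (by linarith)
    linarith

theorem morse_bound (δ L : ℝ) : ∃ t0 : ℕ, ∀ t : ℕ,
    (2 : ℝ) ^ t ≤ L * (L * (6 * (δ * (t + 3) + 2 + 1)) + 1) + 1 → t ≤ t0 := by
  have l1 := tendsto_pow_const_div_const_pow_of_one_lt 1 (one_lt_two (α := ℝ))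
  have l0 := tendsto_pow_const_div_const_pow_of_one_lt 0 (one_lt_two (α := ℝ))
  have l2 := (l1.const_mul (6 * L * L * δ)).add (l0.const_mul (L * (L * (6 * (δ * 3 + 3)) + 1) + 1))
  rw [mul_zero, mul_zero, add_zero] at l2
  obtain ⟨T, hT⟩ := eventually_atTop.1 (l2.eventually_lt_const (zero_lt_one (α := ℝ)))
  refine ⟨T, fun t ht => ?_⟩
  by_contra hcon
  have h1 := hT t (by omega)
  have h2 : (0 : ℝ) < 2 ^ t := by positivity
  rw [pow_one, pow_zero, ← mul_div_assoc, ← mul_div_assoc, ← add_div, div_lt_one h2] at h1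
  nlinarith

theorem morse_max {α : Type} (d : α → α → ℝ) (hpm : PM d) (k : ℕ) (q : ℕ → α) (x y : α)
    (hq0 : q 0 = x) :
    ∃ z0, d x z0 + d z0 y = d x y ∧ ∃ R, 0 ≤ R ∧ (∀ i ≤ k, R ≤ d z0 (q i)) ∧
      ∀ z, d x z + d z y = d x y → ∃ i ≤ k, d z (q i) ≤ R + 1 := by
  have hne : (Finset.range (k + 1)).Nonempty := ⟨0, by simp⟩
  obtain ⟨D, hD⟩ : ∃ D : α → ℝ, D = fun z => (Finset.range (k + 1)).inf' hne
    (fun i => d z (q i)) := ⟨_, rfl⟩
  have hDle : ∀ z, ∀ i ≤ k, D z ≤ d z (q i) := by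
    intro z i hi
    rw [hD]
    exact Finset.inf'_le _ (Finset.mem_range.2 (by omega))
  have hDex : ∀ z, ∃ i ≤ k, D z = d z (q i) := by
    intro z
    obtain ⟨i, hi, he⟩ := Finset.exists_mem_eq_inf' hne (fun i => d z (q i))
    refine ⟨i, by have := Finset.mem_range.1 hi; omega, ?_⟩
    rw [hD]
    exact he
  have hSne : (D '' {z | d x z + d z y = d x y}).Nonempty :=
    ⟨D x, x, by change d x x + d x y = d x y; rw [hpm.self, zero_add], rfl⟩
  have hSb : BddAbove (D '' {z | d x z + d z y = d x y}) := by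
    refine ⟨d x y, ?_⟩
    rintro _ ⟨z, hz, rfl⟩
    have h1 := hDle z 0 (Nat.zero_le k)
    rw [hq0, hpm.symm z x] at h1
    have h2 : d x z + d z y = d x y := hz
    have h3 := morse_nonneg hpm z y
    linarith
  obtain ⟨_, ⟨z0, hz0, rfl⟩, hlt⟩ := exists_lt_of_lt_csSup hSne
    (sub_one_lt (sSup (D '' {z | d x z + d z y = d x y})))
  refine ⟨z0, hz0, D z0, ?_, hDle z0, fun z hz => ?_⟩
  · obtain ⟨i, _, he⟩ := hDex z0
    rw [he]
    exact morse_nonneg hpm _ _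
  · obtain ⟨i, hi, he⟩ := hDex z
    refine ⟨i, hi, ?_⟩
    rw [← he]
    have h1 : D z ≤ sSup (D '' {z | d x z + d z y = d x y}) := le_csSup hSb ⟨z, hz, rfl⟩
    linarith

/-- the Morse lemma -/
theorem morse {α : Type} (d : α → α → ℝ) (hpm : PM d) (δ : ℝ) (hyp : Hyp d δ) (geo : Geod d)
    (lam : ℝ) : ∃ C : ℝ, 0 ≤ C ∧ ∀ d' : α → α → ℝ, Comp d d' lam → ∀ x y z,
      d x z + d z y = d x y → d' x z + d' z y ≤ d' x y + C := by
  by_cases hα : Nonempty α
  swap
  · exact ⟨0, le_rfl, fun d' _ x => absurd ⟨x⟩ hα⟩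
  obtain ⟨o⟩ := hα
  have hδ : 0 ≤ δ := by
    have h := hyp o o o o
    rw [hpm.self, max_self] at h
    linarith
  obtain ⟨L, hLd⟩ : ∃ L : ℝ, L = max lam 1 := ⟨_, rfl⟩
  have hL : 1 ≤ L := by
    rw [hLd]
    exact le_max_right _ _
  have hlL : lam ≤ L := by
    rw [hLd]
    exact le_max_left _ _
  obtain ⟨t0, ht0⟩ := morse_bound δ L
  have hC0 : 0 ≤ δ * ((t0 : ℝ) + 3) := mul_nonneg hδ (by positivity)
  have hC1 : 0 ≤ 2 * L * (δ * ((t0 : ℝ) + 3) + 2 + 1) :=
    mul_nonneg (by linarith) (by linarith)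
  refine ⟨1 + 2 * L * (δ * ((t0 : ℝ) + 3) + 2 + 1), by linarith, ?_⟩
  intro d' hc x y z hz
  have hc' : Comp d d' L := by
    refine ⟨hc.pm, fun u v => (hc.lower u v).trans ?_, fun u v => (hc.upper u v).trans ?_,
      hc.chain⟩
    · exact mul_le_mul_of_nonneg_right hlL (morse_nonneg hc.pm u v)
    · exact mul_le_mul_of_nonneg_right hlL (morse_nonneg hpm u v)
  obtain ⟨k, q, hq0, hqk, hs, hsum⟩ := hc.chain x y
  obtain ⟨z0, hz0, R, hR0, hR1, hR2⟩ := morse_max d hpm k q x y hq0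
  obtain ⟨t, ht1, ht2⟩ := morse_core d hpm δ hδ hyp geo L hL d' hc' x y k q hq0 hqk hs hsum z0 hz0
    R hR0 hR1 hR2
  have ht : t ≤ t0 := by
    refine ht0 t (ht2.trans ?_)
    have h3 : L * (6 * (R + 1)) ≤ L * (6 * (δ * (t + 3) + 2 + 1)) :=
      mul_le_mul_of_nonneg_left (by linarith) (by linarith)
    have h4 : L * (L * (6 * (R + 1)) + 1) ≤ L * (L * (6 * (δ * (t + 3) + 2 + 1)) + 1) :=
      mul_le_mul_of_nonneg_left (by linarith) (by linarith)
    linarith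
  have hRb : R ≤ δ * ((t0 : ℝ) + 3) + 2 := by
    have h3 : (t : ℝ) ≤ t0 := by exact_mod_cast ht
    have h4 : δ * ((t : ℝ) + 3) ≤ δ * ((t0 : ℝ) + 3) :=
      mul_le_mul_of_nonneg_left (by linarith) hδ
    linarith
  obtain ⟨i, hi, hdi⟩ := hR2 z hz
  have e1 := morse_tri hc.pm q 0 i (Nat.zero_le i)
  have e2 := morse_tri hc.pm q i k hi
  have e3 : ∑ i ∈ Finset.range k, d' (q i) (q (i + 1)) =
      ∑ j ∈ Finset.Ico 0 i, d' (q j) (q (j + 1)) + ∑ j ∈ Finset.Ico i k, d' (q j) (q (j + 1)) := by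
    rw [Finset.sum_Ico_consecutive _ (Nat.zero_le i) hi, Finset.range_eq_Ico]
  rw [hq0] at e1
  rw [hqk] at e2
  have e4 := hc.pm.tri x (q i) z
  have e5 := hc.pm.tri z (q i) y
  have e6 := hc.pm.symm (q i) z
  have e7 := hc'.upper z (q i)
  have e8 : L * d z (q i) ≤ L * (δ * ((t0 : ℝ) + 3) + 2 + 1) :=
    mul_le_mul_of_nonneg_left (by linarith) (by linarith)
  linarith

end Pool.Agent.BL.Morse
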