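import Pool.Agent.BL.Defs
import Pool.Agent.BL.Morse

set_option autoImplicit false
open Set Filter Topology MeasureTheory
open scoped ContDiff


namespace Pool.Agent.BL.MorseN
open Pool.Agent.BL
open Pool.Agent.BL.Morse (morse)

open Set Filter Topology MeasureTheory
open scoped ContDiff



/-! ## TARGET (prove this) -/

theorem morse_near {α : Type} (d : α → α → ℝ) (hpm : PM d) (δ : ℝ) (hyp : Hyp d δ) (geo : Geod d)
    (lam : ℝ) (K : ℝ) : ∃ C : ℝ, 0 ≤ C ∧ ∀ d' : α → α → ℝ, Comp d d' lam → ∀ x y z,
      d x z + d z y ≤ d x y + K → d' x z + d' z y ≤ d' x y + C := by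
  obtain ⟨C0, hC0, hm⟩ := morse d hpm δ hyp geo lam
  have hB0 : 0 ≤ |K| + 2 * |δ| := by positivity
  refine ⟨C0 + 2 * (|lam| * (|K| + 2 * |δ|)), by positivity, ?_⟩
  intro d' hd' x y z hxyz
  have hnn : ∀ a b, 0 ≤ d a b := by
    intro a b
    have h1 := hpm.tri a b a
    rw [hpm.self, hpm.symm b a] at h1
    linarith
  obtain ⟨w, hw1, hw2⟩ := geo x y (min (d x z) (d x y)) (le_min (hnn _ _) (hnn _ _))
    (min_le_right _ _)
  have hw3 : d x w + d w y = d x y := by rw [hw1, hw2]; ring
  have h4 := hyp x y z w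
  have hzw : d z w ≤ |K| + 2 * |δ| := by
    have hK := le_abs_self K
    have hK0 := abs_nonneg K
    have hδ := le_abs_self δ
    have e1 : d x z + d y w ≤ d x y + |K| := by
      rw [hpm.symm y w, hw2]
      rcases le_total (d x z) (d x y) with h | h
      · rw [min_eq_left h]; linarith
      · rw [min_eq_right h]
        have := hnn z y
        linarith
    have e2 : d x w + d y z ≤ d x y + |K| := by
      rw [hw1, hpm.symm y z]
      have := min_le_left (d x z) (d x y)
      linarith
    have e3 := max_le e1 e2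
    linarith
  have h5 := hm d' hd' x y w hw3
  have h6 := hd'.pm.tri x w z
  have h7 := hd'.pm.tri z w y
  have h8 := hd'.upper z w
  have h9 : d' w z = d' z w := hd'.pm.symm w z
  have h10 : lam * d z w ≤ |lam| * (|K| + 2 * |δ|) :=
    (mul_le_mul_of_nonneg_right (le_abs_self lam) (hnn z w)).trans
      (mul_le_mul_of_nonneg_left hzw (abs_nonneg lam))
  linarith

end Pool.Agent.BL.MorseN
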