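import Pool.Agent.BL.Defs
import Pool.Agent.BL.MorseN

set_option autoImplicit false
open Set Filter Topology MeasureTheory
open scoped ContDiff


namespace Pool.Agent.BL.GpC
open Pool.Agent.BL
open Pool.Agent.BL.MorseN (morse_near)

open Set Filter Topology MeasureTheory
open scoped ContDiff



/-! ## TARGET (prove this) -/

theorem gp_center {α : Type} (d : α → α → ℝ) (hpm : PM d) (δ : ℝ) (hyp : Hyp d δ) (geo : Geod d)
    (lam K : ℝ) : ∃ C : ℝ, 0 ≤ C ∧ ∀ d' : α → α → ℝ, Comp d d' lam → ∀ o x y z,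
      d x z + d z y = d x y → d o z + d z x ≤ d o x + K → d o z + d z y ≤ d o y + K →
      |gp d' o x y - d' o z| ≤ C := by
  obtain ⟨C1, hC1, h1⟩ := morse_near d hpm δ hyp geo lam K
  obtain ⟨C2, hC2, h2⟩ := morse_near d hpm δ hyp geo lam 0
  refine ⟨C1 + C2, by linarith, fun d' hd' o x y z hxy hox hoy => ?_⟩
  have a1 := h1 d' hd' o x z hox
  have a2 := h1 d' hd' o y z hoy
  have a3 := h2 d' hd' x y z (by linarith)
  have b1 := hd'.pm.tri o z x
  have b2 := hd'.pm.tri o z y
  have b3 := hd'.pm.tri x z y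
  have b4 := hd'.pm.symm x z
  unfold gp
  rw [abs_le]
  constructor <;> linarith

end Pool.Agent.BL.GpC
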