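import Pool.Agent.BL.Defs
import Pool.Agent.BL.Center
import Pool.Agent.BL.GpC
import Pool.Agent.BL.MorseN

set_option autoImplicit false
open Set Filter Topology MeasureTheory
open scoped ContDiff


namespace Pool.Agent.BL.GhAll
open Pool.Agent.BL
open Pool.Agent.BL.Center (center)
open Pool.Agent.BL.GpC (gp_center)
open Pool.Agent.BL.MorseN (morse_near)

open Set Filter Topology MeasureTheory
open scoped ContDiff





theorem gh_aux {α : Type} (d : α → α → ℝ) (hpm : PM d) (δ K : ℝ) (hK : 0 ≤ K) (hyp : Hyp d δ)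
    (o p z1 z3 : α) (h1 : d o z1 + d z1 p ≤ d o p + K) (h3 : d o z3 + d z3 p ≤ d o p + K)
    (h : d o z1 ≤ d o z3 + K + |δ|) : d o z1 + d z1 z3 ≤ d o z3 + (3 * K + 4 * |δ|) := by
  have hδ := le_abs_self δ
  have hδ0 := abs_nonneg δ
  have := hyp z1 z3 o p
  have s1 := hpm.symm z1 o
  have s3 := hpm.symm z3 o
  rcases le_total (d z1 o + d z3 p) (d z1 p + d z3 o) with hm | hm
  · rw [max_eq_right hm] at this
    linarith
  · rw [max_eq_left hm] at this
    linarith

/-! ## TARGET (prove this) -/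

theorem gh_all {α : Type} (d : α → α → ℝ) (hpm : PM d) (δ : ℝ) (hyp : Hyp d δ)
    (geo : Geod d) (lam : ℝ) : ∃ C : ℝ, 0 ≤ C ∧ ∀ d' : α → α → ℝ, Comp d d' lam →
      ∀ o, GH d' o C := by
  obtain ⟨K, hK, hcen⟩ := center d hpm δ hyp geo
  obtain ⟨Cg, hCg, hgc⟩ := gp_center d hpm δ hyp geo lam K
  obtain ⟨Cm, hCm, hmo⟩ := morse_near d hpm δ hyp geo lam (3 * K + 4 * |δ|)
  refine ⟨Cm + 2 * Cg, by positivity, ?_⟩
  intro d' hc o x y w
  obtain ⟨z1, a1, b1, c1⟩ := hcen o x y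
  obtain ⟨z2, a2, b2, c2⟩ := hcen o y w
  obtain ⟨z3, a3, b3, c3⟩ := hcen o x w
  have g1 := abs_le.mp (hgc d' hc o x y z1 a1 b1 c1)
  have g2 := abs_le.mp (hgc d' hc o y w z2 a2 b2 c2)
  have g3 := abs_le.mp (hgc d' hc o x w z3 a3 b3 c3)
  have nn : ∀ p q, 0 ≤ d' p q := by
    intro p q
    have h1 := hc.pm.tri p q p
    have h2 := hc.pm.self p
    have h3 := hc.pm.symm q p
    linarith
  have hδ := le_abs_self δ
  have hδ0 := abs_nonneg δ
  have hh := hyp x w y o
  have s1 := hpm.symm y o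
  have s2 := hpm.symm w o
  have s3 := hpm.symm x o
  have s4 := hpm.symm w y
  have t3x := hpm.tri o z3 x
  have t3w := hpm.tri o z3 w
  have s5 := hpm.symm z3 x
  have s6 := hpm.symm z1 x
  have s7 := hpm.symm z2 y
  rcases le_total (d x y + d w o) (d x o + d w y) with hm | hm
  · rw [max_eq_right hm] at hh
    -- 2 gp o x w ≥ 2 gp o w y - 2δ
    have key : d o z2 ≤ d o z3 + K + |δ| := by linarith
    have h5 := gh_aux d hpm δ K hK hyp o w z2 z3 c2 c3 key
    have h6 := hmo d' hc o z3 z2 h5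
    have h7 := nn z2 z3
    exact (min_le_right _ _).trans (by linarith [g2.1, g2.2, g3.1, g3.2])
  · rw [max_eq_left hm] at hh
    have key : d o z1 ≤ d o z3 + K + |δ| := by linarith
    have h5 := gh_aux d hpm δ K hK hyp o x z1 z3 b1 b3 key
    have h6 := hmo d' hc o z3 z1 h5
    have h7 := nn z1 z3
    exact (min_le_left _ _).trans (by linarith [g1.1, g1.2, g3.1, g3.2])

end Pool.Agent.BL.GhAll
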