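import Pool.Agent.BL.Defs

set_option autoImplicit false
open Set Filter Topology MeasureTheory
open scoped ContDiff


namespace Pool.Agent.BL.HdPm
open Pool.Agent.BL

open Set Filter Topology MeasureTheory
open scoped ContDiff

namespace HM

set_option linter.unusedSectionVars false

open Real

variable {E : Type*} [NormedAddCommGroup E] [InnerProductSpace ℝ E]

/-- time coordinate -/
noncomputable def s (x : E) : ℝ := √(1 + ‖x‖ ^ 2)

/-- the form; cosh of the distance -/
noncomputable def B (x y : E) : ℝ := s x * s y - inner ℝ x y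

lemma s_sq (x : E) : s x ^ 2 = 1 + ‖x‖ ^ 2 := Real.sq_sqrt (by positivity)

lemma one_le_s (x : E) : 1 ≤ s x := by
  unfold s
  rw [Real.one_le_sqrt]
  have := sq_nonneg ‖x‖
  linarith

lemma s_pos (x : E) : 0 < s x := lt_of_lt_of_le one_pos (one_le_s x)

lemma s_zero : s (0 : E) = 1 := by simp [s]

lemma s_neg (x : E) : s (-x) = s x := by simp [s]

lemma B_symm (x y : E) : B x y = B y x := by
  unfold B; rw [real_inner_comm, mul_comm]

lemma B_self (x : E) : B x x = 1 := by
  unfold B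
  rw [real_inner_self_eq_norm_sq, ← pow_two, s_sq]; ring

lemma B_zero (x : E) : B 0 x = s x := by
  unfold B
  rw [inner_zero_left, s_zero]; ring

lemma inner_le_norm' (x y : E) : inner ℝ x y ≤ ‖x‖ * ‖y‖ := real_inner_le_norm x y

lemma one_le_B (x y : E) : 1 ≤ B x y := by
  unfold B
  have h1 := inner_le_norm' x y
  have h2 : 1 + ‖x‖ * ‖y‖ ≤ s x * s y := by
    apply le_of_sq_le_sq _ (by have := s_pos x; have := s_pos y; positivity)
    rw [mul_pow, s_sq, s_sq]
    nlinarith [sq_nonneg (‖x‖ - ‖y‖)]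
  linarith

/-- boosts -/
noncomputable def T (z x : E) : E := x + (s x + inner ℝ z x / (1 + s z)) • z

lemma T_zero (z : E) : T z 0 = z := by
  unfold T
  rw [inner_zero_right, s_zero]; simp

lemma inner_T (z x : E) : inner ℝ z (T z x) = s x * (s z ^ 2 - 1) + inner ℝ z x * s z := by
  have hz := s_pos z
  have h1 := s_sq z
  unfold T
  rw [inner_add_right, inner_smul_right, real_inner_self_eq_norm_sq]
  have h2 : ‖z‖ ^ 2 = s z ^ 2 - 1 := by linarith
  rw [h2]
  field_simp
  ring

lemma inner_T_T (z x y : E) : inner ℝ (T z x) (T z y) =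
    (s x * s z + inner ℝ z x) * (s y * s z + inner ℝ z y) - s x * s y + inner ℝ x y := by
  have hz := s_pos z
  have h1 := s_sq z
  have h2 : ‖z‖ ^ 2 = s z ^ 2 - 1 := by linarith
  unfold T
  rw [inner_add_left, inner_add_right, inner_add_right, inner_smul_left, inner_smul_right,
    inner_smul_left, inner_smul_right, real_inner_self_eq_norm_sq, h2, real_inner_comm z x]
  simp only [conj_trivial]
  field_simp
  ring

lemma s_T (z x : E) : s (T z x) = s x * s z + inner ℝ z x := by
  have h1 := inner_T_T z x x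
  rw [real_inner_self_eq_norm_sq, real_inner_self_eq_norm_sq] at h1
  have h2 := s_sq x
  have h3 := s_sq (T z x)
  have h4 : s (T z x) ^ 2 = (s x * s z + inner ℝ z x) ^ 2 := by
    rw [h3, h1]; linarith
  have h5 : 0 ≤ s x * s z + inner ℝ z x := by
    have := one_le_B (-z) x
    unfold B at this
    rw [s_neg, inner_neg_left] at this
    linarith
  exact (pow_left_inj₀ (s_pos _).le h5 two_ne_zero).mp h4

lemma B_T (z x y : E) : B (T z x) (T z y) = B x y := by
  unfold B
  rw [s_T, s_T, inner_T_T]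
  ring

lemma T_neg_T (z x : E) : T (-z) (T z x) = x := by
  have hz := s_pos z
  have hT : ∀ a b : E, T a b = b + (s b + inner ℝ a b / (1 + s a)) • a := fun _ _ => rfl
  rw [hT (-z), s_neg, inner_neg_left, s_T, inner_T, hT z x]
  have h2 : (1 + s z) ≠ 0 := by positivity
  rw [smul_neg, add_assoc, ← sub_eq_add_neg, ← sub_smul]
  have h3 : s x + inner ℝ z x / (1 + s z) - (s x * s z + inner ℝ z x +
      -(s x * (s z ^ 2 - 1) + inner ℝ z x * s z) / (1 + s z)) = 0 := by
    field_simp
    ring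
  rw [h3, zero_smul, add_zero]

lemma T_T_neg (z x : E) : T z (T (-z) x) = x := by
  have := T_neg_T (-z) x
  rwa [neg_neg] at this

lemma T_neg_self (z : E) : T (-z) z = 0 := by
  conv_lhs => rw [← T_zero z]
  rw [T_zero]
  have := T_neg_T z 0
  rwa [T_zero] at this

/-- distance -/
noncomputable def hd (x y : E) : ℝ := arcosh (B x y)

lemma cosh_hd (x y : E) : cosh (hd x y) = B x y := cosh_arcosh (one_le_B x y)

lemma hd_nonneg (x y : E) : 0 ≤ hd x y := arcosh_nonneg (one_le_B x y)

lemma hd_symm (x y : E) : hd x y = hd y x := by unfold hd; rw [B_symm]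

lemma hd_self (x : E) : hd x x = 0 := by unfold hd; rw [B_self, arcosh_zero]

lemma hd_le_iff {x y : E} {r : ℝ} (hr : 0 ≤ r) : hd x y ≤ r ↔ B x y ≤ cosh r := by
  rw [← cosh_hd, Real.cosh_le_cosh, abs_of_nonneg (hd_nonneg x y), abs_of_nonneg hr]

lemma hd_T (z x y : E) : hd (T z x) (T z y) = hd x y := by unfold hd; rw [B_T]

lemma cosh_hd_zero (x : E) : cosh (hd 0 x) = s x := by rw [cosh_hd, B_zero]

lemma sinh_hd_zero (x : E) : sinh (hd 0 x) = ‖x‖ := by
  have h1 := Real.cosh_sq (hd 0 x)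
  rw [cosh_hd_zero, s_sq] at h1
  have h2 : sinh (hd 0 x) ^ 2 = ‖x‖ ^ 2 := by linarith
  exact (pow_left_inj₀ (Real.sinh_nonneg_iff.mpr (hd_nonneg _ _)) (norm_nonneg _) two_ne_zero).mp h2

lemma hd_triangle (x y z : E) : hd x z ≤ hd x y + hd y z := by
  rw [hd_le_iff (add_nonneg (hd_nonneg _ _) (hd_nonneg _ _))]
  rw [← hd_T (-y) x y, ← hd_T (-y) y z, ← B_T (-y) x z, T_neg_self, hd_symm _ 0]
  rw [Real.cosh_add, cosh_hd_zero, cosh_hd_zero, sinh_hd_zero, sinh_hd_zero]
  unfold B
  have h1 := inner_le_norm' (-(T (-y) x)) (T (-y) z)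
  rw [inner_neg_left, norm_neg] at h1
  linarith

lemma hd_geo (x y : E) {t : ℝ} (ht0 : 0 ≤ t) (ht : t ≤ hd x y) :
    ∃ m, hd x m = t ∧ hd m y = hd x y - t := by
  set y' := T (-x) y with hy'
  have h1 : hd x y = hd 0 y' := by rw [← hd_T (-x), T_neg_self]
  have key : ∃ m' : E, hd 0 m' = t ∧ hd m' y' = hd x y - t := by
    by_cases h0 : y' = 0
    · refine ⟨0, ?_, ?_⟩
      · rw [h0, hd_self] at h1
        rw [hd_self]; linarith
      · rw [h0, hd_self]
        rw [h0, hd_self] at h1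
        linarith
    · have hn : 0 < ‖y'‖ := norm_pos_iff.mpr h0
      have hsh : 0 ≤ sinh t := Real.sinh_nonneg_iff.mpr ht0
      have hs : s ((sinh t / ‖y'‖) • y') = cosh t := by
        have h2 : s ((sinh t / ‖y'‖) • y') ^ 2 = cosh t ^ 2 := by
          rw [s_sq, norm_smul, Real.norm_eq_abs, abs_of_nonneg (by positivity),
            div_mul_cancel₀ _ hn.ne', Real.cosh_sq]
          ring
        exact (pow_left_inj₀ (s_pos _).le (Real.cosh_pos _).le two_ne_zero).mp h2
      refine ⟨(sinh t / ‖y'‖) • y', ?_, ?_⟩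
      · unfold hd
        rw [B_zero, hs, arcosh_cosh ht0]
      · have h3 : B ((sinh t / ‖y'‖) • y') y' = cosh (hd x y - t) := by
          rw [Real.cosh_sub, h1, cosh_hd_zero, sinh_hd_zero]
          unfold B
          rw [hs, inner_smul_left, real_inner_self_eq_norm_sq]
          simp only [conj_trivial]
          field_simp
        unfold hd
        rw [h3, arcosh_cosh (by linarith)]
        rfl
  obtain ⟨m', hm1, hm2⟩ := key
  refine ⟨T x m', ?_, ?_⟩
  · rw [← hd_T (-x), T_neg_self, T_neg_T]; exact hm1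
  · rw [← hd_T (-x), T_neg_T]; exact hm2

/-- ball coordinates -/
noncomputable def u (x : E) : E := (1 / (1 + s x)) • x

lemma dist_u (x y : E) : dist (u x) (u y) =
    2 * sinh (hd x y / 2) / √((1 + s x) * (1 + s y)) := by
  have hx := s_pos x
  have hy := s_pos y
  have h0 : 0 ≤ sinh (hd x y / 2) :=
    Real.sinh_nonneg_iff.mpr (by have := hd_nonneg x y; positivity)
  have h1 : dist (u x) (u y) ^ 2 = (2 * sinh (hd x y / 2) / √((1 + s x) * (1 + s y))) ^ 2 := by
    rw [div_pow, Real.sq_sqrt (by positivity), mul_pow]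
    have h2 : 2 * sinh (hd x y / 2) ^ 2 = B x y - 1 := by
      have h3 := Real.cosh_two_mul (hd x y / 2)
      rw [mul_div_cancel₀ _ two_ne_zero, cosh_hd, Real.cosh_sq] at h3
      linarith
    have h4 : (2 : ℝ) ^ 2 * sinh (hd x y / 2) ^ 2 = 2 * (B x y - 1) := by rw [← h2]; ring
    rw [h4, dist_eq_norm, ← real_inner_self_eq_norm_sq]
    unfold u B
    rw [inner_sub_left, inner_sub_right, inner_sub_right, inner_smul_left, inner_smul_left,
      inner_smul_right, inner_smul_right, inner_smul_left, inner_smul_right, inner_smul_left,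
      inner_smul_right, real_inner_self_eq_norm_sq, real_inner_self_eq_norm_sq,
      real_inner_comm x y]
    simp only [conj_trivial]
    have h5 : ‖x‖ ^ 2 = s x ^ 2 - 1 := by rw [s_sq]; ring
    have h6 : ‖y‖ ^ 2 = s y ^ 2 - 1 := by rw [s_sq]; ring
    rw [h5, h6]
    field_simp
    ring
  exact (pow_left_inj₀ dist_nonneg (by positivity) two_ne_zero).mp h1

lemma ptolemy (x y z w : E) : sinh (hd x y / 2) * sinh (hd z w / 2) ≤
    sinh (hd x z / 2) * sinh (hd y w / 2) + sinh (hd x w / 2) * sinh (hd y z / 2) := by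
  have h1 := EuclideanGeometry.mul_dist_le_mul_dist_add_mul_dist (V := E) (u x) (u z) (u y) (u w)
  rw [dist_u, dist_u, dist_u, dist_u, dist_u, dist_u] at h1
  have hx : 0 < 1 + s x := by have := s_pos x; positivity
  have hy : 0 < 1 + s y := by have := s_pos y; positivity
  have hz : 0 < 1 + s z := by have := s_pos z; positivity
  have hw : 0 < 1 + s w := by have := s_pos w; positivity
  rw [Real.sqrt_mul hx.le, Real.sqrt_mul hx.le, Real.sqrt_mul hx.le, Real.sqrt_mul hz.le,
    Real.sqrt_mul hz.le, Real.sqrt_mul hy.le] at h1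
  have ax := Real.sqrt_pos.mpr hx
  have ay := Real.sqrt_pos.mpr hy
  have az := Real.sqrt_pos.mpr hz
  have aw := Real.sqrt_pos.mpr hw
  set a := √(1 + s x)
  set b := √(1 + s y)
  set c := √(1 + s z)
  set d := √(1 + s w)
  rw [hd_symm z y] at h1
  have e1 : 2 * sinh (hd x y / 2) / (a * b) * (2 * sinh (hd z w / 2) / (c * d)) =
      4 * (sinh (hd x y / 2) * sinh (hd z w / 2)) / (a * b * c * d) := by field_simp; ring
  have e2 : 2 * sinh (hd x z / 2) / (a * c) * (2 * sinh (hd y w / 2) / (b * d)) +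
      2 * sinh (hd y z / 2) / (c * b) * (2 * sinh (hd x w / 2) / (a * d)) =
      4 * (sinh (hd x z / 2) * sinh (hd y w / 2) + sinh (hd x w / 2) * sinh (hd y z / 2)) /
        (a * b * c * d) := by field_simp; ring
  rw [e1, e2, div_le_div_iff_of_pos_right (by positivity)] at h1
  linarith

lemma hd_hyp (x y z w : E) :
    hd x y + hd z w ≤ max (hd x z + hd y w) (hd x w + hd y z) + 2 * 2 := by
  set M := max (hd x z + hd y w) (hd x w + hd y z) with hM
  have hM1 : hd x z + hd y w ≤ M := le_max_left _ _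
  have hM2 : hd x w + hd y z ≤ M := le_max_right _ _
  by_cases ha : hd x y < 1
  · have h1 := hd_triangle z x w
    have h2 := hd_triangle x y w
    rw [hd_symm z x] at h1
    linarith
  by_cases hb : hd z w < 1
  · have h1 := hd_triangle x z y
    have h2 := hd_triangle z w y
    rw [hd_symm w y] at h2
    linarith
  push Not at ha hb
  have hP := ptolemy x y z w
  have up : ∀ t : ℝ, sinh (t / 2) ≤ exp (t / 2) / 2 := by
    intro t
    rw [Real.sinh_eq]
    have := Real.exp_pos (-(t / 2))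
    linarith
  have low : ∀ t : ℝ, 1 ≤ t → 3 / 10 * exp (t / 2) ≤ sinh (t / 2) := by
    intro t ht
    rw [Real.sinh_eq]
    have h1 : exp (-(t / 2)) = exp (-t) * exp (t / 2) := by rw [← Real.exp_add]; ring_nf
    have h2 : exp (-t) ≤ exp (-1) := Real.exp_le_exp.mpr (by linarith)
    have h3 : exp (-1) < 0.4 := by
      have := Real.exp_neg_one_lt_d9
      linarith
    have h4 := Real.exp_pos (t / 2)
    rw [h1]
    nlinarith
  have nn : ∀ p q : E, 0 ≤ sinh (hd p q / 2) := fun p q =>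
    Real.sinh_nonneg_iff.mpr (by have := hd_nonneg p q; positivity)
  have l1 := low _ ha
  have l2 := low _ hb
  have e1 : 9 / 100 * exp ((hd x y + hd z w) / 2) ≤ sinh (hd x y / 2) * sinh (hd z w / 2) := by
    have : exp ((hd x y + hd z w) / 2) = exp (hd x y / 2) * exp (hd z w / 2) := by
      rw [← Real.exp_add]; ring_nf
    rw [this]
    calc 9 / 100 * (exp (hd x y / 2) * exp (hd z w / 2)) =
          (3 / 10 * exp (hd x y / 2)) * (3 / 10 * exp (hd z w / 2)) := by ring
      _ ≤ _ := mul_le_mul l1 l2 (by positivity) (nn _ _)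
  have e2 : ∀ p q p' q' : E, hd p q + hd p' q' ≤ M →
      sinh (hd p q / 2) * sinh (hd p' q' / 2) ≤ exp (M / 2) / 4 := by
    intro p q p' q' h
    calc sinh (hd p q / 2) * sinh (hd p' q' / 2) ≤
          (exp (hd p q / 2) / 2) * (exp (hd p' q' / 2) / 2) :=
          mul_le_mul (up _) (up _) (nn _ _) (by positivity)
      _ = exp ((hd p q + hd p' q') / 2) / 4 := by
          have : exp ((hd p q + hd p' q') / 2) = exp (hd p q / 2) * exp (hd p' q' / 2) := by
            rw [← Real.exp_add]; ring_nf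
          rw [this]; ring
      _ ≤ _ := by
          have := Real.exp_le_exp.mpr (by linarith : (hd p q + hd p' q') / 2 ≤ M / 2)
          linarith
  have e3 := e2 x z y w hM1
  have e4 := e2 x w y z hM2
  by_contra hcon
  push Not at hcon
  have e5 : exp (M / 2) * exp 2 ≤ exp ((hd x y + hd z w) / 2) := by
    rw [← Real.exp_add]
    apply Real.exp_le_exp.mpr
    linarith
  have e6 : (6 : ℝ) ≤ exp 2 := by
    have h1 := Real.exp_one_gt_d9
    have h2 : exp 2 = exp 1 * exp 1 := by rw [← Real.exp_add]; norm_num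
    rw [h2]; nlinarith
  have e7 := Real.exp_pos (M / 2)
  nlinarith


end HM

/-- Euclidean 3-space -/
abbrev E3 : Type := EuclideanSpace ℝ (Fin 3)

/-- the isometry to the hyperboloid model -/
noncomputable def jj (x : V3) : E3 :=
  !₂[x 0 / x 2, x 1 / x 2, (x 0 ^ 2 + x 1 ^ 2 + x 2 ^ 2 - 1) / (2 * x 2)]

theorem norm3 (p : E3) : ‖p‖ ^ 2 = p 0 ^ 2 + p 1 ^ 2 + p 2 ^ 2 := by
  rw [EuclideanSpace.norm_sq_eq, Fin.sum_univ_three]
  simp [sq_abs]

theorem inner3 (p q : E3) : inner ℝ p q = p 0 * q 0 + p 1 * q 1 + p 2 * q 2 := by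
  rw [PiLp.inner_apply, Fin.sum_univ_three]
  simp [mul_comm]

theorem s_jj (x : V3) (hx : 0 < x 2) :
    HM.s (jj x) = (x 0 ^ 2 + x 1 ^ 2 + x 2 ^ 2 + 1) / (2 * x 2) := by
  have h1 : HM.s (jj x) ^ 2 = ((x 0 ^ 2 + x 1 ^ 2 + x 2 ^ 2 + 1) / (2 * x 2)) ^ 2 := by
    rw [HM.s_sq, norm3]
    simp only [jj]
    simp
    field_simp
    ring
  exact (pow_left_inj₀ (HM.s_pos _).le (by positivity) two_ne_zero).mp h1

theorem B_jj (x y : V3) (hx : 0 < x 2) (hy : 0 < y 2) : HM.B (jj x) (jj y) = ch x y := by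
  unfold HM.B ch
  rw [s_jj x hx, s_jj y hy, inner3]
  simp only [jj]
  simp
  field_simp
  ring

theorem hd_jj (x y : U) : hd x y = HM.hd (jj x) (jj y) := by
  unfold hd HM.hd
  rw [B_jj _ _ x.2 y.2]

theorem jj_surj (p : E3) : ∃ x : U, jj x = p := by
  have hs := HM.s_sq p
  have hs0 := HM.s_pos p
  rw [norm3] at hs
  have h1 : 0 < HM.s p - p 2 := by
    by_contra h
    push Not at h
    nlinarith [sq_nonneg (p 0), sq_nonneg (p 1)]
  have hx2 : 0 < 1 / (HM.s p - p 2) := by positivity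
  refine ⟨⟨![p 0 / (HM.s p - p 2), p 1 / (HM.s p - p 2), 1 / (HM.s p - p 2)], ?_⟩, ?_⟩
  · simpa [U] using h1
  · ext i
    fin_cases i
    · simp [jj]
      field_simp
    · simp [jj]
      field_simp
    · simp [jj]
      have e : (p 0 ^ 2 + p 1 ^ 2 + 1) = (HM.s p - p 2) * (HM.s p + p 2) := by linarith
      field_simp
      linear_combination e

/-! ## TARGET (prove this) -/

theorem hd_pm : PM hd := by
  refine ⟨fun x => ?_, fun x y => ?_, fun x y z => ?_⟩
  · rw [hd_jj]; exact HM.hd_self _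
  · rw [hd_jj, hd_jj]; exact HM.hd_symm _ _
  · rw [hd_jj, hd_jj, hd_jj]; exact HM.hd_triangle _ _ _

theorem hd_hyp : ∃ δ : ℝ, 0 ≤ δ ∧ Hyp hd δ := by
  refine ⟨2, by norm_num, fun x y z w => ?_⟩
  simp only [hd_jj]
  exact HM.hd_hyp _ _ _ _

theorem hd_geod : Geod hd := by
  intro x y t ht0 ht
  rw [hd_jj] at ht
  obtain ⟨m, hm1, hm2⟩ := HM.hd_geo (jj x) (jj y) ht0 ht
  obtain ⟨z, rfl⟩ := jj_surj m
  exact ⟨z, by rw [hd_jj]; exact hm1, by rw [hd_jj, hd_jj]; exact hm2⟩

end Pool.Agent.BL.HdPm
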