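import Pool.Agent.BL.Defs
import Pool.Agent.BL.VisB

set_option autoImplicit false
open Set Filter Topology MeasureTheory
open scoped ContDiff


namespace Pool.Agent.BL.VisL
open Pool.Agent.BL
open Pool.Agent.BL.VisB (gp_nonneg vis_nonneg)

open Set Filter Topology MeasureTheory
open scoped ContDiff




/-! ## TARGET (prove this) -/

theorem vis_rel_equiv {α : Type} (d : α → α → ℝ) (hpm : PM d) (o : α) (C : ℝ) (hC : GH d o C) :
    Equivalence (fun x y : {x : ℕ → α // Conv d o x} =>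
      Tendsto (fun n => gp d o (x.1 n) (y.1 n)) atTop atTop) := by
  refine ⟨?_, ?_, ?_⟩
  · intro x
    exact x.2.comp tendsto_atTop_diagonal
  · intro x y h
    refine h.congr fun n => ?_
    unfold gp
    rw [hpm.symm (x.1 n) (y.1 n)]
    ring
  · intro x y z h1 h2
    rw [tendsto_atTop] at h1 h2 ⊢
    intro b
    filter_upwards [h1 (b + C), h2 (b + C)] with n e1 e2
    have h3 := hC (x.1 n) (y.1 n) (z.1 n)
    have h4 := le_min e1 e2
    linarith

theorem vis_rel_of_eq {α : Type} (d : α → α → ℝ) (hpm : PM d) (o : α) (C : ℝ) (hC : GH d o C)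
    (x y : {x : ℕ → α // Conv d o x}) (h : Bdry.mk x = Bdry.mk y) :
    Tendsto (fun n => gp d o (x.1 n) (y.1 n)) atTop atTop := by
  have h1 := Quot.eqvGen_exact h
  exact ((vis_rel_equiv d hpm o C hC).eqvGen_iff).1 h1

theorem vis_le {α : Type} (d : α → α → ℝ) (hpm : PM d) (o : α) (C : ℝ) (hC : GH d o C)
    (x y : {x : ℕ → α // Conv d o x}) (K : ℝ) (h : ∀ᶠ n in atTop, K ≤ gp d o (x.1 n) (y.1 n)) :
    vis d o (Bdry.mk x) (Bdry.mk y) ≤ Real.exp (2 * C - K) := by
  unfold vis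
  apply csSup_le
  · exact ⟨_, x, y, rfl, rfl, rfl⟩
  · rintro r ⟨x', y', hx, hy, rfl⟩
    have h1 := vis_rel_of_eq d hpm o C hC x' x hx
    have h2 := vis_rel_of_eq d hpm o C hC y y' hy.symm
    rw [tendsto_atTop] at h1 h2
    refine limsup_le_of_le ?_ ?_
    · exact isCoboundedUnder_le_of_le atTop (x := 0) (fun n => (Real.exp_pos _).le)
    · filter_upwards [h, h1 K, h2 K, h1 (K - C)] with n e0 e1 e2 e3
      rw [Real.exp_le_exp]
      have h3 := hC (x'.1 n) (x.1 n) (y'.1 n)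
      have h4 := hC (x.1 n) (y.1 n) (y'.1 n)
      have h5 : K ≤ min (gp d o (x.1 n) (y.1 n)) (gp d o (y.1 n) (y'.1 n)) := le_min e0 e2
      have h6 : K - C ≤ min (gp d o (x'.1 n) (x.1 n)) (gp d o (x.1 n) (y'.1 n)) :=
        le_min e3 (by linarith)
      linarith

theorem vis_self {α : Type} (d : α → α → ℝ) (hpm : PM d) (o : α) (C : ℝ) (hC : GH d o C)
    (ξ : Bdry d o) : vis d o ξ ξ = 0 := by
  apply le_antisymm _ (vis_nonneg d hpm o ξ ξ)
  obtain ⟨x, hx⟩ := Quot.exists_rep ξ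
  have hx' : Bdry.mk x = ξ := hx
  by_contra hcon
  push Not at hcon
  have h1 : Tendsto (fun n => gp d o (x.1 n) (x.1 n)) atTop atTop :=
    (vis_rel_equiv d hpm o C hC).refl x
  rw [tendsto_atTop] at h1
  have h2 := vis_le d hpm o C hC x x (2 * C - Real.log (vis d o ξ ξ) + 1) (h1 _)
  rw [hx'] at h2
  have h3 : Real.exp (2 * C - (2 * C - Real.log (vis d o ξ ξ) + 1)) < vis d o ξ ξ := by
    calc Real.exp (2 * C - (2 * C - Real.log (vis d o ξ ξ) + 1))
        < Real.exp (Real.log (vis d o ξ ξ)) := Real.exp_lt_exp.2 (by linarith)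
      _ = vis d o ξ ξ := Real.exp_log hcon
  linarith

end Pool.Agent.BL.VisL
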