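import Pool.Agent.BL.Defs
import Pool.Agent.BL.HdPm
import Pool.Agent.BL.VisB
import Pool.Agent.BL.VisL
import Pool.Agent.BL.GhAll

set_option autoImplicit false
open Set Filter Topology MeasureTheory
open scoped ContDiff


namespace Pool.Agent.BL.BMap
open Pool.Agent.BL
open Pool.Agent.BL.HdPm (hd_pm hd_hyp hd_geod)
open Pool.Agent.BL.VisB (vis_ge vis_nonneg gp_nonneg)
open Pool.Agent.BL.VisL (vis_le vis_self)
open Pool.Agent.BL.GhAll (gh_all)

open Set Filter Topology MeasureTheory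
open scoped ContDiff











/-! ## TARGET (prove this) -/

/-- denominator -/
noncomputable def bN (x : V3) : ℝ := (x 0) ^ 2 + (x 1) ^ 2 + (x 2 + 1) ^ 2

/-- ball model map -/
noncomputable def bb (x : V3) : V3 :=
  ![2 * x 0 / bN x, 2 * x 1 / bN x, ((x 0) ^ 2 + (x 1) ^ 2 + (x 2) ^ 2 - 1) / bN x]

theorem bN_pos (x : U) : 0 < bN x := by
  have h : 0 < (x : V3) 2 := x.2
  unfold bN
  positivity

theorem ch_o3 (x : U) : 1 + ch oU x = bN x / (2 * (x : V3) 2) := by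
  have h : 0 < (x : V3) 2 := x.2
  have e0 : (oU : V3) 0 = 0 := rfl
  have e1 : (oU : V3) 1 = 0 := rfl
  have e2 : (oU : V3) 2 = 1 := rfl
  unfold ch bN
  rw [e0, e1, e2]
  field_simp
  ring

theorem ch_ge (x y : U) : 1 ≤ ch x y := by
  have hx : 0 < (x : V3) 2 := x.2
  have hy : 0 < (y : V3) 2 := y.2
  unfold ch
  have : 0 ≤ (((y : V3) 0 - (x : V3) 0) ^ 2 + ((y : V3) 1 - (x : V3) 1) ^ 2 +
    ((y : V3) 2 - (x : V3) 2) ^ 2) / (2 * (x : V3) 2 * (y : V3) 2) := by positivity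
  linarith

theorem cosh_hd (x y : U) : Real.cosh (hd x y) = ch x y := Real.cosh_arcosh (ch_ge x y)

theorem hd_nn (x y : U) : 0 ≤ hd x y := Real.arcosh_nonneg (ch_ge x y)

theorem bb_dist (x y : U) : (bb x 0 - bb y 0) ^ 2 + (bb x 1 - bb y 1) ^ 2 +
    (bb x 2 - bb y 2) ^ 2 = 2 * (ch x y - 1) / ((1 + ch oU x) * (1 + ch oU y)) := by
  have hx : 0 < (x : V3) 2 := x.2
  have hy : 0 < (y : V3) 2 := y.2
  have hNx := bN_pos x
  have hNy := bN_pos y
  rw [ch_o3, ch_o3]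
  have e1 : 2 * (ch x y - 1) = (((y : V3) 0 - (x : V3) 0) ^ 2 + ((y : V3) 1 - (x : V3) 1) ^ 2 +
    ((y : V3) 2 - (x : V3) 2) ^ 2) / ((x : V3) 2 * (y : V3) 2) := by
    unfold ch
    field_simp
    ring
  rw [e1]
  have e2 : bb x 0 = 2 * (x : V3) 0 / bN x := rfl
  have e3 : bb x 1 = 2 * (x : V3) 1 / bN x := rfl
  have e4 : bb x 2 = (((x : V3) 0) ^ 2 + ((x : V3) 1) ^ 2 + ((x : V3) 2) ^ 2 - 1) / bN x := rfl
  have f2 : bb y 0 = 2 * (y : V3) 0 / bN y := rfl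
  have f3 : bb y 1 = 2 * (y : V3) 1 / bN y := rfl
  have f4 : bb y 2 = (((y : V3) 0) ^ 2 + ((y : V3) 1) ^ 2 + ((y : V3) 2) ^ 2 - 1) / bN y := rfl
  rw [e2, e3, e4, f2, f3, f4]
  have g1 : ∀ z : V3, bN z = (z 0) ^ 2 + (z 1) ^ 2 + (z 2 + 1) ^ 2 := fun z => rfl
  have hNx' := hNx.ne'
  have hNy' := hNy.ne'
  field_simp
  rw [g1, g1]
  ring

theorem bb_norm (x : U) : (bb x 0) ^ 2 + (bb x 1) ^ 2 + (bb x 2) ^ 2 =
    1 - 2 / (1 + ch oU x) := by
  have hx : 0 < (x : V3) 2 := x.2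
  have hNx := bN_pos x
  rw [ch_o3]
  have e2 : bb x 0 = 2 * (x : V3) 0 / bN x := rfl
  have e3 : bb x 1 = 2 * (x : V3) 1 / bN x := rfl
  have e4 : bb x 2 = (((x : V3) 0) ^ 2 + ((x : V3) 1) ^ 2 + ((x : V3) 2) ^ 2 - 1) / bN x := rfl
  rw [e2, e3, e4]
  have hNx' := hNx.ne'
  field_simp
  unfold bN
  ring

theorem exp_facts (D : ℝ) (h : 0 ≤ D) : Real.cosh D - 1 ≤ Real.exp D ∧
    Real.exp D / 2 ≤ 1 + Real.cosh D ∧ 1 + Real.cosh D ≤ 2 * Real.exp D ∧
    (1 ≤ D → Real.exp D / 8 ≤ Real.cosh D - 1) := by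
  have h1 : 1 ≤ Real.exp D := Real.one_le_exp h
  have h2 : 0 < Real.exp (-D) := Real.exp_pos _
  have h3 : Real.exp (-D) ≤ 1 := Real.exp_le_one_iff.mpr (by linarith)
  rw [Real.cosh_eq]
  refine ⟨by linarith, by linarith, by linarith, ?_⟩
  intro hD
  have h4 : Real.exp 1 ≤ Real.exp D := Real.exp_le_exp.mpr hD
  have h5 := Real.exp_one_gt_d9
  linarith

theorem esq (x y : U) : Real.exp (-gp hd oU x y) ^ 2 =
    Real.exp (hd x y) / (Real.exp (hd oU x) * Real.exp (hd oU y)) := by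
  rw [← Real.exp_add, ← Real.exp_sub, ← Real.exp_nat_mul]
  congr 1
  unfold gp
  push_cast
  ring

theorem bb_upper (x y : U) : (bb x 0 - bb y 0) ^ 2 + (bb x 1 - bb y 1) ^ 2 +
    (bb x 2 - bb y 2) ^ 2 ≤ 9 * Real.exp (-gp hd oU x y) ^ 2 := by
  rw [bb_dist, esq, ← cosh_hd, ← cosh_hd, ← cosh_hd]
  obtain ⟨a1, -, -, -⟩ := exp_facts _ (hd_nn x y)
  obtain ⟨-, b2, -, -⟩ := exp_facts _ (hd_nn oU x)
  obtain ⟨-, c2, -, -⟩ := exp_facts _ (hd_nn oU y)
  have p1 := Real.exp_pos (hd x y)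
  have p2 := Real.exp_pos (hd oU x)
  have p3 := Real.exp_pos (hd oU y)
  have q : Real.exp (hd oU x) / 2 * (Real.exp (hd oU y) / 2) ≤
      (1 + Real.cosh (hd oU x)) * (1 + Real.cosh (hd oU y)) :=
    mul_le_mul b2 c2 (by positivity) (by linarith)
  calc 2 * (Real.cosh (hd x y) - 1) / ((1 + Real.cosh (hd oU x)) * (1 + Real.cosh (hd oU y)))
      ≤ 2 * Real.exp (hd x y) / (Real.exp (hd oU x) / 2 * (Real.exp (hd oU y) / 2)) := by
        apply div_le_div₀ (by positivity) (by linarith) (by positivity) q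
    _ = 8 * (Real.exp (hd x y) / (Real.exp (hd oU x) * Real.exp (hd oU y))) := by
        field_simp
        ring
    _ ≤ 9 * (Real.exp (hd x y) / (Real.exp (hd oU x) * Real.exp (hd oU y))) := by
        have : 0 ≤ Real.exp (hd x y) / (Real.exp (hd oU x) * Real.exp (hd oU y)) := by positivity
        linarith

theorem bb_lower (x y : U) (hD : 1 ≤ hd x y) : Real.exp (-gp hd oU x y) ^ 2 ≤
    16 * ((bb x 0 - bb y 0) ^ 2 + (bb x 1 - bb y 1) ^ 2 + (bb x 2 - bb y 2) ^ 2) := by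
  rw [bb_dist, esq, ← cosh_hd, ← cosh_hd, ← cosh_hd]
  obtain ⟨-, -, -, a4⟩ := exp_facts _ (hd_nn x y)
  obtain ⟨-, -, b3, -⟩ := exp_facts _ (hd_nn oU x)
  obtain ⟨-, -, c3, -⟩ := exp_facts _ (hd_nn oU y)
  have a5 := a4 hD
  have p1 := Real.exp_pos (hd x y)
  have p2 := Real.exp_pos (hd oU x)
  have p3 := Real.exp_pos (hd oU y)
  have r2 := Real.cosh_pos (hd oU x)
  have r3 := Real.cosh_pos (hd oU y)
  have q : (1 + Real.cosh (hd oU x)) * (1 + Real.cosh (hd oU y)) ≤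
      2 * Real.exp (hd oU x) * (2 * Real.exp (hd oU y)) :=
    mul_le_mul b3 c3 (by positivity) (by positivity)
  have h1 : 2 * (Real.exp (hd x y) / 8) / (2 * Real.exp (hd oU x) * (2 * Real.exp (hd oU y))) ≤
      2 * (Real.cosh (hd x y) - 1) / ((1 + Real.cosh (hd oU x)) * (1 + Real.cosh (hd oU y))) := by
    apply div_le_div₀ (by linarith) (by linarith) (by positivity) q
  have h2 : 2 * (Real.exp (hd x y) / 8) / (2 * Real.exp (hd oU x) * (2 * Real.exp (hd oU y))) =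
      Real.exp (hd x y) / (Real.exp (hd oU x) * Real.exp (hd oU y)) / 16 := by
    field_simp
    ring
  rw [h2] at h1
  linarith

theorem sq_norm (v : V3) : ‖v‖ ^ 2 ≤ v 0 ^ 2 + v 1 ^ 2 + v 2 ^ 2 ∧
    v 0 ^ 2 + v 1 ^ 2 + v 2 ^ 2 ≤ 3 * ‖v‖ ^ 2 := by
  constructor
  · have h : ‖v‖ ≤ Real.sqrt (v 0 ^ 2 + v 1 ^ 2 + v 2 ^ 2) := by
      rw [pi_norm_le_iff_of_nonneg (Real.sqrt_nonneg _)]
      intro i
      rw [Real.norm_eq_abs]
      apply Real.abs_le_sqrt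
      fin_cases i
      · show v 0 ^ 2 ≤ _
        nlinarith [sq_nonneg (v 1), sq_nonneg (v 2)]
      · show v 1 ^ 2 ≤ _
        nlinarith [sq_nonneg (v 0), sq_nonneg (v 2)]
      · show v 2 ^ 2 ≤ _
        nlinarith [sq_nonneg (v 0), sq_nonneg (v 1)]
    calc ‖v‖ ^ 2 ≤ Real.sqrt (v 0 ^ 2 + v 1 ^ 2 + v 2 ^ 2) ^ 2 :=
          pow_le_pow_left₀ (norm_nonneg _) h 2
      _ = _ := Real.sq_sqrt (by positivity)
  · have h : ∀ i, v i ^ 2 ≤ ‖v‖ ^ 2 := by
      intro i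
      have := norm_le_pi_norm v i
      rw [← sq_abs]
      exact pow_le_pow_left₀ (abs_nonneg _) this 2
    linarith [h 0, h 1, h 2]

theorem bb_up (x y : U) : ‖bb x - bb y‖ ≤ 3 * Real.exp (-gp hd oU x y) := by
  have h1 := (sq_norm (bb x - bb y)).1
  have h2 := bb_upper x y
  have h3 : ‖bb x - bb y‖ ^ 2 ≤ (3 * Real.exp (-gp hd oU x y)) ^ 2 := by
    calc ‖bb x - bb y‖ ^ 2 ≤ _ := h1
      _ ≤ 9 * Real.exp (-gp hd oU x y) ^ 2 := h2
      _ = _ := by ring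
  exact (pow_le_pow_iff_left₀ (norm_nonneg _) (by positivity) two_ne_zero).mp h3

theorem bb_lo (x y : U) (hD : 1 ≤ hd x y) :
    Real.exp (-gp hd oU x y) ≤ 7 * ‖bb x - bb y‖ := by
  have h1 := (sq_norm (bb x - bb y)).2
  have h2 := bb_lower x y hD
  have h4 : (bb x 0 - bb y 0) ^ 2 + (bb x 1 - bb y 1) ^ 2 + (bb x 2 - bb y 2) ^ 2
      ≤ 3 * ‖bb x - bb y‖ ^ 2 := h1
  have h3 : Real.exp (-gp hd oU x y) ^ 2 ≤ (7 * ‖bb x - bb y‖) ^ 2 := by
    nlinarith [sq_nonneg ‖bb x - bb y‖]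
  exact (pow_le_pow_iff_left₀ (Real.exp_pos _).le (by positivity) two_ne_zero).mp h3

theorem bb_lim (x : {x : ℕ → U // Conv hd oU x}) :
    ∃ v : V3, Tendsto (fun n => bb (x.1 n)) atTop (𝓝 v) := by
  apply cauchySeq_tendsto_of_complete
  rw [cauchySeq_iff_tendsto_dist_atTop_0]
  have h1 : Tendsto (fun p : ℕ × ℕ => 3 * Real.exp (-gp hd oU (x.1 p.1) (x.1 p.2))) atTop
      (𝓝 (3 * 0)) := by
    apply Tendsto.const_mul
    exact Real.tendsto_exp_neg_atTop_nhds_zero.comp x.2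
  rw [mul_zero] at h1
  refine squeeze_zero (fun _ => dist_nonneg) (fun p => ?_) h1
  rw [dist_eq_norm]
  exact bb_up _ _

theorem bb_rel (x y : {x : ℕ → U // Conv hd oU x})
    (h : Tendsto (fun n => gp hd oU (x.1 n) (y.1 n)) atTop atTop) (v w : V3)
    (hv : Tendsto (fun n => bb (x.1 n)) atTop (𝓝 v))
    (hw : Tendsto (fun n => bb (y.1 n)) atTop (𝓝 w)) : v = w := by
  have h1 : Tendsto (fun n => 3 * Real.exp (-gp hd oU (x.1 n) (y.1 n))) atTop (𝓝 (3 * 0)) := by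
    apply Tendsto.const_mul
    exact Real.tendsto_exp_neg_atTop_nhds_zero.comp h
  rw [mul_zero] at h1
  have h2 : Tendsto (fun n => bb (x.1 n) - bb (y.1 n)) atTop (𝓝 0) := by
    rw [tendsto_zero_iff_norm_tendsto_zero]
    exact squeeze_zero (fun _ => norm_nonneg _) (fun n => bb_up _ _) h1
  have h3 := tendsto_nhds_unique (hv.sub hw) h2
  exact sub_eq_zero.mp h3

/-- the limit map -/
noncomputable def PhiMap : Bdry hd oU → V3 :=
  Quot.lift (fun x => Classical.choose (bb_lim x)) (fun x y h =>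
    bb_rel x y h _ _ (Classical.choose_spec (bb_lim x)) (Classical.choose_spec (bb_lim y)))

theorem PhiMap_lim (x : {x : ℕ → U // Conv hd oU x}) :
    Tendsto (fun n => bb (x.1 n)) atTop (𝓝 (PhiMap (Bdry.mk x))) :=
  Classical.choose_spec (bb_lim x)

theorem hd_oU_lim (x : {x : ℕ → U // Conv hd oU x}) :
    Tendsto (fun n => hd oU (x.1 n)) atTop atTop := by
  have h1 : Tendsto (fun n : ℕ => (n, n)) atTop atTop := tendsto_atTop_diagonal
  have h2 := (x.2).comp h1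
  refine h2.congr (fun n => ?_)
  show gp hd oU (x.1 n) (x.1 n) = _
  unfold gp
  rw [hd_pm.self]
  ring

theorem gp_alt (x y : U) (h : hd x y ≤ 1) : hd oU x - 1 ≤ gp hd oU x y := by
  have h1 := hd_pm.tri oU y x
  have h2 := hd_pm.symm y x
  unfold gp
  linarith

theorem Phi_up (x y : {x : ℕ → U // Conv hd oU x}) :
    ‖PhiMap (Bdry.mk x) - PhiMap (Bdry.mk y)‖ ≤ 6 * vis hd oU (Bdry.mk x) (Bdry.mk y) := by
  set L := ‖PhiMap (Bdry.mk x) - PhiMap (Bdry.mk y)‖ with hL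
  rcases (norm_nonneg (PhiMap (Bdry.mk x) - PhiMap (Bdry.mk y))).eq_or_lt with h0 | h0
  · rw [hL, ← h0]
    have := vis_nonneg hd hd_pm oU (Bdry.mk x) (Bdry.mk y)
    linarith
  · rw [← hL] at h0
    have h1 : Tendsto (fun n => ‖bb (x.1 n) - bb (y.1 n)‖) atTop (𝓝 L) :=
      ((PhiMap_lim x).sub (PhiMap_lim y)).norm
    have h2 : ∀ᶠ n in atTop, L / 2 < ‖bb (x.1 n) - bb (y.1 n)‖ :=
      h1.eventually_const_lt (by linarith)
    have h3 : ∀ᶠ n in atTop, gp hd oU (x.1 n) (y.1 n) ≤ -Real.log (L / 6) := by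
      filter_upwards [h2] with n hn
      have h4 := bb_up (x.1 n) (y.1 n)
      have h5 : L / 6 ≤ Real.exp (-gp hd oU (x.1 n) (y.1 n)) := by linarith
      have h6 := Real.log_le_log (by positivity) h5
      rw [Real.log_exp] at h6
      linarith
    have h7 := vis_ge hd hd_pm oU x y (-Real.log (L / 6)) h3.frequently
    rw [neg_neg, Real.exp_log (by positivity)] at h7
    linarith

theorem Phi_lo (C : ℝ) (hC : GH hd oU C) (x y : {x : ℕ → U // Conv hd oU x}) :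
    vis hd oU (Bdry.mk x) (Bdry.mk y) ≤
      7 * Real.exp (2 * C) * ‖PhiMap (Bdry.mk x) - PhiMap (Bdry.mk y)‖ := by
  set L := ‖PhiMap (Bdry.mk x) - PhiMap (Bdry.mk y)‖ with hL
  have hL0 : 0 ≤ L := norm_nonneg _
  have hkey : ∀ ε : ℝ, 0 < ε → vis hd oU (Bdry.mk x) (Bdry.mk y) ≤
      7 * Real.exp (2 * C) * (L + ε) := by
    intro ε hε
    have hp : 0 < 7 * (L + ε) := by positivity
    have h1 : Tendsto (fun n => ‖bb (x.1 n) - bb (y.1 n)‖) atTop (𝓝 L) :=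
      ((PhiMap_lim x).sub (PhiMap_lim y)).norm
    have h2 : ∀ᶠ n in atTop, ‖bb (x.1 n) - bb (y.1 n)‖ < L + ε :=
      h1.eventually_lt_const (by linarith)
    have h3 : ∀ᶠ n in atTop, -Real.log (7 * (L + ε)) ≤ gp hd oU (x.1 n) (y.1 n) := by
      filter_upwards [h2, (hd_oU_lim x).eventually_ge_atTop (-Real.log (7 * (L + ε)) + 1)]
        with n hn hn2
      rcases le_or_gt 1 (hd (x.1 n) (y.1 n)) with hD | hD
      · have h4 := bb_lo (x.1 n) (y.1 n) hD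
        have h5 : Real.exp (-gp hd oU (x.1 n) (y.1 n)) ≤ 7 * (L + ε) := by linarith
        have h6 := Real.log_le_log (Real.exp_pos _) h5
        rw [Real.log_exp] at h6
        linarith
      · have h4 := gp_alt (x.1 n) (y.1 n) hD.le
        linarith
    have h7 := vis_le hd hd_pm oU C hC x y _ h3
    refine h7.trans (le_of_eq ?_)
    rw [sub_neg_eq_add, Real.exp_add, Real.exp_log hp]
    ring
  apply le_of_forall_pos_le_add
  intro ε hε
  have hE : 0 < 7 * Real.exp (2 * C) := by positivity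
  have h1 := hkey (ε / (7 * Real.exp (2 * C))) (by positivity)
  refine h1.trans (le_of_eq ?_)
  field_simp

/-- the boundary of hyperbolic space is the round sphere -/
theorem ball_map : ∃ (Φ : Bdry hd oU → V3) (K : ℝ), 0 < K ∧ Function.Injective Φ ∧
    (∀ ξ η, ‖Φ ξ - Φ η‖ ≤ K * vis hd oU ξ η) ∧ (∀ ξ η, vis hd oU ξ η ≤ K * ‖Φ ξ - Φ η‖) ∧
    (∀ ξ, Φ ξ 0 ^ 2 + Φ ξ 1 ^ 2 + Φ ξ 2 ^ 2 = 1) := by
  obtain ⟨δ, hδ, hyp⟩ := hd_hyp
  have hGH : GH hd oU δ := by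
    intro x y z
    have h := hyp x z y oU
    have s1 := hd_pm.symm x oU
    have s2 := hd_pm.symm y oU
    have s3 := hd_pm.symm z oU
    have s4 := hd_pm.symm z y
    unfold gp
    rcases le_total (hd x y + hd z oU) (hd x oU + hd z y) with h1 | h1
    · rw [max_eq_right h1] at h
      refine (min_le_right _ _).trans ?_
      linarith
    · rw [max_eq_left h1] at h
      refine (min_le_left _ _).trans ?_
      linarith
  have hK : 0 < 6 + 7 * Real.exp (2 * δ) := by positivity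
  have hrep : ∀ ξ : Bdry hd oU, ∃ x : {x : ℕ → U // Conv hd oU x}, Bdry.mk x = ξ :=
    fun ξ => Quot.exists_rep ξ
  have hlo : ∀ ξ η, vis hd oU ξ η ≤ (6 + 7 * Real.exp (2 * δ)) * ‖PhiMap ξ - PhiMap η‖ := by
    intro ξ η
    obtain ⟨x, rfl⟩ := hrep ξ
    obtain ⟨y, rfl⟩ := hrep η
    refine (Phi_lo δ hGH x y).trans ?_
    apply mul_le_mul_of_nonneg_right _ (norm_nonneg _)
    linarith
  refine ⟨PhiMap, 6 + 7 * Real.exp (2 * δ), hK, ?_, ?_, hlo, ?_⟩
  · intro ξ η hξη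
    have h1 := hlo ξ η
    rw [hξη, sub_self, norm_zero, mul_zero] at h1
    obtain ⟨x, rfl⟩ := hrep ξ
    obtain ⟨y, rfl⟩ := hrep η
    apply Quot.sound
    by_contra hcon
    rw [tendsto_atTop] at hcon
    push Not at hcon
    obtain ⟨K, hK'⟩ := hcon
    have h2 := vis_ge hd hd_pm oU x y K (hK'.mono (fun n hn => le_of_lt hn))
    have h3 := Real.exp_pos (-K)
    linarith
  · intro ξ η
    obtain ⟨x, rfl⟩ := hrep ξ
    obtain ⟨y, rfl⟩ := hrep η
    refine (Phi_up x y).trans ?_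
    apply mul_le_mul_of_nonneg_right _ (vis_nonneg hd hd_pm oU _ _)
    have := Real.exp_pos (2 * δ)
    linarith
  · intro ξ
    obtain ⟨x, rfl⟩ := hrep ξ
    have h1 := PhiMap_lim x
    have h2 : Continuous (fun v : V3 => v 0 ^ 2 + v 1 ^ 2 + v 2 ^ 2) := by fun_prop
    have h3 := (h2.tendsto _).comp h1
    have h4 : Tendsto (fun n => 1 - 2 / (1 + Real.cosh (hd oU (x.1 n)))) atTop (𝓝 (1 - 0)) := by
      apply Tendsto.sub tendsto_const_nhds
      apply Tendsto.div_atTop tendsto_const_nhds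
      apply tendsto_atTop_add_const_left
      refine tendsto_atTop_mono' atTop ?_ ((Real.tendsto_exp_atTop.comp (hd_oU_lim x)).atTop_div_const
        (show (0 : ℝ) < 2 by norm_num))
      filter_upwards with n
      show Real.exp (hd oU (x.1 n)) / 2 ≤ Real.cosh (hd oU (x.1 n))
      rw [Real.cosh_eq]
      have := Real.exp_pos (-hd oU (x.1 n))
      linarith
    rw [sub_zero] at h4
    have h5 : ((fun v : V3 => v 0 ^ 2 + v 1 ^ 2 + v 2 ^ 2) ∘ fun n => bb (x.1 n)) =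
        fun n => 1 - 2 / (1 + Real.cosh (hd oU (x.1 n))) := by
      funext n
      rw [cosh_hd]
      exact bb_norm (x.1 n)
    rw [h5] at h3
    exact tendsto_nhds_unique h3 h4

end Pool.Agent.BL.BMap
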