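import Pool.Agent.BL.Defs

set_option autoImplicit false
open Set Filter Topology MeasureTheory
open scoped ContDiff


namespace Pool.Agent.BL.ChPos
open Pool.Agent.BL

open Set Filter Topology MeasureTheory
open scoped ContDiff

/-! ## TARGET (prove this) -/

theorem ch_pos (p x : V3) (hp : p ∈ U) (hx : x ∈ U) : 1 ≤ ch p x := by
  have h1 : 0 < p 2 := hp
  have h2 : 0 < x 2 := hx
  unfold ch
  have : 0 ≤ ((x 0 - p 0) ^ 2 + (x 1 - p 1) ^ 2 + (x 2 - p 2) ^ 2) / (2 * p 2 * x 2) := by
    positivity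
  linarith


end Pool.Agent.BL.ChPos
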