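import Pool.Agent.BL.Defs
import Pool.Agent.BL.ChPos
import Pool.Agent.BL.ActCh
import Pool.Agent.BL.ActAlg

set_option autoImplicit false
open Set Filter Topology MeasureTheory
open scoped ContDiff


namespace Pool.Agent.BL.Ball
open Pool.Agent.BL
open Pool.Agent.BL.ChPos (ch_pos)
open Pool.Agent.BL.ActCh (act_ch)
open Pool.Agent.BL.ActAlg (act_mem)

open Set Filter Topology MeasureTheory
open scoped ContDiff





/-! ## TARGET (prove this) -/

theorem ball_close (q z : V3) (δ : ℝ) (hq : 0 < q 2) (hz : 0 < z 2) (hδ : δ ≤ 1 / 4)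
    (h : ch q z ≤ 1 + δ) :
    (z 0 - q 0) ^ 2 + (z 1 - q 1) ^ 2 + (z 2 - q 2) ^ 2 ≤ δ * (2 * q 2 * z 2) ∧
      z 2 ≤ 2 * q 2 ∧ q 2 ≤ 2 * z 2 := by
  have h1 : ((z 0 - q 0) ^ 2 + (z 1 - q 1) ^ 2 + (z 2 - q 2) ^ 2) / (2 * q 2 * z 2) ≤ δ := by
    unfold ch at h
    linarith
  rw [div_le_iff₀ (by positivity)] at h1
  have h2 : (z 2 - q 2) ^ 2 ≤ q 2 * z 2 / 2 := by
    have h3 : δ * (2 * q 2 * z 2) ≤ 1 / 4 * (2 * q 2 * z 2) := by gcongr
    nlinarith [sq_nonneg (z 0 - q 0), sq_nonneg (z 1 - q 1)]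
  refine ⟨h1, ?_, ?_⟩
  · by_contra hcon
    push Not at hcon
    nlinarith [mul_pos (sub_pos.2 hcon) (show 0 < z 2 - q 2 / 2 by linarith)]
  · by_contra hcon
    push Not at hcon
    nlinarith [mul_pos (sub_pos.2 hcon) (show 0 < q 2 - z 2 / 2 by linarith)]

theorem ball_compact (p : U) : IsCompact {x : U | ch p x ≤ 2} := by
  rw [Subtype.isCompact_iff]
  have hp : 0 < (p : V3) 2 := p.2
  have himg : Subtype.val '' {x : U | ch p x ≤ 2} = {x : V3 | (x 0 - (p : V3) 0) ^ 2 +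
      (x 1 - (p : V3) 1) ^ 2 + (x 2 - (p : V3) 2) ^ 2 ≤ 2 * (p : V3) 2 * x 2} := by
    ext x
    constructor
    · rintro ⟨y, hy, rfl⟩
      have hy2 : 0 < (y : V3) 2 := y.2
      have h : ch p y ≤ 2 := hy
      have h1 : (((y : V3) 0 - (p : V3) 0) ^ 2 + ((y : V3) 1 - (p : V3) 1) ^ 2 +
          ((y : V3) 2 - (p : V3) 2) ^ 2) / (2 * (p : V3) 2 * (y : V3) 2) ≤ 1 := by
        unfold ch at h
        linarith
      rw [div_le_iff₀ (by positivity), one_mul] at h1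
      exact h1
    · intro hx
      have hx' : (x 0 - (p : V3) 0) ^ 2 +
        (x 1 - (p : V3) 1) ^ 2 + (x 2 - (p : V3) 2) ^ 2 ≤ 2 * (p : V3) 2 * x 2 := hx
      have hx2 : 0 < x 2 := by
        by_contra hcon
        push Not at hcon
        have h0 : 2 * (p : V3) 2 * x 2 ≤ 0 := by nlinarith
        nlinarith [sq_nonneg (x 0 - (p : V3) 0), sq_nonneg (x 1 - (p : V3) 1),
          sq_nonneg (x 2)]
      refine ⟨⟨x, hx2⟩, ?_, rfl⟩
      show ch p x ≤ 2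
      have h1 : ((x 0 - (p : V3) 0) ^ 2 + (x 1 - (p : V3) 1) ^ 2 +
          (x 2 - (p : V3) 2) ^ 2) / (2 * (p : V3) 2 * x 2) ≤ 1 := by
        rw [div_le_iff₀ (by positivity), one_mul]
        exact hx'
      unfold ch
      linarith
  rw [himg]
  have hcl : IsClosed {x : V3 | (x 0 - (p : V3) 0) ^ 2 +
      (x 1 - (p : V3) 1) ^ 2 + (x 2 - (p : V3) 2) ^ 2 ≤ 2 * (p : V3) 2 * x 2} :=
    isClosed_le (by fun_prop) (by fun_prop)
  refine (isCompact_Icc (a := fun i => (p : V3) i - 4 * (p : V3) 2)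
    (b := fun i => (p : V3) i + 4 * (p : V3) 2)).of_isClosed_subset hcl ?_
  intro x hx
  have hx' : (x 0 - (p : V3) 0) ^ 2 +
        (x 1 - (p : V3) 1) ^ 2 + (x 2 - (p : V3) 2) ^ 2 ≤ 2 * (p : V3) 2 * x 2 := hx
  have s0 := sq_nonneg (x 0 - (p : V3) 0)
  have s1 := sq_nonneg (x 1 - (p : V3) 1)
  have s2 := sq_nonneg (x 2 - (p : V3) 2)
  have hx4 : x 2 ≤ 4 * (p : V3) 2 := by
    by_contra hcon
    push Not at hcon
    nlinarith
  have hb : ∀ i : Fin 3, (x i - (p : V3) i) ^ 2 ≤ (4 * (p : V3) 2) ^ 2 := by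
    intro i
    have h16 : 2 * (p : V3) 2 * x 2 ≤ (4 * (p : V3) 2) ^ 2 := by nlinarith
    fin_cases i
    · show (x 0 - (p : V3) 0) ^ 2 ≤ (4 * (p : V3) 2) ^ 2
      linarith
    · show (x 1 - (p : V3) 1) ^ 2 ≤ (4 * (p : V3) 2) ^ 2
      linarith
    · show (x 2 - (p : V3) 2) ^ 2 ≤ (4 * (p : V3) 2) ^ 2
      linarith
  rw [Set.mem_Icc]
  constructor
  · intro i
    have := abs_le_of_sq_le_sq' (hb i) (by positivity)
    show (p : V3) i - 4 * (p : V3) 2 ≤ x i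
    linarith [this.1]
  · intro i
    have := abs_le_of_sq_le_sq' (hb i) (by positivity)
    show x i ≤ (p : V3) i + 4 * (p : V3) 2
    linarith [this.2]

theorem ball_gap (G : Subgroup (Equiv.Perm U))
    (hprop : ∀ K : Set U, IsCompact K → {γ | γ ∈ G ∧ (γ '' K ∩ K).Nonempty}.Finite) (p : U) :
    ∃ m : ℝ, 0 < m ∧ ∀ γ ∈ G, γ p ≠ p → 1 + m ≤ ch p (γ p) := by
  classical
  have hfin := hprop _ (ball_compact p)
  have hp : 0 < (p : V3) 2 := p.2
  have hgt : ∀ x : U, x ≠ p → 1 < ch p x := by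
    intro x hx
    have hx2 : 0 < (x : V3) 2 := x.2
    have hpos : 0 < ((x : V3) 0 - (p : V3) 0) ^ 2 + ((x : V3) 1 - (p : V3) 1) ^ 2 +
        ((x : V3) 2 - (p : V3) 2) ^ 2 := by
      by_contra hcon
      push Not at hcon
      have s0 := sq_nonneg ((x : V3) 0 - (p : V3) 0)
      have s1 := sq_nonneg ((x : V3) 1 - (p : V3) 1)
      have s2 := sq_nonneg ((x : V3) 2 - (p : V3) 2)
      have t0 : ((x : V3) 0 - (p : V3) 0) ^ 2 = 0 := by linarith
      have t1 : ((x : V3) 1 - (p : V3) 1) ^ 2 = 0 := by linarith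
      have t2 : ((x : V3) 2 - (p : V3) 2) ^ 2 = 0 := by linarith
      have e0 : (x : V3) 0 = (p : V3) 0 := sub_eq_zero.1 (pow_eq_zero_iff two_ne_zero |>.1 t0)
      have e1 : (x : V3) 1 = (p : V3) 1 := sub_eq_zero.1 (pow_eq_zero_iff two_ne_zero |>.1 t1)
      have e2 : (x : V3) 2 = (p : V3) 2 := sub_eq_zero.1 (pow_eq_zero_iff two_ne_zero |>.1 t2)
      apply hx
      apply Subtype.ext
      funext i
      fin_cases i
      · exact e0
      · exact e1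
      · exact e2
    unfold ch
    have : 0 < (((x : V3) 0 - (p : V3) 0) ^ 2 + ((x : V3) 1 - (p : V3) 1) ^ 2 +
        ((x : V3) 2 - (p : V3) 2) ^ 2) / (2 * (p : V3) 2 * (x : V3) 2) := by positivity
    linarith
  have key : ∀ S : Set (Equiv.Perm U), S.Finite →
      ∃ m : ℝ, 0 < m ∧ ∀ γ ∈ S, γ p ≠ p → 1 + m ≤ ch p (γ p) := by
    intro S hS
    induction S, hS using Set.Finite.induction_on with
    | empty => exact ⟨1, one_pos, fun γ hγ => absurd hγ (Set.notMem_empty γ)⟩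
    | @insert a S _ _ ih =>
      obtain ⟨m, hm, hS'⟩ := ih
      by_cases ha : a p = p
      · refine ⟨m, hm, ?_⟩
        intro γ hγ hne
        rcases hγ with h | h
        · rw [h] at hne; exact absurd ha hne
        · exact hS' γ h hne
      · refine ⟨min m (ch p (a p) - 1), lt_min hm (by linarith [hgt (a p) ha]), ?_⟩
        intro γ hγ hne
        rcases hγ with h | h
        · rw [h]
          linarith [min_le_right m (ch p (a p) - 1)]
        · linarith [min_le_left m (ch p (a p) - 1), hS' γ h hne]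
  obtain ⟨m, hm, hS⟩ := key _ hfin
  refine ⟨min m 1, lt_min hm one_pos, ?_⟩
  intro γ hγ hne
  by_cases h2 : ch p (γ p) ≤ 2
  · have hpK : ch p p ≤ 2 := by
      unfold ch
      simp
    have := hS γ ⟨hγ, γ p, ⟨p, hpK, rfl⟩, h2⟩ hne
    linarith [min_le_left m 1]
  · push Not at h2
    linarith [min_le_right m 1]

/-- there is a ball around `p` whose translates are disjoint and stay away from the plane -/
theorem ball_exists (G : Subgroup (Equiv.Perm U))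
    (hG : ∀ γ ∈ G, ∃ A : Matrix (Fin 2) (Fin 2) ℂ, A.det = 1 ∧ ∀ x : U, (γ x : V3) = act A x)
    (hprop : ∀ K : Set U, IsCompact K → {γ | γ ∈ G ∧ (γ '' K ∩ K).Nonempty}.Finite)
    (p : U) (c : ℝ) (hc : 0 < c) (hp : ∀ γ ∈ G, c ≤ |(γ p : V3) 1| / (γ p : V3) 2) :
    ∃ C₀ c' : ℝ, 1 < C₀ ∧ 0 < c' ∧
      (∀ γ ∈ G, ∀ γ' ∈ G, ∀ z : U, ch (γ p) z ≤ C₀ → ch (γ' p) z ≤ C₀ → γ p = γ' p) ∧
      (∀ γ ∈ G, ∀ z : U, ch (γ p) z ≤ C₀ → c' ≤ |(z : V3) 1| / (z : V3) 2) := by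
  obtain ⟨m, hm, hgap⟩ := ball_gap G hprop p
  obtain ⟨δ, hδ0, hδ1, hδ2, hδ3⟩ : ∃ δ : ℝ, 0 < δ ∧ δ ≤ 1 / 4 ∧ δ ≤ c ^ 2 / 16 ∧ δ ≤ m / 64 := by
    refine ⟨min (min (1 / 4) (c ^ 2 / 16)) (m / 64), ?_, ?_, ?_, ?_⟩
    · refine lt_min (lt_min (by norm_num) (by positivity)) (by positivity)
    · exact (min_le_left _ _).trans (min_le_left _ _)
    · exact (min_le_left _ _).trans (min_le_right _ _)
    · exact min_le_right _ _
  refine ⟨1 + δ, c / 4, by linarith, by positivity, ?_, ?_⟩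
  · intro γ hγ γ' hγ' z h1 h2
    by_contra hne
    have hq : 0 < (γ p : V3) 2 := (γ p).2
    have hq' : 0 < (γ' p : V3) 2 := (γ' p).2
    have hz : 0 < (z : V3) 2 := z.2
    obtain ⟨a1, a2, a3⟩ := ball_close (γ p) z δ hq hz hδ1 h1
    obtain ⟨b1, b2, b3⟩ := ball_close (γ' p) z δ hq' hz hδ1 h2
    have hmem : γ⁻¹ * γ' ∈ G := G.mul_mem (G.inv_mem hγ) hγ'
    have hne' : (γ⁻¹ * γ') p ≠ p := by
      intro h
      apply hne
      have h3 : γ ((γ⁻¹ * γ') p) = γ' p := by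
        simp [Equiv.Perm.mul_apply]
      rw [← h3, h]
    have hg := hgap _ hmem hne'
    obtain ⟨A, hA, hAx⟩ := hG γ hγ
    have h4 : ch (γ p) (γ' p) = ch p ((γ⁻¹ * γ') p) := by
      have h3 : γ ((γ⁻¹ * γ') p) = γ' p := by
        simp [Equiv.Perm.mul_apply]
      rw [← h3, hAx, hAx]
      exact act_ch A hA _ _ p.2 ((γ⁻¹ * γ') p).2
    rw [← h4] at hg
    unfold ch at hg
    have h5 : m ≤ (((γ' p : V3) 0 - (γ p : V3) 0) ^ 2 + ((γ' p : V3) 1 - (γ p : V3) 1) ^ 2 +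
        ((γ' p : V3) 2 - (γ p : V3) 2) ^ 2) / (2 * (γ p : V3) 2 * (γ' p : V3) 2) := by
      linarith
    rw [le_div_iff₀ (by positivity)] at h5
    generalize (γ p : V3) = q at *
    generalize (γ' p : V3) = q' at *
    generalize (z : V3) = z at *
    have h6 : (q' 0 - q 0) ^ 2 + (q' 1 - q 1) ^ 2 + (q' 2 - q 2) ^ 2 ≤
        2 * ((z 0 - q 0) ^ 2 + (z 1 - q 1) ^ 2 + (z 2 - q 2) ^ 2) +
        2 * ((z 0 - q' 0) ^ 2 + (z 1 - q' 1) ^ 2 + (z 2 - q' 2) ^ 2) := by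
      nlinarith [sq_nonneg ((z 0 - q 0) + (z 0 - q' 0)), sq_nonneg ((z 1 - q 1) + (z 1 - q' 1)),
        sq_nonneg ((z 2 - q 2) + (z 2 - q' 2))]
    have h7 : δ * (2 * q 2 * z 2) ≤ δ * (4 * z 2 * z 2) := by
      have : 2 * q 2 * z 2 ≤ 4 * z 2 * z 2 := by nlinarith
      gcongr
    have h8 : δ * (2 * q' 2 * z 2) ≤ δ * (4 * z 2 * z 2) := by
      have : 2 * q' 2 * z 2 ≤ 4 * z 2 * z 2 := by nlinarith
      gcongr
    have h9 : z 2 * z 2 ≤ 4 * (q 2 * q' 2) := by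
      calc z 2 * z 2 ≤ (2 * q 2) * (2 * q' 2) := by gcongr
        _ = 4 * (q 2 * q' 2) := by ring
    have h10 : δ * (z 2 * z 2) ≤ m / 64 * (4 * (q 2 * q' 2)) := by gcongr
    have h11 : 0 < m * (q 2 * q' 2) := by positivity
    nlinarith
  · intro γ hγ z h1
    have hq : 0 < (γ p : V3) 2 := (γ p).2
    have hz : 0 < (z : V3) 2 := z.2
    obtain ⟨a1, a2, a3⟩ := ball_close (γ p) z δ hq hz hδ1 h1
    have hcq := hp γ hγ
    rw [le_div_iff₀ hq] at hcq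
    rw [le_div_iff₀ hz]
    generalize (γ p : V3) = q at *
    generalize (z : V3) = z at *
    have h2 : (z 1 - q 1) ^ 2 ≤ (c / 2 * q 2) ^ 2 := by
      have h3 : δ * (2 * q 2 * z 2) ≤ c ^ 2 / 16 * (2 * q 2 * (2 * q 2)) := by gcongr
      nlinarith [sq_nonneg (z 0 - q 0), sq_nonneg (z 2 - q 2)]
    have h3 : |z 1 - q 1| ≤ c / 2 * q 2 := abs_le_of_sq_le_sq h2 (by positivity)
    have h4 : |q 1| ≤ |z 1| + |z 1 - q 1| := by
      have := abs_sub_abs_le_abs_sub (q 1) (z 1)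
      rw [abs_sub_comm] at this
      linarith
    nlinarith

end Pool.Agent.BL.Ball
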