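import Mathlib

set_option autoImplicit false

namespace Pool.Agent.BL

open Set Filter Topology MeasureTheory
open scoped ContDiff

/-- Coordinate 3-space. -/
abbrev V3 : Type := Fin 3 → ℝ

/-! ### Riemannian metrics on open subsets of 3-space -/

/-- Derivative at `z`, in the direction `x`, of the function `y ↦ g_y(v,w)`. -/
noncomputable def dmetric (g : V3 → V3 → V3 → ℝ) (z x v w : V3) : ℝ :=
  fderiv ℝ (fun y => g y v w) z x

/-- `g` is a smooth Riemannian metric on the open set `X`. -/
structure IsMetric (X : Set V3) (g : V3 → V3 → V3 → ℝ) : Prop where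
  add_left : ∀ z ∈ X, ∀ v v' w, g z (v + v') w = g z v w + g z v' w
  smul_left : ∀ z ∈ X, ∀ (c : ℝ) (v w : V3), g z (c • v) w = c * g z v w
  symm : ∀ z ∈ X, ∀ v w, g z v w = g z w v
  pos : ∀ z ∈ X, ∀ v, v ≠ 0 → 0 < g z v v
  smooth : ∀ v w, ContDiffOn ℝ ∞ (fun z => g z v w) X

/-- `Ch` gives the Christoffel symbols of `g` on `X` (Koszul formula for constant fields):
`Ch z x v` is the covariant derivative at `z` of the constant vector field `v` in direction `x`,
for the Levi-Civita connection of `g`. -/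
def IsLeviCivita (X : Set V3) (g : V3 → V3 → V3 → ℝ) (Ch : V3 → V3 → V3 → V3) : Prop :=
  ∀ z ∈ X, ∀ x v w,
    2 * g z (Ch z x v) w = dmetric g z x v w + dmetric g z v x w - dmetric g z w x v

/-- Curvature tensor `R(u,v)w` of the connection with Christoffel symbols `Ch`. -/
noncomputable def curv (Ch : V3 → V3 → V3 → V3) (z u v w : V3) : V3 :=
  fderiv ℝ (fun y => Ch y v w) z u - fderiv ℝ (fun y => Ch y u w) z v
    + Ch z u (Ch z v w) - Ch z v (Ch z u w)

/-- Sectional curvature at `z` of the plane spanned by `u` and `v`. -/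
noncomputable def sec (g : V3 → V3 → V3 → ℝ) (Ch : V3 → V3 → V3 → V3) (z u v : V3) : ℝ :=
  g z (curv Ch z u v v) u / (g z u u * g z v v - g z u v ^ 2)

/-- Length of a curve parametrised by the unit interval. -/
noncomputable def curveLength (g : V3 → V3 → V3 → ℝ) (c : ℝ → V3) : ℝ :=
  ∫ t in (0 : ℝ)..1, Real.sqrt (g (c t) (deriv c t) (deriv c t))

/-- `L` is the length of a piecewise continuously differentiable curve in `X` from `p` to `q`:
the curve is the concatenation of the `C^1` curves `c 0, ..., c (n-1)` in `X`. -/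
def IsPathLength (X : Set V3) (g : V3 → V3 → V3 → ℝ) (p q : V3) (L : ℝ) : Prop :=
  ∃ (n : ℕ) (pt : ℕ → V3) (c : ℕ → ℝ → V3), pt 0 = p ∧ pt n = q ∧
    (∀ i < n, ContDiff ℝ 1 (c i) ∧ (∀ t ∈ Icc (0 : ℝ) 1, c i t ∈ X) ∧
      c i 0 = pt i ∧ c i 1 = pt (i + 1)) ∧
    L = ∑ i ∈ Finset.range n, curveLength g (c i)

/-- Riemannian distance in `X`: infimum of the lengths of piecewise `C^1` curves in `X`. -/
noncomputable def rdist (X : Set V3) (g : V3 → V3 → V3 → ℝ) (p q : V3) : ℝ :=
  sInf {L | IsPathLength X g p q L}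

/-! ### Closed 3-manifolds with `K ≤ -1`, given by their universal covering -/

/-- `(X, g, G)` is the universal covering of a closed connected Riemannian 3-manifold
`M = G \ X` with sectional curvature `K ≤ -1` everywhere and `K = -1` for at least one tangent
plane: `X` is an open subset of 3-space homeomorphic to 3-space, `g` is a smooth Riemannian metric
on `X`, and `G` is a group of smooth isometries of `(X, g)` acting freely, properly
discontinuously and cocompactly. -/
structure IsModel (X : Set V3) (g : V3 → V3 → V3 → ℝ) (G : Subgroup (Equiv.Perm X)) : Prop where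
  isOpen : IsOpen X
  homeo : Nonempty (X ≃ₜ V3)
  metric : IsMetric X g
  isometries : ∀ γ ∈ G, ∃ F : V3 → V3, ContDiffOn ℝ ∞ F X ∧ (∀ x : X, (γ x : V3) = F x) ∧
    ∀ x ∈ X, ∀ v w, g (F x) (fderiv ℝ F x v) (fderiv ℝ F x w) = g x v w
  free : ∀ γ ∈ G, (∃ x, γ x = x) → γ = 1
  properlyDisc : ∀ K : Set X, IsCompact K → {γ | γ ∈ G ∧ (γ '' K ∩ K).Nonempty}.Finite
  cocompact : ∃ K : Set X, IsCompact K ∧ ∀ x, ∃ γ ∈ G, γ x ∈ K
  curvature : ∃ Ch, IsLeviCivita X g Ch ∧
    (∀ z ∈ X, ∀ u v, LinearIndependent ℝ ![u, v] → sec g Ch z u v ≤ -1) ∧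
    ∃ z ∈ X, ∃ u v, LinearIndependent ℝ ![u, v] ∧ sec g Ch z u v = -1

/-! ### The boundary at infinity and its visual metric -/

section boundary

variable {α : Type*}

/-- The Gromov product `(x|y)_o = (d(o,x) + d(o,y) - d(x,y)) / 2`. -/
noncomputable def gp (d : α → α → ℝ) (o x y : α) : ℝ := (d o x + d o y - d x y) / 2

/-- The sequence `x` converges at infinity: `(x_m|x_n)_o → ∞` as `m, n → ∞`. -/
def Conv (d : α → α → ℝ) (o : α) (x : ℕ → α) : Prop :=
  Tendsto (fun p : ℕ × ℕ => gp d o (x p.1) (x p.2)) atTop atTop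

/-- The boundary at infinity: sequences converging at infinity, up to the relation
`(x_n|y_n)_o → ∞`. -/
def Bdry (d : α → α → ℝ) (o : α) : Type _ :=
  Quot (fun x y : {x : ℕ → α // Conv d o x} =>
    Tendsto (fun n => gp d o (x.1 n) (y.1 n)) atTop atTop)

/-- The boundary point defined by a sequence converging at infinity. -/
def Bdry.mk {d : α → α → ℝ} {o : α} (x : {x : ℕ → α // Conv d o x}) : Bdry d o := Quot.mk _ x

/-- The visual metric `e^{-(ξ|η)_o}` (and `0` if `ξ = η`). In a CAT(-1) space the Gromov product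
`(x_n|y_n)_o` converges to `(ξ|η)_o` for all sequences `x_n → ξ`, `y_n → η`; in order to have a
definition in general, we take the upper limit, and the supremum over all sequences. -/
noncomputable def vis (d : α → α → ℝ) (o : α) (ξ η : Bdry d o) : ℝ :=
  sSup {r | ∃ x y : {x : ℕ → α // Conv d o x}, Bdry.mk x = ξ ∧ Bdry.mk y = η ∧
    r = limsup (fun n => Real.exp (-(gp d o (x.1 n) (y.1 n)))) atTop}

end boundary

/-! ### Hausdorff dimension -/

section hausdorff

variable {β : Type*}

/-- For the distance function `ρ` on `β`, the space `β` has `s`-dimensional Hausdorff measure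
zero: for every `ε > 0` it is covered by countably many sets of diameters at most `r_n` with
`∑ r_n^s ≤ ε`. -/
def HNull (ρ : β → β → ℝ) (s : ℝ) : Prop :=
  ∀ ε : ℝ, 0 < ε → ∃ (A : ℕ → Set β) (r : ℕ → ℝ), (∀ b, ∃ n, b ∈ A n) ∧
    (∀ n, 0 ≤ r n ∧ ∀ a ∈ A n, ∀ b ∈ A n, ρ a b ≤ r n) ∧
    Summable (fun n => r n ^ s) ∧ ∑' n, r n ^ s ≤ ε

/-- Hausdorff dimension of `β` for the distance function `ρ`. -/
noncomputable def hausdorffDim (ρ : β → β → ℝ) : ℝ := sInf {s | 0 < s ∧ HNull ρ s}

end hausdorff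

/-! ### Upper half space -/

/-- Upper half space. -/
def U : Set V3 := {x | 0 < x 2}

/-- Base point `(0,0,1)`. -/
def o3 : V3 := ![0, 0, 1]

/-- Base point of the upper half space. -/
def oU : U := ⟨o3, by simp [U, o3]⟩

end Pool.Agent.BL
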