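import Pool.Agent.BL.Defs
import Pool.Agent.BL.ChPos
import Pool.Agent.BL.ActCh
import Pool.Agent.BL.ActAlg
import Pool.Agent.BL.ActSm

set_option autoImplicit false
open Set Filter Topology MeasureTheory
open scoped ContDiff


namespace Pool.Agent.BL.Bump
open Pool.Agent.BL
open Pool.Agent.BL.ChPos (ch_pos)
open Pool.Agent.BL.ActCh (act_ch)
open Pool.Agent.BL.ActAlg (act_mem)
open Pool.Agent.BL.ActSm (act_smooth)

open Set Filter Topology MeasureTheory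
open scoped ContDiff






/-! ## TARGET (prove this) -/

theorem bump_ch_smooth (q : V3) (hq : q ∈ U) (x : V3) (hx : x ∈ U) :
    ContDiffAt ℝ ∞ (fun y : V3 => ch q y) x := by
  have hq' : 0 < q 2 := hq
  have hx' : 0 < x 2 := hx
  unfold ch
  have h : ∀ i : Fin 3, ContDiffAt ℝ ∞ (fun y : V3 => y i) x := fun i =>
    (contDiff_apply ℝ ℝ i).contDiffAt
  apply contDiffAt_const.add
  apply ContDiffAt.div
  · exact ((((h 0).sub contDiffAt_const).pow 2).add (((h 1).sub contDiffAt_const).pow 2)).add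
      (((h 2).sub contDiffAt_const).pow 2)
  · exact contDiffAt_const.mul (h 2)
  · positivity

theorem bump_ch_eq (q y : V3) (hq : q ∈ U) (hy : y ∈ U) :
    ch q y = ((y 0 - q 0) ^ 2 + (y 1 - q 1) ^ 2 + (y 2) ^ 2 + (q 2) ^ 2) / (2 * q 2) * (1 / y 2) := by
  have hq' : q 2 ≠ 0 := ne_of_gt hq
  have hy' : y 2 ≠ 0 := ne_of_gt hy
  unfold ch
  field_simp
  ring

theorem bump_unif (x : V3) (hx : x ∈ U) (t : ℝ) (ht0 : 0 < t) (ht1 : t < 1) :
    ∀ᶠ y in 𝓝 x, y ∈ U ∧ ∀ q ∈ U, (1 - t) ^ 2 * ch q x ≤ ch q y := by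
  have hx' : 0 < x 2 := hx
  have e1 : ∀ᶠ y : V3 in 𝓝 x, 0 < y 2 := by
    have : ContinuousAt (fun y : V3 => y 2) x := (continuous_apply 2).continuousAt
    exact this.eventually_const_lt hx'
  have e2 : ∀ᶠ y : V3 in 𝓝 x,
      (1 - t) * (x 2) ^ 2 < (y 2) ^ 2 - ((y 0 - x 0) ^ 2 + (y 1 - x 1) ^ 2) / t := by
    have : ContinuousAt (fun y : V3 => (y 2) ^ 2 - ((y 0 - x 0) ^ 2 + (y 1 - x 1) ^ 2) / t) x := by
      fun_prop
    apply this.eventually_const_lt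
    have : 0 < t * (x 2) ^ 2 := by positivity
    simp only [sub_self]
    norm_num
    nlinarith
  have e3 : ∀ᶠ y : V3 in 𝓝 x, (1 - t) * y 2 < x 2 := by
    have : ContinuousAt (fun y : V3 => (1 - t) * y 2) x :=
      (continuous_const.mul (continuous_apply 2)).continuousAt
    apply this.eventually_lt_const
    nlinarith
  filter_upwards [e1, e2, e3] with y h1 h2 h3
  refine ⟨h1, fun q hq => ?_⟩
  have hq' : 0 < q 2 := hq
  rw [bump_ch_eq q x hq hx, bump_ch_eq q y hq h1]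
  have k1 : (1 - t) / x 2 ≤ 1 / y 2 := by
    rw [div_le_div_iff₀ hx' h1]
    linarith
  have sq1 : ∀ a h : ℝ, (1 - t) * a ^ 2 - h ^ 2 / t ≤ (a + h) ^ 2 := by
    intro a h
    have : (a + h) ^ 2 - ((1 - t) * a ^ 2 - h ^ 2 / t) = t * (a + h / t) ^ 2 + h ^ 2 := by
      field_simp
      ring
    have : 0 ≤ t * (a + h / t) ^ 2 + h ^ 2 := by positivity
    linarith
  have k2 : (1 - t) * ((x 0 - q 0) ^ 2 + (x 1 - q 1) ^ 2 + (x 2) ^ 2 + (q 2) ^ 2) ≤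
      (y 0 - q 0) ^ 2 + (y 1 - q 1) ^ 2 + (y 2) ^ 2 + (q 2) ^ 2 := by
    have a0 := sq1 (x 0 - q 0) (y 0 - x 0)
    have a1 := sq1 (x 1 - q 1) (y 1 - x 1)
    have b0 : x 0 - q 0 + (y 0 - x 0) = y 0 - q 0 := by ring
    have b1 : x 1 - q 1 + (y 1 - x 1) = y 1 - q 1 := by ring
    rw [b0] at a0
    rw [b1] at a1
    rw [add_div] at h2
    nlinarith [mul_pos ht0 (pow_pos hq' 2)]
  have k3 : 0 ≤ (x 0 - q 0) ^ 2 + (x 1 - q 1) ^ 2 + (x 2) ^ 2 + (q 2) ^ 2 := by positivity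
  have k4 : 0 < 1 - t := by linarith
  set Φx := (x 0 - q 0) ^ 2 + (x 1 - q 1) ^ 2 + (x 2) ^ 2 + (q 2) ^ 2 with hΦx
  set Φy := (y 0 - q 0) ^ 2 + (y 1 - q 1) ^ 2 + (y 2) ^ 2 + (q 2) ^ 2 with hΦy
  calc (1 - t) ^ 2 * (Φx / (2 * q 2) * (1 / x 2))
      = ((1 - t) * Φx) / (2 * q 2) * ((1 - t) / x 2) := by ring
    _ ≤ ((1 - t) * Φx) / (2 * q 2) * (1 / y 2) := by
        apply mul_le_mul_of_nonneg_left k1
        positivity
    _ ≤ Φy / (2 * q 2) * (1 / y 2) := by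
        apply mul_le_mul_of_nonneg_right _ (by positivity)
        exact div_le_div_of_nonneg_right k2 (by positivity)

open Classical in
/-- the function `u` -/
noncomputable def bumpF (G : Subgroup (Equiv.Perm U)) (p : U) (C₀ : ℝ) (b : ℝ → ℝ) (z : V3) : ℝ :=
  if h : z ∈ U ∧ ∃ γ ∈ G, ch (γ p) z < C₀ then b (ch (h.2.choose p) z) else 0

theorem bumpF_val (G : Subgroup (Equiv.Perm U)) (p : U) (C₀ : ℝ)
    (hdis : ∀ γ ∈ G, ∀ γ' ∈ G, ∀ z : U, ch (γ p) z ≤ C₀ → ch (γ' p) z ≤ C₀ → γ p = γ' p)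
    (b : ℝ → ℝ) (γ : Equiv.Perm U) (hγ : γ ∈ G) (z : V3) (hz : z ∈ U) (h : ch (γ p) z < C₀) :
    bumpF G p C₀ b z = b (ch (γ p) z) := by
  have hh : z ∈ U ∧ ∃ γ ∈ G, ch (γ p) z < C₀ := ⟨hz, γ, hγ, h⟩
  unfold bumpF
  rw [dif_pos hh]
  have h1 := hh.2.choose_spec
  have h2 := hdis _ h1.1 γ hγ ⟨z, hz⟩ h1.2.le h.le
  rw [h2]

theorem bumpF_zero (G : Subgroup (Equiv.Perm U)) (p : U) (C₀ : ℝ)
    (b : ℝ → ℝ) (z : V3) (h : ∀ γ ∈ G, ¬ ch (γ p) z < C₀) :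
    bumpF G p C₀ b z = 0 := by
  unfold bumpF
  rw [dif_neg]
  rintro ⟨-, γ, hγ, h1⟩
  exact h γ hγ h1

/-- for every smooth profile `b` supported in `(-∞, C₀)` there is a smooth invariant function `u`
on the upper half space given by `b (ch q z)` on the ball around each orbit point `q`, and zero
outside the balls. -/
theorem bump (G : Subgroup (Equiv.Perm U))
    (hG : ∀ γ ∈ G, ∃ A : Matrix (Fin 2) (Fin 2) ℂ, A.det = 1 ∧ ∀ x : U, (γ x : V3) = act A x)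
    (hprop : ∀ K : Set U, IsCompact K → {γ | γ ∈ G ∧ (γ '' K ∩ K).Nonempty}.Finite)
    (p : U) (C₀ : ℝ) (hC₀ : 1 < C₀)
    (hdis : ∀ γ ∈ G, ∀ γ' ∈ G, ∀ z : U, ch (γ p) z ≤ C₀ → ch (γ' p) z ≤ C₀ → γ p = γ' p) :
    ∃ ub : (ℝ → ℝ) → V3 → ℝ, ∀ (b : ℝ → ℝ) (C₁ : ℝ), ContDiff ℝ ∞ b → C₁ < C₀ →
      (∀ c, C₁ ≤ c → b c = 0) →
      ContDiffOn ℝ ∞ (ub b) U ∧
      (∀ γ ∈ G, ∀ x : U, ub b (γ x) = ub b x) ∧
      (∀ x ∈ U, ∃ γ ∈ G, ∀ᶠ y in 𝓝 x, ub b y = b (ch (γ p) y)) ∧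
      (∀ γ ∈ G, ∀ x : U, ch (γ p) x < C₀ → ub b x = b (ch (γ p) x)) ∧
      (∀ x : U, ub b x ≠ 0 → ∃ γ ∈ G, ch (γ p) x < C₁ ∧ ub b x = b (ch (γ p) x)) := by
  have hinv : ∀ γ ∈ G, ∀ q x : U, ch (γ q) (γ x) = ch q x := by
    intro γ hγ q x
    obtain ⟨A, hA, hact⟩ := hG γ hγ
    rw [hact q, hact x]
    exact act_ch A hA q x q.2 x.2
  refine ⟨bumpF G p C₀, ?_⟩
  intro b C₁ hb hC₁ hb0
  -- local formula
  have hloc : ∀ x ∈ U, ∃ γ ∈ G, ∀ᶠ y in 𝓝 x, bumpF G p C₀ b y = b (ch (γ p) y) := by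
    intro x hx
    by_cases hcase : ∃ γ ∈ G, ch (γ p) x < C₀
    · obtain ⟨γ, hγ, hlt⟩ := hcase
      refine ⟨γ, hγ, ?_⟩
      have hc : ContinuousAt (fun y : V3 => ch (γ p) y) x :=
        (bump_ch_smooth (γ p) (γ p).2 x hx).continuousAt
      have hU : ContinuousAt (fun y : V3 => y 2) x := (continuous_apply 2).continuousAt
      filter_upwards [hc.eventually_lt_const hlt, hU.eventually_const_lt (show (0 : ℝ) < x 2 from hx)]
        with y hy1 hy2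
      exact bumpF_val G p C₀ hdis b γ hγ y hy2 hy1
    · push Not at hcase
      refine ⟨1, G.one_mem, ?_⟩
      set t : ℝ := min (1 / 2) ((C₀ - C₁) / (2 * C₀)) with ht
      have hC0 : 0 < C₀ := by linarith
      have ht0 : 0 < t := lt_min (by norm_num) (div_pos (by linarith) (by linarith))
      have ht1 : t < 1 := lt_of_le_of_lt (min_le_left _ _) (by norm_num)
      have ht2 : t * (2 * C₀) ≤ C₀ - C₁ := by
        have := min_le_right (1 / 2 : ℝ) ((C₀ - C₁) / (2 * C₀))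
        rw [← ht] at this
        rwa [le_div_iff₀ (by linarith)] at this
      have hkey : C₁ ≤ (1 - t) ^ 2 * C₀ := by nlinarith [mul_pos (mul_pos ht0 ht0) hC0]
      filter_upwards [bump_unif x hx t ht0 ht1] with y hy
      obtain ⟨hyU, hy⟩ := hy
      have hall : ∀ γ ∈ G, C₁ ≤ ch (γ p) y := by
        intro γ hγ
        have h1 := hy (γ p) (γ p).2
        have h2 : (1 - t) ^ 2 * C₀ ≤ (1 - t) ^ 2 * ch (γ p) x :=
          mul_le_mul_of_nonneg_left (hcase γ hγ) (by positivity)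
        linarith
      rw [hb0 _ (hall 1 G.one_mem)]
      by_cases h3 : ∃ γ ∈ G, ch (γ p) y < C₀
      · obtain ⟨γ, hγ, hlt⟩ := h3
        rw [bumpF_val G p C₀ hdis b γ hγ y hyU hlt]
        exact hb0 _ (hall γ hγ)
      · push Not at h3
        exact bumpF_zero G p C₀ b y (fun γ hγ => not_lt.2 (h3 γ hγ))
  refine ⟨?_, ?_, hloc, ?_, ?_⟩
  · intro x hx
    obtain ⟨γ, hγ, he⟩ := hloc x hx
    have h1 : ContDiffAt ℝ ∞ (fun y : V3 => b (ch (γ p) y)) x :=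
      hb.contDiffAt.comp x (bump_ch_smooth (γ p) (γ p).2 x hx)
    exact (h1.congr_of_eventuallyEq he).contDiffWithinAt
  · intro γ hγ x
    by_cases h3 : ∃ γ' ∈ G, ch (γ' p) x < C₀
    · obtain ⟨γ', hγ', hlt⟩ := h3
      have h4 : ch ((γ * γ') p) (γ x) = ch (γ' p) x := hinv γ hγ (γ' p) x
      rw [bumpF_val G p C₀ hdis b γ' hγ' x x.2 hlt,
        bumpF_val G p C₀ hdis b (γ * γ') (G.mul_mem hγ hγ') (γ x) (γ x).2 (by rw [h4]; exact hlt), h4]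
    · push Not at h3
      rw [bumpF_zero G p C₀ b x (fun γ' hγ' => not_lt.2 (h3 γ' hγ')),
        bumpF_zero G p C₀ b (γ x) (fun γ' hγ' => ?_)]
      rw [not_lt]
      have h4 := h3 (γ⁻¹ * γ') (G.mul_mem (G.inv_mem hγ) hγ')
      have h5 : ch (γ ((γ⁻¹ * γ') p)) (γ x) = ch ((γ⁻¹ * γ') p) x := hinv γ hγ _ x
      have h6 : γ ((γ⁻¹ * γ') p) = γ' p := by
        exact Equiv.apply_symm_apply γ (γ' p)
      rw [h6] at h5
      rw [h5]
      exact h4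
  · intro γ hγ x hlt
    exact bumpF_val G p C₀ hdis b γ hγ x x.2 hlt
  · intro x hne
    by_cases h3 : ∃ γ ∈ G, ch (γ p) x < C₀
    · obtain ⟨γ, hγ, hlt⟩ := h3
      have h4 := bumpF_val G p C₀ hdis b γ hγ x x.2 hlt
      refine ⟨γ, hγ, ?_, h4⟩
      by_contra h5
      apply hne
      rw [h4]
      exact hb0 _ (not_lt.1 h5)
    · push Not at h3
      exact absurd (bumpF_zero G p C₀ b x (fun γ' hγ' => not_lt.2 (h3 γ' hγ'))) hne


end Pool.Agent.BL.Bump
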