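import Pool.Agent.BL.Defs

set_option autoImplicit false
open Set Filter Topology MeasureTheory
open scoped ContDiff


namespace Pool.Agent.BL.CLen
open Pool.Agent.BL

open Set Filter Topology MeasureTheory
open scoped Pointwise
open scoped ContDiff

/-! ## TARGET (prove this) -/

theorem curveLength_hg (u : V3 → ℝ) (a : ℝ) (c : ℝ → V3) (hU : ∀ t ∈ Icc (0 : ℝ) 1, c t ∈ U) :
    curveLength (hg u a) c = Real.exp a *
      ∫ t in (0 : ℝ)..1, Real.exp (u (c t)) * (Real.sqrt (dot (deriv c t) (deriv c t)) / c t 2) := by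
  unfold curveLength
  rw [← intervalIntegral.integral_const_mul]
  apply intervalIntegral.integral_congr
  intro t ht
  rw [uIcc_of_le zero_le_one] at ht
  have hz : 0 < c t 2 := hU t ht
  show Real.sqrt (hg u a (c t) (deriv c t) (deriv c t)) = _
  have h1 : hg u a (c t) (deriv c t) (deriv c t)
      = (Real.exp (u (c t) - Real.log (c t 2) + a)) ^ 2 * dot (deriv c t) (deriv c t) := by
    unfold hg cg
    rw [← Real.exp_nat_mul]
    norm_num
  rw [h1, Real.sqrt_mul (sq_nonneg _), Real.sqrt_sq (Real.exp_pos _).le, Real.exp_add, Real.exp_sub,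
    Real.exp_log hz]
  ring

theorem sd_eq (u : V3 → ℝ) (a : ℝ) (x y : U) : SD u a x y = Real.exp a * DD u x y := by
  have hcl : ∀ c : ℝ → V3, (∀ t ∈ Icc (0 : ℝ) 1, c t ∈ U) →
      curveLength (hg u a) c = Real.exp a * curveLength (hg u 0) c := by
    intro c hc
    rw [curveLength_hg u a c hc, curveLength_hg u 0 c hc, Real.exp_zero, one_mul]
  have hset : {L | IsPathLength U (hg u a) x y L}
      = Real.exp a • {L | IsPathLength U (hg u 0) x y L} := by
    ext L
    rw [Set.mem_smul_set]
    constructor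
    · rintro ⟨n, pt, c, h0, hn, hc, hL⟩
      refine ⟨∑ i ∈ Finset.range n, curveLength (hg u 0) (c i), ⟨n, pt, c, h0, hn, hc, rfl⟩, ?_⟩
      rw [hL, smul_eq_mul, Finset.mul_sum]
      refine Finset.sum_congr rfl ?_
      intro i hi
      exact (hcl (c i) (hc i (Finset.mem_range.1 hi)).2.1).symm
    · rintro ⟨L', ⟨n, pt, c, h0, hn, hc, hL⟩, rfl⟩
      refine ⟨n, pt, c, h0, hn, hc, ?_⟩
      rw [hL, smul_eq_mul, Finset.mul_sum]
      refine Finset.sum_congr rfl ?_
      intro i hi
      exact (hcl (c i) (hc i (Finset.mem_range.1 hi)).2.1).symm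
  unfold SD DD rdist
  rw [hset, Real.sInf_smul_of_nonneg (Real.exp_pos a).le, smul_eq_mul]

end Pool.Agent.BL.CLen
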