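import Pool.Agent.BL.Defs

set_option autoImplicit false
open Set Filter Topology MeasureTheory
open scoped ContDiff


namespace Pool.Agent.BL.Geo
open Pool.Agent.BL

open Set Filter Topology MeasureTheory
open scoped ContDiff

/-! ## TARGET (prove this) -/

theorem h170_core (x0 x1 y0 y1 p q C S : ℝ) (hS : 0 < S) (hCS : C ^ 2 - S ^ 2 = 1)
    (h1 : 2 * C * p * q = p ^ 2 + q ^ 2 + p ^ 2 * q ^ 2 * ((y0 - x0) ^ 2 + (y1 - x1) ^ 2)) :
    (p * ((y0 * q - x0 * p * C) / S - x0 * ((q - p * C) / S))) ^ 2 +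
      (p * ((y1 * q - x1 * p * C) / S - x1 * ((q - p * C) / S))) ^ 2 =
      p ^ 2 - ((q - p * C) / S) ^ 2 := by
  have e0 : (y0 * q - x0 * p * C) / S - x0 * ((q - p * C) / S) = q * (y0 - x0) / S := by
    field_simp
    ring
  have e1 : (y1 * q - x1 * p * C) / S - x1 * ((q - p * C) / S) = q * (y1 - x1) / S := by
    field_simp
    ring
  rw [e0, e1]
  field_simp
  linear_combination (-1) * h1 + p ^ 2 * hCS

theorem h170_ne (p ν : ℝ) (hp : 0 < p) (h : ν ^ 2 ≤ p ^ 2) (s : ℝ) :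
    0 < Real.cosh s * p + Real.sinh s * ν := by
  have h1 := abs_le_of_sq_le_sq' h hp.le
  have e : Real.cosh s * p + Real.sinh s * ν =
      (p + ν) / 2 * Real.exp s + (p - ν) / 2 * Real.exp (-s) := by
    rw [Real.cosh_eq, Real.sinh_eq]; ring
  rw [e]
  have a1 := Real.exp_pos s
  have a2 := Real.exp_pos (-s)
  rcases lt_or_ge 0 (p + ν) with h2 | h2
  · have b1 : 0 < (p + ν) / 2 * Real.exp s := by positivity
    have b2 : 0 ≤ (p - ν) / 2 * Real.exp (-s) :=
      mul_nonneg (by linarith [h1.2]) a2.le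
    linarith
  · have h3 : 0 < p - ν := by linarith
    have b1 : 0 < (p - ν) / 2 * Real.exp (-s) := by positivity
    have b2 : 0 ≤ (p + ν) / 2 * Real.exp s := mul_nonneg (by linarith [h1.1]) a1.le
    linarith

theorem h170_hd (m r L t : ℝ) : HasDerivAt (fun t => Real.cosh (L * t) * m + Real.sinh (L * t) * r)
    (L * (Real.sinh (L * t) * m + Real.cosh (L * t) * r)) t := by
  have h0 : HasDerivAt (fun t => L * t) L t := by
    have := (hasDerivAt_id t).const_mul L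
    simpa using this
  have h1 := (h0.cosh).mul_const m
  have h2 := (h0.sinh).mul_const r
  refine (h1.add h2).congr_deriv ?_
  ring

theorem h170_curve (x y : V3) (hx : 0 < x 2) (hy : 0 < y 2) (L : ℝ) (hL : 0 < L)
    (hch : Real.cosh L = ch x y) : ∃ c : ℝ → V3, ContDiff ℝ 1 c ∧ c 0 = x ∧ c 1 = y ∧
    (∀ t, 0 < c t 2) ∧
    (∀ t, Real.sqrt (dot (deriv c t) (deriv c t)) / c t 2 = L) ∧
    (x 1 = 0 → y 1 = 0 → ∀ t, c t 1 = 0) := by
  obtain ⟨p, hp⟩ : ∃ p, p = 1 / x 2 := ⟨_, rfl⟩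
  obtain ⟨q, hq⟩ : ∃ q, q = 1 / y 2 := ⟨_, rfl⟩
  have hp0 : 0 < p := by rw [hp]; positivity
  have hq0 : 0 < q := by rw [hq]; positivity
  have hxp : x 2 * p = 1 := by rw [hp]; field_simp
  have hyq : y 2 * q = 1 := by rw [hq]; field_simp
  have hS : 0 < Real.sinh L := Real.sinh_pos_iff.2 hL
  have hCS : Real.cosh L ^ 2 - Real.sinh L ^ 2 = 1 := by
    rw [Real.cosh_sq]; ring
  obtain ⟨ν, hν⟩ : ∃ ν, ν = (q - p * Real.cosh L) / Real.sinh L := ⟨_, rfl⟩
  obtain ⟨μ0, hμ0⟩ : ∃ μ0, μ0 = (y 0 * q - x 0 * p * Real.cosh L) / Real.sinh L := ⟨_, rfl⟩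
  obtain ⟨μ1, hμ1⟩ : ∃ μ1, μ1 = (y 1 * q - x 1 * p * Real.cosh L) / Real.sinh L := ⟨_, rfl⟩
  have h1 : 2 * Real.cosh L * p * q = p ^ 2 + q ^ 2 + p ^ 2 * q ^ 2 *
      ((y 0 - x 0) ^ 2 + (y 1 - x 1) ^ 2) := by
    rw [hch]
    unfold ch
    rw [hp, hq]
    field_simp
    ring
  have key := h170_core (x 0) (x 1) (y 0) (y 1) p q (Real.cosh L) (Real.sinh L) hS hCS h1
  rw [← hν, ← hμ0, ← hμ1] at key
  have hνp : ν ^ 2 ≤ p ^ 2 := by
    have := add_nonneg (sq_nonneg (p * (μ0 - x 0 * ν))) (sq_nonneg (p * (μ1 - x 1 * ν)))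
    linarith
  have hA : ∀ t, 0 < Real.cosh (L * t) * p + Real.sinh (L * t) * ν :=
    fun t => h170_ne p ν hp0 hνp (L * t)
  obtain ⟨c, hc⟩ : ∃ c : ℝ → V3, c = fun t => ![
    (Real.cosh (L * t) * (x 0 * p) + Real.sinh (L * t) * μ0) /
      (Real.cosh (L * t) * p + Real.sinh (L * t) * ν),
    (Real.cosh (L * t) * (x 1 * p) + Real.sinh (L * t) * μ1) /
      (Real.cosh (L * t) * p + Real.sinh (L * t) * ν),
    1 / (Real.cosh (L * t) * p + Real.sinh (L * t) * ν)] := ⟨_, rfl⟩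
  have cc : ∀ m r : ℝ, ContDiff ℝ 1 (fun t => Real.cosh (L * t) * m + Real.sinh (L * t) * r) := by
    intro m r
    have h0 : ContDiff ℝ 1 (fun t : ℝ => L * t) := contDiff_const.mul contDiff_id
    exact (h0.cosh.mul contDiff_const).add (h0.sinh.mul contDiff_const)
  have hcs : Real.cosh L * p + Real.sinh L * ν = q := by
    rw [hν]; field_simp; ring
  refine ⟨c, ?_, ?_, ?_, ?_, ?_, ?_⟩
  · rw [hc, contDiff_pi]
    intro i
    fin_cases i
    · exact (cc _ _).div (cc _ _) (fun t => (hA t).ne')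
    · exact (cc _ _).div (cc _ _) (fun t => (hA t).ne')
    · exact contDiff_const.div (cc _ _) (fun t => (hA t).ne')
  · rw [hc]
    funext i
    fin_cases i
    · simp
      field_simp
    · simp
      field_simp
    · simp
      rw [hp]; simp
  · rw [hc]
    funext i
    fin_cases i
    · simp only [mul_one]
      show (Real.cosh L * (x 0 * p) + Real.sinh L * μ0) / (Real.cosh L * p + Real.sinh L * ν) = y 0
      rw [hcs, div_eq_iff hq0.ne', hμ0]
      field_simp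
      ring
    · simp only [mul_one]
      show (Real.cosh L * (x 1 * p) + Real.sinh L * μ1) / (Real.cosh L * p + Real.sinh L * ν) = y 1
      rw [hcs, div_eq_iff hq0.ne', hμ1]
      field_simp
      ring
    · simp only [mul_one]
      show 1 / (Real.cosh L * p + Real.sinh L * ν) = y 2
      rw [hcs, hq]; simp
  · intro t
    rw [hc]
    show 0 < 1 / (Real.cosh (L * t) * p + Real.sinh (L * t) * ν)
    exact div_pos one_pos (hA t)
  · intro t
    obtain ⟨A, hAe⟩ : ∃ A, A = Real.cosh (L * t) * p + Real.sinh (L * t) * ν := ⟨_, rfl⟩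
    obtain ⟨A', hA'⟩ : ∃ A', A' = Real.sinh (L * t) * p + Real.cosh (L * t) * ν := ⟨_, rfl⟩
    have hA0 : 0 < A := by rw [hAe]; exact hA t
    have hcsq : Real.cosh (L * t) ^ 2 - Real.sinh (L * t) ^ 2 = 1 := by
      rw [Real.cosh_sq]; ring
    have hd : HasDerivAt c ![L * (p * (μ0 - x 0 * ν)) / A ^ 2, L * (p * (μ1 - x 1 * ν)) / A ^ 2,
        - (L * A') / A ^ 2] t := by
      rw [hc, hasDerivAt_pi]
      intro i
      fin_cases i
      · refine ((h170_hd (x 0 * p) μ0 L t).div (h170_hd p ν L t) (hA t).ne').congr_deriv ?_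
        rw [← hAe]
        show _ = L * (p * (μ0 - x 0 * ν)) / A ^ 2
        congr 1
        rw [hAe]
        linear_combination (L * p * (μ0 - x 0 * ν)) * hcsq
      · refine ((h170_hd (x 1 * p) μ1 L t).div (h170_hd p ν L t) (hA t).ne').congr_deriv ?_
        rw [← hAe]
        show _ = L * (p * (μ1 - x 1 * ν)) / A ^ 2
        congr 1
        rw [hAe]
        linear_combination (L * p * (μ1 - x 1 * ν)) * hcsq
      · refine ((hasDerivAt_const t (1 : ℝ)).div (h170_hd p ν L t) (hA t).ne').congr_deriv ?_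
        rw [← hAe, ← hA']
        show _ = - (L * A') / A ^ 2
        congr 1
        ring
    have hdot : dot (deriv c t) (deriv c t) = (L / A) ^ 2 := by
      rw [hd.deriv]
      have e : dot ![L * (p * (μ0 - x 0 * ν)) / A ^ 2, L * (p * (μ1 - x 1 * ν)) / A ^ 2,
          - (L * A') / A ^ 2] ![L * (p * (μ0 - x 0 * ν)) / A ^ 2, L * (p * (μ1 - x 1 * ν)) / A ^ 2,
          - (L * A') / A ^ 2] = (L * (p * (μ0 - x 0 * ν)) / A ^ 2) * (L * (p * (μ0 - x 0 * ν)) / A ^ 2)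
          + (L * (p * (μ1 - x 1 * ν)) / A ^ 2) * (L * (p * (μ1 - x 1 * ν)) / A ^ 2) +
          (- (L * A') / A ^ 2) * (- (L * A') / A ^ 2) := rfl
      rw [e]
      have e2 : A ^ 2 - A' ^ 2 = p ^ 2 - ν ^ 2 := by
        rw [hAe, hA']
        linear_combination (p ^ 2 - ν ^ 2) * hcsq
      field_simp
      linear_combination key - e2
    have hc2 : c t 2 = 1 / A := by
      rw [hc, hAe]; rfl
    rw [hdot, hc2, Real.sqrt_sq (by positivity)]
    field_simp
  · intro hx1 hy1 t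
    have hμ : μ1 = 0 := by rw [hμ1, hx1, hy1]; ring
    rw [hc]
    show (Real.cosh (L * t) * (x 1 * p) + Real.sinh (L * t) * μ1) /
      (Real.cosh (L * t) * p + Real.sinh (L * t) * ν) = 0
    rw [hμ, hx1]
    ring

/-- smooth geodesics, staying in the plane `x 1 = 0` if the end points do -/
theorem geodesic (x y : U) : ∃ c : ℝ → V3, ContDiff ℝ 1 c ∧ c 0 = x ∧ c 1 = y ∧
    (∀ t ∈ Icc (0 : ℝ) 1, c t ∈ U) ∧
    (∀ t ∈ Icc (0 : ℝ) 1, Real.sqrt (dot (deriv c t) (deriv c t)) / c t 2 = hd x y) ∧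
    ((x : V3) 1 = 0 → (y : V3) 1 = 0 → ∀ t ∈ Icc (0 : ℝ) 1, c t 1 = 0) := by
  have hx : 0 < (x : V3) 2 := x.2
  have hy : 0 < (y : V3) 2 := y.2
  have hch : 1 ≤ ch x y := by
    unfold ch
    have : 0 ≤ (((y : V3) 0 - (x : V3) 0) ^ 2 + ((y : V3) 1 - (x : V3) 1) ^ 2 +
      ((y : V3) 2 - (x : V3) 2) ^ 2) / (2 * (x : V3) 2 * (y : V3) 2) := by positivity
    linarith
  rcases hch.eq_or_lt with h1 | h1
  · -- x = y
    have hsum : ((y : V3) 0 - (x : V3) 0) ^ 2 + ((y : V3) 1 - (x : V3) 1) ^ 2 +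
        ((y : V3) 2 - (x : V3) 2) ^ 2 = 0 := by
      unfold ch at h1
      have h2 : (((y : V3) 0 - (x : V3) 0) ^ 2 + ((y : V3) 1 - (x : V3) 1) ^ 2 +
        ((y : V3) 2 - (x : V3) 2) ^ 2) / (2 * (x : V3) 2 * (y : V3) 2) = 0 := by linarith
      rcases div_eq_zero_iff.1 h2 with h | h
      · exact h
      · exfalso
        have : 0 < 2 * (x : V3) 2 * (y : V3) 2 := by positivity
        linarith
    have hxy : (x : V3) = y := by
      funext i
      fin_cases i
      · show (x : V3) 0 = (y : V3) 0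
        nlinarith [sq_nonneg ((y : V3) 0 - (x : V3) 0), sq_nonneg ((y : V3) 1 - (x : V3) 1),
          sq_nonneg ((y : V3) 2 - (x : V3) 2)]
      · show (x : V3) 1 = (y : V3) 1
        nlinarith [sq_nonneg ((y : V3) 0 - (x : V3) 0), sq_nonneg ((y : V3) 1 - (x : V3) 1),
          sq_nonneg ((y : V3) 2 - (x : V3) 2)]
      · show (x : V3) 2 = (y : V3) 2
        nlinarith [sq_nonneg ((y : V3) 0 - (x : V3) 0), sq_nonneg ((y : V3) 1 - (x : V3) 1),
          sq_nonneg ((y : V3) 2 - (x : V3) 2)]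
    refine ⟨fun _ => x, contDiff_const, rfl, hxy, fun t _ => x.2, ?_, fun h _ t _ => h⟩
    intro t _
    unfold hd
    rw [← h1, Real.arcosh_zero]
    have : deriv (fun _ : ℝ => (x : V3)) t = 0 := deriv_const t _
    rw [this]
    simp [dot]
  · obtain ⟨c, c1, c2, c3, c4, c5, c6⟩ := h170_curve x y hx hy (hd x y) (Real.arcosh_pos h1)
      (Real.cosh_arcosh hch)
    exact ⟨c, c1, c2, c3, fun t _ => c4 t, fun t _ => c5 t, fun h h' t _ => c6 h h' t⟩

end Pool.Agent.BL.Geo
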