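import Pool.Agent.BL.Defs
import Pool.Agent.BL.CLen
import Pool.Agent.BL.Geo

set_option autoImplicit false
open Set Filter Topology MeasureTheory
open scoped ContDiff


namespace Pool.Agent.BL.DdCur
open Pool.Agent.BL
open Pool.Agent.BL.CLen (curveLength_hg)
open Pool.Agent.BL.Geo (geodesic)

open Set Filter Topology MeasureTheory
open scoped ContDiff




/-! ## TARGET (prove this) -/

theorem curveLength_nonneg (g : V3 → V3 → V3 → ℝ) (c : ℝ → V3) : 0 ≤ curveLength g c := by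
  unfold curveLength
  exact intervalIntegral.integral_nonneg zero_le_one (fun t _ => Real.sqrt_nonneg _)

theorem curveLength_hg0 (u : V3 → ℝ) (c : ℝ → V3) (hU : ∀ t ∈ Icc (0 : ℝ) 1, c t ∈ U) :
    curveLength (hg u 0) c =
      ∫ t in (0 : ℝ)..1, Real.exp (u (c t)) * (Real.sqrt (dot (deriv c t) (deriv c t)) / c t 2) := by
  rw [curveLength_hg u 0 c hU, Real.exp_zero, one_mul]

theorem curve_isPath (u : V3 → ℝ) (c : ℝ → V3) (hc : ContDiff ℝ 1 c)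
    (hU : ∀ t ∈ Icc (0 : ℝ) 1, c t ∈ U) :
    IsPathLength U (hg u 0) (c 0) (c 1) (curveLength (hg u 0) c) := by
  refine ⟨1, fun i => if i = 0 then c 0 else c 1, fun _ => c, by simp, by simp, ?_, by simp⟩
  intro i hi
  have hi0 : i = 0 := by omega
  subst hi0
  exact ⟨hc, hU, by simp, by simp⟩

theorem path_bdd (u : V3 → ℝ) (x y : V3) : BddBelow {L | IsPathLength U (hg u 0) x y L} := by
  refine ⟨0, ?_⟩
  rintro L ⟨n, pt, c, -, -, -, rfl⟩
  exact Finset.sum_nonneg (fun i _ => curveLength_nonneg _ _)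

theorem dd_le_curve (u : V3 → ℝ) (hu : Adm u) (c : ℝ → V3) (hc : ContDiff ℝ 1 c)
    (hU : ∀ t ∈ Icc (0 : ℝ) 1, c t ∈ U) :
    DD u ⟨c 0, hU 0 (by simp)⟩ ⟨c 1, hU 1 (by simp)⟩ ≤
      ∫ t in (0 : ℝ)..1, Real.exp (u (c t)) * (Real.sqrt (dot (deriv c t) (deriv c t)) / c t 2) := by
  rw [← curveLength_hg0 u c hU]
  unfold DD rdist
  exact csInf_le (path_bdd u _ _) (curve_isPath u c hc hU)

theorem le_path (u : V3 → ℝ) (F : U → U → ℝ) (h0 : ∀ x, F x x ≤ 0)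
    (htri : ∀ x y z, F x z ≤ F x y + F y z)
    (h : ∀ (c : ℝ → V3) (_ : ContDiff ℝ 1 c) (hU : ∀ t ∈ Icc (0 : ℝ) 1, c t ∈ U),
      F ⟨c 0, hU 0 (by simp)⟩ ⟨c 1, hU 1 (by simp)⟩ ≤ ∫ t in (0 : ℝ)..1,
        Real.exp (u (c t)) * (Real.sqrt (dot (deriv c t) (deriv c t)) / c t 2))
    (pt : ℕ → V3) (c : ℕ → ℝ → V3) : ∀ n : ℕ,
    (∀ i < n, ContDiff ℝ 1 (c i) ∧ (∀ t ∈ Icc (0 : ℝ) 1, c i t ∈ U) ∧
      c i 0 = pt i ∧ c i 1 = pt (i + 1)) → ∀ x y : U, (x : V3) = pt 0 → (y : V3) = pt n →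
      F x y ≤ ∑ i ∈ Finset.range n, curveLength (hg u 0) (c i) := by
  intro n
  induction n with
  | zero =>
    intro _ x y hx hy
    have : x = y := Subtype.ext (hx.trans hy.symm)
    rw [this, Finset.range_zero, Finset.sum_empty]
    exact h0 y
  | succ n ih =>
    intro hn x y hx hy
    obtain ⟨hc, hU, e0, e1⟩ := hn n (Nat.lt_succ_self n)
    have hz : pt n ∈ U := by
      rw [← e0]
      exact hU 0 (by simp)
    have g1 := ih (fun i hi => hn i (Nat.lt_succ_of_lt hi)) x ⟨pt n, hz⟩ hx rfl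
    have g2 := h (c n) hc hU
    rw [← curveLength_hg0 u (c n) hU] at g2
    have ez : (⟨c n 0, hU 0 (by simp)⟩ : U) = ⟨pt n, hz⟩ := Subtype.ext e0
    have ey : (⟨c n 1, hU 1 (by simp)⟩ : U) = y := Subtype.ext (e1.trans hy.symm)
    rw [ez, ey] at g2
    rw [Finset.sum_range_succ]
    have g3 := htri x ⟨pt n, hz⟩ y
    linarith

/-- lower bounds for the distance -/
theorem le_dd (u : V3 → ℝ) (F : U → U → ℝ) (h0 : ∀ x, F x x ≤ 0)
    (htri : ∀ x y z, F x z ≤ F x y + F y z)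
    (h : ∀ (c : ℝ → V3) (_ : ContDiff ℝ 1 c) (hU : ∀ t ∈ Icc (0 : ℝ) 1, c t ∈ U),
      F ⟨c 0, hU 0 (by simp)⟩ ⟨c 1, hU 1 (by simp)⟩ ≤ ∫ t in (0 : ℝ)..1,
        Real.exp (u (c t)) * (Real.sqrt (dot (deriv c t) (deriv c t)) / c t 2)) (x y : U) :
    F x y ≤ DD u x y := by
  unfold DD rdist
  apply le_csInf
  · obtain ⟨c, hc, hc0, hc1, hcU, -, -⟩ := geodesic x y
    have := curve_isPath u c hc hcU
    rw [hc0, hc1] at this
    exact ⟨_, this⟩
  · rintro L ⟨n, pt, c, hp0, hpn, hcs, rfl⟩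
    exact le_path u F h0 htri h pt c n hcs x y hp0.symm hpn.symm

end Pool.Agent.BL.DdCur
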