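import Pool.Agent.BL.Defs
import Pool.Agent.BL.Geo
import Pool.Agent.BL.DdCur
import Pool.Agent.BL.CLen

set_option autoImplicit false
open Set Filter Topology MeasureTheory
open scoped ContDiff


namespace Pool.Agent.BL.DdPm
open Pool.Agent.BL
open Pool.Agent.BL.Geo (geodesic)
open Pool.Agent.BL.DdCur (dd_le_curve)
open Pool.Agent.BL.CLen (curveLength_hg)

open Set Filter Topology MeasureTheory
open scoped ContDiff





/-! ## TARGET (prove this) -/

theorem cl_nonneg (g : V3 → V3 → V3 → ℝ) (c : ℝ → V3) : 0 ≤ curveLength g c := by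
  unfold curveLength
  apply intervalIntegral.integral_nonneg (by norm_num)
  intro t _
  exact Real.sqrt_nonneg _

theorem pl_nonneg {X : Set V3} {g : V3 → V3 → V3 → ℝ} {p q : V3} {L : ℝ}
    (h : IsPathLength X g p q L) : 0 ≤ L := by
  obtain ⟨n, pt, c, _, _, _, rfl⟩ := h
  exact Finset.sum_nonneg (fun i _ => cl_nonneg g (c i))

theorem pl_bdd (X : Set V3) (g : V3 → V3 → V3 → ℝ) (p q : V3) :
    BddBelow {L | IsPathLength X g p q L} := ⟨0, fun _ hL => pl_nonneg hL⟩

theorem pl_nonempty (g : V3 → V3 → V3 → ℝ) (x y : U) :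
    {L | IsPathLength U g x y L}.Nonempty := by
  obtain ⟨c, hc, hc0, hc1, hcU, _, _⟩ := geodesic x y
  refine ⟨∑ i ∈ Finset.range 1, curveLength g c, 1, fun i => if i = 0 then (x : V3) else y,
    fun _ => c, by simp, by simp, ?_, rfl⟩
  intro i hi
  have hi0 : i = 0 := by omega
  subst hi0
  exact ⟨hc, hcU, by simp [hc0], by simp [hc1]⟩

theorem cl_rev (w : V3 → ℝ) (c : ℝ → V3) :
    curveLength (cg w) (fun t => c (1 - t)) = curveLength (cg w) c := by
  unfold curveLength
  have h1 : ∀ t, Real.sqrt (cg w (c (1 - t)) (deriv (fun t => c (1 - t)) t)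
      (deriv (fun t => c (1 - t)) t)) =
      (fun s => Real.sqrt (cg w (c s) (deriv c s) (deriv c s))) (1 - t) := by
    intro t
    rw [deriv_comp_const_sub]
    simp only [cg, dot, Pi.neg_apply, neg_mul_neg]
  simp_rw [h1]
  rw [intervalIntegral.integral_comp_sub_left (fun s => Real.sqrt (cg w (c s) (deriv c s) (deriv c s)))]
  norm_num

theorem pl_symm (X : Set V3) (w : V3 → ℝ) {p q : V3} {L : ℝ}
    (h : IsPathLength X (cg w) p q L) : IsPathLength X (cg w) q p L := by
  obtain ⟨n, pt, c, h0, hn, hc, rfl⟩ := h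
  refine ⟨n, fun i => pt (n - i), fun i t => c (n - 1 - i) (1 - t), by simpa using hn,
    by simpa using h0, ?_, ?_⟩
  · intro i hi
    obtain ⟨a1, a2, a3, a4⟩ := hc (n - 1 - i) (by omega)
    refine ⟨?_, ?_, ?_, ?_⟩
    · exact a1.comp (contDiff_const.sub contDiff_id)
    · intro t ht
      exact a2 (1 - t) ⟨by linarith [ht.2], by linarith [ht.1]⟩
    · simp only [sub_zero]
      rw [a4]
      congr 1
      omega
    · simp only [sub_self]
      rw [a3]
      congr 1
      omega
  · have h1 : ∀ i, curveLength (cg w) (fun t => c (n - 1 - i) (1 - t))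
        = curveLength (cg w) (c (n - 1 - i)) := fun i => cl_rev w (c (n - 1 - i))
    simp_rw [h1]
    exact (Finset.sum_range_reflect (fun i => curveLength (cg w) (c i)) n).symm

theorem pl_trans (X : Set V3) (g : V3 → V3 → V3 → ℝ) {p q r : V3} {L L' : ℝ}
    (h : IsPathLength X g p q L) (h' : IsPathLength X g q r L') :
    IsPathLength X g p r (L + L') := by
  obtain ⟨n, pt, c, h0, hn, hc, rfl⟩ := h
  obtain ⟨n', pt', c', h0', hn', hc', rfl⟩ := h'
  refine ⟨n + n', fun i => if i ≤ n then pt i else pt' (i - n),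
    fun i => if i < n then c i else c' (i - n), by simpa using h0, ?_, ?_, ?_⟩
  · by_cases hz : n' = 0
    · subst hz
      simp only [add_zero, le_refl, if_true]
      rw [hn, ← h0', hn']
    · simp only
      rw [if_neg (by omega)]
      simpa using hn'
  · intro i hi
    by_cases hin : i < n
    · obtain ⟨a1, a2, a3, a4⟩ := hc i hin
      simp only [if_pos hin, if_pos hin.le, if_pos (show i + 1 ≤ n from hin)]
      exact ⟨a1, a2, a3, a4⟩
    · obtain ⟨a1, a2, a3, a4⟩ := hc' (i - n) (by omega)
      simp only [if_neg hin, if_neg (show ¬ (i + 1 ≤ n) by omega)]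
      refine ⟨a1, a2, ?_, ?_⟩
      · rw [a3]
        by_cases hin2 : i ≤ n
        · have : i = n := by omega
          subst this
          simp only [le_refl, if_true, Nat.sub_self]
          rw [h0', hn]
        · rw [if_neg hin2]
      · rw [a4]
        congr 1
        omega
  · rw [Finset.sum_range_add]
    congr 1
    · apply Finset.sum_congr rfl
      intro i hi
      beta_reduce
      rw [if_pos (Finset.mem_range.mp hi)]
    · apply Finset.sum_congr rfl
      intro i hi
      beta_reduce
      rw [if_neg (show ¬ (n + i < n) by omega), Nat.add_sub_cancel_left]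

theorem dd_pm (u : V3 → ℝ) (hu : Adm u) : PM (DD u) := by
  constructor
  · intro x
    apply le_antisymm
    · apply csInf_le (pl_bdd _ _ _ _)
      exact ⟨0, fun _ => (x : V3), fun _ _ => (x : V3), rfl, rfl, fun i hi => by omega, by simp⟩
    · apply le_csInf (pl_nonempty _ x x)
      intro L hL
      exact pl_nonneg hL
  · intro x y
    unfold DD rdist
    congr 1
    ext L
    exact ⟨fun h => pl_symm _ _ h, fun h => pl_symm _ _ h⟩
  · intro x y z
    apply le_of_forall_pos_le_add
    intro ε hε
    obtain ⟨L1, hL1, hlt1⟩ := exists_lt_of_csInf_lt (pl_nonempty (hg u 0) x y)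
      (show sInf {L | IsPathLength U (hg u 0) x y L} < DD u x y + ε / 2 by
        have : sInf {L | IsPathLength U (hg u 0) x y L} = DD u x y := rfl
        rw [this]; linarith)
    obtain ⟨L2, hL2, hlt2⟩ := exists_lt_of_csInf_lt (pl_nonempty (hg u 0) y z)
      (show sInf {L | IsPathLength U (hg u 0) y z L} < DD u y z + ε / 2 by
        have : sInf {L | IsPathLength U (hg u 0) y z L} = DD u y z := rfl
        rw [this]; linarith)
    have h3 : DD u x z ≤ L1 + L2 := csInf_le (pl_bdd _ _ _ _) (pl_trans _ _ hL1 hL2)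
    linarith


end Pool.Agent.BL.DdPm
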