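import Pool.Agent.BL.Defs
import Pool.Agent.BL.DdCur

set_option autoImplicit false
open Set Filter Topology MeasureTheory
open scoped ContDiff


namespace Pool.Agent.BL.VpD
open Pool.Agent.BL
open Pool.Agent.BL.DdCur (dd_le_curve)

open Set Filter Topology MeasureTheory
open scoped ContDiff



/-! ## TARGET (prove this) -/

theorem vp_dist (u : V3 → ℝ) (hu : Adm u) (hneg : ∀ x ∈ U, u x ≤ 0) (ξ : ℝ × ℝ) (k j : ℕ) :
    DD u (vp ξ k) (vp ξ (k + j)) ≤ j * Real.log 2 := by
  set c : ℝ → V3 := fun t => ![ξ.1, ξ.2, Real.exp (-((k : ℝ) + j * t) * Real.log 2)] with hc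
  have hcd : ContDiff ℝ 1 c := by
    rw [contDiff_pi]
    intro i
    fin_cases i
    · exact contDiff_const
    · exact contDiff_const
    · show ContDiff ℝ 1 (fun t => Real.exp (-((k : ℝ) + j * t) * Real.log 2))
      fun_prop
  have hcU : ∀ t, c t ∈ U := by
    intro t
    show 0 < Real.exp (-((k : ℝ) + j * t) * Real.log 2)
    exact Real.exp_pos _
  have hpow : ∀ m : ℕ, Real.exp (-(m : ℝ) * Real.log 2) = (1 / 2) ^ m := by
    intro m
    rw [neg_mul, Real.exp_neg, ← Real.log_pow, Real.exp_log (by positivity)]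
    simp
  have h0 : (⟨c 0, hcU 0⟩ : U) = vp ξ k := by
    apply Subtype.ext
    show ![ξ.1, ξ.2, Real.exp (-((k : ℝ) + j * 0) * Real.log 2)] = ![ξ.1, ξ.2, (1 / 2) ^ k]
    rw [mul_zero, add_zero, hpow]
  have h1 : (⟨c 1, hcU 1⟩ : U) = vp ξ (k + j) := by
    apply Subtype.ext
    show ![ξ.1, ξ.2, Real.exp (-((k : ℝ) + j * 1) * Real.log 2)] = ![ξ.1, ξ.2, (1 / 2) ^ (k + j)]
    rw [mul_one, ← hpow (k + j)]
    push_cast
    rfl
  have hder : ∀ t, deriv c t = ![0, 0, -((j : ℝ) * Real.log 2) *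
      Real.exp (-((k : ℝ) + j * t) * Real.log 2)] := by
    intro t
    refine HasDerivAt.deriv ?_
    rw [hasDerivAt_pi]
    intro i
    fin_cases i
    · exact hasDerivAt_const _ _
    · exact hasDerivAt_const _ _
    · show HasDerivAt (fun t => Real.exp (-((k : ℝ) + j * t) * Real.log 2))
        (-((j : ℝ) * Real.log 2) * Real.exp (-((k : ℝ) + j * t) * Real.log 2)) t
      have h2 : HasDerivAt (fun t : ℝ => -((k : ℝ) + j * t) * Real.log 2)
          (-((j : ℝ) * Real.log 2)) t := by
        have h3 := (((hasDerivAt_id t).const_mul (j : ℝ)).const_add (k : ℝ)).neg.mul_const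
          (Real.log 2)
        simp only [mul_one] at h3
        refine h3.congr_deriv ?_
        ring
      have h4 := h2.exp
      refine h4.congr_deriv ?_
      ring
  have hl2 : 0 ≤ (j : ℝ) * Real.log 2 := mul_nonneg (Nat.cast_nonneg _) (Real.log_nonneg (by norm_num))
  have hsp : ∀ t, Real.sqrt (dot (deriv c t) (deriv c t)) / c t 2 = (j : ℝ) * Real.log 2 := by
    intro t
    rw [hder]
    have hE : 0 < Real.exp (-((k : ℝ) + j * t) * Real.log 2) := Real.exp_pos _
    have hdot : dot ![0, 0, -((j : ℝ) * Real.log 2) * Real.exp (-((k : ℝ) + j * t) * Real.log 2)]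
        ![0, 0, -((j : ℝ) * Real.log 2) * Real.exp (-((k : ℝ) + j * t) * Real.log 2)] =
        ((j : ℝ) * Real.log 2 * Real.exp (-((k : ℝ) + j * t) * Real.log 2)) ^ 2 := by
      simp only [dot, Matrix.cons_val_zero, Matrix.cons_val_one, Matrix.cons_val]
      ring
    have hc2 : c t 2 = Real.exp (-((k : ℝ) + j * t) * Real.log 2) := rfl
    rw [hdot, Real.sqrt_sq (mul_nonneg hl2 hE.le), hc2, mul_div_assoc, div_self hE.ne', mul_one]
  have hmain := dd_le_curve u hu c hcd (fun t _ => hcU t)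
  rw [h0, h1] at hmain
  refine hmain.trans ?_
  simp only [hsp]
  have hcont : Continuous (fun t => u (c t)) :=
    hu.1.comp_continuous hcd.continuous hcU
  have hle : ∫ t in (0 : ℝ)..1, Real.exp (u (c t)) * ((j : ℝ) * Real.log 2) ≤
      ∫ t in (0 : ℝ)..1, (j : ℝ) * Real.log 2 := by
    refine intervalIntegral.integral_mono_on zero_le_one
      (Continuous.intervalIntegrable (hcont.rexp.mul continuous_const) _ _)
      intervalIntegrable_const ?_
    intro t _
    have h5 : Real.exp (u (c t)) ≤ 1 := Real.exp_le_one_iff.2 (hneg _ (hcU t))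
    calc Real.exp (u (c t)) * ((j : ℝ) * Real.log 2) ≤ 1 * ((j : ℝ) * Real.log 2) := by gcongr
      _ = _ := one_mul _
  refine hle.trans ?_
  rw [intervalIntegral.integral_const]
  simp

end Pool.Agent.BL.VpD
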