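import Pool.Agent.BL.Defs
import Pool.Agent.BL.VpD
import Pool.Agent.BL.DdPm

set_option autoImplicit false
open Set Filter Topology MeasureTheory
open scoped ContDiff


namespace Pool.Agent.BL.CanPt
open Pool.Agent.BL
open Pool.Agent.BL.VpD (vp_dist)
open Pool.Agent.BL.DdPm (dd_pm)

open Set Filter Topology MeasureTheory
open scoped ContDiff




/-! ## TARGET (prove this) -/

theorem cantor_points_coord (N : ℕ) (c : ℕ → ℤ) (t : ℕ → ℕ) (ht : ∀ i, t i < 2 ^ N)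
    (hc : ∀ i, c (i + 1) = c i * 2 ^ N + (t i : ℤ)) :
    ∃ ξ : ℝ, ∀ i, (c i : ℝ) ≤ ξ * 2 ^ (i * N) ∧ ξ * 2 ^ (i * N) ≤ c i + 1 := by
  set f : ℕ → ℝ := fun i => (c i : ℝ) / 2 ^ (i * N) with hf
  set g : ℕ → ℝ := fun i => ((c i : ℝ) + 1) / 2 ^ (i * N) with hg
  have hcr : ∀ i, (c (i + 1) : ℝ) = c i * 2 ^ N + (t i : ℝ) := by
    intro i; rw [hc i]; push_cast; ring
  have htr : ∀ i, (t i : ℝ) + 1 ≤ 2 ^ N := by
    intro i
    have := ht i
    exact_mod_cast this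
  have hpow : ∀ i : ℕ, (2 : ℝ) ^ ((i + 1) * N) = 2 ^ (i * N) * 2 ^ N := by
    intro i; rw [← pow_add]; congr 1; ring
  have hmono : Monotone f := by
    refine monotone_nat_of_le_succ fun i => ?_
    rw [hf]
    simp only
    rw [div_le_div_iff₀ (by positivity) (by positivity), hcr, hpow]
    have h1 : (0 : ℝ) ≤ t i := Nat.cast_nonneg _
    have h2 : (0 : ℝ) < 2 ^ (i * N) := by positivity
    nlinarith
  have hanti : Antitone g := by
    refine antitone_nat_of_succ_le fun i => ?_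
    rw [hg]
    simp only
    rw [div_le_div_iff₀ (by positivity) (by positivity), hcr, hpow]
    have h1 := htr i
    have h2 : (0 : ℝ) < 2 ^ (i * N) := by positivity
    nlinarith
  have hle : f ≤ g := by
    intro i
    rw [hf, hg]
    simp only
    gcongr
    linarith
  have hmem := hmono.ciSup_mem_iInter_Icc_of_antitone hanti hle
  rw [mem_iInter] at hmem
  refine ⟨⨆ n, f n, fun i => ?_⟩
  obtain ⟨h1, h2⟩ := hmem i
  have h3 : (0 : ℝ) < 2 ^ (i * N) := by positivity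
  exact ⟨(div_le_iff₀ h3).1 h1, (le_div_iff₀ h3).1 h2⟩

theorem cantor_points_sep {a a' ξ ξ' : ℝ} {n : ℕ} (h1 : a ≤ ξ * 2 ^ n) (h2 : ξ * 2 ^ n ≤ a + 1)
    (h1' : a' ≤ ξ' * 2 ^ n) (h2' : ξ' * 2 ^ n ≤ a' + 1) (h : 2 ≤ |a - a'|) :
    (1 / 2 : ℝ) ^ n ≤ |ξ - ξ'| := by
  have hp : (0 : ℝ) < 2 ^ n := by positivity
  have h3 : 1 ≤ |ξ - ξ'| * 2 ^ n := by
    rw [← abs_of_pos hp, ← abs_mul, sub_mul]
    rcases le_abs.1 h with h4 | h4
    · exact le_abs.2 (Or.inl (by linarith))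
    · exact le_abs.2 (Or.inr (by linarith))
  rw [one_div, inv_pow, inv_le_iff_one_le_mul₀ hp]
  exact h3

theorem cantor_points (u : V3 → ℝ) (hu : Adm u) (N M : ℕ) (A : ℝ) (hN : 0 < N)
    (h : ∀ (k : ℕ) (m : ℤ × ℤ), ∃ s : Fin M → ℕ × ℕ, (∀ i, s i ∈ GoodIdx u N A k m) ∧
      ∀ i i', i ≠ i' → 2 ≤ |((s i).1 : ℤ) - (s i').1| ∨ 2 ≤ |((s i).2 : ℤ) - (s i').2|) :
    ∃ x : (ℕ → Fin M) → ℝ × ℝ, (∀ σ, x σ ∈ Sq 0 (0, 0)) ∧
      (∀ σ (i : ℕ), DD u (vp (x σ) 0) (vp (x σ) (i * N)) ≤ i * A) ∧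
      ∀ σ σ' (i : ℕ), (∀ j < i, σ j = σ' j) → σ i ≠ σ' i →
        (1 / 2 : ℝ) ^ ((i + 1) * N) ≤ |(x σ).1 - (x σ').1| + |(x σ).2 - (x σ').2| := by
  choose s hs hsep using h
  set sq : (ℕ → Fin M) → ℕ → ℤ × ℤ := fun σ => Nat.rec ((0, 0) : ℤ × ℤ)
    (fun i m => (m.1 * 2 ^ N + ((s (i * N) m (σ i)).1 : ℤ),
      m.2 * 2 ^ N + ((s (i * N) m (σ i)).2 : ℤ))) with hsq
  have hsq0 : ∀ σ, sq σ 0 = (0, 0) := fun σ => rfl
  have hsq1 : ∀ σ i, sq σ (i + 1) = ((sq σ i).1 * 2 ^ N + ((s (i * N) (sq σ i) (σ i)).1 : ℤ),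
      (sq σ i).2 * 2 ^ N + ((s (i * N) (sq σ i) (σ i)).2 : ℤ)) := fun σ i => rfl
  have hex : ∀ σ, ∃ ξ : ℝ × ℝ, ∀ i, ξ ∈ Sq (i * N) (sq σ i) := by
    intro σ
    obtain ⟨ξ₁, h1⟩ := cantor_points_coord N (fun i => (sq σ i).1)
      (fun i => (s (i * N) (sq σ i) (σ i)).1) (fun i => (hs (i * N) (sq σ i) (σ i)).1)
      (fun i => by simp only [hsq1])
    obtain ⟨ξ₂, h2⟩ := cantor_points_coord N (fun i => (sq σ i).2)
      (fun i => (s (i * N) (sq σ i) (σ i)).2) (fun i => (hs (i * N) (sq σ i) (σ i)).2.1)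
      (fun i => by simp only [hsq1])
    exact ⟨(ξ₁, ξ₂), fun i => ⟨(h1 i).1, (h1 i).2, (h2 i).1, (h2 i).2⟩⟩
  choose x hx using hex
  refine ⟨x, ?_, ?_, ?_⟩
  · intro σ
    have := hx σ 0
    rw [hsq0, zero_mul] at this
    exact this
  · intro σ i
    have hpm := dd_pm u hu
    induction i with
    | zero =>
      rw [zero_mul, hpm.self]
      simp
    | succ i ih =>
      have h1 := hpm.tri (vp (x σ) 0) (vp (x σ) (i * N)) (vp (x σ) ((i + 1) * N))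
      have h2 : (i + 1) * N = i * N + N := by ring
      have h3 := (hs (i * N) (sq σ i) (σ i)).2.2 (x σ) (by
        have h4 := hx σ (i + 1)
        rw [hsq1, h2] at h4
        exact h4)
      rw [h2] at h1 ⊢
      push_cast
      linarith
  · intro σ σ' i hag hne
    have hsqeq : ∀ j, j ≤ i → sq σ j = sq σ' j := by
      intro j
      induction j with
      | zero => intro _; rw [hsq0, hsq0]
      | succ j ih =>
        intro hj
        rw [hsq1, hsq1, ih (by omega), hag j (by omega)]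
    have hm := hsqeq i le_rfl
    have h1 := hx σ (i + 1)
    have h2 := hx σ' (i + 1)
    rw [hsq1] at h1 h2
    rw [← hm] at h2
    have h3 := hsep (i * N) (sq σ i) (σ i) (σ' i) hne
    obtain ⟨a1, a2, a3, a4⟩ := h1
    obtain ⟨b1, b2, b3, b4⟩ := h2
    rcases h3 with h3 | h3
    · have h4 := cantor_points_sep a1 a2 b1 b2 (by
        have e : (((sq σ i).1 * 2 ^ N + ((s (i * N) (sq σ i) (σ i)).1 : ℤ) : ℤ) : ℝ) -
            (((sq σ i).1 * 2 ^ N + ((s (i * N) (sq σ i) (σ' i)).1 : ℤ) : ℤ) : ℝ) =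
            ((((s (i * N) (sq σ i) (σ i)).1 : ℤ) - (s (i * N) (sq σ i) (σ' i)).1 : ℤ) : ℝ) := by
          push_cast; ring
        rw [e, ← Int.cast_abs]
        exact_mod_cast h3)
      have h5 := abs_nonneg ((x σ).2 - (x σ').2)
      linarith
    · have h4 := cantor_points_sep a3 a4 b3 b4 (by
        have e : (((sq σ i).2 * 2 ^ N + ((s (i * N) (sq σ i) (σ i)).2 : ℤ) : ℤ) : ℝ) -
            (((sq σ i).2 * 2 ^ N + ((s (i * N) (sq σ i) (σ' i)).2 : ℤ) : ℤ) : ℝ) =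
            ((((s (i * N) (sq σ i) (σ i)).2 : ℤ) - (s (i * N) (sq σ i) (σ' i)).2 : ℤ) : ℝ) := by
          push_cast; ring
        rw [e, ← Int.cast_abs]
        exact_mod_cast h3)
      have h5 := abs_nonneg ((x σ).1 - (x σ').1)
      linarith


end Pool.Agent.BL.CanPt
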