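import Pool.Agent.BL.Defs
import Pool.Agent.BL.HdPm

set_option autoImplicit false
open Set Filter Topology MeasureTheory
open scoped ContDiff


namespace Pool.Agent.BL.HdLen
open Pool.Agent.BL
open Pool.Agent.BL.HdPm (hd_pm)

open Set Filter Topology MeasureTheory
open scoped ContDiff



/-! ## TARGET (prove this) -/

theorem hl_ch_ge (p x : V3) (hp : 0 < p 2) (hx : 0 < x 2) : 1 ≤ ch p x := by
  unfold ch
  have : 0 ≤ ((x 0 - p 0) ^ 2 + (x 1 - p 1) ^ 2 + (x 2 - p 2) ^ 2) / (2 * p 2 * x 2) := by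
    positivity
  linarith

theorem hl_dot_nonneg (v : V3) : 0 ≤ dot v v := by
  unfold dot
  nlinarith [mul_self_nonneg (v 0), mul_self_nonneg (v 1), mul_self_nonneg (v 2)]

theorem hl_cs (W0 W1 W2 v0 v1 v2 : ℝ) : (W0 * v0 + W1 * v1 + W2 * v2) ^ 2 ≤
    (W0 ^ 2 + W1 ^ 2 + W2 ^ 2) * (v0 * v0 + v1 * v1 + v2 * v2) := by
  nlinarith [sq_nonneg (W0 * v1 - W1 * v0), sq_nonneg (W0 * v2 - W2 * v0),
    sq_nonneg (W1 * v2 - W2 * v1)]

theorem hl_pt (p x v : V3) (hp : 0 < p 2) (hx : 0 < x 2) :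
    ((2 * (x 0 - p 0) * v 0 + 2 * (x 1 - p 1) * v 1 + 2 * (x 2 - p 2) * v 2) * (2 * p 2 * x 2) -
      ((x 0 - p 0) ^ 2 + (x 1 - p 1) ^ 2 + (x 2 - p 2) ^ 2) * (2 * p 2 * v 2)) /
        (2 * p 2 * x 2) ^ 2 ≤
      Real.sqrt ((ch p x) ^ 2 - 1) * (Real.sqrt (dot v v) / x 2) := by
  have hch := hl_ch_ge p x hp hx
  have hch2 : 0 ≤ (ch p x) ^ 2 - 1 := by nlinarith
  set D := ((2 * (x 0 - p 0) * v 0 + 2 * (x 1 - p 1) * v 1 + 2 * (x 2 - p 2) * v 2) *
      (2 * p 2 * x 2) -
      ((x 0 - p 0) ^ 2 + (x 1 - p 1) ^ 2 + (x 2 - p 2) ^ 2) * (2 * p 2 * v 2)) /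
        (2 * p 2 * x 2) ^ 2 with hD
  have hD2 : D ^ 2 ≤ ((ch p x) ^ 2 - 1) * (dot v v / x 2 ^ 2) := by
    have e1 : D ^ 2 = ((2 * x 2 * (x 0 - p 0)) * v 0 + (2 * x 2 * (x 1 - p 1)) * v 1 +
        (2 * x 2 * (x 2 - p 2) -
          ((x 0 - p 0) ^ 2 + (x 1 - p 1) ^ 2 + (x 2 - p 2) ^ 2)) * v 2) ^ 2 /
        (2 * p 2 * x 2 ^ 2) ^ 2 := by
      rw [hD, div_pow]
      rw [div_eq_div_iff (by positivity) (by positivity)]
      ring
    have e2 : ((ch p x) ^ 2 - 1) * (dot v v / x 2 ^ 2) =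
        ((2 * x 2 * (x 0 - p 0)) ^ 2 + (2 * x 2 * (x 1 - p 1)) ^ 2 +
        (2 * x 2 * (x 2 - p 2) -
          ((x 0 - p 0) ^ 2 + (x 1 - p 1) ^ 2 + (x 2 - p 2) ^ 2)) ^ 2) *
          (v 0 * v 0 + v 1 * v 1 + v 2 * v 2) / (2 * p 2 * x 2 ^ 2) ^ 2 := by
      unfold ch dot
      field_simp
      ring
    rw [e1, e2]
    apply div_le_div_of_nonneg_right _ (by positivity)
    exact hl_cs _ _ _ _ _ _
  have e3 : Real.sqrt ((ch p x) ^ 2 - 1) * (Real.sqrt (dot v v) / x 2) =
      Real.sqrt (((ch p x) ^ 2 - 1) * (dot v v / x 2 ^ 2)) := by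
    rw [Real.sqrt_mul hch2, Real.sqrt_div (hl_dot_nonneg v), Real.sqrt_sq hx.le]
  rw [e3]
  exact (le_abs_self D).trans (Real.abs_le_sqrt hD2)

/-- hyperbolic distance is at most hyperbolic length -/
theorem hd_le_length (c : ℝ → V3) (hc : ContDiffOn ℝ 1 c (Icc 0 1)) (hU : ∀ t ∈ Icc (0 : ℝ) 1, c t ∈ U) :
    hd ⟨c 0, hU 0 (by simp)⟩ ⟨c 1, hU 1 (by simp)⟩ ≤
      ∫ t in (0 : ℝ)..1, Real.sqrt (dot (deriv c t) (deriv c t)) / c t 2 := by
  have hpos : ∀ t ∈ Icc (0 : ℝ) 1, 0 < c t 2 := hU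
  have h01 : (0 : ℝ) ∈ Icc (0 : ℝ) 1 := by simp
  have h11 : (1 : ℝ) ∈ Icc (0 : ℝ) 1 := by simp
  have hp : 0 < c 0 2 := hpos 0 h01
  have hcc : ContinuousOn c (Icc 0 1) := hc.continuousOn
  have hcci : ∀ i, ContinuousOn (fun t => c t i) (Icc 0 1) := fun i =>
    (continuous_apply i).comp_continuousOn hcc
  have hder : ∀ t ∈ Ioo (0 : ℝ) 1, ∀ i, HasDerivAt (fun t => c t i) (deriv c t i) t := by
    intro t ht
    have h1 : DifferentiableAt ℝ c t :=
      (hc.differentiableOn (by norm_num)).differentiableAt (Icc_mem_nhds ht.1 ht.2)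
    exact hasDerivAt_pi.1 h1.hasDerivAt
  have hG : ContinuousOn (fun t => ch (c 0) (c t)) (Icc 0 1) := by
    unfold ch
    apply continuousOn_const.add
    apply ContinuousOn.div
    · exact ((((hcci 0).sub continuousOn_const).pow 2).add
        (((hcci 1).sub continuousOn_const).pow 2)).add (((hcci 2).sub continuousOn_const).pow 2)
    · exact continuousOn_const.mul (hcci 2)
    · intro t ht
      have := hpos t ht
      positivity
  -- integrability
  have hderW : ContinuousOn (derivWithin c (Icc 0 1)) (Icc 0 1) :=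
    hc.continuousOn_derivWithin (uniqueDiffOn_Icc zero_lt_one) le_rfl
  have hint' : IntegrableOn (fun t => Real.sqrt (dot (derivWithin c (Icc 0 1) t)
      (derivWithin c (Icc 0 1) t)) / c t 2) (Icc 0 1) := by
    apply ContinuousOn.integrableOn_Icc
    have hi : ∀ i, ContinuousOn (fun t => derivWithin c (Icc 0 1) t i) (Icc 0 1) := fun i =>
      (continuous_apply i).comp_continuousOn hderW
    apply ContinuousOn.div
    · apply ContinuousOn.sqrt
      unfold dot
      exact (((hi 0).mul (hi 0)).add ((hi 1).mul (hi 1))).add ((hi 2).mul (hi 2))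
    · exact hcci 2
    · intro t ht
      exact (hpos t ht).ne'
  have hint : IntegrableOn (fun t => Real.sqrt (dot (deriv c t) (deriv c t)) / c t 2)
      (Icc 0 1) := by
    rw [integrableOn_Icc_iff_integrableOn_Ioo] at hint' ⊢
    refine hint'.congr_fun (fun t ht => ?_) measurableSet_Ioo
    have h2 : derivWithin c (Icc 0 1) t = deriv c t :=
      derivWithin_of_mem_nhds (Icc_mem_nhds ht.1 ht.2)
    simp only [h2]
  set L := ∫ t in (0 : ℝ)..1, Real.sqrt (dot (deriv c t) (deriv c t)) / c t 2 with hL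
  have hmain : ∀ ε : ℝ, 0 < ε → Real.arcosh (ch (c 0) (c 1)) ≤ L + Real.arcosh (1 + ε) := by
    intro ε hε
    have hge : ∀ t ∈ Icc (0 : ℝ) 1, 1 ≤ ch (c 0) (c t) := fun t ht =>
      hl_ch_ge _ _ hp (hpos t ht)
    have h1 : ContinuousOn (fun t => Real.arcosh (ch (c 0) (c t) + ε)) (Icc 0 1) := by
      apply Real.continuousOn_arcosh.comp (hG.add continuousOn_const)
      intro t ht
      have := hge t ht
      change (1:ℝ) ≤ ch (c 0) (c t) + ε
      linarith
    have h2 : ∀ t ∈ Ioo (0 : ℝ) 1, HasDerivAt (fun t => Real.arcosh (ch (c 0) (c t) + ε))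
        ((Real.sqrt ((ch (c 0) (c t) + ε) ^ 2 - 1))⁻¹ *
        (((2 * (c t 0 - c 0 0) * deriv c t 0 + 2 * (c t 1 - c 0 1) * deriv c t 1 +
          2 * (c t 2 - c 0 2) * deriv c t 2) * (2 * c 0 2 * c t 2) -
      ((c t 0 - c 0 0) ^ 2 + (c t 1 - c 0 1) ^ 2 + (c t 2 - c 0 2) ^ 2) *
        (2 * c 0 2 * deriv c t 2)) / (2 * c 0 2 * c t 2) ^ 2)) t := by
      intro t ht
      have htI : t ∈ Icc (0 : ℝ) 1 := Ioo_subset_Icc_self ht
      have hd := hder t ht
      have hq := hpos t htI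
      have g0 : HasDerivAt (fun t => (c t 0 - c 0 0) ^ 2) (2 * (c t 0 - c 0 0) * deriv c t 0) t := by
        have := ((hd 0).sub_const (c 0 0)).pow 2
        exact this.congr_deriv (by simp)
      have g1 : HasDerivAt (fun t => (c t 1 - c 0 1) ^ 2) (2 * (c t 1 - c 0 1) * deriv c t 1) t := by
        have := ((hd 1).sub_const (c 0 1)).pow 2
        exact this.congr_deriv (by simp)
      have g2 : HasDerivAt (fun t => (c t 2 - c 0 2) ^ 2) (2 * (c t 2 - c 0 2) * deriv c t 2) t := by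
        have := ((hd 2).sub_const (c 0 2)).pow 2
        exact this.congr_deriv (by simp)
      have g3 : HasDerivAt (fun t => 2 * c 0 2 * c t 2) (2 * c 0 2 * deriv c t 2) t :=
        (hd 2).const_mul (2 * c 0 2)
      have g4 : HasDerivAt (fun t => ch (c 0) (c t) + ε)
        (((2 * (c t 0 - c 0 0) * deriv c t 0 + 2 * (c t 1 - c 0 1) * deriv c t 1 +
          2 * (c t 2 - c 0 2) * deriv c t 2) * (2 * c 0 2 * c t 2) -
        ((c t 0 - c 0 0) ^ 2 + (c t 1 - c 0 1) ^ 2 + (c t 2 - c 0 2) ^ 2) *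
        (2 * c 0 2 * deriv c t 2)) / (2 * c 0 2 * c t 2) ^ 2) t := by
        have g5 := ((((g0.add g1).add g2).div g3 (by positivity)).const_add 1).add_const ε
        exact g5
      have hgt : ch (c 0) (c t) + ε ∈ Ioi (1:ℝ) := by
        have := hge t htI
        simp only [mem_Ioi]
        linarith
      exact HasDerivAt.comp (h₂ := Real.arcosh) (h := fun t => ch (c 0) (c t) + ε) t
        (Real.hasDerivAt_arcosh hgt) g4
    have h3 := intervalIntegral.sub_le_integral_of_hasDeriv_right_of_le zero_le_one h1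
      (fun t ht => (h2 t ht).hasDerivWithinAt) hint (fun t ht => by
        have htI : t ∈ Icc (0 : ℝ) 1 := Ioo_subset_Icc_self ht
        have hq := hpos t htI
        have hgt := hge t htI
        have k1 := hl_pt (c 0) (c t) (deriv c t) hp hq
        have k2 : 0 < Real.sqrt ((ch (c 0) (c t) + ε) ^ 2 - 1) := by
          apply Real.sqrt_pos.2
          nlinarith
        have k3 : Real.sqrt ((ch (c 0) (c t)) ^ 2 - 1) ≤
            Real.sqrt ((ch (c 0) (c t) + ε) ^ 2 - 1) := by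
          apply Real.sqrt_le_sqrt
          nlinarith
        have k4 : 0 ≤ Real.sqrt (dot (deriv c t) (deriv c t)) / c t 2 :=
          div_nonneg (Real.sqrt_nonneg _) hq.le
        rw [inv_mul_le_iff₀ k2]
        exact k1.trans (mul_le_mul_of_nonneg_right k3 k4))
    have h4 : ch (c 0) (c 0) = 1 := by
      unfold ch
      simp
    have h5 : Real.arcosh (ch (c 0) (c 1)) ≤ Real.arcosh (ch (c 0) (c 1) + ε) := by
      have := hge 1 h11
      rw [Real.arcosh_le_arcosh (by linarith) (by linarith)]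
      linarith
    simp only [h4] at h3
    linarith
  have hlim : Tendsto (fun ε : ℝ => L + Real.arcosh (1 + ε)) (𝓝[>] 0) (𝓝 (L + Real.arcosh 1)) := by
    apply Tendsto.const_add
    have h6 : Tendsto (fun ε : ℝ => 1 + ε) (𝓝[>] 0) (𝓝[Ici 1] 1) := by
      apply tendsto_nhdsWithin_iff.2
      constructor
      · have : Tendsto (fun ε : ℝ => 1 + ε) (𝓝 0) (𝓝 (1 + 0)) :=
          (continuous_const.add continuous_id).tendsto 0
        rw [add_zero] at this
        exact this.mono_left nhdsWithin_le_nhds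
      · filter_upwards [self_mem_nhdsWithin] with ε hε
        have : (0:ℝ) < ε := hε
        simp only [mem_Ici]
        linarith
    exact (Real.continuousOn_arcosh 1 (by simp)).tendsto.comp h6
  have h7 : Real.arcosh (1:ℝ) = 0 := Real.arcosh_zero
  rw [h7, add_zero] at hlim
  exact ge_of_tendsto hlim (by filter_upwards [self_mem_nhdsWithin] with ε hε using hmain ε hε)

end Pool.Agent.BL.HdLen
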