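import Pool.Agent.BL.Defs
import Pool.Agent.BL.DdCur
import Pool.Agent.BL.DdPm
import Pool.Agent.BL.CLen
import Pool.Agent.BL.Geo
import Pool.Agent.BL.HdLen
import Pool.Agent.BL.HdPm

set_option autoImplicit false
open Set Filter Topology MeasureTheory
open scoped ContDiff


namespace Pool.Agent.BL.DdCh
open Pool.Agent.BL
open Pool.Agent.BL.DdCur (dd_le_curve)
open Pool.Agent.BL.DdPm (dd_pm)
open Pool.Agent.BL.CLen (curveLength_hg)
open Pool.Agent.BL.Geo (geodesic)
open Pool.Agent.BL.HdLen (hd_le_length)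
open Pool.Agent.BL.HdPm (hd_pm)

open Set Filter Topology MeasureTheory
open scoped ContDiff








/-! ## TARGET (prove this) -/

/-- hyperbolic speed -/
noncomputable def spd (c : ℝ → V3) (t : ℝ) : ℝ := Real.sqrt (dot (deriv c t) (deriv c t)) / c t 2

theorem spd_cont (c : ℝ → V3) (hc : ContDiff ℝ 1 c) (hU : ∀ t ∈ Icc (0 : ℝ) 1, c t ∈ U) :
    ContinuousOn (spd c) (Icc 0 1) := by
  have h1 : Continuous (deriv c) := hc.continuous_deriv le_rfl
  have h2 : Continuous c := hc.continuous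
  unfold spd
  refine ContinuousOn.div ?_ ?_ ?_
  · refine (Continuous.continuousOn ?_)
    refine Real.continuous_sqrt.comp ?_
    unfold dot
    have a0 : Continuous fun t => deriv c t 0 := (continuous_apply 0).comp h1
    have a1 : Continuous fun t => deriv c t 1 := (continuous_apply 1).comp h1
    have a2 : Continuous fun t => deriv c t 2 := (continuous_apply 2).comp h1
    exact ((a0.mul a0).add (a1.mul a1)).add (a2.mul a2)
  · exact ((continuous_apply 2).comp h2).continuousOn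
  · intro t ht
    have := hU t ht
    simp only [U, mem_ofPred_eq] at this
    exact this.ne'

theorem aff_mem {s t : ℝ} (hs : s ∈ Icc (0 : ℝ) 1) (ht : t ∈ Icc (0 : ℝ) 1) (r : ℝ)
    (hr : r ∈ Icc (0 : ℝ) 1) : s + (t - s) * r ∈ Icc (0 : ℝ) 1 := by
  obtain ⟨h1, h2⟩ := hs
  obtain ⟨h3, h4⟩ := ht
  obtain ⟨h5, h6⟩ := hr
  constructor
  · nlinarith [mul_nonneg h3 h5, mul_nonneg h1 (sub_nonneg.2 h6)]
  · nlinarith [mul_nonneg (sub_nonneg.2 h4) h5, mul_nonneg (sub_nonneg.2 h2) (sub_nonneg.2 h6)]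

theorem spd_aff (c : ℝ → V3) (hc : ContDiff ℝ 1 c) {s t : ℝ} (hst : s ≤ t) (r : ℝ) :
    spd (fun r => c (s + (t - s) * r)) r = (t - s) * spd c (s + (t - s) * r) := by
  have hd : deriv (fun r => c (s + (t - s) * r)) r = (t - s) • deriv c (s + (t - s) * r) := by
    have h1 : HasDerivAt c (deriv c (s + (t - s) * r)) (s + (t - s) * r) :=
      ((hc.differentiable (by norm_num)) _).hasDerivAt
    have h2 : HasDerivAt (fun r : ℝ => s + (t - s) * r) (t - s) r := by
      simpa using ((hasDerivAt_id r).const_mul (t - s)).const_add s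
    exact (h1.scomp r h2).deriv
  unfold spd
  rw [hd]
  have h3 : dot ((t - s) • deriv c (s + (t - s) * r)) ((t - s) • deriv c (s + (t - s) * r)) =
      (t - s) ^ 2 * dot (deriv c (s + (t - s) * r)) (deriv c (s + (t - s) * r)) := by
    simp only [dot, Pi.smul_apply, smul_eq_mul]
    ring
  rw [h3, Real.sqrt_mul (sq_nonneg _), Real.sqrt_sq (sub_nonneg.2 hst), mul_div_assoc]

theorem aff_contDiff (c : ℝ → V3) (hc : ContDiff ℝ 1 c) (s t : ℝ) :
    ContDiff ℝ 1 (fun r : ℝ => c (s + (t - s) * r)) := by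
  refine hc.comp ?_
  exact contDiff_const.add (contDiff_const.mul contDiff_id)

theorem hd_piece (c : ℝ → V3) (hc : ContDiff ℝ 1 c) (hU : ∀ t ∈ Icc (0 : ℝ) 1, c t ∈ U) {s t : ℝ}
    (hs : s ∈ Icc (0 : ℝ) 1) (ht : t ∈ Icc (0 : ℝ) 1) (hst : s ≤ t) (B : ℝ)
    (hB : ∀ r ∈ Icc (0 : ℝ) 1, spd c r ≤ B) :
    hd ⟨c s, hU s hs⟩ ⟨c t, hU t ht⟩ ≤ B * (t - s) := by
  have hU' : ∀ r ∈ Icc (0 : ℝ) 1, (fun r => c (s + (t - s) * r)) r ∈ U := by
    intro r hr
    exact hU _ (aff_mem hs ht r hr)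
  have h1 := hd_le_length (fun r => c (s + (t - s) * r)) (aff_contDiff c hc s t).contDiffOn hU'
  have e0 : (⟨(fun r => c (s + (t - s) * r)) 0, hU' 0 (by simp)⟩ : U) = ⟨c s, hU s hs⟩ := by
    apply Subtype.ext; simp
  have e1 : (⟨(fun r => c (s + (t - s) * r)) 1, hU' 1 (by simp)⟩ : U) = ⟨c t, hU t ht⟩ := by
    apply Subtype.ext; simp
  rw [e0, e1] at h1
  refine h1.trans ?_
  have h2 : ∫ r in (0 : ℝ)..1, Real.sqrt (dot (deriv (fun r => c (s + (t - s) * r)) r)
        (deriv (fun r => c (s + (t - s) * r)) r)) / (fun r => c (s + (t - s) * r)) r 2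
      = ∫ r in (0 : ℝ)..1, (t - s) * spd c (s + (t - s) * r) := by
    apply intervalIntegral.integral_congr
    intro r _
    exact spd_aff c hc hst r
  rw [h2]
  have hcont : ContinuousOn (fun r : ℝ => (t - s) * spd c (s + (t - s) * r)) (Icc 0 1) := by
    refine continuousOn_const.mul ?_
    refine (spd_cont c hc hU).comp (by fun_prop) ?_
    intro r hr
    exact aff_mem hs ht r hr
  calc ∫ r in (0 : ℝ)..1, (t - s) * spd c (s + (t - s) * r)
      ≤ ∫ r in (0 : ℝ)..1, (t - s) * B := by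
        apply intervalIntegral.integral_mono_on (by norm_num)
        · apply ContinuousOn.intervalIntegrable
          rwa [uIcc_of_le (by norm_num : (0 : ℝ) ≤ 1)]
        · exact intervalIntegrable_const
        · intro r hr
          exact mul_le_mul_of_nonneg_left (hB _ (aff_mem hs ht r hr)) (sub_nonneg.2 hst)
    _ = B * (t - s) := by
        rw [intervalIntegral.integral_const]
        simp [mul_comm]

theorem DD_piece (u : V3 → ℝ) (hu : Adm u) (c : ℝ → V3) (hc : ContDiff ℝ 1 c)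
    (hU : ∀ t ∈ Icc (0 : ℝ) 1, c t ∈ U) {s t : ℝ}
    (hs : s ∈ Icc (0 : ℝ) 1) (ht : t ∈ Icc (0 : ℝ) 1) (hst : s ≤ t) :
    DD u ⟨c s, hU s hs⟩ ⟨c t, hU t ht⟩ ≤ ∫ r in s..t, Real.exp (u (c r)) * spd c r := by
  have hU' : ∀ r ∈ Icc (0 : ℝ) 1, (fun r => c (s + (t - s) * r)) r ∈ U := by
    intro r hr
    exact hU _ (aff_mem hs ht r hr)
  have h1 := dd_le_curve u hu (fun r => c (s + (t - s) * r)) (aff_contDiff c hc s t) hU'
  have e0 : (⟨(fun r => c (s + (t - s) * r)) 0, hU' 0 (by simp)⟩ : U) = ⟨c s, hU s hs⟩ := by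
    apply Subtype.ext; simp
  have e1 : (⟨(fun r => c (s + (t - s) * r)) 1, hU' 1 (by simp)⟩ : U) = ⟨c t, hU t ht⟩ := by
    apply Subtype.ext; simp
  rw [e0, e1] at h1
  refine h1.trans (le_of_eq ?_)
  have h2 : ∫ r in (0 : ℝ)..1, Real.exp (u ((fun r => c (s + (t - s) * r)) r)) *
        (Real.sqrt (dot (deriv (fun r => c (s + (t - s) * r)) r)
        (deriv (fun r => c (s + (t - s) * r)) r)) / (fun r => c (s + (t - s) * r)) r 2)
      = ∫ r in (0 : ℝ)..1, (t - s) * (fun x => Real.exp (u (c x)) * spd c x) (s + (t - s) * r) := by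
    apply intervalIntegral.integral_congr
    intro r _
    have := spd_aff c hc hst r
    simp only [spd] at this
    simp only [spd]
    rw [this]
    ring
  rw [h2, intervalIntegral.integral_const_mul]
  have h5 := intervalIntegral.smul_integral_comp_add_mul (a := (0 : ℝ)) (b := 1)
    (f := fun x => Real.exp (u (c x)) * spd c x) (t - s) s
  rw [mul_zero, add_zero, mul_one, add_sub_cancel] at h5
  exact h5

theorem curve_chain (u : V3 → ℝ) (hu : Adm u) (c : ℝ → V3) (hc : ContDiff ℝ 1 c)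
    (hU : ∀ t ∈ Icc (0 : ℝ) 1, c t ∈ U) : ∃ (k : ℕ) (q : ℕ → U), (q 0 : V3) = c 0 ∧
    (q k : V3) = c 1 ∧ (∀ i < k, hd (q i) (q (i + 1)) ≤ 1) ∧
    ∑ i ∈ Finset.range k, DD u (q i) (q (i + 1)) ≤
      ∫ r in (0 : ℝ)..1, Real.exp (u (c r)) * spd c r := by
  obtain ⟨B, hB⟩ := (isCompact_Icc (a := (0 : ℝ)) (b := 1)).exists_bound_of_continuousOn
    (spd_cont c hc hU)
  obtain ⟨m, hm⟩ := exists_nat_gt (max B 0)
  have hm0 : (0 : ℝ) < m := (le_max_right _ _).trans_lt hm
  have hmB : B < m := (le_max_left _ _).trans_lt hm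
  have hmem : ∀ i : ℕ, min ((i : ℝ) / m) 1 ∈ Icc (0 : ℝ) 1 := by
    intro i
    refine ⟨le_min (by positivity) zero_le_one, min_le_right _ _⟩
  have hval : ∀ i : ℕ, i ≤ m → min ((i : ℝ) / m) 1 = (i : ℝ) / m := by
    intro i hi
    apply min_eq_left
    rw [div_le_one hm0]
    exact_mod_cast hi
  have hF : ContinuousOn (fun r => Real.exp (u (c r)) * spd c r) (Icc 0 1) := by
    refine ContinuousOn.mul ?_ (spd_cont c hc hU)
    refine Real.continuous_exp.comp_continuousOn ?_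
    exact hu.1.comp hc.continuous.continuousOn hU
  refine ⟨m, fun i => ⟨c (min ((i : ℝ) / m) 1), hU _ (hmem i)⟩, ?_, ?_, ?_, ?_⟩
  · simp
  · simp [hm0.ne']
  · intro i hi
    have h1 := hd_piece c hc hU (hmem i) (hmem (i + 1)) ?_ B ?_
    · refine h1.trans ?_
      rw [hval i hi.le, hval (i + 1) hi]
      have : ((i + 1 : ℕ) : ℝ) / m - (i : ℝ) / m = 1 / m := by
        push_cast
        ring
      rw [this, mul_one_div, div_le_one hm0]
      exact hmB.le
    · rw [hval i hi.le, hval (i + 1) hi]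
      push_cast
      gcongr
      linarith
    · intro r hr
      exact (le_abs_self _).trans (hB r hr)
  · have h1 : ∀ i ∈ Finset.range m, DD u ⟨c (min ((i : ℝ) / m) 1), hU _ (hmem i)⟩
        ⟨c (min (((i + 1 : ℕ) : ℝ) / m) 1), hU _ (hmem (i + 1))⟩ ≤
        ∫ r in ((i : ℝ) / m)..(((i + 1 : ℕ) : ℝ) / m), Real.exp (u (c r)) * spd c r := by
      intro i hi
      rw [Finset.mem_range] at hi
      have h2 := DD_piece u hu c hc hU (hmem i) (hmem (i + 1)) ?_
      · refine h2.trans (le_of_eq ?_)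
        rw [hval i hi.le, hval (i + 1) hi]
      · rw [hval i hi.le, hval (i + 1) hi]
        push_cast
        gcongr
        linarith
    refine (Finset.sum_le_sum h1).trans (le_of_eq ?_)
    have h3 := intervalIntegral.sum_integral_adjacent_intervals (a := fun i : ℕ => (i : ℝ) / m)
      (f := fun r => Real.exp (u (c r)) * spd c r) (μ := volume) (n := m) ?_
    · rw [h3]
      simp [hm0.ne']
    · intro k hk
      apply ContinuousOn.intervalIntegrable
      refine hF.mono ?_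
      have hk1 : (k : ℝ) / m ≤ ((k + 1 : ℕ) : ℝ) / m := by
        push_cast
        gcongr
        linarith
      rw [uIcc_of_le hk1]
      apply Icc_subset_Icc (by positivity)
      rw [div_le_one hm0]
      exact_mod_cast hk

theorem path_chain (u : V3 → ℝ) (hu : Adm u) (x : U) (n : ℕ) : ∀ (pt : ℕ → V3) (c : ℕ → ℝ → V3),
    pt 0 = x → (∀ i < n, ContDiff ℝ 1 (c i) ∧ (∀ t ∈ Icc (0 : ℝ) 1, c i t ∈ U) ∧
      c i 0 = pt i ∧ c i 1 = pt (i + 1)) → ∃ (k : ℕ) (q : ℕ → U), (q 0 : V3) = x ∧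
    (q k : V3) = pt n ∧ (∀ i < k, hd (q i) (q (i + 1)) ≤ 1) ∧
    ∑ i ∈ Finset.range k, DD u (q i) (q (i + 1)) ≤
      ∑ i ∈ Finset.range n, ∫ r in (0 : ℝ)..1, Real.exp (u (c i r)) * spd (c i) r := by
  induction n with
  | zero =>
    intro pt c h0 _
    exact ⟨0, fun _ => x, rfl, h0.symm, by simp, by simp⟩
  | succ n ih =>
    intro pt c h0 hc
    obtain ⟨k1, q1, ha, hb, hcc, hd'⟩ := ih pt c h0 (fun i hi => hc i (by omega))
    obtain ⟨hc1, hc2, hc3, hc4⟩ := hc n (by omega)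
    obtain ⟨k2, q2, ea, eb, ec, ed⟩ := curve_chain u hu (c n) hc1 hc2
    have hjoin : q1 k1 = q2 0 := Subtype.ext (by rw [hb, ea, hc3])
    have hq1 : ∀ i ≤ k1, (if i ≤ k1 then q1 i else q2 (i - k1)) = q1 i := fun i hi => if_pos hi
    have hq2 : ∀ i, (if k1 + i ≤ k1 then q1 (k1 + i) else q2 (k1 + i - k1)) = q2 i := by
      intro i
      rcases Nat.eq_zero_or_pos i with rfl | hi
      · simpa using hjoin
      · rw [if_neg (by omega)]
        congr 1
        omega
    refine ⟨k1 + k2, fun i => if i ≤ k1 then q1 i else q2 (i - k1), ?_, ?_, ?_, ?_⟩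
    · show ((if 0 ≤ k1 then q1 0 else q2 (0 - k1) : U) : V3) = x
      rw [hq1 0 (by omega)]
      exact ha
    · show ((if k1 + k2 ≤ k1 then q1 (k1 + k2) else q2 (k1 + k2 - k1) : U) : V3) = pt (n + 1)
      rw [hq2, eb, hc4]
    · intro i hi
      show hd (if i ≤ k1 then q1 i else q2 (i - k1)) (if i + 1 ≤ k1 then q1 (i + 1) else q2 (i + 1 - k1)) ≤ 1
      rcases lt_or_ge i k1 with h | h
      · rw [hq1 i h.le, hq1 (i + 1) h]
        exact hcc i h
      · obtain ⟨j, rfl⟩ := Nat.exists_eq_add_of_le h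
        have e2 := hq2 (j + 1)
        rw [← add_assoc] at e2
        rw [hq2 j, e2]
        exact ec j (by omega)
    · rw [Finset.sum_range_add, Finset.sum_range_succ]
      refine add_le_add ?_ ?_
      · refine le_trans (le_of_eq ?_) hd'
        apply Finset.sum_congr rfl
        intro i hi
        rw [Finset.mem_range] at hi
        show DD u (if i ≤ k1 then q1 i else q2 (i - k1)) (if i + 1 ≤ k1 then q1 (i + 1) else q2 (i + 1 - k1)) = _
        rw [hq1 i hi.le, hq1 (i + 1) hi]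
      · refine le_trans (le_of_eq ?_) ed
        apply Finset.sum_congr rfl
        intro i _
        show DD u (if k1 + i ≤ k1 then q1 (k1 + i) else q2 (k1 + i - k1))
          (if k1 + i + 1 ≤ k1 then q1 (k1 + i + 1) else q2 (k1 + i + 1 - k1)) = _
        have e2 := hq2 (i + 1)
        rw [← add_assoc] at e2
        rw [hq2 i, e2]

theorem dd_chain (u : V3 → ℝ) (hu : Adm u) (x y : U) : ∃ (k : ℕ) (q : ℕ → U), q 0 = x ∧ q k = y ∧
    (∀ i < k, hd (q i) (q (i + 1)) ≤ 1) ∧
    ∑ i ∈ Finset.range k, DD u (q i) (q (i + 1)) ≤ DD u x y + 1 := by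
  have hne : {L | IsPathLength U (hg u 0) (x : V3) y L}.Nonempty := by
    obtain ⟨c, hc, h0, h1, hU, -, -⟩ := geodesic x y
    refine ⟨_, 1, fun i => if i = 0 then (x : V3) else y, fun _ => c, by simp, by simp, ?_, rfl⟩
    intro i hi
    obtain rfl : i = 0 := by omega
    exact ⟨hc, hU, by simpa using h0, by simpa using h1⟩
  obtain ⟨L, hL, hlt⟩ := exists_lt_of_csInf_lt hne
    (show sInf {L | IsPathLength U (hg u 0) (x : V3) y L} < DD u x y + 1 by
      show DD u x y < DD u x y + 1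
      linarith)
  obtain ⟨n, pt, c, hp0, hpn, hc, rfl⟩ := hL
  obtain ⟨k, q, ha, hb, hcc, hd'⟩ := path_chain u hu x n pt c hp0 hc
  refine ⟨k, q, Subtype.ext ha, Subtype.ext (by rw [hb, hpn]), hcc, ?_⟩
  refine hd'.trans (le_trans (le_of_eq ?_) hlt.le)
  apply Finset.sum_congr rfl
  intro i hi
  rw [Finset.mem_range] at hi
  rw [curveLength_hg u 0 (c i) (hc i hi).2.1]
  simp [spd]

end Pool.Agent.BL.DdCh
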