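import Pool.Agent.BL.Defs
import Pool.Agent.BL.DdCur
import Pool.Agent.BL.DdPm
import Pool.Agent.BL.CLen
import Pool.Agent.BL.Geo
import Pool.Agent.BL.HdLen
import Pool.Agent.BL.HdPm

set_option autoImplicit false
open Set Filter Topology MeasureTheory
open scoped ContDiff


namespace Pool.Agent.BL.DdMono
open Pool.Agent.BL
open Pool.Agent.BL.DdCur (dd_le_curve le_dd)
open Pool.Agent.BL.DdPm (dd_pm)
open Pool.Agent.BL.CLen (curveLength_hg)
open Pool.Agent.BL.Geo (geodesic)
open Pool.Agent.BL.HdLen (hd_le_length)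
open Pool.Agent.BL.HdPm (hd_pm)

open Set Filter Topology MeasureTheory
open scoped ContDiff









/-! ## TARGET (prove this) -/

theorem dd_mono_cont (u : V3 → ℝ) (hu : Adm u) (c : ℝ → V3) (hc : ContDiff ℝ 1 c)
    (hU : ∀ t ∈ Icc (0 : ℝ) 1, c t ∈ U) :
    IntervalIntegrable (fun t => Real.exp (u (c t)) *
      (Real.sqrt (dot (deriv c t) (deriv c t)) / c t 2)) volume 0 1 := by
  have hcc : Continuous c := hc.continuous
  have hdc : Continuous (deriv c) := hc.continuous_deriv le_rfl
  have h1 : ContinuousOn (fun t => u (c t)) (Icc (0:ℝ) 1) :=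
    hu.1.comp hcc.continuousOn hU
  have h2 : Continuous fun t => Real.sqrt (dot (deriv c t) (deriv c t)) := by
    unfold dot
    refine Real.continuous_sqrt.comp ?_
    have hi : ∀ i : Fin 3, Continuous fun t => deriv c t i := fun i => (continuous_apply i).comp hdc
    exact (((hi 0).mul (hi 0)).add ((hi 1).mul (hi 1))).add ((hi 2).mul (hi 2))
  have h3 : Continuous fun t => c t 2 := (continuous_apply 2).comp hcc
  apply ContinuousOn.intervalIntegrable
  rw [uIcc_of_le zero_le_one]
  refine (Real.continuous_exp.comp_continuousOn h1).mul ?_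
  refine h2.continuousOn.div h3.continuousOn fun t ht => ?_
  have : 0 < c t 2 := hU t ht
  exact this.ne'

theorem dd_mono (u v : V3 → ℝ) (hu : Adm u) (hv : Adm v) (τ : ℝ) (h : ∀ x ∈ U, u x ≤ v x + τ)
    (x y : U) : DD u x y ≤ Real.exp τ * DD v x y := by
  have hpm := dd_pm u hu
  have key := le_dd v (fun x y => Real.exp (-τ) * DD u x y) (fun x => by
    rw [hpm.self, mul_zero]) (fun x y z => by
    rw [← mul_add]
    exact mul_le_mul_of_nonneg_left (hpm.tri x y z) (Real.exp_pos _).le) (by
    intro c hc hU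
    have h1 := dd_le_curve u hu c hc hU
    refine (mul_le_mul_of_nonneg_left h1 (Real.exp_pos _).le).trans ?_
    rw [← intervalIntegral.integral_const_mul]
    refine intervalIntegral.integral_mono_on zero_le_one
      ((dd_mono_cont u hu c hc hU).const_mul _) (dd_mono_cont v hv c hc hU) ?_
    intro t ht
    have hct := hU t ht
    have h2 : 0 ≤ Real.sqrt (dot (deriv c t) (deriv c t)) / c t 2 :=
      div_nonneg (Real.sqrt_nonneg _) (le_of_lt hct)
    rw [← mul_assoc, ← Real.exp_add]
    refine mul_le_mul_of_nonneg_right (Real.exp_le_exp.2 ?_) h2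
    have := h _ hct
    linarith) x y
  have h3 : Real.exp τ * (Real.exp (-τ) * DD u x y) = DD u x y := by
    rw [← mul_assoc, ← Real.exp_add, add_neg_cancel, Real.exp_zero, one_mul]
  rw [← h3]
  exact mul_le_mul_of_nonneg_left key (Real.exp_pos _).le

theorem dd_zero (x y : U) : DD 0 x y = hd x y := by
  have hadm : Adm (0 : V3 → ℝ) := by
    refine ⟨continuousOn_const, fun x _ => ?_⟩
    simp
  apply le_antisymm
  · obtain ⟨c, hc, hc0, hc1, hU, hlen, -⟩ := geodesic x y
    have h1 := dd_le_curve 0 hadm c hc hU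
    have hx : (⟨c 0, hU 0 (by simp)⟩ : U) = x := Subtype.ext hc0
    have hy : (⟨c 1, hU 1 (by simp)⟩ : U) = y := Subtype.ext hc1
    rw [hx, hy] at h1
    refine h1.trans (le_of_eq ?_)
    have h2 : ∫ t in (0 : ℝ)..1, Real.exp ((0 : V3 → ℝ) (c t)) *
        (Real.sqrt (dot (deriv c t) (deriv c t)) / c t 2) = ∫ t in (0 : ℝ)..1, hd x y := by
      refine intervalIntegral.integral_congr fun t ht => ?_
      rw [uIcc_of_le zero_le_one] at ht
      simp only [Pi.zero_apply, Real.exp_zero, one_mul]
      exact hlen t ht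
    rw [h2]
    simp
  · refine le_dd 0 hd (fun x => (hd_pm.self x).le) hd_pm.tri ?_ x y
    intro c hc hU
    simp only [Pi.zero_apply, Real.exp_zero, one_mul]
    exact hd_le_length c hc.contDiffOn hU

end Pool.Agent.BL.DdMono
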