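import Pool.Agent.BL.Defs
import Pool.Agent.BL.DdCh
import Pool.Agent.BL.DdPm
import Pool.Agent.BL.DdMono

set_option autoImplicit false
open Set Filter Topology MeasureTheory
open scoped ContDiff


namespace Pool.Agent.BL.DdComp
open Pool.Agent.BL
open Pool.Agent.BL.DdCh (dd_chain)
open Pool.Agent.BL.DdPm (dd_pm)
open Pool.Agent.BL.DdMono (dd_mono dd_zero)

open Set Filter Topology MeasureTheory
open scoped ContDiff






/-! ## TARGET (prove this) -/

theorem dd_comp (u : V3 → ℝ) (hu : Adm u) : Comp hd (DD u) (Real.exp 1) := by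
  have h0 : Adm (0 : V3 → ℝ) := by
    refine ⟨continuousOn_const, fun x _ => ?_⟩
    simp
  refine ⟨dd_pm u hu, fun x y => ?_, fun x y => ?_, fun x y => dd_chain u hu x y⟩
  · rw [← dd_zero x y]
    apply dd_mono 0 u h0 hu 1
    intro z hz
    have := (abs_le.mp (hu.2 z hz)).1
    simp only [Pi.zero_apply]
    linarith
  · rw [← dd_zero x y]
    apply dd_mono u 0 hu h0 1
    intro z hz
    have := (abs_le.mp (hu.2 z hz)).2
    simp only [Pi.zero_apply]
    linarith

end Pool.Agent.BL.DdComp
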