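import Pool.Agent.BL.Defs
import Pool.Agent.BL.Center
import Pool.Agent.BL.GpC

set_option autoImplicit false
open Set Filter Topology MeasureTheory
open scoped ContDiff


namespace Pool.Agent.BL.GpCmp
open Pool.Agent.BL
open Pool.Agent.BL.Center (center)
open Pool.Agent.BL.GpC (gp_center)

open Set Filter Topology MeasureTheory
open scoped ContDiff




/-! ## TARGET (prove this) -/

theorem gp_compare {α : Type} (d : α → α → ℝ) (hpm : PM d) (δ : ℝ) (hyp : Hyp d δ)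
    (geo : Geod d) (lam : ℝ) : ∃ C : ℝ, 0 ≤ C ∧ ∀ d1 d2 : α → α → ℝ, Comp d d1 lam →
      Comp d d2 lam → ∀ A : ℝ, 0 ≤ A → A ≤ lam → (∀ x y, d1 x y ≤ A * d2 x y) →
      ∀ o x y, gp d1 o x y ≤ A * gp d2 o x y + C := by
  obtain ⟨K, hK, hc⟩ := center d hpm δ hyp geo
  obtain ⟨C, hC, hg⟩ := gp_center d hpm δ hyp geo lam K
  refine ⟨(|lam| + 1) * C, by positivity, fun d1 d2 h1 h2 A hA0 hA1 hle o x y => ?_⟩
  obtain ⟨z, hz1, hz2, hz3⟩ := hc o x y
  have e1 := abs_le.mp (hg d1 h1 o x y z hz1 hz2 hz3)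
  have e2 := abs_le.mp (hg d2 h2 o x y z hz1 hz2 hz3)
  have e3 := hle o z
  have e4 : A * (d2 o z) ≤ A * (gp d2 o x y + C) :=
    mul_le_mul_of_nonneg_left (by linarith [e2.1]) hA0
  have e5 : A * C ≤ |lam| * C := mul_le_mul_of_nonneg_right (hA1.trans (le_abs_self lam)) hC
  nlinarith [e1.2]

end Pool.Agent.BL.GpCmp
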