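import Pool.Agent.BL.Defs
import Pool.Agent.BL.GpCmp
import Pool.Agent.BL.DdComp
import Pool.Agent.BL.DdMono
import Pool.Agent.BL.HdPm

set_option autoImplicit false
open Set Filter Topology MeasureTheory
open scoped ContDiff


namespace Pool.Agent.BL.DdGp
open Pool.Agent.BL
open Pool.Agent.BL.GpCmp (gp_compare)
open Pool.Agent.BL.DdComp (dd_comp)
open Pool.Agent.BL.DdMono (dd_mono dd_zero)
open Pool.Agent.BL.HdPm (hd_pm hd_hyp hd_geod)

open Set Filter Topology MeasureTheory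
open scoped ContDiff









/-! ## TARGET (prove this) -/

theorem dd_gp_compare : ∃ C : ℝ, 0 ≤ C ∧ ∀ u v : V3 → ℝ, Adm u → Adm v → ∀ τ : ℝ, τ ≤ 1 →
    (∀ x ∈ U, u x ≤ v x + τ) → ∀ x y : U,
    gp (DD u) oU x y ≤ Real.exp τ * gp (DD v) oU x y + C := by
  obtain ⟨δ, _, hyp⟩ := hd_hyp
  obtain ⟨C, hC, h⟩ := gp_compare hd hd_pm δ hyp hd_geod (Real.exp 1)
  refine ⟨C, hC, ?_⟩
  intro u v hu hv τ hτ huv x y
  exact h (DD u) (DD v) (dd_comp u hu) (dd_comp v hv) (Real.exp τ) (Real.exp_pos _).le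
    (Real.exp_le_exp.2 hτ) (fun x y => dd_mono u v hu hv τ huv x y) oU x y

theorem adm_zero : Adm (0 : V3 → ℝ) := by
  refine ⟨continuousOn_const, fun x _ => ?_⟩
  simp

theorem conv_dd (u : V3 → ℝ) (hu : Adm u) (x : ℕ → U) (hx : Conv hd oU x) :
    Conv (DD u) oU x := by
  obtain ⟨C, hC, h⟩ := dd_gp_compare
  have h0 : DD 0 = hd := by
    funext a b
    exact dd_zero a b
  have h1 : ∀ a b : U, gp hd oU a b ≤ Real.exp 1 * gp (DD u) oU a b + C := by
    intro a b
    have := h 0 u adm_zero hu 1 le_rfl (fun z hz => by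
      have := (abs_le.1 (hu.2 z hz)).1
      simp only [Pi.zero_apply]
      linarith) a b
    rwa [h0] at this
  unfold Conv at hx ⊢
  rw [tendsto_atTop] at hx ⊢
  intro M
  filter_upwards [hx (Real.exp 1 * M + C)] with p hp
  have h2 := h1 (x p.1) (x p.2)
  have h3 : Real.exp 1 * M ≤ Real.exp 1 * gp (DD u) oU (x p.1) (x p.2) := by linarith
  exact le_of_mul_le_mul_left h3 (Real.exp_pos 1)

end Pool.Agent.BL.DdGp
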