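import Pool.Agent.BL.Defs

set_option autoImplicit false
open Set Filter Topology MeasureTheory
open scoped ContDiff


namespace Pool.Agent.BL.GpV
open Pool.Agent.BL

open Set Filter Topology MeasureTheory
open scoped ContDiff

/-! ## TARGET (prove this) -/

theorem v_ch_ge (x y : U) : 1 ≤ ch x y := by
  unfold ch
  have hx : 0 < (x : V3) 2 := x.2
  have hy : 0 < (y : V3) 2 := y.2
  have h : 0 ≤ (((y : V3) 0 - (x : V3) 0) ^ 2 + ((y : V3) 1 - (x : V3) 1) ^ 2 +
      ((y : V3) 2 - (x : V3) 2) ^ 2) / (2 * (x : V3) 2 * (y : V3) 2) := by positivity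
  linarith

theorem v_hd_le (x y : U) : hd x y ≤ Real.log (2 * ch x y) := by
  have h := v_ch_ge x y
  unfold hd
  rw [Real.le_log_iff_exp_le (by linarith), Real.exp_arcosh h]
  have h2 : √((ch x y) ^ 2 - 1) ≤ ch x y := by
    rw [Real.sqrt_le_left (by linarith)]
    linarith
  linarith

theorem v_le_hd (x y : U) : Real.log (ch x y) ≤ hd x y := by
  have h := v_ch_ge x y
  unfold hd
  rw [Real.log_le_iff_le_exp (by linarith), Real.exp_arcosh h]
  linarith [Real.sqrt_nonneg ((ch x y) ^ 2 - 1)]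

theorem v_ch_o (a b : ℝ) (n : ℕ) : ch oU (vseq a b n) =
    (a ^ 2 + b ^ 2 + Real.exp (-n) ^ 2 + 1) / (2 * Real.exp (-n)) := by
  unfold ch vseq oU o3
  have h := Real.exp_pos (-(n : ℝ))
  simp only [Matrix.cons_val_zero, Matrix.cons_val_one, Matrix.cons_val]
  field_simp
  ring

theorem v_ch_v (a b a' b' : ℝ) (n m : ℕ) : ch (vseq a b n) (vseq a' b' m) =
    ((a' - a) ^ 2 + (b' - b) ^ 2 + Real.exp (-n) ^ 2 + Real.exp (-m) ^ 2) /
      (2 * Real.exp (-n) * Real.exp (-m)) := by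
  unfold ch vseq
  have h := Real.exp_pos (-(n : ℝ))
  have h' := Real.exp_pos (-(m : ℝ))
  simp only [Matrix.cons_val_zero, Matrix.cons_val_one, Matrix.cons_val]
  field_simp
  ring

theorem v_lowA (a b : ℝ) (n : ℕ) : (n : ℝ) - Real.log 2 ≤ hd oU (vseq a b n) := by
  refine le_trans ?_ (v_le_hd _ _)
  rw [v_ch_o]
  have h := Real.exp_pos (-(n : ℝ))
  have h1 : (n : ℝ) - Real.log 2 = Real.log (1 / (2 * Real.exp (-n))) := by
    rw [one_div, Real.log_inv, Real.log_mul (by norm_num) h.ne', Real.log_exp]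
    ring
  rw [h1]
  apply Real.log_le_log (by positivity)
  apply div_le_div_of_nonneg_right _ (by positivity)
  nlinarith [sq_nonneg a, sq_nonneg b, sq_nonneg (Real.exp (-(n : ℝ)))]

theorem v_upB (a b : ℝ) (ha : a ∈ Icc (-1 : ℝ) 1) (hb : b ∈ Icc (-1 : ℝ) 1) (n : ℕ) :
    hd oU (vseq a b n) ≤ n + 2 * Real.log 2 := by
  refine le_trans (v_hd_le _ _) ?_
  rw [v_ch_o]
  have h := Real.exp_pos (-(n : ℝ))
  have h1 : (n : ℝ) + 2 * Real.log 2 = Real.log (4 / Real.exp (-n)) := by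
    rw [Real.log_div (by norm_num) h.ne', Real.log_exp, show (4 : ℝ) = 2 ^ 2 by norm_num,
      Real.log_pow]
    push_cast
    ring
  rw [h1]
  have he : Real.exp (-(n : ℝ)) ≤ 1 := by
    rw [Real.exp_le_one_iff]
    have : (0 : ℝ) ≤ n := Nat.cast_nonneg n
    linarith
  have ha2 : a ^ 2 ≤ 1 := by nlinarith [ha.1, ha.2]
  have hb2 : b ^ 2 ≤ 1 := by nlinarith [hb.1, hb.2]
  have he2 : Real.exp (-(n : ℝ)) ^ 2 ≤ 1 := pow_le_one₀ h.le he
  apply Real.log_le_log (by positivity)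
  have h2 : 2 * ((a ^ 2 + b ^ 2 + Real.exp (-(n : ℝ)) ^ 2 + 1) / (2 * Real.exp (-(n : ℝ)))) =
      (a ^ 2 + b ^ 2 + Real.exp (-(n : ℝ)) ^ 2 + 1) / Real.exp (-(n : ℝ)) := by
    field_simp
  rw [h2]
  apply div_le_div_of_nonneg_right _ h.le
  linarith

theorem gp_vseq : ∃ K : ℝ, ∀ a b a' b' : ℝ, a ∈ Icc (-1 : ℝ) 1 → b ∈ Icc (-1 : ℝ) 1 →
    a' ∈ Icc (-1 : ℝ) 1 → b' ∈ Icc (-1 : ℝ) 1 → (a, b) ≠ (a', b') →
    ∀ᶠ p : ℕ × ℕ in atTop,
      |gp hd oU (vseq a b p.1) (vseq a' b' p.2) + Real.log (|a - a'| + |b - b'|)| ≤ K := by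
  refine ⟨3 * Real.log 2, fun a b a' b' ha hb ha' hb' hne => ?_⟩
  have hlog2 : 0 < Real.log 2 := Real.log_pos (by norm_num)
  set E : ℝ := (a' - a) ^ 2 + (b' - b) ^ 2 with hE
  have hEpos : 0 < E := by
    by_contra hcon
    push Not at hcon
    have h1 : (a' - a) ^ 2 = 0 := le_antisymm (by nlinarith [sq_nonneg (b' - b)]) (sq_nonneg _)
    have h2 : (b' - b) ^ 2 = 0 := le_antisymm (by nlinarith [sq_nonneg (a' - a)]) (sq_nonneg _)
    have h3 : a' - a = 0 := by simpa using h1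
    have h4 : b' - b = 0 := by simpa using h2
    exact hne (Prod.ext (by show a = a'; linarith) (by show b = b'; linarith))
  -- comparison of L and E
  set L : ℝ := |a - a'| + |b - b'| with hL
  have hLsq1 : E ≤ L ^ 2 := by
    have e1 : (a' - a) ^ 2 = |a - a'| ^ 2 := by rw [sq_abs]; ring
    have e2 : (b' - b) ^ 2 = |b - b'| ^ 2 := by rw [sq_abs]; ring
    rw [hE, hL, e1, e2]
    nlinarith [mul_nonneg (abs_nonneg (a - a')) (abs_nonneg (b - b'))]
  have hLsq2 : L ^ 2 ≤ 2 * E := by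
    have e1 : (a' - a) ^ 2 = |a - a'| ^ 2 := by rw [sq_abs]; ring
    have e2 : (b' - b) ^ 2 = |b - b'| ^ 2 := by rw [sq_abs]; ring
    rw [hE, hL, e1, e2]
    nlinarith [sq_nonneg (|a - a'| - |b - b'|)]
  have hL0 : 0 ≤ L := by positivity
  have hLpos : 0 < L := by
    rcases hL0.lt_or_eq with h | h
    · exact h
    · rw [← h] at hLsq1
      nlinarith
  have hlogL1 : Real.log E ≤ 2 * Real.log L := by
    have := Real.log_le_log hEpos hLsq1
    rw [Real.log_pow] at this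
    exact_mod_cast this
  have hlogL2 : 2 * Real.log L ≤ Real.log 2 + Real.log E := by
    have := Real.log_le_log (by positivity) hLsq2
    rw [Real.log_pow, Real.log_mul (by norm_num) hEpos.ne'] at this
    exact_mod_cast this
  -- smallness
  have hsmall : Tendsto (fun n : ℕ => Real.exp (-(n : ℝ)) ^ 2) atTop (𝓝 0) := by
    have h1 : Tendsto (fun n : ℕ => Real.exp (-(n : ℝ))) atTop (𝓝 0) :=
      Real.tendsto_exp_neg_atTop_nhds_zero.comp tendsto_natCast_atTop_atTop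
    have h2 := h1.pow 2
    simpa using h2
  obtain ⟨N, hN⟩ := Filter.eventually_atTop.mp
    (hsmall.eventually (gt_mem_nhds (show (0 : ℝ) < E / 2 by positivity)))
  filter_upwards [Filter.eventually_ge_atTop ((N, N) : ℕ × ℕ)] with p hp
  obtain ⟨n, m⟩ := p
  have hn : N ≤ n := hp.1
  have hm : N ≤ m := hp.2
  have hs := hN n hn
  have ht := hN m hm
  have hs0 := Real.exp_pos (-(n : ℝ))
  have ht0 := Real.exp_pos (-(m : ℝ))
  have hA1 := v_lowA a b n
  have hA2 := v_lowA a' b' m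
  have hB1 := v_upB a b ha hb n
  have hB2 := v_upB a' b' ha' hb' m
  have hC1 : (n : ℝ) + m + Real.log E - Real.log 2 ≤ hd (vseq a b n) (vseq a' b' m) := by
    refine le_trans ?_ (v_le_hd _ _)
    rw [v_ch_v]
    have h1 : (n : ℝ) + m + Real.log E - Real.log 2 =
        Real.log (E / (2 * Real.exp (-n) * Real.exp (-m))) := by
      rw [Real.log_div hEpos.ne' (by positivity), Real.log_mul (by positivity) ht0.ne',
        Real.log_mul (by norm_num) hs0.ne', Real.log_exp, Real.log_exp]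
      ring
    rw [h1]
    apply Real.log_le_log (by positivity)
    apply div_le_div_of_nonneg_right _ (by positivity)
    nlinarith [sq_nonneg (Real.exp (-(n : ℝ))), sq_nonneg (Real.exp (-(m : ℝ)))]
  have hC2 : hd (vseq a b n) (vseq a' b' m) ≤ (n : ℝ) + m + Real.log E + Real.log 2 := by
    refine le_trans (v_hd_le _ _) ?_
    rw [v_ch_v]
    have h1 : (n : ℝ) + m + Real.log E + Real.log 2 =
        Real.log (2 * E / (Real.exp (-n) * Real.exp (-m))) := by
      rw [Real.log_div (by positivity) (by positivity), Real.log_mul hs0.ne' ht0.ne',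
        Real.log_mul (by norm_num) hEpos.ne', Real.log_exp, Real.log_exp]
      ring
    rw [h1]
    apply Real.log_le_log (by positivity)
    have h2 : 2 * (((a' - a) ^ 2 + (b' - b) ^ 2 + Real.exp (-(n : ℝ)) ^ 2 +
        Real.exp (-(m : ℝ)) ^ 2) / (2 * Real.exp (-(n : ℝ)) * Real.exp (-(m : ℝ)))) =
        ((a' - a) ^ 2 + (b' - b) ^ 2 + Real.exp (-(n : ℝ)) ^ 2 +
        Real.exp (-(m : ℝ)) ^ 2) / (Real.exp (-(n : ℝ)) * Real.exp (-(m : ℝ))) := by
      field_simp
    rw [h2]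
    apply div_le_div_of_nonneg_right _ (by positivity)
    linarith
  unfold gp
  rw [abs_le]
  constructor <;> linarith

theorem conv_vseq (a b : ℝ) : Conv hd oU (vseq a b) := by
  unfold Conv
  rw [Filter.tendsto_atTop]
  intro C
  have hlog2 : 0 < Real.log 2 := Real.log_pos (by norm_num)
  obtain ⟨N, hN⟩ := exists_nat_gt (C + 3 / 2 * Real.log 2)
  filter_upwards [Filter.eventually_ge_atTop ((N, N) : ℕ × ℕ)] with p hp
  obtain ⟨n, m⟩ := p
  have hn : (N : ℝ) ≤ n := by exact_mod_cast hp.1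
  have hm : (N : ℝ) ≤ m := by exact_mod_cast hp.2
  have hs0 := Real.exp_pos (-(n : ℝ))
  have ht0 := Real.exp_pos (-(m : ℝ))
  have hA1 := v_lowA a b n
  have hA2 := v_lowA a b m
  have hC : hd (vseq a b n) (vseq a b m) ≤ |(n : ℝ) - m| + Real.log 2 := by
    refine le_trans (v_hd_le _ _) ?_
    rw [v_ch_v]
    have h1 : |(n : ℝ) - m| + Real.log 2 = Real.log (2 * Real.exp |(n : ℝ) - m|) := by
      rw [Real.log_mul (by norm_num) (Real.exp_pos _).ne', Real.log_exp]
      ring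
    rw [h1]
    apply Real.log_le_log (by positivity)
    have h2 : 2 * (((a - a) ^ 2 + (b - b) ^ 2 + Real.exp (-(n : ℝ)) ^ 2 +
        Real.exp (-(m : ℝ)) ^ 2) / (2 * Real.exp (-(n : ℝ)) * Real.exp (-(m : ℝ)))) =
        Real.exp ((m : ℝ) - n) + Real.exp ((n : ℝ) - m) := by
      rw [show (m : ℝ) - n = -(n : ℝ) - (-(m : ℝ)) by ring, Real.exp_sub,
        show (n : ℝ) - m = -(m : ℝ) - (-(n : ℝ)) by ring, Real.exp_sub]
      field_simp
      ring
    rw [h2]
    have h3 : Real.exp ((m : ℝ) - n) ≤ Real.exp |(n : ℝ) - m| := by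
      apply Real.exp_le_exp.mpr
      have := neg_le_abs ((n : ℝ) - m)
      linarith
    have h4 : Real.exp ((n : ℝ) - m) ≤ Real.exp |(n : ℝ) - m| :=
      Real.exp_le_exp.mpr (le_abs_self _)
    linarith
  unfold gp
  simp only
  rcases abs_cases ((n : ℝ) - m) with ⟨h, -⟩ | ⟨h, -⟩ <;> rw [h] at hC <;> linarith

end Pool.Agent.BL.GpV
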