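import Pool.Agent.BL.Defs
import Pool.Agent.BL.MorseN

set_option autoImplicit false
open Set Filter Topology MeasureTheory
open scoped ContDiff


namespace Pool.Agent.BL.GpP
open Pool.Agent.BL
open Pool.Agent.BL.MorseN (morse_near)

open Set Filter Topology MeasureTheory
open scoped ContDiff



/-! ## TARGET (prove this) -/

theorem gp_le_point {α : Type} (d : α → α → ℝ) (hpm : PM d) (δ : ℝ) (hyp : Hyp d δ) (geo : Geod d)
    (lam K : ℝ) : ∃ C : ℝ, 0 ≤ C ∧ ∀ d' : α → α → ℝ, Comp d d' lam → ∀ o x y z,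
      d x z + d z y ≤ d x y + K → gp d' o x y ≤ d' o z + C := by
  obtain ⟨C, hC, h⟩ := morse_near d hpm δ hyp geo lam K
  refine ⟨C, hC, ?_⟩
  intro d' hd' o x y z hz
  have h1 := h d' hd' x y z hz
  have h2 := hd'.pm.tri o z x
  have h3 := hd'.pm.tri o z y
  have h4 := hd'.pm.symm z x
  unfold gp
  linarith

end Pool.Agent.BL.GpP
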