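import Pool.Agent.BL.Defs
import Pool.Agent.BL.GpP
import Pool.Agent.BL.MorseN
import Pool.Agent.BL.DdComp
import Pool.Agent.BL.DdPm
import Pool.Agent.BL.HdPm

set_option autoImplicit false
open Set Filter Topology MeasureTheory
open scoped ContDiff


namespace Pool.Agent.BL.GpVp
open Pool.Agent.BL
open Pool.Agent.BL.GpP (gp_le_point)
open Pool.Agent.BL.MorseN (morse_near)
open Pool.Agent.BL.DdComp (dd_comp)
open Pool.Agent.BL.DdPm (dd_pm)
open Pool.Agent.BL.HdPm (hd_pm hd_hyp hd_geod)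

open Set Filter Topology MeasureTheory
open scoped ContDiff









/-! ## TARGET (prove this) -/

theorem gp_vp_ub (c w : ℝ) (hc : 1 ≤ c) (hw : 2 * c ≤ w) : Real.arcosh c ≤ Real.log w := by
  unfold Real.arcosh
  have h0 := Real.sqrt_nonneg (c ^ 2 - 1)
  have h1 : √(c ^ 2 - 1) ≤ c := by
    rw [Real.sqrt_le_iff]
    constructor <;> nlinarith
  apply Real.log_le_log (by linarith)
  linarith

theorem gp_vp_lb (c w : ℝ) (hw0 : 0 < w) (hw : w ≤ c) : Real.log w ≤ Real.arcosh c := by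
  unfold Real.arcosh
  apply Real.log_le_log hw0
  have := Real.sqrt_nonneg (c ^ 2 - 1)
  linarith

theorem gp_vp_ch (a b s a' b' t : ℝ) : ch ![a, b, s] ![a', b', t] =
    1 + ((a' - a) ^ 2 + (b' - b) ^ 2 + (t - s) ^ 2) / (2 * s * t) := by
  simp [ch]

theorem gp_vp_ch1 (a b s a' b' t : ℝ) (hs : 0 < s) (ht : 0 < t) :
    1 ≤ ch ![a, b, s] ![a', b', t] := by
  rw [gp_vp_ch]
  have : 0 ≤ ((a' - a) ^ 2 + (b' - b) ^ 2 + (t - s) ^ 2) / (2 * s * t) := by positivity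
  linarith

theorem gp_vp_vub (a b s t : ℝ) (ht : 0 < t) (h : t ≤ s) :
    Real.arcosh (ch ![a, b, s] ![a, b, t]) ≤ Real.log (2 * s / t) := by
  have hs : 0 < s := lt_of_lt_of_le ht h
  refine gp_vp_ub _ _ (gp_vp_ch1 _ _ _ _ _ _ hs ht) ?_
  rw [gp_vp_ch, le_div_iff₀ ht]
  have e : 2 * (1 + ((a - a) ^ 2 + (b - b) ^ 2 + (t - s) ^ 2) / (2 * s * t)) * t =
      (s ^ 2 + t ^ 2) / s := by
    field_simp
    ring
  rw [e, div_le_iff₀ hs]
  nlinarith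

theorem gp_vp_vub' (a b s t : ℝ) (ht : 0 < t) (h : t ≤ s) :
    Real.arcosh (ch ![a, b, t] ![a, b, s]) ≤ Real.log (2 * s / t) := by
  have hs : 0 < s := lt_of_lt_of_le ht h
  have : ch ![a, b, t] ![a, b, s] = ch ![a, b, s] ![a, b, t] := by
    rw [gp_vp_ch, gp_vp_ch]
    congr 1
    rw [show 2 * t * s = 2 * s * t by ring]
    congr 1
    ring
  rw [this]
  exact gp_vp_vub a b s t ht h

theorem gp_vp_vlb (a b s t : ℝ) (hs : 0 < s) (ht : 0 < t) :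
    Real.log (s / (2 * t)) ≤ Real.arcosh (ch ![a, b, s] ![a, b, t]) := by
  refine gp_vp_lb _ _ (by positivity) ?_
  rw [gp_vp_ch, div_le_iff₀ (by positivity)]
  have e : (1 + ((a - a) ^ 2 + (b - b) ^ 2 + (t - s) ^ 2) / (2 * s * t)) * (2 * t) =
      (s ^ 2 + t ^ 2) / s := by
    field_simp
    ring
  rw [e, le_div_iff₀ hs]
  nlinarith [sq_nonneg t]

/-- upper bound for the Gromov product of two boundary points over the unit square -/
theorem gp_vp : ∃ C : ℝ, 0 ≤ C ∧ ∀ u : V3 → ℝ, Adm u → ∀ ξ ξ' : ℝ × ℝ, ξ ∈ Sq 0 (0, 0) →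
    ξ' ∈ Sq 0 (0, 0) → ∀ l : ℕ, (1 / 2 : ℝ) ^ l ≤ |ξ.1 - ξ'.1| + |ξ.2 - ξ'.2| →
    ∀ᶠ n in atTop, gp (DD u) oU (vseq ξ.1 ξ.2 n) (vseq ξ'.1 ξ'.2 n) ≤
      DD u (vp ξ 0) (vp ξ l) + C := by
  obtain ⟨δ, hδ0, hδ⟩ := hd_hyp
  obtain ⟨C1, hC10, hC1⟩ := gp_le_point hd hd_pm δ hδ hd_geod (Real.exp 1) (Real.log 56)
  obtain ⟨C2, hC20, hC2⟩ := morse_near hd hd_pm δ hδ hd_geod (Real.exp 1) (Real.log 8)
  have hl4 : 0 ≤ Real.log 4 := Real.log_nonneg (by norm_num)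
  refine ⟨C1 + C2 + Real.exp 1 * Real.log 4, by positivity, ?_⟩
  rintro u hu ⟨a, b⟩ ⟨a', b'⟩ hξ hξ' l hl
  have hcomp := dd_comp u hu
  simp only [Sq, mem_setOf_eq, pow_zero, mul_one, Int.cast_zero, zero_add] at hξ hξ'
  obtain ⟨ha0, ha1, hb0, hb1⟩ := hξ
  obtain ⟨ha0', ha1', hb0', hb1'⟩ := hξ'
  dsimp only at hl
  set Δ : ℝ := |a - a'| + |b - b'| with hΔ
  have hΔ2 : Δ ≤ 2 := by
    have h1 : |a - a'| ≤ 1 := abs_le.2 ⟨by linarith, by linarith⟩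
    have h2 : |b - b'| ≤ 1 := abs_le.2 ⟨by linarith, by linarith⟩
    linarith
  -- the critical level
  obtain ⟨l', hl', hll', hup⟩ : ∃ l' : ℕ, l' ≤ l ∧ (1 / 2 : ℝ) ^ l' ≤ Δ ∧ Δ ≤ 2 * (1 / 2) ^ l' := by
    classical
    have hex : ∃ m : ℕ, (1 / 2 : ℝ) ^ m ≤ Δ := ⟨l, hl⟩
    refine ⟨Nat.find hex, Nat.find_min' hex hl, Nat.find_spec hex, ?_⟩
    rcases Nat.eq_zero_or_eq_succ_pred (Nat.find hex) with h0 | h0
    · rw [h0]; simpa using hΔ2
    · have hm := Nat.find_min hex (m := (Nat.find hex).pred) (by omega)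
      rw [h0, pow_succ]
      linarith [not_le.1 hm]
  set h : ℝ := (1 / 2) ^ l' with hh
  have hh0 : 0 < h := by positivity
  have hh1 : h ≤ 1 := pow_le_one₀ (by norm_num) (by norm_num)
  have hD0 : (a' - a) ^ 2 + (b' - b) ^ 2 ≤ Δ ^ 2 := by
    have e1 : (a' - a) ^ 2 = |a - a'| ^ 2 := by rw [sq_abs]; ring
    have e2 : (b' - b) ^ 2 = |b - b'| ^ 2 := by rw [sq_abs]; ring
    rw [e1, e2, hΔ]
    nlinarith [abs_nonneg (a - a'), abs_nonneg (b - b'),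
      mul_nonneg (abs_nonneg (a - a')) (abs_nonneg (b - b'))]
  have hD1 : Δ ^ 2 ≤ 2 * ((a' - a) ^ 2 + (b' - b) ^ 2) := by
    have e1 : (a' - a) ^ 2 = |a - a'| ^ 2 := by rw [sq_abs]; ring
    have e2 : (b' - b) ^ 2 = |b - b'| ^ 2 := by rw [sq_abs]; ring
    rw [e1, e2, hΔ]
    nlinarith [sq_nonneg (|a - a'| - |b - b'|)]
  have hev : ∀ᶠ n : ℕ in atTop, Real.exp (-(n : ℝ)) ≤ h := by
    have ht : Tendsto (fun n : ℕ => Real.exp (-(n : ℝ))) atTop (𝓝 0) :=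
      Real.tendsto_exp_neg_atTop_nhds_zero.comp tendsto_natCast_atTop_atTop
    exact (ht.eventually (gt_mem_nhds hh0)).mono fun n hn => hn.le
  filter_upwards [hev] with n hn
  set e : ℝ := Real.exp (-(n : ℝ)) with he
  have he0 : 0 < e := Real.exp_pos _
  -- the three distances
  have d1 : hd (vseq a b n) (vp (a, b) l') ≤ Real.log (2 * h / e) :=
    gp_vp_vub' a b h e he0 hn
  have d2 : hd (vp (a, b) l') (vseq a' b' n) ≤ Real.log (7 * h / e) := by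
    refine gp_vp_ub _ _ (gp_vp_ch1 a b h a' b' e hh0 he0) ?_
    change 2 * ch ![a, b, h] ![a', b', e] ≤ 7 * h / e
    rw [gp_vp_ch, le_div_iff₀ he0]
    have e1 : 2 * (1 + ((a' - a) ^ 2 + (b' - b) ^ 2 + (e - h) ^ 2) / (2 * h * e)) * e =
        2 * e + ((a' - a) ^ 2 + (b' - b) ^ 2 + (e - h) ^ 2) / h := by
      field_simp
    have e2 : ((a' - a) ^ 2 + (b' - b) ^ 2 + (e - h) ^ 2) / h ≤ 5 * h := by
      rw [div_le_iff₀ hh0]
      have hΔsq : Δ ^ 2 ≤ (2 * h) ^ 2 := pow_le_pow_left₀ (by positivity) hup 2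
      nlinarith
    rw [e1]
    linarith
  have d3 : Real.log (h ^ 2 / (4 * e ^ 2)) ≤ hd (vseq a b n) (vseq a' b' n) := by
    refine gp_vp_lb _ _ (by positivity) ?_
    change h ^ 2 / (4 * e ^ 2) ≤ ch ![a, b, e] ![a', b', e]
    rw [gp_vp_ch, div_le_iff₀ (by positivity)]
    have e1 : (1 + ((a' - a) ^ 2 + (b' - b) ^ 2 + (e - e) ^ 2) / (2 * e * e)) * (4 * e ^ 2) =
        4 * e ^ 2 + 2 * ((a' - a) ^ 2 + (b' - b) ^ 2) := by
      field_simp
      ring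
    have hsq : h ^ 2 ≤ Δ ^ 2 := pow_le_pow_left₀ hh0.le hll' 2
    rw [e1]
    nlinarith [sq_nonneg e]
  have hsum : hd (vseq a b n) (vp (a, b) l') + hd (vp (a, b) l') (vseq a' b' n) ≤
      hd (vseq a b n) (vseq a' b' n) + Real.log 56 := by
    have e1 : Real.log (2 * h / e) + Real.log (7 * h / e) =
        Real.log (h ^ 2 / (4 * e ^ 2)) + Real.log 56 := by
      rw [← Real.log_mul (by positivity) (by positivity), ← Real.log_mul (by positivity) (by norm_num)]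
      congr 1
      field_simp
      norm_num
    linarith
  have g1 := hC1 (DD u) hcomp oU (vseq a b n) (vseq a' b' n) (vp (a, b) l') hsum
  -- triangle inequality
  have g2 := (dd_pm u hu).tri oU (vp (a, b) 0) (vp (a, b) l')
  have g3 := hcomp.upper oU (vp (a, b) 0)
  have g4 : hd oU (vp (a, b) 0) ≤ Real.log 4 := by
    have h1 : 1 ≤ ch ![0, 0, 1] ![a, b, (1 / 2 : ℝ) ^ 0] :=
      gp_vp_ch1 _ _ _ _ _ _ (by norm_num) (by norm_num)
    refine gp_vp_ub _ _ h1 ?_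
    change 2 * ch ![0, 0, 1] ![a, b, (1 / 2 : ℝ) ^ 0] ≤ 4
    rw [gp_vp_ch]
    norm_num
    nlinarith
  have g5 := mul_le_mul_of_nonneg_left g4 (Real.exp_pos 1).le
  -- Morse
  have hhl : (1 / 2 : ℝ) ^ l ≤ h := pow_le_pow_of_le_one (by norm_num) (by norm_num) hl'
  have hl0 : (0 : ℝ) < (1 / 2) ^ l := by positivity
  have m1 : hd (vp (a, b) 0) (vp (a, b) l') ≤ Real.log (2 * (1 / 2) ^ 0 / h) :=
    gp_vp_vub a b ((1 / 2) ^ 0) h hh0 (by simpa using hh1)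
  have m2 : hd (vp (a, b) l') (vp (a, b) l) ≤ Real.log (2 * h / (1 / 2) ^ l) :=
    gp_vp_vub a b h ((1 / 2) ^ l) hl0 hhl
  have m3 : Real.log ((1 / 2) ^ 0 / (2 * (1 / 2) ^ l)) ≤ hd (vp (a, b) 0) (vp (a, b) l) :=
    gp_vp_vlb a b ((1 / 2) ^ 0) ((1 / 2) ^ l) (by norm_num) hl0
  have m4 : hd (vp (a, b) 0) (vp (a, b) l') + hd (vp (a, b) l') (vp (a, b) l) ≤
      hd (vp (a, b) 0) (vp (a, b) l) + Real.log 8 := by
    have e1 : Real.log (2 * (1 / 2) ^ 0 / h) + Real.log (2 * h / (1 / 2) ^ l) =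
        Real.log ((1 / 2) ^ 0 / (2 * (1 / 2) ^ l)) + Real.log 8 := by
      rw [← Real.log_mul (by positivity) (by positivity), ← Real.log_mul (by positivity) (by norm_num)]
      congr 1
      generalize hq : (1 / 2 : ℝ) ^ l = q at hl0 ⊢
      field_simp
      norm_num
    linarith
  have g6 := hC2 (DD u) hcomp (vp (a, b) 0) (vp (a, b) l) (vp (a, b) l') m4
  have g7 : 0 ≤ DD u (vp (a, b) l') (vp (a, b) l) := by
    have h1 := hcomp.lower (vp (a, b) l') (vp (a, b) l)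
    have h2 : 0 ≤ hd (vp (a, b) l') (vp (a, b) l) :=
      Real.arcosh_nonneg (gp_vp_ch1 a b h a b ((1 / 2) ^ l) hh0 hl0)
    have h3 := h2.trans h1
    by_contra hcon
    nlinarith [Real.exp_pos 1, not_le.1 hcon]
  change gp (DD u) oU (vseq a b n) (vseq a' b' n) ≤ DD u (vp (a, b) 0) (vp (a, b) l) + _
  linarith

end Pool.Agent.BL.GpVp
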