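import Pool.Agent.BL.Defs

set_option autoImplicit false
open Set Filter Topology MeasureTheory
open scoped ContDiff


namespace Pool.Agent.BL.HLow
open Pool.Agent.BL

open Set Filter Topology MeasureTheory
open scoped ContDiff

/-! ## TARGET (prove this) -/

theorem hnull_lower {β ι : Type} (n : ℕ) (hn : 0 < n) (ρ : β → β → ℝ) (h0 : ∀ ξ η, 0 ≤ ρ ξ η)
    (ξ : ι → β) (f : ι → Fin n → ℝ) (s K : ℝ) (hs : 0 < s) (hK : 0 < K)
    (hf : ∀ v : Fin n → ℝ, (∀ i, v i ∈ Icc (0 : ℝ) 1) → ∃ i, f i = v)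
    (h : ∀ i j, ‖f i - f j‖ ≤ K * (ρ (ξ i) (ξ j)) ^ (s / n)) (t : ℝ) (ht : 0 < t)
    (hnull : HNull ρ t) : s ≤ t := by
  by_contra hcon
  push Not at hcon
  set C : ℝ := K ^ n with hC
  have hCpos : 0 < C := by positivity
  obtain ⟨A, r, hcov, hr, hsum, hle⟩ := hnull (min 1 (1 / (2 * C))) (by positivity)
  have hr0 : ∀ k, 0 ≤ r k := fun k => (hr k).1
  have hpt0 : ∀ k, 0 ≤ r k ^ t := fun k => Real.rpow_nonneg (hr0 k) t
  have hrt1 : ∀ k, r k ^ t ≤ 1 := fun k =>
    ((hsum.le_tsum k (fun j _ => hpt0 j)).trans hle).trans (min_le_left _ _)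
  have hr1 : ∀ k, r k ≤ 1 := by
    intro k
    by_contra hk
    push Not at hk
    have := Real.one_lt_rpow hk ht
    linarith [hrt1 k]
  have hrs : ∀ k, r k ^ s ≤ r k ^ t := by
    intro k
    exact Real.rpow_le_rpow_of_exponent_ge' (hr0 k) (hr1 k) ht.le hcon.le
  have hps0 : ∀ k, 0 ≤ r k ^ s := fun k => Real.rpow_nonneg (hr0 k) s
  have hsums : Summable (fun k => r k ^ s) := Summable.of_nonneg_of_le hps0 hrs hsum
  have hles : ∑' k, r k ^ s ≤ 1 / (2 * C) :=
    ((hsums.tsum_le_tsum hrs hsum).trans hle).trans (min_le_right _ _)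
  set B : ℕ → Set (Fin n → ℝ) := fun k => {v | ∃ i, ξ i ∈ A k ∧ f i = v} with hB
  have hcube : Icc (0 : Fin n → ℝ) 1 ⊆ ⋃ k, B k := by
    intro v hv
    obtain ⟨i, hi⟩ := hf v (fun j => ⟨hv.1 j, hv.2 j⟩)
    obtain ⟨k, hk⟩ := hcov (ξ i)
    exact mem_iUnion.2 ⟨k, i, hk, hi⟩
  have hn0 : (n : ℝ) ≠ 0 := by exact_mod_cast hn.ne'
  have hvolB : ∀ k, volume (B k) ≤ ENNReal.ofReal (C * r k ^ s) := by
    intro k
    have h1 : Metric.ediam (B k) ≤ ENNReal.ofReal (K * r k ^ (s / n)) := by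
      refine Metric.ediam_le ?_
      rintro _ ⟨i, hi, rfl⟩ _ ⟨j, hj, rfl⟩
      rw [edist_dist, dist_eq_norm]
      refine ENNReal.ofReal_le_ofReal ((h i j).trans ?_)
      exact mul_le_mul_of_nonneg_left
        (Real.rpow_le_rpow (h0 _ _) ((hr k).2 _ hi _ hj) (by positivity)) hK.le
    have h2 := Real.volume_pi_le_diam_pow (B k)
    rw [Fintype.card_fin] at h2
    calc volume (B k) ≤ Metric.ediam (B k) ^ n := h2
      _ ≤ (ENNReal.ofReal (K * r k ^ (s / n))) ^ n := by gcongr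
      _ = ENNReal.ofReal ((K * r k ^ (s / n)) ^ n) := by
          rw [ENNReal.ofReal_pow (by have := Real.rpow_nonneg (hr0 k) (s / n); positivity)]
      _ = ENNReal.ofReal (C * r k ^ s) := by
          congr 1
          rw [mul_pow, hC, ← Real.rpow_natCast (r k ^ (s / n)) n, ← Real.rpow_mul (hr0 k)]
          congr 2
          field_simp
  have hvolcube : volume (Icc (0 : Fin n → ℝ) 1) = 1 := by
    rw [Real.volume_Icc_pi]
    simp
  have h3 : (1 : ENNReal) ≤ ENNReal.ofReal (C * (1 / (2 * C))) := by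
    calc (1 : ENNReal) = volume (Icc (0 : Fin n → ℝ) 1) := hvolcube.symm
      _ ≤ volume (⋃ k, B k) := measure_mono hcube
      _ ≤ ∑' k, volume (B k) := measure_iUnion_le _
      _ ≤ ∑' k, ENNReal.ofReal (C * r k ^ s) := ENNReal.tsum_le_tsum hvolB
      _ = ENNReal.ofReal (∑' k, C * r k ^ s) := by
          rw [ENNReal.ofReal_tsum_of_nonneg]
          · intro k; have := hps0 k; positivity
          · exact hsums.mul_left C
      _ ≤ ENNReal.ofReal (C * (1 / (2 * C))) := by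
          refine ENNReal.ofReal_le_ofReal ?_
          rw [tsum_mul_left]
          exact mul_le_mul_of_nonneg_left hles hCpos.le
  have h4 : C * (1 / (2 * C)) = 1 / 2 := by field_simp
  rw [h4] at h3
  have h5 : ENNReal.ofReal (1 / 2) < 1 := by
    rw [ENNReal.ofReal_lt_one]; norm_num
  exact absurd h3 (not_le.2 h5)


end Pool.Agent.BL.HLow
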