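import Pool.Agent.BL.Defs
import Pool.Agent.BL.CanPt
import Pool.Agent.BL.GpVp
import Pool.Agent.BL.DdGp
import Pool.Agent.BL.GpV
import Pool.Agent.BL.VisB
import Pool.Agent.BL.HLow
import Pool.Agent.BL.DdPm

set_option autoImplicit false
open Set Filter Topology MeasureTheory
open scoped ContDiff


namespace Pool.Agent.BL.CanDim
open Pool.Agent.BL
open Pool.Agent.BL.CanPt (cantor_points)
open Pool.Agent.BL.GpVp (gp_vp)
open Pool.Agent.BL.DdGp (conv_dd)
open Pool.Agent.BL.GpV (conv_vseq)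
open Pool.Agent.BL.VisB (vis_ge vis_nonneg)
open Pool.Agent.BL.HLow (hnull_lower)
open Pool.Agent.BL.DdPm (dd_pm)

open Set Filter Topology MeasureTheory
open scoped ContDiff










/-! ## TARGET (prove this) -/

theorem cantor_dim (u : V3 → ℝ) (hu : Adm u) (hneg : ∀ x ∈ U, u x ≤ 0) (N M : ℕ) (A : ℝ)
    (hN : 0 < N) (hM : 2 ≤ M) (hA : 0 < A)
    (h : ∀ (k : ℕ) (m : ℤ × ℤ), ∃ s : Fin M → ℕ × ℕ, (∀ i, s i ∈ GoodIdx u N A k m) ∧
      ∀ i i', i ≠ i' → 2 ≤ |((s i).1 : ℤ) - (s i').1| ∨ 2 ≤ |((s i).2 : ℤ) - (s i').2|)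
    (t : ℝ) (ht : 0 < t) (hnull : HNull (vis (DD u) oU) t) : Real.log M / A ≤ t := by
  classical
  obtain ⟨x, hx0, hx1, hx2⟩ := cantor_points u hu N M A hN h
  obtain ⟨C, hC, hgp⟩ := gp_vp
  have hM1 : (1:ℝ) < M := by exact_mod_cast (by omega : 1 < M)
  have hM0 : (0:ℝ) < M := by linarith
  have hlog : 0 < Real.log M := Real.log_pos hM1
  have hpm := dd_pm u hu
  set s : ℝ := Real.log M / A with hs
  have hs0 : 0 < s := div_pos hlog hA
  have hsA : s * A = Real.log M := by rw [hs]; field_simp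
  let ξ : (ℕ → Fin M) → Bdry (DD u) oU := fun σ =>
    Bdry.mk ⟨vseq (x σ).1 (x σ).2, conv_dd u hu _ (conv_vseq _ _)⟩
  refine hnull_lower 1 one_pos (vis (DD u) oU) (vis_nonneg (DD u) hpm oU) ξ
    (fun σ _ => Real.ofDigits σ) s (M * Real.exp (s * C)) hs0 (by positivity) ?_ ?_ t ht hnull
  · intro v hv
    obtain ⟨σ, _, hσ⟩ := Real.ofDigits_SurjOn (show 1 < M by omega) (hv 0)
    refine ⟨σ, ?_⟩
    funext i
    rw [Subsingleton.elim i 0]
    exact hσ
  · intro σ σ'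
    rw [Nat.cast_one, div_one]
    have hnorm : ‖(fun _ : Fin 1 => Real.ofDigits σ) - (fun _ : Fin 1 => Real.ofDigits σ')‖ =
        |Real.ofDigits σ - Real.ofDigits σ'| := by
      have h1 : ((fun _ : Fin 1 => Real.ofDigits σ) - (fun _ : Fin 1 => Real.ofDigits σ')) =
          fun _ : Fin 1 => (Real.ofDigits σ - Real.ofDigits σ') := rfl
      rw [h1, pi_norm_const, Real.norm_eq_abs]
    rw [hnorm]
    have hvn := vis_nonneg (DD u) hpm oU (ξ σ) (ξ σ')
    by_cases hne : σ = σ'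
    · subst hne
      rw [sub_self, abs_zero]
      exact mul_nonneg (by positivity) (Real.rpow_nonneg hvn _)
    have hex : ∃ i, σ i ≠ σ' i := Function.ne_iff.mp hne
    let i := Nat.find hex
    have hi : σ i ≠ σ' i := Nat.find_spec hex
    have hlt : ∀ j < i, σ j = σ' j := fun j hj => by
      have := Nat.find_min hex hj
      exact not_not.mp this
    have h1 := Real.abs_ofDigits_sub_ofDigits_le hlt
    have h2 := hx2 σ σ' i hlt hi
    have h3 := hgp u hu (x σ) (x σ') (hx0 σ) (hx0 σ') ((i + 1) * N) h2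
    have h4 := hx1 σ (i + 1)
    have h5 : Real.exp (-(((i + 1 : ℕ) : ℝ) * A + C)) ≤ vis (DD u) oU (ξ σ) (ξ σ') := by
      refine vis_ge (DD u) hpm oU _ _ _ ?_
      refine (h3.mono fun n hn => ?_).frequently
      exact hn.trans (by linarith)
    have h6 : Real.exp (-(((i + 1 : ℕ) : ℝ) * A + C)) ^ s ≤ (vis (DD u) oU (ξ σ) (ξ σ')) ^ s :=
      Real.rpow_le_rpow (Real.exp_pos _).le h5 hs0.le
    refine h1.trans ?_
    refine le_trans (le_of_eq ?_) (mul_le_mul_of_nonneg_left h6 (by positivity))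
    rw [← Real.exp_mul]
    have h7 : -(((i + 1 : ℕ) : ℝ) * A + C) * s = -(((i + 1 : ℕ) : ℝ) * Real.log M) + -(s * C) := by
      rw [← hsA]; ring
    have h8 : Real.exp (((i + 1 : ℕ) : ℝ) * Real.log M) = (M : ℝ) ^ (i + 1) := by
      rw [mul_comm, Real.exp_mul, Real.exp_log hM0, Real.rpow_natCast]
    rw [h7, Real.exp_add, Real.exp_neg, h8, Real.exp_neg]
    have h9 : Real.exp (s * C) ≠ 0 := (Real.exp_pos _).ne'
    have h10 : (M:ℝ) ≠ 0 := hM0.ne'
    rw [pow_succ]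
    field_simp


end Pool.Agent.BL.CanDim
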