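import Pool.Agent.BL.Defs

set_option autoImplicit false
open Set Filter Topology MeasureTheory
open scoped ContDiff


namespace Pool.Agent.BL.CgSec
open Pool.Agent.BL

open Set Filter Topology MeasureTheory
open scoped ContDiff

/-! ## TARGET (prove this) -/

theorem h400_lin (L : V3 →L[ℝ] ℝ) (a : V3) :
    L a = a 0 * L (Pi.single 0 1) + a 1 * L (Pi.single 1 1) + a 2 * L (Pi.single 2 1) := by
  have h : a = a 0 • (Pi.single 0 1 : V3) + a 1 • (Pi.single 1 1 : V3) + a 2 • (Pi.single 2 1 : V3) := by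
    ext i
    fin_cases i <;> simp
  conv_lhs => rw [h]
  simp

theorem h400_lin2 (B : V3 →L[ℝ] V3 →L[ℝ] ℝ) (a b : V3) :
    B a b = a 0 * (b 0 * B (Pi.single 0 1) (Pi.single 0 1) + b 1 * B (Pi.single 0 1) (Pi.single 1 1) + b 2 * B (Pi.single 0 1) (Pi.single 2 1))
      + a 1 * (b 0 * B (Pi.single 1 1) (Pi.single 0 1) + b 1 * B (Pi.single 1 1) (Pi.single 1 1) + b 2 * B (Pi.single 1 1) (Pi.single 2 1))
      + a 2 * (b 0 * B (Pi.single 2 1) (Pi.single 0 1) + b 1 * B (Pi.single 2 1) (Pi.single 1 1) + b 2 * B (Pi.single 2 1) (Pi.single 2 1)) := by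
  have h := h400_lin (B.flip b) a
  simp only [ContinuousLinearMap.flip_apply] at h
  rw [h, h400_lin (B (Pi.single 0 1)) b, h400_lin (B (Pi.single 1 1)) b, h400_lin (B (Pi.single 2 1)) b]

theorem h400_fd (w : V3 → ℝ) (z : V3) (B : V3 →L[ℝ] V3 →L[ℝ] ℝ)
    (hB : HasFDerivAt (fderiv ℝ w) B z) (v : V3) :
    HasFDerivAt (fun y => fderiv ℝ w y v) ((ContinuousLinearMap.apply ℝ ℝ v).comp B) z :=
  (ContinuousLinearMap.apply ℝ ℝ v).hasFDerivAt.comp z hB

theorem h400_chr (w : V3 → ℝ) (z : V3) (B : V3 →L[ℝ] V3 →L[ℝ] ℝ)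
    (hB : HasFDerivAt (fderiv ℝ w) B z) (x v a : V3) :
    fderiv ℝ (fun y => chr w y x v) z a = (B a x) • v + (B a v) • x
      - dot x v • (fun i : Fin 3 => B a (Pi.single i 1)) := by
  have h := ((h400_fd w z B hB x).smul_const v).add ((h400_fd w z B hB v).smul_const x)
  have h2 : HasFDerivAt (fun y => (fun i : Fin 3 => fderiv ℝ w y (Pi.single i 1)))
      (ContinuousLinearMap.pi (fun i : Fin 3 => (ContinuousLinearMap.apply ℝ ℝ (Pi.single i 1 : V3)).comp B)) z :=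
    hasFDerivAt_pi.mpr (fun i => h400_fd w z B hB _)
  have h3 := h.sub (h2.const_smul (dot x v))
  have h4 : HasFDerivAt (fun y => chr w y x v) _ z := h3
  rw [h4.fderiv]
  ext i
  simp

theorem cg_sec (w : V3 → ℝ) (z : V3) (hw : ContDiffAt ℝ ∞ w z) (x y : V3)
    (hxy : LinearIndependent ℝ ![x, y]) :
    sec (cg w) (chr w) z x y = -Real.exp (-2 * w z) *
      ((schouten w z x x * dot y y + schouten w z y y * dot x x - 2 * schouten w z x y * dot x y)
        / (dot x x * dot y y - dot x y ^ 2)) := by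
  have hw1 : DifferentiableAt ℝ (fderiv ℝ w) z := by
    have h1 : ContDiffAt ℝ 1 (fderiv ℝ w) z := hw.fderiv_right (by
      norm_cast
      try exact le_top)
    exact h1.differentiableAt (by norm_num)
  obtain ⟨B, hBdef⟩ : ∃ B : V3 →L[ℝ] V3 →L[ℝ] ℝ, B = fderiv ℝ (fderiv ℝ w) z := ⟨_, rfl⟩
  have hB : HasFDerivAt (fderiv ℝ w) B z := by rw [hBdef]; exact hw1.hasFDerivAt
  have hsymm : ∀ a b : V3, B a b = B b a := by
    have h1 : IsSymmSndFDerivAt ℝ w z := hw.isSymmSndFDerivAt (by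
      simp only [minSmoothness_of_isRCLikeNormedField]
      norm_cast
      try exact le_top)
    intro a b
    rw [hBdef]
    exact h1 a b
  obtain ⟨D, hD⟩ : ∃ D : V3 →L[ℝ] ℝ, D = fderiv ℝ w z := ⟨_, rfl⟩
  have hsch : ∀ a b : V3, schouten w z a b = B a b - D a * D b +
      (D (Pi.single 0 1) ^ 2 + D (Pi.single 1 1) ^ 2 + D (Pi.single 2 1) ^ 2) / 2 * dot a b := by
    intro a b
    unfold schouten
    rw [(h400_fd w z B hB b).fderiv, Fin.sum_univ_three, ← hD]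
    rfl
  have hchr : ∀ a b : V3, chr w z a b = (D a) • b + (D b) • a - dot a b • (fun i : Fin 3 => D (Pi.single i 1)) := by
    intro a b
    unfold chr
    rw [← hD]
  have hcurv : curv (chr w) z x y y = ((B x y) • y + (B x y) • y - dot y y • (fun i : Fin 3 => B x (Pi.single i 1)))
      - ((B y x) • y + (B y y) • x - dot x y • (fun i : Fin 3 => B y (Pi.single i 1)))
      + chr w z x (chr w z y y) - chr w z y (chr w z x y) := by
    unfold curv
    rw [h400_chr w z B hB, h400_chr w z B hB]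
  have hR : dot (curv (chr w) z x y y) x = -(schouten w z x x * dot y y + schouten w z y y * dot x x
      - 2 * schouten w z x y * dot x y) := by
    rw [hcurv, hchr x (chr w z y y), hchr y (chr w z x y), hchr y y, hchr x y, hsch, hsch, hsch]
    obtain ⟨p0, hp0⟩ : ∃ p, p = D (Pi.single 0 1) := ⟨_, rfl⟩
    obtain ⟨p1, hp1⟩ : ∃ p, p = D (Pi.single 1 1) := ⟨_, rfl⟩
    obtain ⟨p2, hp2⟩ : ∃ p, p = D (Pi.single 2 1) := ⟨_, rfl⟩
    have e10 := hsymm (Pi.single 1 1) (Pi.single 0 1)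
    have e20 := hsymm (Pi.single 2 1) (Pi.single 0 1)
    have e21 := hsymm (Pi.single 2 1) (Pi.single 1 1)
    obtain ⟨b00, hb00⟩ : ∃ p, p = B (Pi.single 0 1) (Pi.single 0 1) := ⟨_, rfl⟩
    obtain ⟨b01, hb01⟩ : ∃ p, p = B (Pi.single 0 1) (Pi.single 1 1) := ⟨_, rfl⟩
    obtain ⟨b02, hb02⟩ : ∃ p, p = B (Pi.single 0 1) (Pi.single 2 1) := ⟨_, rfl⟩
    obtain ⟨b11, hb11⟩ : ∃ p, p = B (Pi.single 1 1) (Pi.single 1 1) := ⟨_, rfl⟩
    obtain ⟨b12, hb12⟩ : ∃ p, p = B (Pi.single 1 1) (Pi.single 2 1) := ⟨_, rfl⟩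
    obtain ⟨b22, hb22⟩ : ∃ p, p = B (Pi.single 2 1) (Pi.single 2 1) := ⟨_, rfl⟩
    have hDl : ∀ a : V3, D a = a 0 * p0 + a 1 * p1 + a 2 * p2 := by
      intro a
      rw [h400_lin D a, ← hp0, ← hp1, ← hp2]
    have hBl : ∀ a b : V3, B a b = a 0 * (b 0 * b00 + b 1 * b01 + b 2 * b02)
      + a 1 * (b 0 * b01 + b 1 * b11 + b 2 * b12)
      + a 2 * (b 0 * b02 + b 1 * b12 + b 2 * b22) := by
      intro a b
      rw [h400_lin2 B a b, e10, e20, e21, ← hb00, ← hb01, ← hb02, ← hb11, ← hb12, ← hb22]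
    simp only [hDl, hBl, dot, Pi.add_apply, Pi.sub_apply, Pi.smul_apply, smul_eq_mul]
    simp only [Pi.single_eq_same, Pi.single_apply]
    simp
    ring
  unfold sec
  have hcg : ∀ a b : V3, cg w z a b = Real.exp (2 * w z) * dot a b := fun a b => rfl
  rw [hcg, hcg, hcg, hcg, hR]
  have he : Real.exp (-2 * w z) = (Real.exp (2 * w z))⁻¹ := by
    rw [← Real.exp_neg]
    ring_nf
  rw [he]
  have hE : Real.exp (2 * w z) ≠ 0 := (Real.exp_pos _).ne'
  obtain ⟨E, hEE⟩ : ∃ E, E = Real.exp (2 * w z) := ⟨_, rfl⟩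
  rw [← hEE] at hE ⊢
  have h5 : E * dot x x * (E * dot y y) - (E * dot x y) ^ 2 = E * (E * (dot x x * dot y y - dot x y ^ 2)) := by ring
  rw [h5, mul_div_mul_left _ _ hE]
  generalize dot x x * dot y y - dot x y ^ 2 = Δ
  generalize schouten w z x x * dot y y + schouten w z y y * dot x x - 2 * schouten w z x y * dot x y = Q
  rw [div_mul_eq_div_div, neg_div]
  ring

end Pool.Agent.BL.CgSec
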