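import Pool.Agent.BL.Defs

set_option autoImplicit false
open Set Filter Topology MeasureTheory
open scoped ContDiff


namespace Pool.Agent.BL.ChO
open Pool.Agent.BL

open Set Filter Topology MeasureTheory
open scoped ContDiff

/-! ## TARGET (prove this) -/

theorem ch_act_o_alg (a b c d : ℂ) (h : a * d - b * c = 1) :
    (b * (starRingEnd ℂ) d + a * (starRingEnd ℂ) c).re ^ 2 +
      (b * (starRingEnd ℂ) d + a * (starRingEnd ℂ) c).im ^ 2 + 1 =
      (Complex.normSq a + Complex.normSq b) * (Complex.normSq d + Complex.normSq c) := by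
  have h1 := congrArg Complex.re h
  have h2 := congrArg Complex.im h
  simp only [Complex.sub_re, Complex.mul_re, Complex.sub_im, Complex.mul_im, Complex.one_re,
    Complex.one_im] at h1 h2
  simp only [Complex.add_re, Complex.mul_re, Complex.add_im, Complex.mul_im, Complex.conj_re,
    Complex.conj_im, Complex.normSq_apply]
  have h3 : (1 : ℝ) = (a.re * d.re - a.im * d.im - (b.re * c.re - b.im * c.im)) ^ 2 +
      (a.re * d.im + a.im * d.re - (b.re * c.im + b.im * c.re)) ^ 2 := by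
    rw [h1, h2]; norm_num
  rw [h3]
  ring

theorem ch_act_o (A : Matrix (Fin 2) (Fin 2) ℂ) (hA : A.det = 1) :
    ch o3 (act A o3) = (Complex.normSq (A 0 0) + Complex.normSq (A 0 1) + Complex.normSq (A 1 0)
      + Complex.normSq (A 1 1)) / 2 := by
  rw [Matrix.det_fin_two] at hA
  have halg := ch_act_o_alg (A 0 0) (A 0 1) (A 1 0) (A 1 1) hA
  have hζ : (⟨o3 0, o3 1⟩ : ℂ) = 0 := by
    apply Complex.ext <;> simp [o3]
  have h0 : o3 0 = 0 := by simp [o3]
  have h1 : o3 1 = 0 := by simp [o3]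
  have h2 : o3 2 = 1 := by simp [o3]
  obtain ⟨N, hN⟩ : ∃ N : ℝ, N = Complex.normSq (A 1 1) + Complex.normSq (A 1 0) := ⟨_, rfl⟩
  obtain ⟨η, hη⟩ : ∃ η : ℂ, η = A 0 1 * (starRingEnd ℂ) (A 1 1) + A 0 0 * (starRingEnd ℂ) (A 1 0) := ⟨_, rfl⟩
  have hact : act A o3 = ![η.re / N, η.im / N, 1 / N] := by
    unfold act
    simp only [hζ, h2, mul_zero, zero_add, one_pow, mul_one, Complex.ofReal_one, hN, hη]
  rw [hact]
  rw [← hN, ← hη] at halg
  have hN0 : N ≠ 0 := by
    rintro h
    rw [h, mul_zero] at halg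
    nlinarith [sq_nonneg η.re, sq_nonneg η.im]
  have e0 : (![η.re / N, η.im / N, 1 / N] : V3) 0 = η.re / N := rfl
  have e1 : (![η.re / N, η.im / N, 1 / N] : V3) 1 = η.im / N := rfl
  have e2 : (![η.re / N, η.im / N, 1 / N] : V3) 2 = 1 / N := rfl
  unfold ch
  rw [h0, h1, h2, e0, e1, e2]
  have hfin : Complex.normSq (A 0 0) + Complex.normSq (A 0 1) + Complex.normSq (A 1 0)
      + Complex.normSq (A 1 1) = (Complex.normSq (A 0 0) + Complex.normSq (A 0 1)) + N := by
    rw [hN]; ring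
  rw [hfin]
  have h5 : Complex.normSq (A 0 0) + Complex.normSq (A 0 1) = (η.re ^ 2 + η.im ^ 2 + 1) / N := by
    rw [halg]; field_simp
  rw [h5]
  field_simp
  ring

end Pool.Agent.BL.ChO
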