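import Pool.Agent.BL.Base

set_option autoImplicit false

namespace Pool.Agent.BL

open Set Filter Topology MeasureTheory
open scoped ContDiff

/-! ### Objects used in the proof only -/

/-- Hyperbolic cosine of the hyperbolic distance. -/
noncomputable def ch (p x : V3) : ℝ :=
  1 + ((x 0 - p 0) ^ 2 + (x 1 - p 1) ^ 2 + (x 2 - p 2) ^ 2) / (2 * p 2 * x 2)

/-- Hyperbolic distance in the upper half space. -/
noncomputable def hd (x y : U) : ℝ := Real.arcosh (ch x y)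

/-- Euclidean inner product. -/
def dot (v w : V3) : ℝ := v 0 * w 0 + v 1 * w 1 + v 2 * w 2

/-- The conformal metric `e^{2w} (dx₀² + dx₁² + dx₂²)`. -/
noncomputable def cg (w : V3 → ℝ) (z v v' : V3) : ℝ := Real.exp (2 * w z) * dot v v'

/-- The metric `e^{2(u+a)} g_hyp` on the upper half space. -/
noncomputable def hg (u : V3 → ℝ) (a : ℝ) : V3 → V3 → V3 → ℝ :=
  cg (fun y => u y - Real.log (y 2) + a)

/-- Distance of the metric `e^{2u} g_hyp`. -/
noncomputable def DD (u : V3 → ℝ) (x y : U) : ℝ := rdist U (hg u 0) x y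

/-- the vertical sequence below the point `(a, b, 0)` -/
noncomputable def vseq (a b : ℝ) (n : ℕ) : U :=
  ⟨![a, b, Real.exp (-n)], by simp [U, Real.exp_pos]⟩

/-- the point at height `2^(-k)` above `ξ` -/
noncomputable def vp (ξ : ℝ × ℝ) (k : ℕ) : U :=
  ⟨![ξ.1, ξ.2, (1 / 2) ^ k], by simp [U]⟩

/-- closed dyadic square of side `2^(-k)` -/
def Sq (k : ℕ) (m : ℤ × ℤ) : Set (ℝ × ℝ) :=
  {ξ | m.1 ≤ ξ.1 * 2 ^ k ∧ ξ.1 * 2 ^ k ≤ m.1 + 1 ∧ m.2 ≤ ξ.2 * 2 ^ k ∧ ξ.2 * 2 ^ k ≤ m.2 + 1}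

/-- admissible conformal factors -/
def Adm (u : V3 → ℝ) : Prop := ContinuousOn u U ∧ ∀ x ∈ U, |u x| ≤ 1

/-- Distance of the metric `e^{2(u+a)} g_hyp`. -/
noncomputable def SD (u : V3 → ℝ) (a : ℝ) (x y : U) : ℝ := rdist U (hg u a) x y

/-- Hausdorff dimension of the boundary of `e^{2u} g_hyp` -/
noncomputable def Dm (u : V3 → ℝ) : ℝ := hausdorffDim (vis (DD u) oU)

/-- the indices of the subsquares of generation `N` such that the vertical segments over them have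
length at most `A` -/
def GoodIdx (u : V3 → ℝ) (N : ℕ) (A : ℝ) (k : ℕ) (m : ℤ × ℤ) : Set (ℕ × ℕ) :=
  {s | s.1 < 2 ^ N ∧ s.2 < 2 ^ N ∧ ∀ ξ ∈ Sq (k + N) (m.1 * 2 ^ N + s.1, m.2 * 2 ^ N + s.2),
    DD u (vp ξ k) (vp ξ (k + N)) ≤ A}

/-- Christoffel symbols of the metric `e^{2w} |dx|²` -/
noncomputable def chr (w : V3 → ℝ) (z x v : V3) : V3 :=
  (fderiv ℝ w z x) • v + (fderiv ℝ w z v) • x
    - dot x v • (fun i : Fin 3 => fderiv ℝ w z (Pi.single i 1))

/-- Schouten type tensor of the metric `e^{2w} |dx|²` -/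
noncomputable def schouten (w : V3 → ℝ) (z x y : V3) : ℝ :=
  fderiv ℝ (fun z' => fderiv ℝ w z' y) z x - fderiv ℝ w z x * fderiv ℝ w z y
    + (∑ i : Fin 3, (fderiv ℝ w z (Pi.single i 1)) ^ 2) / 2 * dot x y

/-- squared length of the projection of the gradient of `ch p` to the plane spanned by `v, w` -/
noncomputable def Qf (p z v w : V3) : ℝ :=
  (z 2) ^ 2 * ((fderiv ℝ (ch p) z v) ^ 2 * dot w w + (fderiv ℝ (ch p) z w) ^ 2 * dot v v
    - 2 * fderiv ℝ (ch p) z v * fderiv ℝ (ch p) z w * dot v w) / (dot v v * dot w w - dot v w ^ 2)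

/-- The sectional curvatures of `e^{2u} g_hyp`, `u = b(cosh(distance to p))`, where the cosh is `c`
and `Q` is the squared length of the projection of the gradient of the cosh to the plane. -/
noncomputable def kappa (b : ℝ → ℝ) (c Q : ℝ) : ℝ :=
  -(Real.exp (-2 * b c)) *
    (1 + 2 * deriv b c * c + (deriv b c) ^ 2 * (c ^ 2 - 1)
      + (deriv (deriv b) c - (deriv b c) ^ 2) * Q)

/-- The Poincare extension of the Moebius transformation of the matrix `A`. -/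
noncomputable def act (A : Matrix (Fin 2) (Fin 2) ℂ) (z : V3) : V3 :=
  let ζ : ℂ := ⟨z 0, z 1⟩
  let N : ℝ := Complex.normSq (A 1 0 * ζ + A 1 1) + Complex.normSq (A 1 0) * (z 2) ^ 2
  let η : ℂ := (A 0 0 * ζ + A 0 1) * (starRingEnd ℂ) (A 1 0 * ζ + A 1 1)
    + A 0 0 * (starRingEnd ℂ) (A 1 0) * ((z 2) ^ 2 : ℝ)
  ![η.re / N, η.im / N, z 2 / N]

/-- The element `x₁ + x₂ i + x₃ j + x₄ ij` of the quaternion order over the Gaussian integers,
`i² = 5`, `j² = 2`, as a complex matrix. -/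
noncomputable def qm (x : Fin 4 → GaussianInt) : Matrix (Fin 2) (Fin 2) ℂ :=
  !![(x 0 : ℂ) + (x 1 : ℂ) * (Real.sqrt 5 : ℝ), 2 * ((x 2 : ℂ) + (x 3 : ℂ) * (Real.sqrt 5 : ℝ));
     (x 2 : ℂ) - (x 3 : ℂ) * (Real.sqrt 5 : ℝ), (x 0 : ℂ) - (x 1 : ℂ) * (Real.sqrt 5 : ℝ)]

/-- Reduced norm. -/
def qn (x : Fin 4 → GaussianInt) : GaussianInt :=
  x 0 ^ 2 - 5 * x 1 ^ 2 - 2 * x 2 ^ 2 + 10 * x 3 ^ 2

/-- The congruence subgroup of level 3 of the group of elements of norm 1 of the order. -/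
def Gm : Set (Matrix (Fin 2) (Fin 2) ℂ) :=
  {A | ∃ x : Fin 4 → GaussianInt, A = qm x ∧ qn x = 1 ∧ (3 : GaussianInt) ∣ x 0 - 1 ∧
    (3 : GaussianInt) ∣ x 1 ∧ (3 : GaussianInt) ∣ x 2 ∧ (3 : GaussianInt) ∣ x 3}

/-! ### Coarse geometry (used in the proof only) -/

section coarse

variable {α : Type*}

/-- pseudometric -/
structure PM (d : α → α → ℝ) : Prop where
  self : ∀ x, d x x = 0
  symm : ∀ x y, d x y = d y x
  tri : ∀ x y z, d x z ≤ d x y + d y z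

/-- four point condition -/
def Hyp (d : α → α → ℝ) (δ : ℝ) : Prop :=
  ∀ x y z w, d x y + d z w ≤ max (d x z + d y w) (d x w + d y z) + 2 * δ

/-- geodesic space -/
def Geod (d : α → α → ℝ) : Prop :=
  ∀ x y t, 0 ≤ t → t ≤ d x y → ∃ z, d x z = t ∧ d z y = d x y - t

/-- hyperbolicity at the base point `o` -/
def GH (d : α → α → ℝ) (o : α) (C : ℝ) : Prop :=
  ∀ x y z, min (gp d o x y) (gp d o y z) ≤ gp d o x z + C

/-- `d'` is a pseudometric bilipschitz to `d`, and almost a length metric -/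
structure Comp (d d' : α → α → ℝ) (lam : ℝ) : Prop where
  pm : PM d'
  lower : ∀ x y, d x y ≤ lam * d' x y
  upper : ∀ x y, d' x y ≤ lam * d x y
  chain : ∀ x y, ∃ (k : ℕ) (q : ℕ → α), q 0 = x ∧ q k = y ∧ (∀ i < k, d (q i) (q (i + 1)) ≤ 1) ∧
    ∑ i ∈ Finset.range k, d' (q i) (q (i + 1)) ≤ d' x y + 1

end coarse

end Pool.Agent.BL
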