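import Pool.Agent.BL.Defs
import Pool.Agent.BL.DdCur
import Pool.Agent.BL.DdPm
import Pool.Agent.BL.VpD
import Pool.Agent.BL.HdPm

set_option autoImplicit false
open Set Filter Topology MeasureTheory
open scoped ContDiff


namespace Pool.Agent.BL.GoodSq
open Pool.Agent.BL
open Pool.Agent.BL.DdCur (dd_le_curve)
open Pool.Agent.BL.DdPm (dd_pm)
open Pool.Agent.BL.VpD (vp_dist)
open Pool.Agent.BL.HdPm (hd_pm)

open Set Filter Topology MeasureTheory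
open scoped ContDiff






/-! ## TARGET (prove this) -/

theorem gs_vert (u : V3 → ℝ) (hu : Adm u) (x1 x2 s0 lam B : ℝ) (hs : 0 < s0) (hlam : 0 ≤ lam)
    (hB : ∀ t ∈ Icc (0 : ℝ) 1, u ![x1, x2, s0 * Real.exp (-(lam * t))] ≤ B) (p q : U)
    (hp : (p : V3) = ![x1, x2, s0]) (hq : (q : V3) = ![x1, x2, s0 * Real.exp (-lam)]) :
    DD u p q ≤ lam * Real.exp B := by
  obtain ⟨c, hcdef⟩ : ∃ c : ℝ → V3, ∀ t, c t = ![x1, x2, s0 * Real.exp (-(lam * t))] :=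
    ⟨_, fun t => rfl⟩
  have hc2 : ∀ t, c t 2 = s0 * Real.exp (-(lam * t)) := fun t => by rw [hcdef]; rfl
  have hpos : ∀ t, 0 < s0 * Real.exp (-(lam * t)) := fun t => by positivity
  have hcfun : c = fun t => ![x1, x2, s0 * Real.exp (-(lam * t))] := funext hcdef
  have hc : ContDiff ℝ 1 c := by
    rw [hcfun, contDiff_pi]
    intro i
    fin_cases i
    · exact contDiff_const
    · exact contDiff_const
    · change ContDiff ℝ 1 (fun t : ℝ => s0 * Real.exp (-(lam * t)))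
      fun_prop
  have hU : ∀ t ∈ Icc (0 : ℝ) 1, c t ∈ U := by
    intro t _
    change 0 < c t 2
    rw [hc2]
    exact hpos t
  have h := dd_le_curve u hu c hc hU
  have e0 : (⟨c 0, hU 0 (by simp)⟩ : U) = p := by
    apply Subtype.ext
    rw [hp]
    change c 0 = _
    rw [hcdef]
    simp
  have e1 : (⟨c 1, hU 1 (by simp)⟩ : U) = q := by
    apply Subtype.ext
    rw [hq]
    change c 1 = _
    rw [hcdef]
    simp
  rw [e0, e1] at h
  have hder : ∀ t, deriv c t = ![0, 0, s0 * (Real.exp (-(lam * t)) * (-lam))] := by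
    intro t
    apply HasDerivAt.deriv
    rw [hcfun, hasDerivAt_pi]
    intro i
    fin_cases i
    · exact hasDerivAt_const _ _
    · exact hasDerivAt_const _ _
    · change HasDerivAt (fun t : ℝ => s0 * Real.exp (-(lam * t)))
        (s0 * (Real.exp (-(lam * t)) * (-lam))) t
      have h1 : HasDerivAt (fun t : ℝ => -(lam * t)) (-lam) t :=
        ((hasDerivAt_id t).const_mul lam).neg.congr_deriv (by ring)
      exact h1.exp.const_mul s0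
  have hint : ∀ t, Real.exp (u (c t)) * (Real.sqrt (dot (deriv c t) (deriv c t)) / c t 2) =
      Real.exp (u (c t)) * lam := by
    intro t
    congr 1
    rw [hder, hc2]
    have e2 : dot ![0, 0, s0 * (Real.exp (-(lam * t)) * (-lam))]
        ![0, 0, s0 * (Real.exp (-(lam * t)) * (-lam))] =
        (lam * (s0 * Real.exp (-(lam * t)))) ^ 2 := by
      simp [dot]
      ring
    rw [e2, Real.sqrt_sq (mul_nonneg hlam (hpos t).le), mul_div_assoc, div_self (hpos t).ne',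
      mul_one]
  simp only [hint] at h
  refine h.trans ?_
  have hcont : ContinuousOn (fun t : ℝ => Real.exp (u (c t)) * lam) (Icc 0 1) := by
    have h1 : ContinuousOn (fun t : ℝ => u (c t)) (Icc 0 1) :=
      hu.1.comp hc.continuous.continuousOn (fun t ht => hU t ht)
    exact h1.rexp.mul continuousOn_const
  calc ∫ t in (0 : ℝ)..1, Real.exp (u (c t)) * lam
      ≤ ∫ t in (0 : ℝ)..1, Real.exp B * lam := by
        apply intervalIntegral.integral_mono_on zero_le_one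
        · apply ContinuousOn.intervalIntegrable
          rwa [uIcc_of_le zero_le_one]
        · exact intervalIntegrable_const
        · intro t ht
          refine mul_le_mul_of_nonneg_right (Real.exp_le_exp.2 ?_) hlam
          rw [hcdef]
          exact hB t ht
    _ = lam * Real.exp B := by
        rw [intervalIntegral.integral_const, smul_eq_mul]
        ring

theorem gs_ch_one (p x : V3) (hp : 0 < p 2) (hx : 0 < x 2) : 1 ≤ ch p x := by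
  unfold ch
  have : 0 ≤ ((x 0 - p 0) ^ 2 + (x 1 - p 1) ^ 2 + (x 2 - p 2) ^ 2) / (2 * p 2 * x 2) := by
    positivity
  linarith

theorem gs_cosh_lower (r : ℝ) (hr : 0 ≤ r) : 1 + r ^ 2 / 2 ≤ Real.cosh r := by
  have h1 : r / 2 ≤ Real.sinh (r / 2) := Real.self_le_sinh_iff.2 (by linarith)
  have h2 : Real.cosh r = 1 + 2 * Real.sinh (r / 2) ^ 2 := by
    have h3 := Real.cosh_two_mul (r / 2)
    have h4 := Real.cosh_sq (r / 2)
    have h5 : 2 * (r / 2) = r := by ring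
    rw [h5] at h3
    linarith
  rw [h2]
  nlinarith

theorem gs_upper (x q : U) (R : ℝ) (h : hd x q ≤ R) : ch x q ≤ Real.cosh R := by
  have h1 := gs_ch_one x q x.2 q.2
  have h0 : 0 ≤ hd x q := Real.arcosh_nonneg h1
  have h2 : Real.cosh (hd x q) = ch x q := Real.cosh_arcosh h1
  rw [← h2]
  rw [Real.cosh_le_cosh, abs_of_nonneg h0, abs_of_nonneg (h0.trans h)]
  exact h

theorem gs_geo (y q : V3) (E : ℝ) (hy : 0 < y 2) (hq : 0 < q 2) (h : ch y q ≤ E) :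
    q 2 ≤ 2 * E * y 2 ∧ y 2 ≤ 2 * E * q 2 ∧ |q 0 - y 0| ≤ 2 * E * y 2 ∧
    |q 1 - y 1| ≤ 2 * E * y 2 := by
  have hE : 1 ≤ E := (gs_ch_one y q hy hq).trans h
  unfold ch at h
  have h1 : ((q 0 - y 0) ^ 2 + (q 1 - y 1) ^ 2 + (q 2 - y 2) ^ 2) ≤ (E - 1) * (2 * y 2 * q 2) := by
    rw [← div_le_iff₀ (by positivity)]
    linarith
  have s0 := sq_nonneg (q 0 - y 0)
  have s1 := sq_nonneg (q 1 - y 1)
  have s2 := sq_nonneg (q 2 - y 2)
  have hyq : 0 < y 2 * q 2 := mul_pos hy hq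
  have a1 : q 2 ≤ 2 * E * y 2 := by
    have : q 2 * q 2 ≤ (2 * E * y 2) * q 2 := by nlinarith
    exact le_of_mul_le_mul_right this hq
  have a2 : y 2 ≤ 2 * E * q 2 := by
    have : y 2 * y 2 ≤ (2 * E * q 2) * y 2 := by nlinarith
    exact le_of_mul_le_mul_right this hy
  have a3 : 2 * E * (y 2 * q 2) ≤ (2 * E * y 2) ^ 2 := by
    have h2 : (2 * E * y 2) * q 2 ≤ (2 * E * y 2) * (2 * E * y 2) :=
      mul_le_mul_of_nonneg_left a1 (by positivity)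
    nlinarith
  have hpos : 0 ≤ 2 * E * y 2 := by positivity
  refine ⟨a1, a2, ?_, ?_⟩
  · apply abs_le_of_sq_le_sq _ hpos
    nlinarith
  · apply abs_le_of_sq_le_sq _ hpos
    nlinarith

theorem gs_ball (q p : V3) (r s : ℝ) (hr : 0 < r) (hr1 : r ≤ 1) (hq : 0 < q 2)
    (hp : p 2 = q 2 * s) (hs : 1 - r / 4 ≤ s) (hs1 : s ≤ 1) (h0 : |p 0 - q 0| ≤ r / 10 * q 2)
    (h1 : |p 1 - q 1| ≤ r / 10 * q 2) : ch q p ≤ Real.cosh r := by
  refine le_trans ?_ (gs_cosh_lower r hr.le)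
  unfold ch
  have hs0 : 3 / 4 ≤ s := by linarith
  have hsp : 0 < s := by linarith
  have h0' : (p 0 - q 0) ^ 2 ≤ (r / 10 * q 2) ^ 2 := by
    rw [← sq_abs]
    exact pow_le_pow_left₀ (abs_nonneg _) h0 2
  have h1' : (p 1 - q 1) ^ 2 ≤ (r / 10 * q 2) ^ 2 := by
    rw [← sq_abs (p 1 - q 1)]
    exact pow_le_pow_left₀ (abs_nonneg _) h1 2
  have h2' : (p 2 - q 2) ^ 2 ≤ (r / 4 * q 2) ^ 2 := by
    rw [hp]
    have e : (q 2 * s - q 2) ^ 2 = ((1 - s) * q 2) ^ 2 := by ring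
    rw [e]
    apply pow_le_pow_left₀ (mul_nonneg (by linarith) hq.le)
    exact mul_le_mul_of_nonneg_right (by linarith) hq.le
  have hden : 0 < 2 * q 2 * p 2 := by
    rw [hp]
    positivity
  have h3 : ((p 0 - q 0) ^ 2 + (p 1 - q 1) ^ 2 + (p 2 - q 2) ^ 2) / (2 * q 2 * p 2) ≤ r ^ 2 / 2 := by
    rw [div_le_iff₀ hden, hp]
    rw [hp] at h2'
    have h4 : r ^ 2 / 2 * (2 * q 2 * (q 2 * s)) = (r * q 2) ^ 2 * s := by ring
    have h5 : (r * q 2) ^ 2 * (3 / 4) ≤ (r * q 2) ^ 2 * s :=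
      mul_le_mul_of_nonneg_left hs0 (sq_nonneg _)
    rw [h4]
    nlinarith [sq_nonneg (r * q 2)]
  linarith

theorem gs_idx (x h : ℝ) (k j : ℕ) (m : ℤ) (hh : h * 2 ^ k = 1)
    (hx : |x - (m + 1 / 2) * h| ≤ h / 20) :
    ∃ a : ℕ, a < 2 ^ j ∧ ((m * 2 ^ j + (a : ℤ) : ℤ) : ℝ) ≤ x * 2 ^ (k + j) ∧
      x * 2 ^ (k + j) ≤ ((m * 2 ^ j + (a : ℤ) : ℤ) : ℝ) + 1 := by
  have hk : (0 : ℝ) < 2 ^ k := by positivity
  have hj : (0 : ℝ) < 2 ^ j := by positivity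
  obtain ⟨l1, l2⟩ := abs_le.1 hx
  have b1 : (m : ℝ) + 9 / 20 ≤ x * 2 ^ k := by
    have : ((m : ℝ) + 9 / 20) * h ≤ x := by linarith
    have := mul_le_mul_of_nonneg_right this hk.le
    rw [mul_assoc, hh, mul_one] at this
    exact this
  have b2 : x * 2 ^ k ≤ (m : ℝ) + 11 / 20 := by
    have : x ≤ ((m : ℝ) + 11 / 20) * h := by linarith
    have := mul_le_mul_of_nonneg_right this hk.le
    rw [mul_assoc, hh, mul_one] at this
    exact this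
  have e : x * 2 ^ (k + j) = (x * 2 ^ k) * 2 ^ j := by rw [pow_add]; ring
  have c1 : m * 2 ^ j ≤ ⌊x * 2 ^ (k + j)⌋ := by
    rw [Int.le_floor]
    push_cast
    rw [e]
    exact mul_le_mul_of_nonneg_right (by linarith) hj.le
  have c2 : ⌊x * 2 ^ (k + j)⌋ < m * 2 ^ j + 2 ^ j := by
    rw [Int.floor_lt]
    push_cast
    rw [e]
    have : x * 2 ^ k * 2 ^ j < (m + 1) * 2 ^ j := mul_lt_mul_of_pos_right (by linarith) hj
    linarith
  refine ⟨(⌊x * 2 ^ (k + j)⌋ - m * 2 ^ j).toNat, ?_, ?_, ?_⟩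
  · have h1 : ((⌊x * 2 ^ (k + j)⌋ - m * 2 ^ j).toNat : ℤ) < ((2 ^ j : ℕ) : ℤ) := by
      rw [Int.toNat_of_nonneg (by linarith)]
      push_cast
      linarith
    exact_mod_cast h1
  · rw [Int.toNat_of_nonneg (by linarith), add_sub_cancel]
    exact Int.floor_le _
  · rw [Int.toNat_of_nonneg (by linarith), add_sub_cancel]
    exact (Int.lt_floor_add_one _).le

theorem gs_n1 (ρ q : ℝ) (hρ1 : ρ ≤ 1) (hq : 0 < q) : ρ / 10 * q ≤ q * (3 / 4) := by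
  nlinarith

theorem gs_n2 (E t h : ℝ) (hh : 0 < h) (hEi : 2 * E * t ≤ 1 / 20) :
    2 * E * (h * t) ≤ h / 20 := by
  have h1 := mul_le_mul_of_nonneg_left hEi hh.le
  nlinarith

theorem gs_n3 (E h tj ti ρ q : ℝ) (hE : 1 ≤ E) (hh0 : 0 < h) (hρ : 0 < ρ)
    (h1 : 20 * E * tj ≤ ρ * ti) (g2 : h * ti ≤ 2 * E * q) : h * tj ≤ ρ / 10 * q := by
  have h2 : 20 * E * (h * tj) ≤ 20 * E * (ρ / 10 * q) := by
    have h3 : h * (20 * E * tj) ≤ h * (ρ * ti) := mul_le_mul_of_nonneg_left h1 hh0.le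
    have h4 : ρ * (h * ti) ≤ ρ * (2 * E * q) := mul_le_mul_of_nonneg_left g2 hρ.le
    nlinarith
  exact le_of_mul_le_mul_left h2 (by positivity)

theorem gs_n4 (E ρ : ℝ) (i j : ℕ) (hj : 20 * E * 2 ^ i < 2 ^ j * ρ) :
    20 * E * (1 / 2) ^ j ≤ ρ * (1 / 2) ^ i := by
  have hti2 : ((1 : ℝ) / 2) ^ i * 2 ^ i = 1 := by
    rw [← mul_pow]
    norm_num
  have htj2 : ((1 : ℝ) / 2) ^ j * 2 ^ j = 1 := by
    rw [← mul_pow]
    norm_num
  have h2 : 20 * E * 2 ^ i * ((1 / 2) ^ i * (1 / 2) ^ j) ≤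
      2 ^ j * ρ * ((1 / 2) ^ i * (1 / 2) ^ j) :=
    mul_le_mul_of_nonneg_right hj.le (by positivity)
  have h3 : 20 * E * 2 ^ i * ((1 / 2) ^ i * (1 / 2) ^ j) = 20 * E * (1 / 2) ^ j *
    ((1 / 2) ^ i * 2 ^ i) := by ring
  have h4 : (2 : ℝ) ^ j * ρ * ((1 / 2) ^ i * (1 / 2) ^ j) = ρ * (1 / 2) ^ i *
    ((1 / 2) ^ j * 2 ^ j) := by ring
  rw [h3, h4, hti2, htj2, mul_one, mul_one] at h2
  exact h2

theorem gs_n5 (E ρ : ℝ) (i j : ℕ) (hE : 1 ≤ E) (hρ1 : ρ ≤ 1)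
    (hj : 20 * E * 2 ^ i < 2 ^ j * ρ) : 0 < j := by
  rcases Nat.eq_zero_or_pos j with h0 | h0
  · exfalso
    rw [h0, pow_zero, one_mul] at hj
    have : (1 : ℝ) ≤ 2 ^ i := one_le_pow₀ (by norm_num)
    nlinarith
  · exact h0

/-- the three pieces -/
theorem gs_pieces (u : V3 → ℝ) (hu : Adm u) (hneg : ∀ x ∈ U, u x ≤ 0) (ρ r η h : ℝ)
    (hρ : 0 < ρ) (hρ1 : ρ ≤ 1) (hρr : ρ ≤ r) (q : U)
    (hq2 : ∀ y : U, hd q y ≤ r → u y ≤ -η) (k j : ℕ) (ξ : ℝ × ℝ) (hh : h = (1 / 2) ^ k)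
    (d0 : |ξ.1 - (q : V3) 0| ≤ ρ / 10 * (q : V3) 2) (d1 : |ξ.2 - (q : V3) 1| ≤ ρ / 10 * (q : V3) 2)
    (hsmall : ((1 : ℝ) / 2) ^ (k + j) ≤ ρ / 10 * (q : V3) 2) (hq2h : (q : V3) 2 ≤ h) :
    DD u (vp ξ k) (vp ξ (k + j)) ≤ j * Real.log 2 - (1 - Real.exp (-η)) * (ρ / 4) := by
  have hqpos : 0 < (q : V3) 2 := q.2
  have hh0 : 0 < h := by rw [hh]; positivity
  have hexp4 : 3 / 4 ≤ Real.exp (-(ρ / 4)) := by
    have := Real.add_one_le_exp (-(ρ / 4))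
    linarith
  -- the three pieces
  have hs3 : ((1 : ℝ) / 2) ^ (k + j) ≤ (q : V3) 2 * Real.exp (-(ρ / 4)) := by
    have h1 : ρ / 10 * (q : V3) 2 ≤ (q : V3) 2 * (3 / 4) := gs_n1 ρ _ hρ1 hqpos
    have h2 : (q : V3) 2 * (3 / 4) ≤ (q : V3) 2 * Real.exp (-(ρ / 4)) :=
      mul_le_mul_of_nonneg_left hexp4 hqpos.le
    linarith
  have hs3p : (0 : ℝ) < (1 / 2) ^ (k + j) := by positivity
  have hs2p : 0 < (q : V3) 2 * Real.exp (-(ρ / 4)) := by positivity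
  obtain ⟨P, hP⟩ : ∃ P : U, (P : V3) = ![ξ.1, ξ.2, (q : V3) 2] :=
    ⟨⟨_, by change 0 < (q : V3) 2; exact hqpos⟩, rfl⟩
  obtain ⟨Q, hQ⟩ : ∃ Q : U, (Q : V3) = ![ξ.1, ξ.2, (q : V3) 2 * Real.exp (-(ρ / 4))] :=
    ⟨⟨_, by change 0 < (q : V3) 2 * Real.exp (-(ρ / 4)); exact hs2p⟩, rfl⟩
  have hUmem : ∀ s : ℝ, 0 < s → (![ξ.1, ξ.2, s] : V3) ∈ U := fun s hs => by
    change 0 < s
    exact hs
  have p1 : DD u (vp ξ k) P ≤ Real.log (h / (q : V3) 2) * Real.exp 0 := by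
    refine gs_vert u hu ξ.1 ξ.2 h _ 0 hh0 (Real.log_nonneg ?_) ?_ _ _ ?_ ?_
    · rw [one_le_div hqpos]
      exact hq2h
    · intro t _
      exact hneg _ (hUmem _ (by positivity))
    · rw [hh]
      rfl
    · rw [hP, Real.exp_neg, Real.exp_log (by positivity)]
      congr 3
      field_simp
  have p2 : DD u P Q ≤ (ρ / 4) * Real.exp (-η) := by
    refine gs_vert u hu ξ.1 ξ.2 ((q : V3) 2) _ (-η) hqpos (by linarith) ?_ _ _ hP ?_
    · intro t ht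
      have hpos : 0 < (q : V3) 2 * Real.exp (-(ρ / 4 * t)) := by positivity
      have h5 := hq2 ⟨_, hUmem _ hpos⟩ (by
        have h6 : ch (q : V3) ![ξ.1, ξ.2, (q : V3) 2 * Real.exp (-(ρ / 4 * t))] ≤ Real.cosh ρ := by
          refine gs_ball q _ ρ (Real.exp (-(ρ / 4 * t))) hρ hρ1 hqpos rfl ?_ ?_ ?_ ?_
          · have := Real.add_one_le_exp (-(ρ / 4 * t))
            have : ρ / 4 * t ≤ ρ / 4 * 1 := mul_le_mul_of_nonneg_left ht.2 (by linarith)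
            linarith
          · rw [Real.exp_le_one_iff]
            have : 0 ≤ ρ / 4 * t := mul_nonneg (by linarith) ht.1
            linarith
          · exact d0
          · exact d1
        have h7 := gs_ch_one (q : V3) ![ξ.1, ξ.2, (q : V3) 2 * Real.exp (-(ρ / 4 * t))] hqpos
          (by change 0 < (q : V3) 2 * Real.exp (-(ρ / 4 * t)); exact hpos)
        have h8 : Real.arcosh (ch (q : V3) ![ξ.1, ξ.2, (q : V3) 2 * Real.exp (-(ρ / 4 * t))]) ≤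
            Real.arcosh (Real.cosh ρ) :=
          (Real.arcosh_le_arcosh (by linarith) (Real.cosh_pos ρ)).2 h6
        rw [Real.arcosh_cosh hρ.le] at h8
        exact h8.trans hρr)
      exact h5
    · rw [hQ]
  have p3 : DD u Q (vp ξ (k + j)) ≤
      Real.log ((q : V3) 2 * Real.exp (-(ρ / 4)) / (1 / 2) ^ (k + j)) * Real.exp 0 := by
    refine gs_vert u hu ξ.1 ξ.2 ((q : V3) 2 * Real.exp (-(ρ / 4))) _ 0 hs2p
      (Real.log_nonneg ?_) ?_ _ _ hQ ?_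
    · rw [one_le_div hs3p]
      exact hs3
    · intro t _
      exact hneg _ (hUmem _ (by positivity))
    · rw [Real.exp_neg (Real.log _), Real.exp_log (by positivity)]
      change ![ξ.1, ξ.2, (1 / 2) ^ (k + j)] = _
      congr 3
      field_simp
  have hpm := dd_pm u hu
  have t1 := hpm.tri (vp ξ k) P (vp ξ (k + j))
  have t2 := hpm.tri P Q (vp ξ (k + j))
  have hlog : Real.log (h / (q : V3) 2) + ρ / 4 +
      Real.log ((q : V3) 2 * Real.exp (-(ρ / 4)) / (1 / 2) ^ (k + j)) = j * Real.log 2 := by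
    rw [Real.log_div hh0.ne' hqpos.ne', Real.log_div hs2p.ne' hs3p.ne',
      Real.log_mul hqpos.ne' (Real.exp_pos _).ne', Real.log_exp, hh, Real.log_pow, Real.log_pow,
      one_div, Real.log_inv]
    push_cast
    ring
  rw [Real.exp_zero, mul_one] at p1 p3
  have e9 : (1 - Real.exp (-η)) * (ρ / 4) = ρ / 4 - ρ / 4 * Real.exp (-η) := by ring
  rw [e9]
  linarith

theorem gs_dist (x y A : ℝ) (n : ℕ) (h1 : A ≤ x * 2 ^ n) (h2 : x * 2 ^ n ≤ A + 1)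
    (h3 : A ≤ y * 2 ^ n) (h4 : y * 2 ^ n ≤ A + 1) : |x - y| ≤ (1 / 2) ^ n := by
  have hn : (0 : ℝ) < 2 ^ n := by positivity
  have h5 : |(x - y) * 2 ^ n| ≤ 1 := by
    rw [abs_le]
    constructor <;> linarith
  rw [abs_mul, abs_of_pos hn] at h5
  rw [one_div, inv_pow, ← one_div, le_div_iff₀ hn]
  exact h5

theorem good_square (u : V3 → ℝ) (hu : Adm u) (hneg : ∀ x ∈ U, u x ≤ 0) (R r η : ℝ)
    (hr : 0 < r) (hη : 0 < η)
    (hsyn : ∀ x : U, ∃ q : U, hd x q ≤ R ∧ ∀ y : U, hd q y ≤ r → u y ≤ -η) :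
    ∃ (j : ℕ) (η' : ℝ), 0 < j ∧ 0 < η' ∧ ∀ (k : ℕ) (m : ℤ × ℤ), ∃ a b : ℕ, a < 2 ^ j ∧ b < 2 ^ j ∧
      ∀ ξ ∈ Sq (k + j) (m.1 * 2 ^ j + a, m.2 * 2 ^ j + b),
        DD u (vp ξ k) (vp ξ (k + j)) ≤ j * Real.log 2 - η' := by
  obtain ⟨ρ, hρdef⟩ : ∃ ρ, ρ = min r 1 := ⟨_, rfl⟩
  have hρ : 0 < ρ := by rw [hρdef]; exact lt_min hr one_pos
  have hρ1 : ρ ≤ 1 := by rw [hρdef]; exact min_le_right _ _
  have hρr : ρ ≤ r := by rw [hρdef]; exact min_le_left _ _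
  obtain ⟨E, hE⟩ : ∃ E, E = Real.cosh R := ⟨_, rfl⟩
  have hE1 : 1 ≤ E := by rw [hE]; exact Real.one_le_cosh R
  obtain ⟨i, hi⟩ := pow_unbounded_of_one_lt (40 * E) (one_lt_two : (1 : ℝ) < 2)
  obtain ⟨j, hj⟩ := pow_unbounded_of_one_lt (20 * E * 2 ^ i / ρ) (one_lt_two : (1 : ℝ) < 2)
  rw [div_lt_iff₀ hρ] at hj
  have hj0 : 0 < j := gs_n5 E ρ i j hE1 hρ1 hj
  have hη1 : Real.exp (-η) < 1 := by
    rw [Real.exp_lt_one_iff]
    linarith
  refine ⟨j, (1 - Real.exp (-η)) * (ρ / 4), hj0, mul_pos (by linarith) (by linarith), ?_⟩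
  intro k m
  obtain ⟨h, hh⟩ : ∃ h : ℝ, h = (1 / 2) ^ k := ⟨_, rfl⟩
  have hh0 : 0 < h := by rw [hh]; positivity
  have hhk : h * 2 ^ k = 1 := by
    rw [hh, ← mul_pow]
    norm_num
  have hti : (0 : ℝ) < (1 / 2) ^ i := by positivity
  have htj : (0 : ℝ) < (1 / 2) ^ j := by positivity
  have hti2 : ((1 : ℝ) / 2) ^ i * 2 ^ i = 1 := by
    rw [← mul_pow]
    norm_num
  have htj2 : ((1 : ℝ) / 2) ^ j * 2 ^ j = 1 := by
    rw [← mul_pow]
    norm_num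
  obtain ⟨y, hydef⟩ : ∃ y : U, (y : V3) =
      ![((m.1 : ℝ) + 1 / 2) * h, ((m.2 : ℝ) + 1 / 2) * h, h * (1 / 2) ^ i] :=
    ⟨⟨_, by change 0 < h * (1 / 2) ^ i; positivity⟩, rfl⟩
  obtain ⟨q, hq1, hq2⟩ := hsyn y
  have hqpos : 0 < (q : V3) 2 := q.2
  have hypos : 0 < (y : V3) 2 := y.2
  have hch := gs_upper y q R hq1
  rw [← hE] at hch
  obtain ⟨g1, g2, g3, g4⟩ := gs_geo y q E hypos hqpos hch
  have y0 : (y : V3) 0 = ((m.1 : ℝ) + 1 / 2) * h := by rw [hydef]; rfl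
  have y1 : (y : V3) 1 = ((m.2 : ℝ) + 1 / 2) * h := by rw [hydef]; rfl
  have y2 : (y : V3) 2 = h * (1 / 2) ^ i := by rw [hydef]; rfl
  rw [y2] at g1 g2 g3 g4
  rw [y0] at g3
  rw [y1] at g4
  have hEi : 2 * E * (1 / 2) ^ i ≤ 1 / 20 := by
    have h1 : 40 * E * (1 / 2) ^ i ≤ 2 ^ i * (1 / 2) ^ i :=
      mul_le_mul_of_nonneg_right hi.le hti.le
    rw [mul_comm ((2 : ℝ) ^ i), hti2] at h1
    linarith
  have hEh : 2 * E * (h * (1 / 2) ^ i) ≤ h / 20 := gs_n2 E _ h hh0 hEi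
  obtain ⟨a, ha1, ha2, ha3⟩ := gs_idx _ h k j m.1 hhk (g3.trans hEh)
  obtain ⟨b, hb1, hb2, hb3⟩ := gs_idx _ h k j m.2 hhk (g4.trans hEh)
  refine ⟨a, b, ha1, hb1, ?_⟩
  intro ξ hξ
  obtain ⟨x1, x2, x3, x4⟩ := hξ
  simp only at x1 x2 x3 x4
  have d0 := gs_dist _ _ _ _ x1 x2 ha2 ha3
  have d1 := gs_dist _ _ _ _ x3 x4 hb2 hb3
  have hsmall : ((1 : ℝ) / 2) ^ (k + j) ≤ ρ / 10 * (q : V3) 2 := by
    rw [pow_add, ← hh]
    exact gs_n3 E h _ _ ρ _ hE1 hh0 hρ (gs_n4 E ρ i j hj) g2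
  have hq2h : (q : V3) 2 ≤ h := by linarith
  exact gs_pieces u hu hneg ρ r η h hρ hρ1 hρr q hq2 k j ξ hh (d0.trans hsmall)
    (d1.trans hsmall) hsmall hq2h

end Pool.Agent.BL.GoodSq
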