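import Pool.Agent.BL.Defs
import Pool.Agent.BL.VpD
import Pool.Agent.BL.DdPm

set_option autoImplicit false
open Set Filter Topology MeasureTheory
open scoped ContDiff


namespace Pool.Agent.BL.ManyG
open Pool.Agent.BL
open Pool.Agent.BL.VpD (vp_dist)
open Pool.Agent.BL.DdPm (dd_pm)

open Set Filter Topology MeasureTheory
open scoped ContDiff




/-! ## TARGET (prove this) -/

theorem mg_sum_mul (A B : ℕ) (f : ℕ → ℕ) :
    ∑ x ∈ Finset.range (A * B), f x =
      ∑ a ∈ Finset.range A, ∑ r ∈ Finset.range B, f (a * B + r) := by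
  induction A with
  | zero => simp
  | succ A ih =>
    rw [Nat.succ_mul, Finset.sum_range_add, ih, Finset.sum_range_succ]

theorem mg_sub (k N : ℕ) (m : ℤ) (x : ℕ) (hx : x < 2 ^ N) (t : ℝ)
    (h1 : ((m * 2 ^ N + x : ℤ) : ℝ) ≤ t * 2 ^ (k + N))
    (h2 : t * 2 ^ (k + N) ≤ ((m * 2 ^ N + x : ℤ) : ℝ) + 1) :
    (m : ℝ) ≤ t * 2 ^ k ∧ t * 2 ^ k ≤ m + 1 := by
  push_cast at h1 h2
  have hP : (0 : ℝ) < 2 ^ N := by positivity
  have e : t * 2 ^ (k + N) = (t * 2 ^ k) * 2 ^ N := by rw [pow_add]; ring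
  rw [e] at h1 h2
  have hx0 : (0 : ℝ) ≤ (x : ℝ) := Nat.cast_nonneg x
  have hx1 : (x : ℝ) + 1 ≤ 2 ^ N := by exact_mod_cast hx
  constructor
  · by_contra hlt
    push Not at hlt
    have := mul_lt_mul_of_pos_right hlt hP
    linarith
  · by_contra hlt
    push Not at hlt
    have := mul_lt_mul_of_pos_right hlt hP
    nlinarith

theorem mg_ind (u : V3 → ℝ) (hu : Adm u) (hneg : ∀ x ∈ U, u x ≤ 0) (j : ℕ) (η' : ℝ)
    (h : ∀ (k : ℕ) (m : ℤ × ℤ), ∃ a b : ℕ, a < 2 ^ j ∧ b < 2 ^ j ∧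
      ∀ ξ ∈ Sq (k + j) (m.1 * 2 ^ j + a, m.2 * 2 ^ j + b),
        DD u (vp ξ k) (vp ξ (k + j)) ≤ j * Real.log 2 - η') (n : ℕ) :
    ∀ (k : ℕ) (m : ℤ × ℤ), ∃ g : ℕ → ℕ → ℕ,
      (∀ x y, x < 2 ^ (n * j) → y < 2 ^ (n * j) → g x y ≤ n) ∧
      n * 4 ^ (n * j) ≤ 4 ^ j *
        ∑ x ∈ Finset.range (2 ^ (n * j)), ∑ y ∈ Finset.range (2 ^ (n * j)), g x y ∧
      ∀ x y : ℕ, x < 2 ^ (n * j) → y < 2 ^ (n * j) →
        ∀ ξ ∈ Sq (k + n * j) (m.1 * 2 ^ (n * j) + x, m.2 * 2 ^ (n * j) + y),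
        DD u (vp ξ k) (vp ξ (k + n * j)) ≤ n * j * Real.log 2 - g x y * η' := by
  induction n with
  | zero =>
    intro k m
    refine ⟨fun _ _ => 0, fun _ _ _ _ => le_refl _, by simp, ?_⟩
    intro x y _ _ ξ _
    rw [Nat.zero_mul]
    have := vp_dist u hu hneg ξ k 0
    simpa using this
  | succ n ih =>
    intro k m
    obtain ⟨a0, b0, ha0, hb0, hgood⟩ := h k m
    choose G hG1 hG2 hG3 using fun a b : ℕ => ih (k + j) (m.1 * 2 ^ j + a, m.2 * 2 ^ j + b)
    have eN : (n + 1) * j = j + n * j := by ring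
    have hB : 0 < 2 ^ (n * j) := by positivity
    have ePow : (2 : ℕ) ^ ((n + 1) * j) = 2 ^ j * 2 ^ (n * j) := by rw [eN, pow_add]
    have ek : k + (n + 1) * j = (k + j) + n * j := by ring
    refine ⟨fun x y => (if x / 2 ^ (n * j) = a0 ∧ y / 2 ^ (n * j) = b0 then 1 else 0) +
      G (x / 2 ^ (n * j)) (y / 2 ^ (n * j)) (x % 2 ^ (n * j)) (y % 2 ^ (n * j)), ?_, ?_, ?_⟩
    · intro x y hx hy
      have h1 := hG1 (x / 2 ^ (n * j)) (y / 2 ^ (n * j)) (x % 2 ^ (n * j)) (y % 2 ^ (n * j))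
        (Nat.mod_lt _ hB) (Nat.mod_lt _ hB)
      beta_reduce
      split_ifs <;> omega
    · rw [ePow, mg_sum_mul]
      have hin : ∀ a ∈ Finset.range (2 ^ j), ∑ r ∈ Finset.range (2 ^ (n * j)),
          ∑ y ∈ Finset.range (2 ^ j * 2 ^ (n * j)),
            ((if (a * 2 ^ (n * j) + r) / 2 ^ (n * j) = a0 ∧ y / 2 ^ (n * j) = b0 then 1 else 0) +
            G ((a * 2 ^ (n * j) + r) / 2 ^ (n * j)) (y / 2 ^ (n * j))
              ((a * 2 ^ (n * j) + r) % 2 ^ (n * j)) (y % 2 ^ (n * j))) =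
          ∑ b ∈ Finset.range (2 ^ j), ((if a = a0 ∧ b = b0 then 2 ^ (n * j) * 2 ^ (n * j) else 0) +
            ∑ r ∈ Finset.range (2 ^ (n * j)), ∑ t ∈ Finset.range (2 ^ (n * j)), G a b r t) := by
        intro a _
        have h1 : ∀ r ∈ Finset.range (2 ^ (n * j)),
            ∑ y ∈ Finset.range (2 ^ j * 2 ^ (n * j)),
            ((if (a * 2 ^ (n * j) + r) / 2 ^ (n * j) = a0 ∧ y / 2 ^ (n * j) = b0 then 1 else 0) +
            G ((a * 2 ^ (n * j) + r) / 2 ^ (n * j)) (y / 2 ^ (n * j))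
              ((a * 2 ^ (n * j) + r) % 2 ^ (n * j)) (y % 2 ^ (n * j))) =
            ∑ b ∈ Finset.range (2 ^ j), ∑ t ∈ Finset.range (2 ^ (n * j)),
              ((if a = a0 ∧ b = b0 then 1 else 0) + G a b r t) := by
          intro r hr
          have hr' := Finset.mem_range.mp hr
          rw [mg_sum_mul]
          refine Finset.sum_congr rfl fun b _ => Finset.sum_congr rfl fun t ht => ?_
          have ht' := Finset.mem_range.mp ht
          have e1 : (a * 2 ^ (n * j) + r) / 2 ^ (n * j) = a := by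
            rw [Nat.add_div_of_dvd_right (Dvd.intro_left a rfl), Nat.mul_div_cancel _ hB,
              Nat.div_eq_of_lt hr', add_zero]
          have e2 : (b * 2 ^ (n * j) + t) / 2 ^ (n * j) = b := by
            rw [Nat.add_div_of_dvd_right (Dvd.intro_left b rfl), Nat.mul_div_cancel _ hB,
              Nat.div_eq_of_lt ht', add_zero]
          have e3 : (a * 2 ^ (n * j) + r) % 2 ^ (n * j) = r := by
            rw [Nat.mul_add_mod', Nat.mod_eq_of_lt hr']
          have e4 : (b * 2 ^ (n * j) + t) % 2 ^ (n * j) = t := by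
            rw [Nat.mul_add_mod', Nat.mod_eq_of_lt ht']
          rw [e1, e2, e3, e4]
        rw [Finset.sum_congr rfl h1, Finset.sum_comm]
        refine Finset.sum_congr rfl fun b _ => ?_
        simp_rw [Finset.sum_add_distrib]
        congr 1
        simp only [Finset.sum_const, Finset.card_range, smul_eq_mul]
        split_ifs <;> ring
      rw [Finset.sum_congr rfl hin]
      simp_rw [Finset.sum_add_distrib]
      have hfirst : ∑ a ∈ Finset.range (2 ^ j), ∑ b ∈ Finset.range (2 ^ j),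
          (if a = a0 ∧ b = b0 then 2 ^ (n * j) * 2 ^ (n * j) else 0) =
          2 ^ (n * j) * 2 ^ (n * j) := by
        rw [Finset.sum_eq_single a0]
        · rw [Finset.sum_eq_single b0]
          · simp
          · intro b _ hb
            rw [if_neg (fun hc => hb hc.2)]
          · intro hb
            exact absurd (Finset.mem_range.mpr hb0) hb
        · intro a _ ha
          apply Finset.sum_eq_zero
          intro b _
          rw [if_neg (fun hc => ha hc.1)]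
        · intro ha
          exact absurd (Finset.mem_range.mpr ha0) ha
      rw [hfirst, mul_add]
      have hsec : 2 ^ j * (2 ^ j * (n * 4 ^ (n * j))) ≤ 4 ^ j *
          ∑ a ∈ Finset.range (2 ^ j), ∑ b ∈ Finset.range (2 ^ j),
          ∑ r ∈ Finset.range (2 ^ (n * j)), ∑ t ∈ Finset.range (2 ^ (n * j)), G a b r t := by
        rw [Finset.mul_sum]
        calc 2 ^ j * (2 ^ j * (n * 4 ^ (n * j))) =
            ∑ a ∈ Finset.range (2 ^ j), ∑ b ∈ Finset.range (2 ^ j), n * 4 ^ (n * j) := by simp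
          _ ≤ _ := by
            refine Finset.sum_le_sum fun a _ => ?_
            rw [Finset.mul_sum]
            exact Finset.sum_le_sum fun b _ => hG2 a b
      have e22 : (2 : ℕ) ^ (n * j) * 2 ^ (n * j) = 4 ^ (n * j) := by
        rw [← mul_pow]
        norm_num
      have e22' : (2 : ℕ) ^ j * 2 ^ j = 4 ^ j := by
        rw [← mul_pow]
        norm_num
      rw [e22]
      have e4 : (4 : ℕ) ^ ((n + 1) * j) = 4 ^ j * 4 ^ (n * j) := by rw [eN, pow_add]
      rw [e4]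
      have e5 : (n + 1) * (4 ^ j * 4 ^ (n * j)) = 4 ^ j * 4 ^ (n * j) +
          2 ^ j * (2 ^ j * (n * 4 ^ (n * j))) := by
        rw [← mul_assoc (2 ^ j) (2 ^ j), e22']
        ring
      rw [e5]
      exact Nat.add_le_add_left hsec _
    · intro x y hx hy ξ hξ
      beta_reduce
      have hx1 : x = 2 ^ (n * j) * (x / 2 ^ (n * j)) + x % 2 ^ (n * j) :=
        (Nat.div_add_mod x (2 ^ (n * j))).symm
      have hy1 : y = 2 ^ (n * j) * (y / 2 ^ (n * j)) + y % 2 ^ (n * j) :=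
        (Nat.div_add_mod y (2 ^ (n * j))).symm
      generalize hA : x / 2 ^ (n * j) = a at *
      generalize hR : x % 2 ^ (n * j) = r at *
      generalize hA' : y / 2 ^ (n * j) = b at *
      generalize hR' : y % 2 ^ (n * j) = t at *
      have hr : r < 2 ^ (n * j) := by rw [← hR]; exact Nat.mod_lt _ hB
      have ht : t < 2 ^ (n * j) := by rw [← hR']; exact Nat.mod_lt _ hB
      rw [ek] at hξ ⊢
      have eidx : ((m.1 * 2 ^ ((n + 1) * j) + x : ℤ), (m.2 * 2 ^ ((n + 1) * j) + y : ℤ)) =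
          (((m.1 * 2 ^ j + a) * 2 ^ (n * j) + r : ℤ), ((m.2 * 2 ^ j + b) * 2 ^ (n * j) + t : ℤ)) := by
        have hx2 : (x : ℤ) = 2 ^ (n * j) * a + r := by exact_mod_cast hx1
        have hy2 : (y : ℤ) = 2 ^ (n * j) * b + t := by exact_mod_cast hy1
        rw [hx2, hy2, eN, pow_add]
        exact Prod.ext (by ring) (by ring)
      rw [eidx] at hξ
      have h3 := hG3 a b r t hr ht ξ hξ
      obtain ⟨q1, q2, q3, q4⟩ := hξ
      have s1 := mg_sub (k + j) (n * j) (m.1 * 2 ^ j + a) r hr ξ.1 q1 q2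
      have s2 := mg_sub (k + j) (n * j) (m.2 * 2 ^ j + b) t ht ξ.2 q3 q4
      have hmem : ξ ∈ Sq (k + j) (m.1 * 2 ^ j + a, m.2 * 2 ^ j + b) := ⟨s1.1, s1.2, s2.1, s2.2⟩
      have htri := (dd_pm u hu).tri (vp ξ k) (vp ξ (k + j)) (vp ξ (k + j + n * j))
      by_cases hc : a = a0 ∧ b = b0
      · rw [if_pos hc]
        obtain ⟨rfl, rfl⟩ := hc
        have h4 := hgood ξ hmem
        push_cast
        linarith
      · rw [if_neg hc]
        have h4 := vp_dist u hu hneg ξ k j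
        push_cast
        linarith

theorem many_good (u : V3 → ℝ) (hu : Adm u) (hneg : ∀ x ∈ U, u x ≤ 0) (j : ℕ) (η' : ℝ)
    (hj : 0 < j) (hη : 0 < η')
    (h : ∀ (k : ℕ) (m : ℤ × ℤ), ∃ a b : ℕ, a < 2 ^ j ∧ b < 2 ^ j ∧
      ∀ ξ ∈ Sq (k + j) (m.1 * 2 ^ j + a, m.2 * 2 ^ j + b),
        DD u (vp ξ k) (vp ξ (k + j)) ≤ j * Real.log 2 - η')
    (n : ℕ) (k : ℕ) (m : ℤ × ℤ) :
    (4 : ℝ) ^ (n * j) / (2 * 4 ^ j) ≤
      (GoodIdx u (n * j) (n * j * Real.log 2 - n * η' / (2 * 4 ^ j)) k m).ncard := by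
  rcases Nat.eq_zero_or_pos n with rfl | hn
  · have hmem : (0, 0) ∈ GoodIdx u (0 * j)
        ((0 : ℕ) * j * Real.log 2 - (0 : ℕ) * η' / (2 * 4 ^ j)) k m := by
      refine ⟨by simp, by simp, ?_⟩
      intro ξ _
      rw [Nat.zero_mul]
      have := vp_dist u hu hneg ξ k 0
      simpa using this
    have hfin : (GoodIdx u (0 * j)
        ((0 : ℕ) * j * Real.log 2 - (0 : ℕ) * η' / (2 * 4 ^ j)) k m).Finite := by
      refine (Finset.finite_toSet (Finset.range (2 ^ (0 * j)) ×ˢ Finset.range (2 ^ (0 * j)))).subset ?_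
      rintro s ⟨h1, h2, _⟩
      simp only [Finset.coe_product, Set.mem_prod, Finset.coe_range, Set.mem_Iio]
      exact ⟨h1, h2⟩
    have h1 : 1 ≤ (GoodIdx u (0 * j)
        ((0 : ℕ) * j * Real.log 2 - (0 : ℕ) * η' / (2 * 4 ^ j)) k m).ncard :=
      (Set.ncard_pos hfin).mpr ⟨_, hmem⟩
    have h1' : (1 : ℝ) ≤ ((GoodIdx u (0 * j)
        ((0 : ℕ) * j * Real.log 2 - (0 : ℕ) * η' / (2 * 4 ^ j)) k m).ncard : ℝ) := by
      exact_mod_cast h1
    refine le_trans ?_ h1'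
    rw [Nat.zero_mul, pow_zero, div_le_one (by positivity)]
    have : (1 : ℝ) ≤ 4 ^ j := one_le_pow₀ (by norm_num)
    linarith
  · obtain ⟨g, hg1, hg2, hg3⟩ := mg_ind u hu hneg j η' h n k m
    set Bx := Finset.range (2 ^ (n * j)) ×ˢ Finset.range (2 ^ (n * j)) with hBx
    set Gd := Bx.filter (fun s => (n : ℝ) / (2 * 4 ^ j) ≤ (g s.1 s.2 : ℝ)) with hGd
    have hsub : (Gd : Set (ℕ × ℕ)) ⊆
        GoodIdx u (n * j) (n * j * Real.log 2 - n * η' / (2 * 4 ^ j)) k m := by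
      intro s hs
      rw [hGd, Finset.coe_filter, Set.mem_setOf_eq, hBx, Finset.mem_product, Finset.mem_range,
        Finset.mem_range] at hs
      refine ⟨hs.1.1, hs.1.2, ?_⟩
      intro ξ hξ
      refine (hg3 s.1 s.2 hs.1.1 hs.1.2 ξ hξ).trans ?_
      have h4 : (n : ℝ) * η' / (2 * 4 ^ j) ≤ g s.1 s.2 * η' := by
        have := mul_le_mul_of_nonneg_right hs.2 hη.le
        calc (n : ℝ) * η' / (2 * 4 ^ j) = (n : ℝ) / (2 * 4 ^ j) * η' := by ring
          _ ≤ _ := this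
      linarith
    have hfin : (GoodIdx u (n * j) (n * j * Real.log 2 - n * η' / (2 * 4 ^ j)) k m).Finite := by
      refine (Finset.finite_toSet Bx).subset ?_
      rintro s ⟨h1, h2, _⟩
      rw [hBx, Finset.coe_product, Set.mem_prod, Finset.coe_range, Set.mem_Iio, Set.mem_Iio]
      exact ⟨h1, h2⟩
    have hcard : Gd.card ≤
        (GoodIdx u (n * j) (n * j * Real.log 2 - n * η' / (2 * 4 ^ j)) k m).ncard := by
      rw [← Set.ncard_coe_finset]
      exact Set.ncard_le_ncard hsub hfin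
    have hcard' : (Gd.card : ℝ) ≤
        ((GoodIdx u (n * j) (n * j * Real.log 2 - n * η' / (2 * 4 ^ j)) k m).ncard : ℝ) := by
      exact_mod_cast hcard
    refine le_trans ?_ hcard'
    have hsum : (∑ s ∈ Bx, (g s.1 s.2 : ℝ)) ≤ Gd.card * n + (4 : ℝ) ^ (n * j) * (n / (2 * 4 ^ j)) := by
      have h5 : ∀ s ∈ Bx, (g s.1 s.2 : ℝ) ≤
          (if (n : ℝ) / (2 * 4 ^ j) ≤ (g s.1 s.2 : ℝ) then (n : ℝ) else 0) + n / (2 * 4 ^ j) := by
        intro s hs
        rw [hBx, Finset.mem_product, Finset.mem_range, Finset.mem_range] at hs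
        have h6 : (g s.1 s.2 : ℝ) ≤ n := by exact_mod_cast hg1 s.1 s.2 hs.1 hs.2
        have h7 : (0 : ℝ) ≤ n / (2 * 4 ^ j) := by positivity
        split_ifs with hc
        · linarith
        · push Not at hc
          linarith
      refine (Finset.sum_le_sum h5).trans ?_
      rw [Finset.sum_add_distrib, ← Finset.sum_filter, Finset.sum_const, Finset.sum_const,
        nsmul_eq_mul, nsmul_eq_mul]
      have h8 : ((Bx.card : ℕ) : ℝ) = (4 : ℝ) ^ (n * j) := by
        rw [hBx, Finset.card_product, Finset.card_range, ← mul_pow]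
        norm_num
      rw [h8]
    have hg2' : (n : ℝ) * 4 ^ (n * j) ≤ 4 ^ j * ∑ s ∈ Bx, (g s.1 s.2 : ℝ) := by
      rw [hBx, Finset.sum_product]
      exact_mod_cast hg2
    have hn' : (0 : ℝ) < n := by exact_mod_cast hn
    have h4j : (0 : ℝ) < 4 ^ j := by positivity
    have h9 : (n : ℝ) * 4 ^ (n * j) ≤
        4 ^ j * (Gd.card * n + (4 : ℝ) ^ (n * j) * (n / (2 * 4 ^ j))) :=
      hg2'.trans (mul_le_mul_of_nonneg_left hsum h4j.le)
    have h10 : 4 ^ j * (Gd.card * n + (4 : ℝ) ^ (n * j) * (n / (2 * 4 ^ j))) =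
        n * (4 ^ j * Gd.card + (4 : ℝ) ^ (n * j) / 2) := by
      field_simp
    rw [h10] at h9
    have h11 := le_of_mul_le_mul_left h9 hn'
    rw [div_le_iff₀ (by positivity)]
    nlinarith

end Pool.Agent.BL.ManyG
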