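import Pool.Agent.BL.Defs
import Pool.Agent.BL.HLow
import Pool.Agent.BL.GpV
import Pool.Agent.BL.VisB
import Pool.Agent.BL.HdPm

set_option autoImplicit false
open Set Filter Topology MeasureTheory
open scoped ContDiff


namespace Pool.Agent.BL.HdGe
open Pool.Agent.BL
open Pool.Agent.BL.HLow (hnull_lower)
open Pool.Agent.BL.GpV (gp_vseq conv_vseq)
open Pool.Agent.BL.VisB (vis_ge vis_nonneg)
open Pool.Agent.BL.HdPm (hd_pm)

open Set Filter Topology MeasureTheory
open scoped ContDiff








/-! ## TARGET (prove this) -/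

theorem hd_hdim_ge (t : ℝ) (ht : 0 < t) (h : HNull (vis hd oU) t) : 2 ≤ t := by
  obtain ⟨K, hK⟩ := gp_vseq
  let ι : Type := {v : Fin 2 → ℝ // ∀ i, v i ∈ Icc (0 : ℝ) 1}
  let q : ι → {x : ℕ → U // Conv hd oU x} := fun v => ⟨vseq (v.1 0) (v.1 1), conv_vseq _ _⟩
  refine hnull_lower (ι := ι) 2 (by norm_num) (vis hd oU) (vis_nonneg hd hd_pm oU)
    (fun v => Bdry.mk (q v)) (fun v => v.1) 2 (Real.exp K) (by norm_num) (Real.exp_pos K)
    (fun v hv => ⟨⟨v, hv⟩, rfl⟩) ?_ t ht h
  intro v w
  have e1 : (2 : ℝ) / ((2 : ℕ) : ℝ) = 1 := by norm_num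
  rw [e1, Real.rpow_one]
  by_cases hvw : v = w
  · rw [hvw, sub_self, norm_zero]
    exact mul_nonneg (Real.exp_pos K).le (vis_nonneg hd hd_pm oU _ _)
  · have hne : ((v.1 0, v.1 1) : ℝ × ℝ) ≠ (w.1 0, w.1 1) := by
      intro he
      apply hvw
      apply Subtype.ext
      funext i
      fin_cases i
      · exact congrArg Prod.fst he
      · exact congrArg Prod.snd he
    have hsub : Icc (0 : ℝ) 1 ⊆ Icc (-1 : ℝ) 1 := Icc_subset_Icc (by norm_num) le_rfl
    have hev := hK (v.1 0) (v.1 1) (w.1 0) (w.1 1) (hsub (v.2 0)) (hsub (v.2 1)) (hsub (w.2 0))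
      (hsub (w.2 1)) hne
    set D : ℝ := |v.1 0 - w.1 0| + |v.1 1 - w.1 1| with hD
    have hDpos : 0 < D := by
      have h0 : 0 ≤ D := by positivity
      rcases h0.eq_or_lt with h1 | h1
      · exfalso
        apply hne
        have a1 : |v.1 0 - w.1 0| = 0 := by
          have := abs_nonneg (v.1 0 - w.1 0)
          have := abs_nonneg (v.1 1 - w.1 1)
          linarith
        have a2 : |v.1 1 - w.1 1| = 0 := by
          have := abs_nonneg (v.1 0 - w.1 0)
          have := abs_nonneg (v.1 1 - w.1 1)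
          linarith
        rw [abs_eq_zero, sub_eq_zero] at a1 a2
        rw [a1, a2]
      · exact h1
    have hdiag : ∀ᶠ n : ℕ in atTop, gp hd oU ((q v).1 n) ((q w).1 n) ≤ K - Real.log D := by
      have h2 := tendsto_atTop_diagonal.eventually hev
      filter_upwards [h2] with n hn
      have h3 := (abs_le.mp hn).2
      show gp hd oU (vseq (v.1 0) (v.1 1) n) (vseq (w.1 0) (w.1 1) n) ≤ K - Real.log D
      linarith
    have hvis := vis_ge hd hd_pm oU (q v) (q w) (K - Real.log D) hdiag.frequently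
    have e2 : Real.exp (-(K - Real.log D)) = Real.exp (-K) * D := by
      rw [show -(K - Real.log D) = -K + Real.log D by ring, Real.exp_add, Real.exp_log hDpos]
    rw [e2] at hvis
    have h4 : D ≤ Real.exp K * vis hd oU (Bdry.mk (q v)) (Bdry.mk (q w)) := by
      calc D = Real.exp K * (Real.exp (-K) * D) := by
            rw [← mul_assoc, ← Real.exp_add, add_neg_cancel, Real.exp_zero, one_mul]
        _ ≤ _ := mul_le_mul_of_nonneg_left hvis (Real.exp_pos K).le
    refine le_trans ?_ h4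
    rw [pi_norm_le_iff_of_nonneg hDpos.le]
    intro i
    rw [Real.norm_eq_abs]
    fin_cases i
    · show |v.1 0 - w.1 0| ≤ D
      have := abs_nonneg (v.1 1 - w.1 1)
      linarith
    · show |v.1 1 - w.1 1| ≤ D
      have := abs_nonneg (v.1 0 - w.1 0)
      linarith

end Pool.Agent.BL.HdGe
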