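import Pool.Agent.BL.Defs

set_option autoImplicit false
open Set Filter Topology MeasureTheory
open scoped ContDiff


namespace Pool.Agent.BL.SphC
open Pool.Agent.BL

open Set Filter Topology MeasureTheory
open scoped ContDiff

/-! ## TARGET (prove this) -/

theorem sc_cell (N : ℕ) (hN : 0 < N) (x : ℝ) (hx : x ^ 2 ≤ 1) :
    ∃ a : Fin (3 * N), ((a : ℕ) : ℝ) ≤ (x + 1) * N ∧ (x + 1) * N ≤ ((a : ℕ) : ℝ) + 1 := by
  have hN' : (0 : ℝ) < N := by exact_mod_cast hN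
  have h1 : -1 ≤ x := by nlinarith
  have h2 : x ≤ 1 := by nlinarith
  have h0 : 0 ≤ (x + 1) * N := mul_nonneg (by linarith) hN'.le
  refine ⟨⟨⌊(x + 1) * N⌋₊, ?_⟩, Nat.floor_le h0, (Nat.lt_floor_add_one _).le⟩
  rw [Nat.floor_lt h0]
  push_cast
  nlinarith

theorem sc_close (N : ℕ) (hN : 0 < N) (x y a : ℝ) (h1 : a ≤ (x + 1) * N)
    (h2 : (x + 1) * N ≤ a + 1) (h3 : a ≤ (y + 1) * N) (h4 : (y + 1) * N ≤ a + 1) :
    |x - y| ≤ 1 / N := by
  have hN' : (0 : ℝ) < N := by exact_mod_cast hN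
  have h5 : |(x - y) * N| ≤ 1 := by
    rw [abs_le]
    constructor <;> nlinarith
  rw [abs_mul, abs_of_pos hN'] at h5
  rwa [le_div_iff₀ hN']

theorem sc_big (x y z x' y' z' δ : ℝ) (h : x ^ 2 + y ^ 2 + z ^ 2 = 1)
    (h' : x' ^ 2 + y' ^ 2 + z' ^ 2 = 1) (hx : 1 / 3 ≤ x ^ 2) (hx' : 1 / 3 ≤ x' ^ 2)
    (hs : 0 ≤ x * x') (hy : |y - y'| ≤ δ) (hz : |z - z'| ≤ δ) : |x - x'| ≤ 4 * δ := by
  have hxx : 1 / 3 ≤ x * x' := by
    by_contra hc
    push Not at hc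
    have h1 : (x * x') ^ 2 < (1 / 3) ^ 2 := by nlinarith
    have h2 : (1 / 3 : ℝ) ^ 2 ≤ x ^ 2 * x' ^ 2 := by nlinarith
    have h3 : (x * x') ^ 2 = x ^ 2 * x' ^ 2 := by ring
    linarith
  have hsum : 1 ≤ |x + x'| := by
    by_contra hc
    push Not at hc
    have h1 : |x + x'| ^ 2 < 1 := by nlinarith [abs_nonneg (x + x')]
    rw [sq_abs] at h1
    nlinarith
  have e1 : |x - x'| * |x + x'| = |(y' - y) * (y' + y) + (z' - z) * (z' + z)| := by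
    rw [← abs_mul]
    congr 1
    linear_combination h - h'
  have hb : ∀ u : ℝ, u ^ 2 ≤ 1 → |u| ≤ 1 := fun u hu => by
    rwa [← sq_le_one_iff_abs_le_one]
  have hyy : |y' + y| ≤ 2 := by
    have h1 := hb y (by nlinarith [sq_nonneg z, sq_nonneg x])
    have h2 := hb y' (by nlinarith [sq_nonneg z', sq_nonneg x'])
    linarith [abs_add_le y' y]
  have hzz : |z' + z| ≤ 2 := by
    have h1 := hb z (by nlinarith [sq_nonneg y, sq_nonneg x])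
    have h2 := hb z' (by nlinarith [sq_nonneg y', sq_nonneg x'])
    linarith [abs_add_le z' z]
  have e2 : |(y' - y) * (y' + y) + (z' - z) * (z' + z)| ≤ 4 * δ := by
    calc _ ≤ |(y' - y) * (y' + y)| + |(z' - z) * (z' + z)| := abs_add_le _ _
      _ = |y - y'| * |y' + y| + |z - z'| * |z' + z| := by
          rw [abs_mul, abs_mul, abs_sub_comm y' y, abs_sub_comm z' z]
      _ ≤ δ * 2 + δ * 2 := by
          have hδ : 0 ≤ δ := le_trans (abs_nonneg _) hy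
          exact add_le_add (mul_le_mul hy hyy (abs_nonneg _) hδ)
            (mul_le_mul hz hzz (abs_nonneg _) hδ)
      _ = 4 * δ := by ring
  have h5 : |x - x'| ≤ |x - x'| * |x + x'| := by nlinarith [abs_nonneg (x - x')]
  linarith

theorem sc_cyc (i : Fin 3) (v : V3) : v 0 ^ 2 + v 1 ^ 2 + v 2 ^ 2 =
    v i ^ 2 + v (i + 1) ^ 2 + v (i + 2) ^ 2 := by
  fin_cases i
  · rfl
  · change v 0 ^ 2 + v 1 ^ 2 + v 2 ^ 2 = v 1 ^ 2 + v 2 ^ 2 + v 0 ^ 2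
    ring
  · change v 0 ^ 2 + v 1 ^ 2 + v 2 ^ 2 = v 2 ^ 2 + v 0 ^ 2 + v 1 ^ 2
    ring

theorem sc_three : ∀ i l : Fin 3, l = i ∨ l = i + 1 ∨ l = i + 2 := by decide

/-- the pieces -/
def scF (N : ℕ) (k : Fin 3 × Bool × Fin (3 * N) × Fin (3 * N)) : Set V3 :=
  {v | v 0 ^ 2 + v 1 ^ 2 + v 2 ^ 2 = 1 ∧ 1 / 3 ≤ v k.1 ^ 2 ∧
    (k.2.1 = true → 0 ≤ v k.1) ∧ (k.2.1 = false → v k.1 ≤ 0) ∧
    ((k.2.2.1 : ℕ) : ℝ) ≤ (v (k.1 + 1) + 1) * N ∧ (v (k.1 + 1) + 1) * N ≤ ((k.2.2.1 : ℕ) : ℝ) + 1 ∧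
    ((k.2.2.2 : ℕ) : ℝ) ≤ (v (k.1 + 2) + 1) * N ∧ (v (k.1 + 2) + 1) * N ≤ ((k.2.2.2 : ℕ) : ℝ) + 1}

theorem sphere_cover : ∃ K : ℕ, ∀ N : ℕ, 0 < N → ∃ F : Fin (K * N ^ 2) → Set V3,
    (∀ v : V3, v 0 ^ 2 + v 1 ^ 2 + v 2 ^ 2 = 1 → ∃ i, v ∈ F i) ∧
    ∀ i, ∀ v ∈ F i, ∀ w ∈ F i, ‖v - w‖ ≤ K / N := by
  refine ⟨54, fun N hN => ?_⟩
  have hN' : (0 : ℝ) < N := by exact_mod_cast hN
  have hcard : Fintype.card (Fin 3 × Bool × Fin (3 * N) × Fin (3 * N)) = 54 * N ^ 2 := by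
    simp only [Fintype.card_prod, Fintype.card_fin, Fintype.card_bool]
    ring
  let e := Fintype.equivFinOfCardEq hcard
  refine ⟨fun k => scF N (e.symm k), ?_, ?_⟩
  · intro v hv
    obtain ⟨i, hi⟩ : ∃ i : Fin 3, 1 / 3 ≤ v i ^ 2 := by
      by_contra hc
      push Not at hc
      have h0 := hc 0
      have h1 := hc 1
      have h2 := hc 2
      linarith
    have hcyc := sc_cyc i v
    rw [hv] at hcyc
    obtain ⟨a, ha1, ha2⟩ := sc_cell N hN (v (i + 1)) (by nlinarith [sq_nonneg (v i), sq_nonneg (v (i + 2))])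
    obtain ⟨b, hb1, hb2⟩ := sc_cell N hN (v (i + 2)) (by nlinarith [sq_nonneg (v i), sq_nonneg (v (i + 1))])
    obtain ⟨s, hs1, hs2⟩ : ∃ s : Bool, (s = true → 0 ≤ v i) ∧ (s = false → v i ≤ 0) := by
      rcases le_total 0 (v i) with h | h
      · exact ⟨true, fun _ => h, fun h' => by simp at h'⟩
      · exact ⟨false, fun h' => by simp at h', fun _ => h⟩
    refine ⟨e (i, s, a, b), ?_⟩
    simp only
    rw [e.symm_apply_apply]
    exact ⟨hv, hi, hs1, hs2, ha1, ha2, hb1, hb2⟩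
  · intro k v hv w hw
    simp only at hv hw
    generalize e.symm k = t at hv hw
    obtain ⟨i, s, a, b⟩ := t
    obtain ⟨v1, v2, v3, v4, v5, v6, v7, v8⟩ := hv
    obtain ⟨w1, w2, w3, w4, w5, w6, w7, w8⟩ := hw
    simp only at v2 v3 v4 v5 v6 v7 v8 w2 w3 w4 w5 w6 w7 w8
    have hy := sc_close N hN _ _ _ v5 v6 w5 w6
    have hz := sc_close N hN _ _ _ v7 v8 w7 w8
    have hs : 0 ≤ v i * w i := by
      cases s with
      | true => exact mul_nonneg (v3 rfl) (w3 rfl)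
      | false => exact mul_nonneg_of_nonpos_of_nonpos (v4 rfl) (w4 rfl)
    rw [sc_cyc i v] at v1
    rw [sc_cyc i w] at w1
    have hx := sc_big _ _ _ _ _ _ (1 / (N : ℝ)) v1 w1 v2 w2 hs hy hz
    have hpos : (0 : ℝ) < 1 / N := by positivity
    have hK : ((54 : ℕ) : ℝ) / N = 54 * (1 / N) := by
      push_cast
      ring
    rw [hK, pi_norm_le_iff_of_nonneg (by positivity)]
    intro l
    have hl : l = i ∨ l = i + 1 ∨ l = i + 2 := sc_three i l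
    rw [Pi.sub_apply, Real.norm_eq_abs]
    rcases hl with h | h | h
    · rw [h]; linarith
    · rw [h]; linarith
    · rw [h]; linarith

end Pool.Agent.BL.SphC
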