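import Pool.Agent.BL.Defs
import Pool.Agent.BL.BMap
import Pool.Agent.BL.SphC
import Pool.Agent.BL.VisB

set_option autoImplicit false
open Set Filter Topology MeasureTheory
open scoped ContDiff


namespace Pool.Agent.BL.HdNull
open Pool.Agent.BL
open Pool.Agent.BL.BMap (ball_map)
open Pool.Agent.BL.SphC (sphere_cover)
open Pool.Agent.BL.VisB (vis_nonneg)

open Set Filter Topology MeasureTheory
open scoped ContDiff





/-! ## TARGET (prove this) -/

theorem hd_hnull_lim (s : ℝ) (hs : 2 < s) (k : ℕ) (c : ℝ) (hc : 0 ≤ c) (ε : ℝ) (hε : 0 < ε) :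
    ∃ N : ℕ, 0 < N ∧ ((k * N ^ 2 : ℕ) : ℝ) * (c / N) ^ s ≤ ε := by
  have h1 : Tendsto (fun x : ℝ => (k : ℝ) * c ^ s * x ^ (-(s - 2))) atTop (𝓝 ((k : ℝ) * c ^ s * 0)) :=
    (tendsto_rpow_neg_atTop (by linarith : 0 < s - 2)).const_mul _
  rw [mul_zero] at h1
  have h2 := h1.comp tendsto_natCast_atTop_atTop
  have h3 : ∀ᶠ N : ℕ in atTop, (k : ℝ) * c ^ s * (N : ℝ) ^ (-(s - 2)) < ε :=
    h2.eventually (gt_mem_nhds hε)
  obtain ⟨N, hN, hN0⟩ := (h3.and (eventually_gt_atTop 0)).exists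
  refine ⟨N, hN0, ?_⟩
  have hNpos : (0 : ℝ) < N := by exact_mod_cast hN0
  refine le_trans (le_of_eq ?_) hN.le
  push_cast
  rw [Real.div_rpow hc hNpos.le]
  have h4 : (N : ℝ) ^ (-(s - 2)) = (N : ℝ) ^ 2 / (N : ℝ) ^ s := by
    rw [show -(s - 2) = (2 : ℝ) - s by ring, Real.rpow_sub hNpos]
    norm_num
  rw [h4]
  ring

theorem hd_hnull (s : ℝ) (hs : 2 < s) : HNull (vis hd oU) s := by
  classical
  intro ε hε
  obtain ⟨Φ, K, hK, -, -, hup, hsph⟩ := ball_map
  obtain ⟨k, hk⟩ := sphere_cover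
  obtain ⟨N, hN, hle⟩ := hd_hnull_lim s hs k (K * k) (by positivity) ε hε
  obtain ⟨F, hF1, hF2⟩ := hk N hN
  have hs0 : s ≠ 0 := by linarith
  have hNpos : (0 : ℝ) < N := by exact_mod_cast hN
  have hzero : ∀ n ∉ Finset.range (k * N ^ 2),
      (if n < k * N ^ 2 then K * k / (N : ℝ) else 0) ^ s = 0 := by
    intro n hn
    rw [Finset.mem_range] at hn
    rw [if_neg hn, Real.zero_rpow hs0]
  refine ⟨fun n => if h : n < k * N ^ 2 then Φ ⁻¹' F ⟨n, h⟩ else ∅,
    fun n => if n < k * N ^ 2 then K * k / (N : ℝ) else 0, ?_, ?_, ?_, ?_⟩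
  · intro b
    obtain ⟨i, hi⟩ := hF1 (Φ b) (hsph b)
    refine ⟨i.1, ?_⟩
    simp only [dif_pos i.2]
    exact hi
  · intro n
    by_cases h : n < k * N ^ 2
    · simp only [if_pos h, dif_pos h]
      refine ⟨by positivity, fun a ha b hb => ?_⟩
      have h1 := hF2 ⟨n, h⟩ (Φ a) ha (Φ b) hb
      refine (hup a b).trans ?_
      rw [mul_div_assoc]
      exact mul_le_mul_of_nonneg_left h1 hK.le
    · simp only [if_neg h, dif_neg h]
      exact ⟨le_rfl, fun a ha => absurd ha (Set.notMem_empty a)⟩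
  · exact summable_of_ne_finset_zero hzero
  · rw [tsum_eq_sum hzero]
    refine le_trans (le_of_eq ?_) hle
    rw [Finset.sum_congr rfl (g := fun _ => (K * k / (N : ℝ)) ^ s)]
    · rw [Finset.sum_const, Finset.card_range, nsmul_eq_mul]
    · intro n hn
      rw [Finset.mem_range] at hn
      rw [if_pos hn]

end Pool.Agent.BL.HdNull
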