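import Pool.Agent.BL.Defs
import Pool.Agent.BL.HdNull
import Pool.Agent.BL.HdGe
import Pool.Agent.BL.DdMono

set_option autoImplicit false
open Set Filter Topology MeasureTheory
open scoped ContDiff


namespace Pool.Agent.BL.DmZ
open Pool.Agent.BL
open Pool.Agent.BL.HdNull (hd_hnull)
open Pool.Agent.BL.HdGe (hd_hdim_ge)
open Pool.Agent.BL.DdMono (dd_zero)

open Set Filter Topology MeasureTheory
open scoped ContDiff





/-! ## TARGET (prove this) -/

theorem dm_zero : Dm 0 = 2 ∧ ∃ s, 0 < s ∧ HNull (vis (DD 0) oU) s := by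
  have h : DD 0 = hd := by
    funext x y
    exact dd_zero x y
  have key : ∀ d : U → U → ℝ, d = hd →
      hausdorffDim (vis d oU) = 2 ∧ ∃ s, 0 < s ∧ HNull (vis d oU) s := by
    intro d hd'
    subst hd'
    refine ⟨?_, 3, by norm_num, hd_hnull 3 (by norm_num)⟩
    unfold hausdorffDim
    have hbdd : BddBelow {s : ℝ | 0 < s ∧ HNull (vis hd oU) s} := ⟨0, fun s hs => hs.1.le⟩
    apply le_antisymm
    · apply le_of_forall_gt_imp_ge_of_dense
      intro c hc
      exact csInf_le hbdd ⟨by linarith, hd_hnull c hc⟩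
    · exact le_csInf ⟨3, by norm_num, hd_hnull 3 (by norm_num)⟩
        (fun t ht => hd_hdim_ge t ht.1 ht.2)
  exact key (DD 0) h

end Pool.Agent.BL.DmZ
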