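import Pool.Agent.BL.Defs
import Pool.Agent.BL.DdGp
import Pool.Agent.BL.BEq
import Pool.Agent.BL.DdPm
import Pool.Agent.BL.CLen

set_option autoImplicit false
open Set Filter Topology MeasureTheory
open scoped ContDiff


namespace Pool.Agent.BL.EqSc
open Pool.Agent.BL
open Pool.Agent.BL.DdGp (dd_gp_compare)
open Pool.Agent.BL.BEq (bdry_equiv)
open Pool.Agent.BL.DdPm (dd_pm)
open Pool.Agent.BL.CLen (sd_eq)

open Set Filter Topology MeasureTheory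
open scoped ContDiff






/-! ## TARGET (prove this) -/

theorem equiv_scaled_vis_nonneg {α : Type*} (d : α → α → ℝ) (o : α) (ξ η : Bdry d o) :
    0 ≤ vis d o ξ η := by
  apply Real.sSup_nonneg
  rintro r ⟨x, y, -, -, rfl⟩
  rw [Filter.limsup_eq]
  apply Real.sInf_nonneg
  intro a ha
  obtain ⟨n, hn⟩ := Filter.Eventually.exists ha
  exact (Real.exp_pos _).le.trans hn

theorem equiv_scaled_pm (u : V3 → ℝ) (hu : Adm u) (a : ℝ) : PM (SD u a) := by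
  have h := dd_pm u hu
  refine ⟨fun x => ?_, fun x y => ?_, fun x y z => ?_⟩
  · rw [sd_eq, h.self, mul_zero]
  · rw [sd_eq, sd_eq, h.symm]
  · rw [sd_eq, sd_eq, sd_eq, ← mul_add]
    exact mul_le_mul_of_nonneg_left (h.tri x y z) (Real.exp_pos a).le

theorem equiv_scaled_gp (u : V3 → ℝ) (a : ℝ) (o x y : U) :
    gp (SD u a) o x y = Real.exp a * gp (DD u) o x y := by
  simp only [gp, sd_eq]
  ring

theorem equiv_scaled_cmp (u v : V3 → ℝ) (hu : Adm u) (hv : Adm v) (a a' τ : ℝ) (hτ : τ ≤ 1)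
    (h1 : ∀ x ∈ U, u x ≤ v x + τ) : ∃ C : ℝ, ∀ x y : U,
      gp (SD u a) oU x y ≤ Real.exp (a - a' + τ) * gp (SD v a') oU x y + C := by
  obtain ⟨C, hC, h⟩ := dd_gp_compare
  refine ⟨Real.exp a * C, fun x y => ?_⟩
  have h2 := mul_le_mul_of_nonneg_left (h u v hu hv τ hτ h1 x y) (Real.exp_pos a).le
  rw [equiv_scaled_gp, equiv_scaled_gp]
  have h3 : Real.exp (a - a' + τ) * (Real.exp a' * gp (DD v) oU x y) =
      Real.exp a * (Real.exp τ * gp (DD v) oU x y) := by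
    rw [← mul_assoc, ← mul_assoc, ← Real.exp_add, ← Real.exp_add]
    congr 2
    ring
  rw [h3]
  linarith

theorem equiv_scaled (u v : V3 → ℝ) (hu : Adm u) (hv : Adm v) (a a' τ : ℝ) (hτ : τ ≤ 1)
    (h1 : ∀ x ∈ U, u x ≤ v x + τ) (h2 : ∀ x ∈ U, v x ≤ u x + τ) :
    ∃ e : Bdry (SD u a) oU ≃ Bdry (SD v a') oU, ∃ K : ℝ, 0 < K ∧
      (∀ ξ η, vis (SD v a') oU (e ξ) (e η) ≤
        K * (vis (SD u a) oU ξ η) ^ Real.exp (-(a - a' + τ))) ∧
      (∀ ξ η, vis (SD u a) oU ξ η ≤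
        K * (vis (SD v a') oU (e ξ) (e η)) ^ Real.exp (-(a' - a + τ))) := by
  obtain ⟨C1, hC1⟩ := equiv_scaled_cmp u v hu hv a a' τ hτ h1
  obtain ⟨C2, hC2⟩ := equiv_scaled_cmp v u hv hu a' a τ hτ h2
  obtain ⟨e, -, ⟨K1, hK1, hk1⟩, ⟨K2, hK2, hk2⟩⟩ := bdry_equiv (SD u a) (SD v a')
    (equiv_scaled_pm u hu a) (equiv_scaled_pm v hv a') oU (Real.exp (a - a' + τ))
    (Real.exp (a' - a + τ)) C1 C2 (Real.exp_pos _) (Real.exp_pos _) hC1 hC2
  refine ⟨e, max K1 K2, lt_max_of_lt_left hK1, fun ξ η => ?_, fun ξ η => ?_⟩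
  · rw [Real.exp_neg, ← one_div]
    exact (hk1 ξ η).trans (mul_le_mul_of_nonneg_right (le_max_left _ _)
      (Real.rpow_nonneg (equiv_scaled_vis_nonneg _ _ _ _) _))
  · rw [Real.exp_neg, ← one_div]
    exact (hk2 ξ η).trans (mul_le_mul_of_nonneg_right (le_max_right _ _)
      (Real.rpow_nonneg (equiv_scaled_vis_nonneg _ _ _ _) _))

end Pool.Agent.BL.EqSc
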