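import Pool.Agent.BL.Defs

set_option autoImplicit false
open Set Filter Topology MeasureTheory
open scoped ContDiff


namespace Pool.Agent.BL.HHol
open Pool.Agent.BL

open Set Filter Topology MeasureTheory
open scoped ContDiff

/-! ## TARGET (prove this) -/

theorem hnull_holder {β₁ β₂ : Type} (ρ₁ : β₁ → β₁ → ℝ) (ρ₂ : β₂ → β₂ → ℝ) (e : β₁ ≃ β₂)
    (K a : ℝ) (ha : 0 < a) (hK : 0 < K) (h0 : ∀ ξ η, 0 ≤ ρ₁ ξ η)
    (h : ∀ ξ η, ρ₂ (e ξ) (e η) ≤ K * (ρ₁ ξ η) ^ a) (s : ℝ) (hs : 0 < s) (hn : HNull ρ₁ s) :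
    HNull ρ₂ (s / a) := by
  intro ε hε
  have hKs : 0 < K ^ (s / a) := Real.rpow_pos_of_pos hK _
  obtain ⟨A, r, hcov, hr, hsum, hle⟩ := hn (ε / K ^ (s / a)) (div_pos hε hKs)
  have hpow : ∀ n, (K * (r n) ^ a) ^ (s / a) = K ^ (s / a) * r n ^ s := by
    intro n
    rw [Real.mul_rpow hK.le (Real.rpow_nonneg (hr n).1 a), ← Real.rpow_mul (hr n).1,
      mul_div_cancel₀ s ha.ne']
  refine ⟨fun n => e '' A n, fun n => K * (r n) ^ a, ?_, ?_, ?_, ?_⟩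
  · intro b
    obtain ⟨n, hn'⟩ := hcov (e.symm b)
    exact ⟨n, e.symm b, hn', e.apply_symm_apply b⟩
  · intro n
    refine ⟨mul_nonneg hK.le (Real.rpow_nonneg (hr n).1 a), ?_⟩
    rintro _ ⟨x, hx, rfl⟩ _ ⟨y, hy, rfl⟩
    refine (h x y).trans ?_
    exact mul_le_mul_of_nonneg_left (Real.rpow_le_rpow (h0 x y) ((hr n).2 x hx y hy) ha.le) hK.le
  · simp only [hpow]
    exact hsum.mul_left _
  · simp only [hpow]
    rw [tsum_mul_left]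
    calc K ^ (s / a) * ∑' n, r n ^ s ≤ K ^ (s / a) * (ε / K ^ (s / a)) :=
          mul_le_mul_of_nonneg_left hle hKs.le
      _ = ε := by field_simp

theorem hdim_le_of_holder {β₁ β₂ : Type} (ρ₁ : β₁ → β₁ → ℝ) (ρ₂ : β₂ → β₂ → ℝ) (e : β₁ ≃ β₂)
    (K a : ℝ) (ha : 0 < a) (hK : 0 < K) (h0 : ∀ ξ η, 0 ≤ ρ₁ ξ η)
    (h : ∀ ξ η, ρ₂ (e ξ) (e η) ≤ K * (ρ₁ ξ η) ^ a) (hfin : ∃ s, 0 < s ∧ HNull ρ₁ s) :
    hausdorffDim ρ₂ ≤ hausdorffDim ρ₁ / a := by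
  unfold hausdorffDim
  rw [le_div_iff₀ ha]
  refine le_csInf hfin ?_
  rintro s ⟨hs, hn⟩
  rw [← le_div_iff₀ ha]
  refine csInf_le ⟨0, fun t ht => ht.1.le⟩ ?_
  exact ⟨div_pos hs ha, hnull_holder ρ₁ ρ₂ e K a ha hK h0 h s hs hn⟩

end Pool.Agent.BL.HHol
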