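import Pool.Agent.BL.Defs
import Pool.Agent.BL.EqSc
import Pool.Agent.BL.HHol
import Pool.Agent.BL.DmZ
import Pool.Agent.BL.VisB
import Pool.Agent.BL.DdPm
import Pool.Agent.BL.CLen

set_option autoImplicit false
open Set Filter Topology MeasureTheory
open scoped ContDiff


namespace Pool.Agent.BL.SdH
open Pool.Agent.BL
open Pool.Agent.BL.EqSc (equiv_scaled)
open Pool.Agent.BL.HHol (hnull_holder hdim_le_of_holder)
open Pool.Agent.BL.DmZ (dm_zero)
open Pool.Agent.BL.VisB (vis_nonneg)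
open Pool.Agent.BL.DdPm (dd_pm)
open Pool.Agent.BL.CLen (sd_eq)

open Set Filter Topology MeasureTheory
open scoped ContDiff









/-! ## TARGET (prove this) -/

theorem sdh_adm0 : Adm 0 := by
  refine ⟨continuousOn_const, fun x _ => ?_⟩
  simp

theorem sdh_pm (u : V3 → ℝ) (hu : Adm u) (a : ℝ) : PM (SD u a) := by
  have h := dd_pm u hu
  refine ⟨fun x => ?_, fun x y => ?_, fun x y z => ?_⟩
  · rw [sd_eq, h.self, mul_zero]
  · rw [sd_eq, sd_eq, h.symm]
  · rw [sd_eq, sd_eq, sd_eq, ← mul_add]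
    exact mul_le_mul_of_nonneg_left (h.tri x y z) (Real.exp_pos a).le

theorem sd_fin (u : V3 → ℝ) (hu : Adm u) (a : ℝ) : ∃ s, 0 < s ∧ HNull (vis (SD u a) oU) s := by
  obtain ⟨e, K, hK, h1, -⟩ := equiv_scaled 0 u sdh_adm0 hu 0 a 1 le_rfl
    (fun x hx => by
      have := abs_le.1 (hu.2 x hx)
      simp only [Pi.zero_apply]
      linarith [this.1])
    (fun x hx => by
      have := abs_le.1 (hu.2 x hx)
      simp only [Pi.zero_apply]
      linarith [this.2])
  obtain ⟨s, hs, hn⟩ := dm_zero.2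
  have hn' : HNull (vis (SD 0 0) oU) s := hn
  exact ⟨_, div_pos hs (Real.exp_pos _), hnull_holder (vis (SD 0 0) oU) (vis (SD u a) oU) e K _
    (Real.exp_pos _) hK (vis_nonneg _ (sdh_pm 0 sdh_adm0 0) _) h1 s hs hn'⟩

theorem sd_hdim (u : V3 → ℝ) (hu : Adm u) (a : ℝ) :
    hausdorffDim (vis (SD u a) oU) = Real.exp (-a) * Dm u := by
  obtain ⟨e, K, hK, h1, h2⟩ := equiv_scaled u u hu hu a 0 0 zero_le_one
    (fun x _ => by linarith) (fun x _ => by linarith)
  have e1 := hdim_le_of_holder (vis (SD u a) oU) (vis (SD u 0) oU) e K _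
    (Real.exp_pos _) hK (vis_nonneg _ (sdh_pm u hu a) _) h1 (sd_fin u hu a)
  have e2 := hdim_le_of_holder (vis (SD u 0) oU) (vis (SD u a) oU) e.symm K
    (Real.exp (-(0 - a + 0))) (Real.exp_pos _) hK (vis_nonneg _ (sdh_pm u hu 0) _) (fun ξ η => by
      have := h2 (e.symm ξ) (e.symm η)
      rw [e.apply_symm_apply, e.apply_symm_apply] at this
      exact this) (sd_fin u hu 0)
  have hD : hausdorffDim (vis (SD u 0) oU) = Dm u := rfl
  rw [hD] at e1 e2
  rw [show -(a - 0 + 0) = -a by ring, le_div_iff₀ (Real.exp_pos _)] at e1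
  rw [show -(0 - a + 0) = a by ring, div_eq_mul_inv, ← Real.exp_neg] at e2
  linarith

theorem dm_compare (u v : V3 → ℝ) (hu : Adm u) (hv : Adm v) (τ : ℝ) (hτ : τ ≤ 1)
    (h1 : ∀ x ∈ U, u x ≤ v x + τ) (h2 : ∀ x ∈ U, v x ≤ u x + τ) :
    Dm u ≤ Real.exp τ * Dm v := by
  obtain ⟨e, K, hK, -, h4⟩ := equiv_scaled u v hu hv 0 0 τ hτ h1 h2
  have e2 := hdim_le_of_holder (vis (SD v 0) oU) (vis (SD u 0) oU) e.symm K
    (Real.exp (-(0 - 0 + τ))) (Real.exp_pos _) hK (vis_nonneg _ (sdh_pm v hv 0) _) (fun ξ η => by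
      have := h4 (e.symm ξ) (e.symm η)
      rw [e.apply_symm_apply, e.apply_symm_apply] at this
      exact this) (sd_fin v hv 0)
  have hD : hausdorffDim (vis (SD u 0) oU) = Dm u := rfl
  have hD' : hausdorffDim (vis (SD v 0) oU) = Dm v := rfl
  rw [hD, hD', show -((0 : ℝ) - 0 + τ) = -τ by ring, div_eq_mul_inv, ← Real.exp_neg, neg_neg] at e2
  linarith

end Pool.Agent.BL.SdH
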