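import Pool.Agent.BL.Defs
import Pool.Agent.BL.GoodSq
import Pool.Agent.BL.ManyG
import Pool.Agent.BL.CanDim
import Pool.Agent.BL.SdH
import Pool.Agent.BL.CLen
import Pool.Agent.BL.DdPm

set_option autoImplicit false
open Set Filter Topology MeasureTheory
open scoped ContDiff


namespace Pool.Agent.BL.Dm2
open Pool.Agent.BL
open Pool.Agent.BL.GoodSq (good_square)
open Pool.Agent.BL.ManyG (many_good)
open Pool.Agent.BL.CanDim (cantor_dim)
open Pool.Agent.BL.SdH (sd_fin)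
open Pool.Agent.BL.CLen (sd_eq)
open Pool.Agent.BL.DdPm (dd_pm)

open Set Filter Topology MeasureTheory
open scoped ContDiff








theorem dm_gt_two_fam (S : Set (ℕ × ℕ)) (hS : S.Finite) (b : ℝ) (hb : 9 * b ≤ S.ncard) :
    ∃ s : Fin ⌈b⌉₊ → ℕ × ℕ, (∀ i, s i ∈ S) ∧
      ∀ i i', i ≠ i' → 2 ≤ |((s i).1 : ℤ) - (s i').1| ∨ 2 ≤ |((s i).2 : ℤ) - (s i').2| := by
  classical
  have hc : (hS.toFinset.card : ℝ) = S.ncard := by
    rw [Set.ncard_eq_toFinset_card S hS]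
  have h1 : ∀ a ∈ hS.toFinset, ((a.1 % 3, a.2 % 3) : ℕ × ℕ) ∈
      (Finset.range 3 ×ˢ Finset.range 3 : Finset (ℕ × ℕ)) := by
    intro a _
    rw [Finset.mem_product, Finset.mem_range, Finset.mem_range]
    exact ⟨Nat.mod_lt _ (by norm_num), Nat.mod_lt _ (by norm_num)⟩
  have h2 : (Finset.range 3 ×ˢ Finset.range 3 : Finset (ℕ × ℕ)).Nonempty := ⟨(0, 0), by simp⟩
  have h3 : (Finset.range 3 ×ˢ Finset.range 3 : Finset (ℕ × ℕ)).card • b ≤ hS.toFinset.card := by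
    rw [Finset.card_product, Finset.card_range, hc, nsmul_eq_mul]
    norm_num
    exact hb
  obtain ⟨y, _, hy⟩ := Finset.exists_le_card_fiber_of_nsmul_le_card_of_maps_to h1 h2 h3
  obtain ⟨F, hF⟩ : ∃ F, F = hS.toFinset.filter (fun a => ((a.1 % 3, a.2 % 3) : ℕ × ℕ) = y) :=
    ⟨_, rfl⟩
  rw [← hF] at hy
  have hcard : ⌈b⌉₊ ≤ F.card := Nat.ceil_le.2 hy
  have hmemF : ∀ a ∈ F, a ∈ hS.toFinset ∧ ((a.1 % 3, a.2 % 3) : ℕ × ℕ) = y := by
    intro a ha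
    rw [hF, Finset.mem_filter] at ha
    exact ha
  refine ⟨fun i => (F.equivFin.symm (Fin.castLE hcard i)).1, fun i => ?_, fun i i' hii => ?_⟩
  · have h4 := hmemF _ (F.equivFin.symm (Fin.castLE hcard i)).2
    exact hS.mem_toFinset.1 h4.1
  · have h4 := hmemF _ (F.equivFin.symm (Fin.castLE hcard i)).2
    have h5 := hmemF _ (F.equivFin.symm (Fin.castLE hcard i')).2
    have h6 : (F.equivFin.symm (Fin.castLE hcard i)).1 ≠ (F.equivFin.symm (Fin.castLE hcard i')).1 := by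
      intro h7
      apply hii
      have h8 := F.equivFin.symm.injective (Subtype.ext h7)
      exact Fin.castLE_injective hcard h8
    obtain ⟨p, hp⟩ : ∃ p, p = (F.equivFin.symm (Fin.castLE hcard i)).1 := ⟨_, rfl⟩
    obtain ⟨q, hq⟩ : ∃ q, q = (F.equivFin.symm (Fin.castLE hcard i')).1 := ⟨_, rfl⟩
    show 2 ≤ |(((F.equivFin.symm (Fin.castLE hcard i)).1).1 : ℤ) -
      ((F.equivFin.symm (Fin.castLE hcard i')).1).1| ∨
      2 ≤ |(((F.equivFin.symm (Fin.castLE hcard i)).1).2 : ℤ) -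
      ((F.equivFin.symm (Fin.castLE hcard i')).1).2|
    have h4' := h4.2.trans h5.2.symm
    rw [← hp, ← hq] at h4' h6 ⊢
    have h9 : p.1 % 3 = q.1 % 3 := congrArg Prod.fst h4'
    have h10 : p.2 % 3 = q.2 % 3 := congrArg Prod.snd h4'
    have h11 : p.1 ≠ q.1 ∨ p.2 ≠ q.2 := by
      by_contra hcon
      push Not at hcon
      exact h6 (Prod.ext hcon.1 hcon.2)
    rw [le_abs, le_abs]
    omega


/-! ## TARGET (prove this) -/

theorem dm_gt_two (u : V3 → ℝ) (hu : Adm u) (hneg : ∀ x ∈ U, u x ≤ 0) (R r η : ℝ)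
    (hr : 0 < r) (hη : 0 < η)
    (hsyn : ∀ x : U, ∃ q : U, hd x q ≤ R ∧ ∀ y : U, hd q y ≤ r → u y ≤ -η) : 2 < Dm u := by
  obtain ⟨j, η', hj, hη', hsq⟩ := good_square u hu hneg R r η hr hη hsyn
  have hmany := many_good u hu hneg j η' hj hη' hsq
  have hpm := dd_pm u hu
  have hpos : ∀ x y, 0 ≤ DD u x y := by
    intro x y
    have h1 := hpm.tri x y x
    rw [hpm.self, hpm.symm y x] at h1
    linarith
  obtain ⟨P, hP⟩ : ∃ P : ℝ, P = 4 ^ j := ⟨_, rfl⟩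
  have hP1 : 1 ≤ P := by rw [hP]; exact one_le_pow₀ (by norm_num)
  have hP0 : 0 < P := by linarith
  have hηj : η' ≤ j * Real.log 2 := by
    obtain ⟨a, b, _, _, hξ⟩ := hsq 0 (0, 0)
    have h2 : (2 : ℝ) ^ (0 + j) ≠ 0 := by positivity
    have h1 := hξ ((((0, 0) : ℤ × ℤ).1 * 2 ^ j + a : ℤ) / 2 ^ (0 + j),
      (((0, 0) : ℤ × ℤ).2 * 2 ^ j + b : ℤ) / 2 ^ (0 + j)) (by
        show ((((0, 0) : ℤ × ℤ).1 * 2 ^ j + a : ℤ) : ℝ) ≤
            ((((0, 0) : ℤ × ℤ).1 * 2 ^ j + a : ℤ) : ℝ) / 2 ^ (0 + j) * 2 ^ (0 + j) ∧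
          ((((0, 0) : ℤ × ℤ).1 * 2 ^ j + a : ℤ) : ℝ) / 2 ^ (0 + j) * 2 ^ (0 + j) ≤
            ((((0, 0) : ℤ × ℤ).1 * 2 ^ j + a : ℤ) : ℝ) + 1 ∧
          ((((0, 0) : ℤ × ℤ).2 * 2 ^ j + b : ℤ) : ℝ) ≤
            ((((0, 0) : ℤ × ℤ).2 * 2 ^ j + b : ℤ) : ℝ) / 2 ^ (0 + j) * 2 ^ (0 + j) ∧
          ((((0, 0) : ℤ × ℤ).2 * 2 ^ j + b : ℤ) : ℝ) / 2 ^ (0 + j) * 2 ^ (0 + j) ≤
            ((((0, 0) : ℤ × ℤ).2 * 2 ^ j + b : ℤ) : ℝ) + 1
        rw [div_mul_cancel₀ _ h2, div_mul_cancel₀ _ h2]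
        refine ⟨le_rfl, by linarith, le_rfl, by linarith⟩)
    have h3 := (hpos _ _).trans h1
    linarith
  have hlog2 : 0 < Real.log 2 := Real.log_pos (by norm_num)
  have hηP : 0 < η' / P := by positivity
  have hlog18 : 0 < Real.log (18 * P) := Real.log_pos (by linarith)
  obtain ⟨n, hn⟩ := exists_nat_gt (Real.log (18 * P) / (η' / P))
  have hn0 : (0 : ℝ) < n := lt_trans (by positivity) hn
  have hnN : 0 < n := by exact_mod_cast hn0
  rw [div_lt_iff₀ hηP] at hn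
  obtain ⟨A, hA⟩ : ∃ A : ℝ, A = n * j * Real.log 2 - n * η' / (2 * 4 ^ j) := ⟨_, rfl⟩
  have hA2 : 2 * A = 2 * (n * j * Real.log 2) - n * (η' / P) := by
    rw [hA, ← hP]
    field_simp
  have hA0 : 0 < A := by
    have h1 : n * (η' / P) ≤ n * η' := by
      apply mul_le_mul_of_nonneg_left _ hn0.le
      exact div_le_self hη'.le hP1
    have h2 : n * η' ≤ n * (j * Real.log 2) := mul_le_mul_of_nonneg_left hηj hn0.le
    have hj0 : (0 : ℝ) < j := by exact_mod_cast hj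
    have h3 : 0 < n * j * Real.log 2 := by positivity
    nlinarith
  obtain ⟨b, hb⟩ : ∃ b : ℝ, b = 4 ^ (n * j) / (18 * P) := ⟨_, rfl⟩
  have hb0 : 0 < b := by rw [hb]; positivity
  have hlogb : Real.log b = 2 * (n * j * Real.log 2) - Real.log (18 * P) := by
    rw [hb, Real.log_div (by positivity) (by positivity), Real.log_pow]
    have h1 : Real.log 4 = 2 * Real.log 2 := by
      have : (4 : ℝ) = 2 ^ 2 := by norm_num
      rw [this, Real.log_pow]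
      norm_num
    rw [h1]
    push_cast
    ring
  have hlogM : 2 * A < Real.log ((⌈b⌉₊ : ℕ) : ℝ) := by
    have h1 : Real.log b ≤ Real.log ((⌈b⌉₊ : ℕ) : ℝ) := Real.log_le_log hb0 (Nat.le_ceil b)
    linarith
  have hM : 2 ≤ ⌈b⌉₊ := by
    by_contra hcon
    have h1 : ⌈b⌉₊ = 0 ∨ ⌈b⌉₊ = 1 := by omega
    rcases h1 with h1 | h1
    · rw [h1, Nat.cast_zero, Real.log_zero] at hlogM
      linarith
    · rw [h1, Nat.cast_one, Real.log_one] at hlogM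
      linarith
  have hfam : ∀ (k : ℕ) (m : ℤ × ℤ), ∃ s : Fin ⌈b⌉₊ → ℕ × ℕ,
      (∀ i, s i ∈ GoodIdx u (n * j) A k m) ∧
      ∀ i i', i ≠ i' → 2 ≤ |((s i).1 : ℤ) - (s i').1| ∨ 2 ≤ |((s i).2 : ℤ) - (s i').2| := by
    intro k m
    apply dm_gt_two_fam
    · apply Set.Finite.subset (s := (Set.Iio (2 ^ (n * j)) ×ˢ Set.Iio (2 ^ (n * j)) : Set (ℕ × ℕ)))
      · exact (Set.finite_Iio _).prod (Set.finite_Iio _)
      · intro s hs
        exact ⟨hs.1, hs.2.1⟩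
    · have h1 := hmany n k m
      rw [← hA, ← hP] at h1
      refine le_trans (le_of_eq ?_) h1
      rw [hb]
      field_simp
      norm_num
  have hlow : ∀ t ∈ {s | 0 < s ∧ HNull (vis (DD u) oU) s}, Real.log ((⌈b⌉₊ : ℕ) : ℝ) / A ≤ t := by
    intro t ht
    exact cantor_dim u hu hneg (n * j) ⌈b⌉₊ A (Nat.mul_pos hnN hj) hM hA0 hfam t ht.1 ht.2
  have hne : {s | 0 < s ∧ HNull (vis (DD u) oU) s}.Nonempty := by
    obtain ⟨s, hs0, hs⟩ := sd_fin u hu 0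
    exact ⟨s, hs0, hs⟩
  have h1 : Real.log ((⌈b⌉₊ : ℕ) : ℝ) / A ≤ Dm u := le_csInf hne hlow
  refine lt_of_lt_of_le ?_ h1
  rw [lt_div_iff₀ hA0]
  exact hlogM

end Pool.Agent.BL.Dm2
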