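import Pool.Agent.BL.Defs

set_option autoImplicit false
open Set Filter Topology MeasureTheory
open scoped ContDiff


namespace Pool.Agent.BL.Mink
open Pool.Agent.BL

open Set Filter Topology MeasureTheory
open scoped ContDiff

/-! ## TARGET (prove this) -/

noncomputable def mA (s : ℝ) (ζ : ℂ) : Matrix (Fin 4) (Fin 4) ℂ :=
  !![(s : ℂ), (s : ℂ) * (Real.sqrt 5 : ℝ), 0, 0;
     ζ / s, ζ * (Real.sqrt 5 : ℝ) / s, 2 / s, 2 * (Real.sqrt 5 : ℝ) / s;
     0, 0, (s : ℂ), -((s : ℂ) * (Real.sqrt 5 : ℝ));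
     1 / s, -((Real.sqrt 5 : ℝ) / s), ζ / s, -(ζ * (Real.sqrt 5 : ℝ) / s)]

theorem mA_det (s : ℝ) (ζ : ℂ) (hs : s ≠ 0) : (mA s ζ).det = 40 ∨ (mA s ζ).det = -40 := by
  have h5 : ((Real.sqrt 5 : ℝ) : ℂ) * ((Real.sqrt 5 : ℝ) : ℂ) = 5 := by
    rw [← Complex.ofReal_mul, Real.mul_self_sqrt (by norm_num)]; norm_num
  have hs' : (s : ℂ) ≠ 0 := by exact_mod_cast hs
  rw [mA]
  generalize ((Real.sqrt 5 : ℝ) : ℂ) = q at h5 ⊢
  simp [Matrix.det_succ_row_zero, Fin.sum_univ_succ, Fin.succAbove]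
  field_simp
  left
  linear_combination 8 * h5
theorem mink : ∃ C : ℝ, ∀ (t : ℝ) (ζ : ℂ), 0 < t → ∃ x : Fin 4 → GaussianInt, x ≠ 0 ∧
    ‖qm x 0 0‖ * Real.sqrt t ≤ C ∧ ‖qm x 0 0 * ζ + qm x 0 1‖ / Real.sqrt t ≤ C ∧
    ‖qm x 1 0‖ * Real.sqrt t ≤ C ∧ ‖qm x 1 0 * ζ + qm x 1 1‖ / Real.sqrt t ≤ C := by
  classical
  set b : Module.Basis (Σ _ : Fin 4, Fin 2) ℝ (Fin 4 → ℂ) := Pi.basis (fun _ => Complex.basisOneI) with hb
  set D : ℝ := |LinearMap.det (((Matrix.toLin' (mA 1 0)).restrictScalars ℝ))| with hD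
  have hdetAll : ∀ (s : ℝ) (ζ : ℂ), s ≠ 0 →
      |LinearMap.det ((Matrix.toLin' (mA s ζ)).restrictScalars ℝ)| = 1600 := by
    intro s ζ hs
    rw [LinearMap.det_restrictScalars, LinearMap.det_toLin']
    rcases mA_det s ζ hs with h | h <;> rw [h] <;> rw [Algebra.norm_complex_eq] <;>
      norm_num [Complex.normSq_apply]
  have hfr : Module.finrank ℝ (Fin 4 → ℂ) = 8 := by
    rw [Module.finrank_pi_fintype]; simp [Complex.finrank_real_complex]
  have hcount : Countable (Submodule.span ℤ (Set.range b)).toAddSubgroup :=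
    inferInstanceAs (Countable (Submodule.span ℤ (Set.range b)))
  have hF : MeasureTheory.volume (ZSpan.fundamentalDomain b) < ⊤ :=
    (ZSpan.fundamentalDomain_isBounded b).measure_lt_top
  have hfund := ZSpan.isAddFundamentalDomain' b (MeasureTheory.volume)
  -- choose the radius
  have hball : (0 : ENNReal) < MeasureTheory.volume (Metric.closedBall (0 : Fin 4 → ℂ) 1) :=
    Metric.measure_closedBall_pos _ _ one_pos
  have hex : ∃ R : ℝ, 0 ≤ R ∧ MeasureTheory.volume (ZSpan.fundamentalDomain b) * 2 ^ 8 <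
      ENNReal.ofReal (1600⁻¹) * (ENNReal.ofReal (R ^ 8) * MeasureTheory.volume (Metric.closedBall (0 : Fin 4 → ℂ) 1)) := by
    have hlt : MeasureTheory.volume (ZSpan.fundamentalDomain b) * 2 ^ 8 < ⊤ :=
      ENNReal.mul_lt_top hF (by norm_num)
    set A := MeasureTheory.volume (ZSpan.fundamentalDomain b) * 2 ^ 8 with hA
    set B := MeasureTheory.volume (Metric.closedBall (0 : Fin 4 → ℂ) 1) with hB
    have hBt : B < ⊤ := (Metric.isBounded_closedBall).measure_lt_top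
    have hBr : 0 < B.toReal := ENNReal.toReal_pos hball.ne' hBt.ne
    refine ⟨(A.toReal + 1) * 1600 / B.toReal + 1, by positivity, ?_⟩
    set R := (A.toReal + 1) * 1600 / B.toReal + 1 with hR
    have hR1 : 1 ≤ R := by
      rw [hR]; have : 0 ≤ (A.toReal + 1) * 1600 / B.toReal := by positivity
      linarith
    have h1 : A.toReal < 1600⁻¹ * (R ^ 8 * B.toReal) := by
      have h2 : R ≤ R ^ 8 := le_self_pow₀ hR1 (by norm_num)
      have h3 : (A.toReal + 1) * 1600 ≤ R * B.toReal := by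
        have h5 : ((A.toReal + 1) * 1600 / B.toReal + 1) * B.toReal =
            (A.toReal + 1) * 1600 + B.toReal := by field_simp
        rw [hR, h5]
        linarith
      have h4 : R * B.toReal ≤ R ^ 8 * B.toReal := mul_le_mul_of_nonneg_right h2 hBr.le
      nlinarith
    rw [← ENNReal.ofReal_toReal hlt.ne, ← ENNReal.ofReal_toReal hBt.ne,
      ← ENNReal.ofReal_mul (by positivity), ← ENNReal.ofReal_mul (by positivity)]
    exact (ENNReal.ofReal_lt_ofReal_iff (by positivity)).2 h1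
  obtain ⟨R, hR0, hR⟩ := hex
  refine ⟨R, ?_⟩
  intro t ζ ht
  have hs : Real.sqrt t ≠ 0 := (Real.sqrt_pos.2 ht).ne'
  have hsp : 0 < Real.sqrt t := Real.sqrt_pos.2 ht
  set s := Real.sqrt t with hsdef
  set f : (Fin 4 → ℂ) →ₗ[ℝ] (Fin 4 → ℂ) := (Matrix.toLin' (mA s ζ)).restrictScalars ℝ with hf
  have hdet := hdetAll s ζ hs
  have hne : LinearMap.det f ≠ 0 := by
    intro h0
    rw [hf] at h0
    rw [h0] at hdet
    norm_num at hdet
  set S : Set (Fin 4 → ℂ) := f ⁻¹' (Metric.closedBall 0 R) with hS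
  have hvol : MeasureTheory.volume S = ENNReal.ofReal (1600⁻¹) *
      (ENNReal.ofReal (R ^ 8) * MeasureTheory.volume (Metric.closedBall (0 : Fin 4 → ℂ) 1)) := by
    rw [hS, MeasureTheory.Measure.addHaar_preimage_linearMap _ hne,
      MeasureTheory.Measure.addHaar_closedBall' _ _ hR0]
    congr 1
    · rw [abs_inv, hdet]
    · rw [hfr]
  obtain ⟨v, hv0, hvs⟩ := MeasureTheory.exists_ne_zero_mem_lattice_of_measure_mul_two_pow_lt_measure
    (s := S) hfund (by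
      intro x hx
      simp only [hS, Set.mem_preimage, mem_closedBall_zero_iff, map_neg, norm_neg] at hx ⊢
      exact hx) (by
      rw [hS]
      exact (convex_closedBall 0 R).linear_preimage f) (by
      rw [hvol]
      rw [hfr]
      exact hR)
  have hmem : (v : Fin 4 → ℂ) ∈ Submodule.span ℤ (Set.range b) := v.2
  have hint : ∀ i : Σ _ : Fin 4, Fin 2, ∃ m : ℤ, b.repr (v : Fin 4 → ℂ) i = m := by
    intro i
    obtain ⟨m, hm⟩ := (b.mem_span_iff_repr_mem ℤ (v : Fin 4 → ℂ)).1 hmem i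
    exact ⟨m, by simpa using hm.symm⟩
  choose m hm using hint
  have hv : ∀ i, (v : Fin 4 → ℂ) i = ((⟨m ⟨i, 0⟩, m ⟨i, 1⟩⟩ : GaussianInt) : ℂ) := by
    intro i
    have hbr0 : ∀ w : Fin 4 → ℂ, b.repr w ⟨i, 0⟩ = (w i).re := by
      intro w; rw [hb, Pi.basis_repr]; simp
    have hbr1 : ∀ w : Fin 4 → ℂ, b.repr w ⟨i, 1⟩ = (w i).im := by
      intro w; rw [hb, Pi.basis_repr]; simp
    have h0 := hm ⟨i, 0⟩
    have h1 := hm ⟨i, 1⟩
    rw [hbr0] at h0
    rw [hbr1] at h1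
    apply Complex.ext
    · rw [h0]; simp [GaussianInt.re_toComplex]
    · rw [h1]; simp [GaussianInt.im_toComplex]
  have hn : ∀ i, ‖(f (v : Fin 4 → ℂ)) i‖ ≤ R := by
    intro i
    have h1 : ‖f (v : Fin 4 → ℂ)‖ ≤ R := by simpa [hS] using hvs
    exact (norm_le_pi_norm _ i).trans h1
  have hfv : ∀ i, f (v : Fin 4 → ℂ) i = ∑ j, mA s ζ i j * (v : Fin 4 → ℂ) j := by
    intro i
    rw [hf, LinearMap.restrictScalars_apply, Matrix.toLin'_apply, Matrix.mulVec, dotProduct]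
  have hs' : (s : ℂ) ≠ 0 := by exact_mod_cast hs
  refine ⟨fun i => ⟨m ⟨i, 0⟩, m ⟨i, 1⟩⟩, ?_, ?_, ?_, ?_, ?_⟩
  · intro h0
    apply hv0
    apply Subtype.ext
    funext i
    rw [hv i]
    have h2 : (⟨m ⟨i, 0⟩, m ⟨i, 1⟩⟩ : GaussianInt) = 0 := congrFun h0 i
    rw [h2]
    simp
  · have := hn 0
    rw [hfv, Fin.sum_univ_four] at this
    simp only [hv] at this
    rw [show ‖qm (fun i => (⟨m ⟨i, 0⟩, m ⟨i, 1⟩⟩ : GaussianInt)) 0 0‖ * s =
      ‖qm (fun i => (⟨m ⟨i, 0⟩, m ⟨i, 1⟩⟩ : GaussianInt)) 0 0 * (s : ℂ)‖ by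
        rw [norm_mul, Complex.norm_real, Real.norm_eq_abs, abs_of_pos hsp]]
    refine le_of_eq_of_le ?_ this
    congr 1
    simp [qm, mA]
    ring
  · have := hn 1
    rw [hfv, Fin.sum_univ_four] at this
    simp only [hv] at this
    rw [show ∀ z : ℂ, ‖z‖ / s = ‖z / (s : ℂ)‖ by
        intro z; rw [norm_div, Complex.norm_real, Real.norm_eq_abs, abs_of_pos hsp]]
    refine le_of_eq_of_le ?_ this
    congr 1
    simp [qm, mA]
    ring
  · have := hn 2
    rw [hfv, Fin.sum_univ_four] at this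
    simp only [hv] at this
    rw [show ‖qm (fun i => (⟨m ⟨i, 0⟩, m ⟨i, 1⟩⟩ : GaussianInt)) 1 0‖ * s =
      ‖qm (fun i => (⟨m ⟨i, 0⟩, m ⟨i, 1⟩⟩ : GaussianInt)) 1 0 * (s : ℂ)‖ by
        rw [norm_mul, Complex.norm_real, Real.norm_eq_abs, abs_of_pos hsp]]
    refine le_of_eq_of_le ?_ this
    congr 1
    simp [qm, mA]
    ring
  · have := hn 3
    rw [hfv, Fin.sum_univ_four] at this
    simp only [hv] at this
    rw [show ∀ z : ℂ, ‖z‖ / s = ‖z / (s : ℂ)‖ by
        intro z; rw [norm_div, Complex.norm_real, Real.norm_eq_abs, abs_of_pos hsp]]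
    refine le_of_eq_of_le ?_ this
    congr 1
    simp [qm, mA]
    ring

end Pool.Agent.BL.Mink
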