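import Pool.Agent.BL.Defs

set_option autoImplicit false
open Set Filter Topology MeasureTheory
open scoped ContDiff


namespace Pool.Agent.BL.QAlg
open Pool.Agent.BL

open Set Filter Topology MeasureTheory
open scoped ContDiff

/-! ## TARGET (prove this) -/


noncomputable def ph : GaussianInt →+* ZMod 5 := Zsqrtd.lift ⟨(2 : ZMod 5), by decide⟩

theorem ph_apply (z : GaussianInt) : ph z = (z.re : ZMod 5) + (z.im : ZMod 5) * 2 := by
  simp [ph, Zsqrtd.lift]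

/-- the prime `2 - i` -/
def pp : GaussianInt := ⟨2, -1⟩

theorem ph_dvd (z : GaussianInt) (h : ph z = 0) : ∃ a : GaussianInt, z = pp * a := by
  rw [ph_apply] at h
  have h5 : (5 : ℤ) ∣ z.re + z.im * 2 := by
    have : ((z.re + z.im * 2 : ℤ) : ZMod 5) = 0 := by push_cast; exact h
    exact (ZMod.intCast_zmod_eq_zero_iff_dvd _ 5).1 this
  obtain ⟨k, hk⟩ := h5
  refine ⟨⟨2 * k - z.im, k⟩, ?_⟩
  apply Zsqrtd.ext
  · simp only [pp, Zsqrtd.re_mul]; linarith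
  · simp only [pp, Zsqrtd.im_mul]; linarith

theorem pp_norm (a : GaussianInt) : (pp * a).norm = 5 * a.norm := by
  rw [Zsqrtd.norm_mul]
  congr 1

theorem sq_mod5 : ∀ a b : ZMod 5, a ^ 2 - 2 * b ^ 2 = 0 → a = 0 ∧ b = 0 := by decide

theorem qn_aux : ∀ n : ℕ, ∀ x : Fin 4 → GaussianInt, (∑ k, (x k).norm.natAbs) ≤ n → qn x = 0 → x = 0 := by
  intro n
  induction n with
  | zero =>
    intro x hx _
    have h0 : ∑ k, (x k).norm.natAbs = 0 := Nat.le_zero.1 hx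
    rw [Finset.sum_eq_zero_iff] at h0
    funext k
    have := h0 k (Finset.mem_univ _)
    rw [Int.natAbs_eq_zero] at this
    exact (GaussianInt.norm_eq_zero).1 this
  | succ n ih =>
    intro x hx hq
    unfold qn at hq
    have h1 := congrArg ph hq
    simp only [map_sub, map_add, map_mul, map_pow, map_zero, map_ofNat] at h1
    have h5 : (5 : ZMod 5) = 0 := by decide
    have h10 : (10 : ZMod 5) = 0 := by decide
    rw [h5, h10] at h1
    obtain ⟨e0, e2⟩ := sq_mod5 (ph (x 0)) (ph (x 2)) (by linear_combination h1)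
    obtain ⟨a0, ha0⟩ := ph_dvd _ e0
    obtain ⟨a2, ha2⟩ := ph_dvd _ e2
    have hpp5 : (5 : GaussianInt) = pp * ⟨2, 1⟩ := by
      apply Zsqrtd.ext <;> simp [pp, Zsqrtd.re_mul, Zsqrtd.im_mul]
    have hpp0 : pp ≠ 0 := by
      intro h
      have := congrArg Zsqrtd.re h
      simp [pp] at this
    have h2 : pp * a0 ^ 2 - ⟨2, 1⟩ * x 1 ^ 2 - 2 * pp * a2 ^ 2 + 2 * ⟨2, 1⟩ * x 3 ^ 2 = 0 := by
      apply mul_left_cancel₀ hpp0
      rw [mul_zero, ← hq, ha0, ha2]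
      linear_combination (x 1 ^ 2 - 2 * x 3 ^ 2) * hpp5
    have h3 := congrArg ph h2
    simp only [map_sub, map_add, map_mul, map_pow, map_zero, map_ofNat] at h3
    have hpz : ph pp = 0 := by rw [ph_apply]; decide
    have hpz' : ph ⟨2, 1⟩ = 4 := by rw [ph_apply]; decide
    rw [hpz, hpz'] at h3
    have h4 : ph (x 1) ^ 2 - 2 * ph (x 3) ^ 2 = 0 := by
      have h16 : (-4 : ZMod 5) = 1 := by decide
      linear_combination h3 - (ph (x 1) ^ 2 - 2 * ph (x 3) ^ 2) * h16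
    obtain ⟨e1, e3⟩ := sq_mod5 _ _ h4
    obtain ⟨a1, ha1⟩ := ph_dvd _ e1
    obtain ⟨a3, ha3⟩ := ph_dvd _ e3
    set a : Fin 4 → GaussianInt := ![a0, a1, a2, a3] with ha
    have hxa : ∀ k, x k = pp * a k := by
      intro k
      fin_cases k
      · exact ha0
      · exact ha1
      · exact ha2
      · exact ha3
    have hqa : qn a = 0 := by
      apply mul_left_cancel₀ (pow_ne_zero 2 hpp0)
      rw [mul_zero, ← hq, hxa 0, hxa 1, hxa 2, hxa 3]
      unfold qn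
      ring
    by_cases ha00 : a = 0
    · funext k
      rw [hxa k, ha00]
      simp
    · have hsum : ∑ k, (x k).norm.natAbs = 5 * ∑ k, (a k).norm.natAbs := by
        rw [Finset.mul_sum]
        refine Finset.sum_congr rfl fun k _ => ?_
        rw [hxa k, pp_norm, Int.natAbs_mul]
        rfl
      have hpos : 0 < ∑ k, (a k).norm.natAbs := by
        rw [Nat.pos_iff_ne_zero]
        intro h0
        rw [Finset.sum_eq_zero_iff] at h0
        apply ha00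
        funext k
        have := h0 k (Finset.mem_univ _)
        rw [Int.natAbs_eq_zero] at this
        exact (GaussianInt.norm_eq_zero).1 this
      exact absurd (ih a (by omega) hqa) ha00

theorem qn_eq_zero (x : Fin 4 → GaussianInt) (h : qn x = 0) : x = 0 :=
  qn_aux _ x le_rfl h

/-- quaternion product -/
def qmulv (x y : Fin 4 → GaussianInt) : Fin 4 → GaussianInt :=
  ![x 0 * y 0 + 5 * (x 1 * y 1) + 2 * (x 2 * y 2) - 10 * (x 3 * y 3),
    x 0 * y 1 + x 1 * y 0 - 2 * (x 2 * y 3) + 2 * (x 3 * y 2),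
    x 0 * y 2 + x 2 * y 0 + 5 * (x 1 * y 3) - 5 * (x 3 * y 1),
    x 0 * y 3 + x 1 * y 2 - x 2 * y 1 + x 3 * y 0]

theorem sqrt5_sq : ((Real.sqrt 5 : ℝ) : ℂ) ^ 2 = 5 := by
  rw [← Complex.ofReal_pow, Real.sq_sqrt (by norm_num)]
  norm_num

theorem qm_mul (x y : Fin 4 → GaussianInt) : qm x * qm y = qm (qmulv x y) := by
  have h5 := sqrt5_sq
  ext i j
  fin_cases i <;> fin_cases j <;>
    simp only [qm, qmulv, Matrix.mul_apply, Fin.sum_univ_two, Matrix.of_apply, Matrix.cons_val',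
      Matrix.cons_val_zero, Matrix.cons_val_one, Matrix.cons_val, Fin.zero_eta, Fin.mk_one,
      map_add, map_sub, map_mul, map_ofNat, Fin.isValue]
  · linear_combination ((x 1 : ℂ) * (y 1 : ℂ) - 2 * (x 3 : ℂ) * (y 3 : ℂ)) * h5
  · linear_combination (2 * (x 1 : ℂ) * (y 3 : ℂ) - 2 * (x 3 : ℂ) * (y 1 : ℂ)) * h5
  · linear_combination ((x 1 : ℂ) * (y 3 : ℂ) - (x 3 : ℂ) * (y 1 : ℂ)) * h5
  · linear_combination (-2 * (x 3 : ℂ) * (y 3 : ℂ) + (x 1 : ℂ) * (y 1 : ℂ)) * h5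

theorem qn_mul (x y : Fin 4 → GaussianInt) : qn (qmulv x y) = qn x * qn y := by
  simp only [qn, qmulv, Matrix.cons_val_zero, Matrix.cons_val_one, Matrix.cons_val]
  ring

theorem gm_det (A : Matrix (Fin 2) (Fin 2) ℂ) (hA : A ∈ Gm) : A.det = 1 := by
  obtain ⟨x, rfl, hq, -⟩ := hA
  have h5 := sqrt5_sq
  have h1 := congrArg (fun z : GaussianInt => (z : ℂ)) hq
  simp only [qn, map_add, map_sub, map_mul, map_pow, map_ofNat, map_one] at h1
  rw [Matrix.det_fin_two]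
  simp only [qm, Matrix.of_apply, Matrix.cons_val', Matrix.cons_val_zero, Matrix.cons_val_one,
    Matrix.cons_val]
  linear_combination h1 - ((x 1 : ℂ) ^ 2 - 2 * (x 3 : ℂ) ^ 2) * h5

theorem qm_one : qm ![1, 0, 0, 0] = 1 := by
  ext i j
  fin_cases i <;> fin_cases j <;> simp [qm]

theorem gm_one : (1 : Matrix (Fin 2) (Fin 2) ℂ) ∈ Gm := by
  refine ⟨![1, 0, 0, 0], qm_one.symm, ?_, ?_, ?_, ?_, ?_⟩ <;> simp [qn]

theorem gm_mul (A B : Matrix (Fin 2) (Fin 2) ℂ) (hA : A ∈ Gm) (hB : B ∈ Gm) : A * B ∈ Gm := by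
  obtain ⟨x, rfl, hx, ⟨a0, ha0⟩, ⟨a1, ha1⟩, ⟨a2, ha2⟩, ⟨a3, ha3⟩⟩ := hA
  obtain ⟨y, rfl, hy, ⟨b0, hb0⟩, ⟨b1, hb1⟩, ⟨b2, hb2⟩, ⟨b3, hb3⟩⟩ := hB
  refine ⟨qmulv x y, qm_mul x y, by rw [qn_mul, hx, hy, one_mul], ?_, ?_, ?_, ?_⟩
  · refine ⟨a0 * y 0 + b0 + 5 * (a1 * y 1) + 2 * (a2 * y 2) - 10 * (a3 * y 3), ?_⟩
    simp only [qmulv, Matrix.cons_val_zero]
    linear_combination (y 0) * ha0 + hb0 + 5 * y 1 * ha1 + 2 * y 2 * ha2 - 10 * y 3 * ha3
  · refine ⟨x 0 * b1 + a1 * y 0 - 2 * (a2 * y 3) + 2 * (a3 * y 2), ?_⟩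
    simp only [qmulv, Matrix.cons_val_one, Matrix.cons_val_zero]
    linear_combination (x 0) * hb1 + y 0 * ha1 - 2 * y 3 * ha2 + 2 * y 2 * ha3
  · refine ⟨x 0 * b2 + a2 * y 0 + 5 * (a1 * y 3) - 5 * (a3 * y 1), ?_⟩
    simp only [qmulv, Matrix.cons_val]
    linear_combination (x 0) * hb2 + y 0 * ha2 + 5 * y 3 * ha1 - 5 * y 1 * ha3
  · refine ⟨x 0 * b3 + a1 * y 2 - a2 * y 1 + a3 * y 0, ?_⟩
    simp only [qmulv, Matrix.cons_val]
    linear_combination (x 0) * hb3 + y 2 * ha1 - y 1 * ha2 + y 0 * ha3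

theorem gm_inv (A : Matrix (Fin 2) (Fin 2) ℂ) (hA : A ∈ Gm) : ∃ B ∈ Gm, A * B = 1 ∧ B * A = 1 := by
  have hdet := gm_det A hA
  obtain ⟨x, rfl, hx, ⟨a0, ha0⟩, ⟨a1, ha1⟩, ⟨a2, ha2⟩, ⟨a3, ha3⟩⟩ := hA
  have hx' := hx
  unfold qn at hx'
  have hmul : qm x * qm ![x 0, -x 1, -x 2, -x 3] = 1 := by
    rw [qm_mul, ← qm_one]
    congr 1
    funext k
    fin_cases k <;> simp only [qmulv, Matrix.cons_val_zero, Matrix.cons_val_one, Matrix.cons_val,
      Fin.zero_eta, Fin.mk_one, Fin.reduceFinMk]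
    · linear_combination hx'
    · ring
    · ring
    · ring
  refine ⟨qm ![x 0, -x 1, -x 2, -x 3], ⟨_, rfl, ?_, ?_, ?_, ?_, ?_⟩, hmul, ?_⟩
  · simp only [qn, Matrix.cons_val_zero, Matrix.cons_val_one, Matrix.cons_val]
    linear_combination hx'
  · exact ⟨a0, ha0⟩
  · exact ⟨-a1, by simp only [Matrix.cons_val_one, Matrix.cons_val_zero]; linear_combination -ha1⟩
  · exact ⟨-a2, by simp only [Matrix.cons_val]; linear_combination -ha2⟩
  · exact ⟨-a3, by simp only [Matrix.cons_val]; linear_combination -ha3⟩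
  · exact mul_eq_one_comm.1 hmul

end Pool.Agent.BL.QAlg
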