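import Pool.Agent.BL.Defs
import Pool.Agent.BL.ChO
import Pool.Agent.BL.QAlg
import Pool.Agent.BL.Mink
import Pool.Agent.BL.ActAlg
import Pool.Agent.BL.ActCh

set_option autoImplicit false
open Set Filter Topology MeasureTheory
open scoped ContDiff


namespace Pool.Agent.BL.GCoc
open Pool.Agent.BL
open Pool.Agent.BL.ChO (ch_act_o)
open Pool.Agent.BL.QAlg (gm_det qn_eq_zero)
open Pool.Agent.BL.Mink (mink)
open Pool.Agent.BL.ActAlg (act_mem act_mul act_one)
open Pool.Agent.BL.ActCh (act_ch)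

open Set Filter Topology MeasureTheory
open scoped ContDiff










/-! ## TARGET (prove this) -/


/-- the conjugate -/
def qbar (x : Fin 4 → GaussianInt) : Fin 4 → GaussianInt := ![x 0, -x 1, -x 2, -x 3]

/-- the product -/
def qmul (x y : Fin 4 → GaussianInt) : Fin 4 → GaussianInt :=
  ![x 0 * y 0 + 5 * x 1 * y 1 + 2 * x 2 * y 2 - 10 * x 3 * y 3,
    x 0 * y 1 + x 1 * y 0 - 2 * x 2 * y 3 + 2 * x 3 * y 2,
    x 0 * y 2 + x 2 * y 0 + 5 * x 1 * y 3 - 5 * x 3 * y 1,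
    x 0 * y 3 + x 3 * y 0 + x 1 * y 2 - x 2 * y 1]

theorem qm_mul (x y : Fin 4 → GaussianInt) : qm x * qm y = qm (qmul x y) := by
  have h5 : ((Real.sqrt 5 : ℝ) : ℂ) * ((Real.sqrt 5 : ℝ) : ℂ) = 5 := by
    rw [← Complex.ofReal_mul, Real.mul_self_sqrt (by norm_num)]; norm_num
  have c5 : GaussianInt.toComplex 5 = 5 := map_ofNat _ 5
  have c2 : GaussianInt.toComplex 2 = 2 := map_ofNat _ 2
  have c10 : GaussianInt.toComplex 10 = 10 := map_ofNat _ 10
  ext i j
  fin_cases i <;> fin_cases j <;>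
    simp [qm, qmul, Matrix.mul_apply, Fin.sum_univ_two, c5, c2, c10]
  · linear_combination (((x 1 : ℂ)) * y 1 - 2 * x 3 * y 3) * h5
  · linear_combination (2 * ((x 1 : ℂ)) * y 3 - 2 * x 3 * y 1) * h5
  · linear_combination (- ((x 3 : ℂ)) * y 1 + x 1 * y 3) * h5
  · linear_combination (((x 1 : ℂ)) * y 1 - 2 * x 3 * y 3) * h5

theorem qm_det (x : Fin 4 → GaussianInt) : (qm x).det = (qn x : ℂ) := by
  have h5 : ((Real.sqrt 5 : ℝ) : ℂ) * ((Real.sqrt 5 : ℝ) : ℂ) = 5 := by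
    rw [← Complex.ofReal_mul, Real.mul_self_sqrt (by norm_num)]; norm_num
  have c5 : GaussianInt.toComplex 5 = 5 := map_ofNat _ 5
  have c2 : GaussianInt.toComplex 2 = 2 := map_ofNat _ 2
  have c10 : GaussianInt.toComplex 10 = 10 := map_ofNat _ 10
  rw [qm, Matrix.det_fin_two_of, qn]
  simp [c5, c2, c10]
  linear_combination (-((x 1 : ℂ)) ^ 2 + 2 * x 3 ^ 2) * h5

theorem exists_rep : ∀ N : ℕ, ∃ D : ℝ, 0 ≤ D ∧ ∀ x : Fin 4 → GaussianInt, qn x ≠ 0 →
    (qn x).norm ≤ N → ∃ y : Fin 4 → GaussianInt, qn y = qn x ∧ (∀ i, 3 * qn x ∣ x i - y i) ∧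
      ∀ i j, ‖qm (qbar y) i j‖ ≤ D := by
  intro N
  have hfin : {z : GaussianInt | z.norm ≤ 9 * N}.Finite := by
    have h1 : ((Set.Icc (-(9 * N : ℤ)) (9 * N)) ×ˢ (Set.Icc (-(9 * N : ℤ)) (9 * N))).Finite :=
      (Set.finite_Icc _ _).prod (Set.finite_Icc _ _)
    refine Set.Finite.of_finite_image (f := fun z : GaussianInt => (z.re, z.im)) (h1.subset ?_) ?_
    · rintro _ ⟨z, hz, rfl⟩
      simp only [Set.mem_setOf_eq, Zsqrtd.norm_def] at hz
      simp only [Set.mem_prod, Set.mem_Icc]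
      refine ⟨⟨?_, ?_⟩, ?_, ?_⟩ <;> nlinarith [sq_nonneg (z.re - 1), sq_nonneg (z.re + 1), sq_nonneg (z.im - 1),
        sq_nonneg (z.im + 1), Int.le_self_sq z.re, Int.le_self_sq z.im, Int.le_self_sq (-z.re), Int.le_self_sq (-z.im),
        sq_nonneg z.re, sq_nonneg z.im]
    · intro a _ b _ hab
      simp only [Prod.mk.injEq] at hab
      exact Zsqrtd.ext hab.1 hab.2
  have h1 : ∀ k : GaussianInt × (Fin 4 → GaussianInt), ∃ y : Fin 4 → GaussianInt,
      (∃ x : Fin 4 → GaussianInt, qn x = k.1 ∧ ∀ i, x i % (3 * k.1) = k.2 i) →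
        qn y = k.1 ∧ ∀ i, y i % (3 * k.1) = k.2 i := by
    intro k
    by_cases h : ∃ x : Fin 4 → GaussianInt, qn x = k.1 ∧ ∀ i, x i % (3 * k.1) = k.2 i
    · obtain ⟨x, hx⟩ := h
      exact ⟨x, fun _ => hx⟩
    · exact ⟨0, fun h' => absurd h' h⟩
  choose f hf using h1
  have hF : ({z : GaussianInt | z.norm ≤ 9 * N} ×ˢ
      Set.pi Set.univ (fun _ : Fin 4 => {z : GaussianInt | z.norm ≤ 9 * N})).Finite :=
    hfin.prod (Set.Finite.pi' (fun _ => hfin) |>.subset (fun a ha => by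
      intro i; exact ha i (Set.mem_univ i)))
  obtain ⟨D, hD⟩ := (hF.image (fun k => ∑ i, ∑ j, ‖qm (qbar (f k)) i j‖)).bddAbove
  refine ⟨max D 0, le_max_right _ _, ?_⟩
  intro x hx hxN
  set k : GaussianInt × (Fin 4 → GaussianInt) := (qn x, fun i => x i % (3 * qn x)) with hk
  obtain ⟨hy1, hy2⟩ := hf k ⟨x, rfl, fun i => rfl⟩
  refine ⟨f k, hy1, ?_, ?_⟩
  · intro i
    have e := hy2 i
    simp only [hk] at e
    have e1 := EuclideanDomain.div_add_mod (x i) (3 * qn x)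
    have e2 := EuclideanDomain.div_add_mod (f k i) (3 * qn x)
    refine ⟨x i / (3 * qn x) - f k i / (3 * qn x), ?_⟩
    have e' : f k i % (3 * qn x) = x i % (3 * qn x) := e
    rw [e'] at e2
    linear_combination e2 - e1
  · intro i j
    have h3 : (3 : GaussianInt) * qn x ≠ 0 := mul_ne_zero (by decide) hx
    have hmem : k ∈ ({z : GaussianInt | z.norm ≤ 9 * N} ×ˢ
      Set.pi Set.univ (fun _ : Fin 4 => {z : GaussianInt | z.norm ≤ 9 * N})) := by
      refine ⟨?_, ?_⟩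
      · have : (0 : ℤ) ≤ (qn x).norm := GaussianInt.norm_nonneg _
        show (qn x).norm ≤ 9 * N
        linarith
      · intro i _
        show (x i % (3 * qn x)).norm ≤ 9 * N
        have h4 := GaussianInt.norm_mod_lt (x i) h3
        rw [Zsqrtd.norm_mul] at h4
        have h5 : (3 : GaussianInt).norm = 9 := by decide
        rw [h5] at h4
        linarith
    have h6 := hD (Set.mem_image_of_mem _ hmem)
    refine le_trans ?_ (h6.trans (le_max_left _ _))
    refine le_trans ?_ (Finset.single_le_sum (f := fun i => ∑ j, ‖qm (qbar (f k)) i j‖)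
        (fun i _ => Finset.sum_nonneg (fun j _ => norm_nonneg _)) (Finset.mem_univ i))
    exact Finset.single_le_sum (f := fun j => ‖qm (qbar (f k)) i j‖) (fun j _ => norm_nonneg _)
        (Finset.mem_univ j)

theorem normsq_bound (w : ℂ) (C : ℝ) (h : ‖w‖ ≤ C) : Complex.normSq w ≤ C ^ 2 := by
  rw [Complex.normSq_eq_norm_sq]
  exact pow_le_pow_left₀ (norm_nonneg _) h 2

theorem gm_cocompact : ∃ R : ℝ, ∀ z ∈ U, ∃ A ∈ Gm, ch o3 (act A z) ≤ R := by
  obtain ⟨C0, hC0⟩ := mink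
  set C := max C0 0 with hCdef
  have hCnn : 0 ≤ C := le_max_right _ _
  obtain ⟨D, hD0, hD⟩ := exists_rep (Nat.ceil ((2 * C ^ 2) ^ 2))
  refine ⟨2 * (2 * D * C) ^ 2, ?_⟩
  intro z hz
  have ht : 0 < z 2 := hz
  set t := z 2 with htdef
  set ζ : ℂ := ⟨z 0, z 1⟩ with hζ
  obtain ⟨x, hx0, e1, e2, e3, e4⟩ := hC0 t ζ ht
  have hst : 0 < Real.sqrt t := Real.sqrt_pos.2 ht
  have hstC : ((Real.sqrt t : ℝ) : ℂ) ≠ 0 := by exact_mod_cast hst.ne'
  set g : Matrix (Fin 2) (Fin 2) ℂ := !![((Real.sqrt t : ℝ) : ℂ), ζ / (Real.sqrt t : ℝ); 0, 1 / (Real.sqrt t : ℝ)] with hg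
  have hgdet : g.det = 1 := by
    rw [hg, Matrix.det_fin_two_of]
    field_simp
    simp
  have hstt : Real.sqrt t * Real.sqrt t = t := Real.mul_self_sqrt ht.le
  have hact : act g o3 = z := by
    have g00 : g 0 0 = ((Real.sqrt t : ℝ) : ℂ) := rfl
    have g01 : g 0 1 = ζ / (Real.sqrt t : ℝ) := rfl
    have g10 : g 1 0 = 0 := rfl
    have g11 : g 1 1 = 1 / ((Real.sqrt t : ℝ) : ℂ) := rfl
    have hN : Complex.normSq (g 1 0 * ⟨o3 0, o3 1⟩ + g 1 1) + Complex.normSq (g 1 0) * (o3 2) ^ 2 = 1 / t := by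
      rw [g10, g11, zero_mul, zero_add, map_div₀, Complex.normSq_ofReal, hstt]; simp
    have hη : (g 0 0 * ⟨o3 0, o3 1⟩ + g 0 1) * (starRingEnd ℂ) (g 1 0 * ⟨o3 0, o3 1⟩ + g 1 1)
        + g 0 0 * (starRingEnd ℂ) (g 1 0) * ((o3 2) ^ 2 : ℝ) = ζ / (t : ℝ) := by
      have h0 : (⟨o3 0, o3 1⟩ : ℂ) = 0 := by
        apply Complex.ext <;> simp [o3]
      rw [h0, g10, g11, g01, mul_zero, mul_zero, zero_add, zero_add, map_zero, mul_zero, zero_mul, add_zero,
        map_div₀, map_one, Complex.conj_ofReal, div_mul_div_comm, mul_one, ← Complex.ofReal_mul, hstt]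
    have hval : act g o3 = ![(ζ / (t : ℝ)).re / (1 / t), (ζ / (t : ℝ)).im / (1 / t), o3 2 / (1 / t)] := by
      rw [← hη, ← hN]; rfl
    rw [hval]
    funext i
    fin_cases i
    · show (ζ / (t : ℝ)).re / (1 / t) = z 0
      rw [Complex.div_ofReal_re]
      field_simp
      rfl
    · show (ζ / (t : ℝ)).im / (1 / t) = z 1
      rw [Complex.div_ofReal_im]
      field_simp
      rfl
    · show o3 2 / (1 / t) = z 2
      simp [o3, htdef]
  have hent : ∀ i j, ‖(qm x * g) i j‖ ≤ C := by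
    intro i j
    fin_cases i <;> fin_cases j
    · refine (le_of_eq_of_le ?_ e1).trans (le_max_left _ _)
      simp [hg, Matrix.mul_apply, Fin.sum_univ_two, abs_of_pos hst]
    · refine (le_of_eq_of_le ?_ e2).trans (le_max_left _ _)
      have : (qm x * g) 0 1 = (qm x 0 0 * ζ + qm x 0 1) / (Real.sqrt t : ℝ) := by
        simp [hg, Matrix.mul_apply, Fin.sum_univ_two]
        ring
      show ‖(qm x * g) 0 1‖ = _
      rw [this, norm_div]
      simp [abs_of_pos hst]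
    · refine (le_of_eq_of_le ?_ e3).trans (le_max_left _ _)
      simp [hg, Matrix.mul_apply, Fin.sum_univ_two, abs_of_pos hst]
    · refine (le_of_eq_of_le ?_ e4).trans (le_max_left _ _)
      have : (qm x * g) 1 1 = (qm x 1 0 * ζ + qm x 1 1) / (Real.sqrt t : ℝ) := by
        simp [hg, Matrix.mul_apply, Fin.sum_univ_two]
        ring
      show ‖(qm x * g) 1 1‖ = _
      rw [this, norm_div]
      simp [abs_of_pos hst]
  set n := qn x with hn
  have hn0 : n ≠ 0 := fun h => hx0 (qn_eq_zero x h)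
  have hdetn : (qm x * g).det = (n : ℂ) := by
    rw [Matrix.det_mul, hgdet, mul_one, qm_det]
  have hnC : ‖(n : ℂ)‖ ≤ 2 * C ^ 2 := by
    rw [← hdetn, Matrix.det_fin_two]
    refine (norm_sub_le _ _).trans ?_
    rw [norm_mul, norm_mul]
    have a1 := mul_le_mul (hent 0 0) (hent 1 1) (norm_nonneg _) hCnn
    have a2 := mul_le_mul (hent 0 1) (hent 1 0) (norm_nonneg _) hCnn
    linarith
  have hnorm : ((n.norm : ℤ) : ℝ) = ‖(n : ℂ)‖ ^ 2 := by
    rw [GaussianInt.intCast_real_norm, Complex.normSq_eq_norm_sq]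
  have hnN : n.norm ≤ (Nat.ceil ((2 * C ^ 2) ^ 2) : ℕ) := by
    have h1 : ((n.norm : ℤ) : ℝ) ≤ (Nat.ceil ((2 * C ^ 2) ^ 2) : ℕ) := by
      rw [hnorm]
      exact (pow_le_pow_left₀ (norm_nonneg _) hnC 2).trans (Nat.le_ceil _)
    exact_mod_cast h1
  have hn1 : 1 ≤ ‖(n : ℂ)‖ := by
    have h1 : 0 < n.norm := GaussianInt.norm_pos.2 hn0
    have h2 : (1 : ℝ) ≤ ((n.norm : ℤ) : ℝ) := by exact_mod_cast h1
    rw [hnorm] at h2
    by_contra hlt
    push_neg at hlt
    have := norm_nonneg (n : ℂ)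
    nlinarith
  obtain ⟨y, hy1, hy2, hy3⟩ := hD x hn0 hnN
  choose d hd using hy2
  set w : Fin 4 → GaussianInt := ![1 + 3 * qmul (qbar y) d 0, 3 * qmul (qbar y) d 1, 3 * qmul (qbar y) d 2, 3 * qmul (qbar y) d 3] with hw
  have hmulw : qmul (qbar y) x = fun i => n * w i := by
    have hx : ∀ i, x i = y i + 3 * n * d i := fun i => by linear_combination hd i
    have hy1' : y 0 ^ 2 - 5 * y 1 ^ 2 - 2 * y 2 ^ 2 + 10 * y 3 ^ 2 = n := hy1
    funext i
    fin_cases i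
    · simp [hw, qmul, qbar, hx]
      linear_combination hy1'
    · simp [hw, qmul, qbar, hx]
      ring
    · simp [hw, qmul, qbar, hx]
      ring
    · simp [hw, qmul, qbar, hx]
      ring
  have hqmw : qm (qbar y) * qm x = (n : ℂ) • qm w := by
    rw [qm_mul, hmulw]
    ext i j
    fin_cases i <;> fin_cases j <;> simp [qm] <;> ring
  have hqnw : qn w = 1 := by
    have h1 : qn (fun i => n * w i) = n ^ 2 * qn w := by
      simp only [qn]; ring
    have h2 : qn (qmul (qbar y) x) = qn y * qn x := by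
      simp [qn, qmul, qbar]; ring
    rw [hmulw, h1, hy1] at h2
    have h3 : n ^ 2 ≠ 0 := pow_ne_zero _ hn0
    apply mul_left_cancel₀ h3
    rw [h2, ← hn]; ring
  have hGm : qm w ∈ Gm := by
    refine ⟨w, rfl, hqnw, ?_, ?_, ?_, ?_⟩
    · exact ⟨qmul (qbar y) d 0, by simp [hw]⟩
    · exact ⟨qmul (qbar y) d 1, by simp [hw]⟩
    · exact ⟨qmul (qbar y) d 2, by simp [hw]⟩
    · exact ⟨qmul (qbar y) d 3, by simp [hw]⟩
  refine ⟨qm w, hGm, ?_⟩
  have hdw := gm_det _ hGm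
  have hoU : o3 ∈ U := by simp [U, o3]
  rw [← hact, ← act_mul _ _ hdw hgdet _ hoU, ch_act_o _ (by rw [Matrix.det_mul, hdw, hgdet, mul_one])]
  have hb : ∀ i j, ‖(qm w * g) i j‖ ≤ 2 * D * C := by
    intro i j
    have h1 : (n : ℂ) * (qm w * g) i j = (qm (qbar y) * (qm x * g)) i j := by
      rw [← Matrix.mul_assoc, hqmw, Matrix.smul_mul, Matrix.smul_apply, smul_eq_mul]
    have h2 : ‖(qm (qbar y) * (qm x * g)) i j‖ ≤ 2 * D * C := by
      rw [Matrix.mul_apply, Fin.sum_univ_two]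
      refine (norm_add_le _ _).trans ?_
      rw [norm_mul, norm_mul]
      have a1 := mul_le_mul (hy3 i 0) (hent 0 j) (norm_nonneg _) hD0
      have a2 := mul_le_mul (hy3 i 1) (hent 1 j) (norm_nonneg _) hD0
      linarith
    rw [← h1, norm_mul] at h2
    refine le_trans ?_ h2
    have := norm_nonneg ((qm w * g) i j)
    nlinarith
  have b1 := normsq_bound _ _ (hb 0 0)
  have b2 := normsq_bound _ _ (hb 0 1)
  have b3 := normsq_bound _ _ (hb 1 0)
  have b4 := normsq_bound _ _ (hb 1 1)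
  linarith

end Pool.Agent.BL.GCoc
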