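import Pool.Agent.BL.Defs
import Pool.Agent.BL.ChO
import Pool.Agent.BL.QAlg

set_option autoImplicit false
open Set Filter Topology MeasureTheory
open scoped ContDiff


namespace Pool.Agent.BL.GFin
open Pool.Agent.BL
open Pool.Agent.BL.ChO (ch_act_o)
open Pool.Agent.BL.QAlg (gm_det)

open Set Filter Topology MeasureTheory
open scoped ContDiff




/-! ## TARGET (prove this) -/

theorem gm_finite_ball (R : ℝ) : {g : GaussianInt | Complex.normSq (g : ℂ) ≤ R}.Finite := by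
  have hf : (Set.Icc (-(⌈R⌉₊ : ℤ)) ⌈R⌉₊ ×ˢ Set.Icc (-(⌈R⌉₊ : ℤ)) ⌈R⌉₊).Finite :=
    (Set.finite_Icc _ _).prod (Set.finite_Icc _ _)
  refine (hf.image (fun p : ℤ × ℤ => (⟨p.1, p.2⟩ : GaussianInt))).subset ?_
  intro g hg
  have hg' : Complex.normSq (g : ℂ) ≤ R := hg
  rw [Complex.normSq_apply, ← GaussianInt.intCast_re, ← GaussianInt.intCast_im] at hg'
  have h1 : ((g.re * g.re + g.im * g.im : ℤ) : ℝ) ≤ ((⌈R⌉₊ : ℤ) : ℝ) := by
    push_cast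
    exact hg'.trans (Nat.le_ceil R)
  have h2 : g.re * g.re + g.im * g.im ≤ (⌈R⌉₊ : ℤ) := by exact_mod_cast h1
  have h3 : ∀ z : ℤ, z * z ≤ (⌈R⌉₊ : ℤ) → z ∈ Set.Icc (-(⌈R⌉₊ : ℤ)) ⌈R⌉₊ := by
    intro z hz
    constructor
    · by_contra hc
      push Not at hc
      nlinarith
    · by_contra hc
      push Not at hc
      nlinarith
  refine ⟨(g.re, g.im), ⟨h3 _ ?_, h3 _ ?_⟩, rfl⟩
  · nlinarith [mul_self_nonneg g.im]
  · nlinarith [mul_self_nonneg g.re]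

theorem gm_finite_par (a b : ℂ) : Complex.normSq (a + b) + Complex.normSq (a - b)
    = 2 * Complex.normSq a + 2 * Complex.normSq b := by
  rw [Complex.normSq_add, Complex.normSq_sub]
  ring

theorem gm_finite (R : ℝ) : {A | A ∈ Gm ∧ ch o3 (act A o3) ≤ R}.Finite := by
  have hfin : {x : Fin 4 → GaussianInt | ∀ i, x i ∈ {g : GaussianInt | Complex.normSq (g : ℂ) ≤ R}}.Finite :=
    Set.Finite.pi' fun _ => gm_finite_ball R
  refine (hfin.image qm).subset ?_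
  rintro A ⟨hA, hR⟩
  have hdet := gm_det A hA
  rw [ch_act_o A hdet] at hR
  obtain ⟨x, rfl, -, -, -, -, -⟩ := hA
  refine ⟨x, ?_, rfl⟩
  have e00 : qm x 0 0 = (x 0 : ℂ) + (x 1 : ℂ) * (Real.sqrt 5 : ℝ) := rfl
  have e01 : qm x 0 1 = 2 * ((x 2 : ℂ) + (x 3 : ℂ) * (Real.sqrt 5 : ℝ)) := rfl
  have e10 : qm x 1 0 = (x 2 : ℂ) - (x 3 : ℂ) * (Real.sqrt 5 : ℝ) := rfl
  have e11 : qm x 1 1 = (x 0 : ℂ) - (x 1 : ℂ) * (Real.sqrt 5 : ℝ) := rfl
  rw [e00, e01, e10, e11] at hR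
  have p1 := gm_finite_par (x 0 : ℂ) ((x 1 : ℂ) * (Real.sqrt 5 : ℝ))
  have p2 := gm_finite_par (x 2 : ℂ) ((x 3 : ℂ) * (Real.sqrt 5 : ℝ))
  have h2 : Complex.normSq (2 * ((x 2 : ℂ) + (x 3 : ℂ) * (Real.sqrt 5 : ℝ)))
      = 4 * Complex.normSq ((x 2 : ℂ) + (x 3 : ℂ) * (Real.sqrt 5 : ℝ)) := by
    rw [Complex.normSq_mul]
    have : Complex.normSq 2 = 4 := by
      rw [Complex.normSq_apply]; norm_num
    rw [this]
  have h5 : ∀ z : ℂ, Complex.normSq (z * (Real.sqrt 5 : ℝ)) = 5 * Complex.normSq z := by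
    intro z
    rw [Complex.normSq_mul, Complex.normSq_ofReal, Real.mul_self_sqrt (by norm_num)]
    ring
  rw [h2] at hR
  rw [h5] at p1 p2
  have n0 := Complex.normSq_nonneg (x 0 : ℂ)
  have n1 := Complex.normSq_nonneg (x 1 : ℂ)
  have n2 := Complex.normSq_nonneg (x 2 : ℂ)
  have n3 := Complex.normSq_nonneg (x 3 : ℂ)
  have m1 := Complex.normSq_nonneg ((x 0 : ℂ) + (x 1 : ℂ) * (Real.sqrt 5 : ℝ))
  have m2 := Complex.normSq_nonneg ((x 0 : ℂ) - (x 1 : ℂ) * (Real.sqrt 5 : ℝ))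
  have m3 := Complex.normSq_nonneg ((x 2 : ℂ) + (x 3 : ℂ) * (Real.sqrt 5 : ℝ))
  have m4 := Complex.normSq_nonneg ((x 2 : ℂ) - (x 3 : ℂ) * (Real.sqrt 5 : ℝ))
  intro i
  show Complex.normSq (x i : ℂ) ≤ R
  fin_cases i
  · show Complex.normSq (x 0 : ℂ) ≤ R
    linarith
  · show Complex.normSq (x 1 : ℂ) ≤ R
    linarith
  · show Complex.normSq (x 2 : ℂ) ≤ R
    linarith
  · show Complex.normSq (x 3 : ℂ) ≤ R
    linarith

end Pool.Agent.BL.GFin
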