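import Pool.Agent.BL.Defs
import Pool.Agent.BL.QAlg

set_option autoImplicit false
open Set Filter Topology MeasureTheory
open scoped ContDiff


namespace Pool.Agent.BL.GFree
open Pool.Agent.BL
open Pool.Agent.BL.QAlg (qn_eq_zero gm_det)

open Set Filter Topology MeasureTheory
open scoped ContDiff





theorem gmf_core (a b c d ζ : ℂ) (t : ℝ) (hdet : a * d - b * c = 1)
    (hN : Complex.normSq (c * ζ + d) + Complex.normSq c * t ^ 2 = 1)
    (hη : (a * ζ + b) * (starRingEnd ℂ) (c * ζ + d) + a * (starRingEnd ℂ) c * ((t ^ 2 : ℝ) : ℂ) = ζ) :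
    ∃ r : ℝ, a + d = ((2 * r : ℝ) : ℂ) ∧ |r| ≤ 1 := by
  have hNc : (c * ζ + d) * (starRingEnd ℂ) (c * ζ + d) + c * (starRingEnd ℂ) c * ((t ^ 2 : ℝ) : ℂ) = 1 := by
    rw [Complex.mul_conj, Complex.mul_conj]
    exact_mod_cast hN
  have h1 : a - (starRingEnd ℂ) (c * ζ + d) - c * ζ = 0 := by
    linear_combination c * hη - a * hNc + (starRingEnd ℂ) (c * ζ + d) * hdet
  refine ⟨(c * ζ + d).re, ?_, ?_⟩
  · have h2 : (c * ζ + d) + (starRingEnd ℂ) (c * ζ + d) = ((2 * (c * ζ + d).re : ℝ) : ℂ) :=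
      Complex.add_conj _
    rw [← h2]
    linear_combination h1
  · have h3 : Complex.normSq (c * ζ + d) ≤ 1 := by
      have := Complex.normSq_nonneg c
      nlinarith [sq_nonneg t, mul_nonneg this (sq_nonneg t)]
    rw [Complex.normSq_apply] at h3
    rw [abs_le]
    constructor <;> nlinarith [sq_nonneg (c * ζ + d).im]

/-! ## TARGET (prove this) -/

theorem gm_free (A : Matrix (Fin 2) (Fin 2) ℂ) (hA : A ∈ Gm) (z : V3) (hz : z ∈ U)
    (h : act A z = z) : A = 1 := by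
  have hd := gm_det A hA
  obtain ⟨x, hx, hq, h0, -, -, -⟩ := hA
  rw [Matrix.det_fin_two] at hd
  have hz2 : 0 < z 2 := hz
  have e2 := congrFun h 2
  have e0 := congrFun h 0
  have e1 := congrFun h 1
  unfold act at e0 e1 e2
  simp only [Matrix.cons_val_zero, Matrix.cons_val_one, Matrix.cons_val] at e0 e1 e2
  have hN : Complex.normSq (A 1 0 * (⟨z 0, z 1⟩ : ℂ) + A 1 1) + Complex.normSq (A 1 0) * (z 2) ^ 2 = 1 := by
    have hne : Complex.normSq (A 1 0 * (⟨z 0, z 1⟩ : ℂ) + A 1 1) + Complex.normSq (A 1 0) * (z 2) ^ 2 ≠ 0 := by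
      intro h0
      rw [h0, div_zero] at e2
      exact hz2.ne e2
    rw [div_eq_iff hne] at e2
    have : z 2 * (Complex.normSq (A 1 0 * (⟨z 0, z 1⟩ : ℂ) + A 1 1) + Complex.normSq (A 1 0) * (z 2) ^ 2 - 1) = 0 := by
      linarith
    rcases mul_eq_zero.1 this with h3 | h3
    · exact absurd h3 hz2.ne'
    · linarith
  rw [hN, div_one] at e0 e1
  have hη : (A 0 0 * (⟨z 0, z 1⟩ : ℂ) + A 0 1) * (starRingEnd ℂ) (A 1 0 * (⟨z 0, z 1⟩ : ℂ) + A 1 1)
    + A 0 0 * (starRingEnd ℂ) (A 1 0) * ((z 2 ^ 2 : ℝ) : ℂ) = (⟨z 0, z 1⟩ : ℂ) :=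
    Complex.ext e0 e1
  obtain ⟨r, hr, hr1⟩ := gmf_core _ _ _ _ _ _ hd hN hη
  have htr : A 0 0 + A 1 1 = 2 * ((x 0 : GaussianInt) : ℂ) := by
    rw [hx]
    simp [qm]
    ring
  have hx0 : ((x 0 : GaussianInt) : ℂ) = (r : ℂ) := by
    have h3 : (2:ℂ) * ((x 0 : GaussianInt) : ℂ) = 2 * (r : ℂ) := by
      rw [← htr, hr]; push_cast; ring
    exact mul_left_cancel₀ two_ne_zero h3
  have him : (x 0).im = 0 := by
    have := congrArg Complex.im hx0
    rw [← GaussianInt.intCast_im, Complex.ofReal_im] at this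
    exact_mod_cast this
  have hre : ((x 0).re : ℝ) = r := by
    have := congrArg Complex.re hx0
    rw [← GaussianInt.intCast_re, Complex.ofReal_re] at this
    exact this
  have hb1 : (x 0).re ≤ 1 := by
    have := (abs_le.1 hr1).2
    rw [← hre] at this
    exact_mod_cast this
  have hb2 : -1 ≤ (x 0).re := by
    have := (abs_le.1 hr1).1
    rw [← hre] at this
    exact_mod_cast this
  obtain ⟨k, hk⟩ := h0
  have hk1 : (x 0).re - 1 = 3 * k.re := by
    have := congrArg Zsqrtd.re hk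
    simpa using this
  have hre1 : (x 0).re = 1 := by omega
  have hx1 : x 0 = 1 := by
    apply Zsqrtd.ext
    · rw [hre1]; rfl
    · rw [him]; rfl
  have hq0 : qn ![0, x 1, x 2, x 3] = 0 := by
    unfold qn at hq ⊢
    rw [hx1] at hq
    simp only [Matrix.cons_val_zero, Matrix.cons_val_one, Matrix.cons_val]
    linear_combination hq
  have hxx := qn_eq_zero _ hq0
  have e1' : x 1 = 0 := by simpa using congrFun hxx 1
  have e2' : x 2 = 0 := by simpa using congrFun hxx 2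
  have e3' : x 3 = 0 := by simpa using congrFun hxx 3
  rw [hx]
  ext i j
  fin_cases i <;> fin_cases j <;> simp [qm, hx1, e1', e2', e3']


end Pool.Agent.BL.GFree
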