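import Pool.Agent.BL.Defs
import Pool.Agent.BL.QAlg
import Pool.Agent.BL.ActAlg
import Pool.Agent.BL.ActCh
import Pool.Agent.BL.ChO

set_option autoImplicit false
open Set Filter Topology MeasureTheory
open scoped ContDiff


namespace Pool.Agent.BL.GPl
open Pool.Agent.BL
open Pool.Agent.BL.QAlg (gm_det gm_mul gm_inv)
open Pool.Agent.BL.ActAlg (act_mem act_mul act_one)
open Pool.Agent.BL.ActCh (act_ch)
open Pool.Agent.BL.ChO (ch_act_o)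

open Set Filter Topology MeasureTheory
open scoped ContDiff










/-! ## TARGET (prove this) -/

/-- the value of the linear form at the point `(0, √5/2, √3/2)` -/
theorem gm_plane_aux (s t : ℝ) (hs : s ^ 2 = 5) (ht : t ^ 2 = 3 / 4) (a0 b0 a1 b1 a2 b2 a3 b3 : ℤ)
    (hq : (a0 ^ 2 - b0 ^ 2) - 5 * (a1 ^ 2 - b1 ^ 2) - 2 * (a2 ^ 2 - b2 ^ 2)
      + 10 * (a3 ^ 2 - b3 ^ 2) = 1) (η : ℂ)
    (hη : η = (((⟨a0, b0⟩ : ℂ) + (⟨a1, b1⟩ : ℂ) * (s : ℂ)) * (⟨0, s / 2⟩ : ℂ)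
        + 2 * ((⟨a2, b2⟩ : ℂ) + (⟨a3, b3⟩ : ℂ) * (s : ℂ)))
        * (starRingEnd ℂ) (((⟨a2, b2⟩ : ℂ) - (⟨a3, b3⟩ : ℂ) * (s : ℂ)) * (⟨0, s / 2⟩ : ℂ)
          + ((⟨a0, b0⟩ : ℂ) - (⟨a1, b1⟩ : ℂ) * (s : ℂ)))
        + ((⟨a0, b0⟩ : ℂ) + (⟨a1, b1⟩ : ℂ) * (s : ℂ)) *
          (starRingEnd ℂ) ((⟨a2, b2⟩ : ℂ) - (⟨a3, b3⟩ : ℂ) * (s : ℂ)) * ((t ^ 2 : ℝ) : ℂ)) :
    ∃ Z : ℤ, Z ≠ 0 ∧ η.im = s / 2 * Z := by
  refine ⟨8 * ((b1 * a2 - a1 * b2) - (b0 * a3 - a0 * b3)) +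
    (1 + 2 * (b0 ^ 2 - 5 * b1 ^ 2 - 2 * b2 ^ 2 + 10 * b3 ^ 2)), ?_, ?_⟩
  · intro h
    omega
  · have hqR : ((a0 : ℝ) ^ 2 - b0 ^ 2) - 5 * (a1 ^ 2 - b1 ^ 2) - 2 * (a2 ^ 2 - b2 ^ 2)
      + 10 * (a3 ^ 2 - b3 ^ 2) = 1 := by exact_mod_cast hq
    rw [hη, ht]
    simp only [Complex.add_im, Complex.add_re, Complex.sub_im, Complex.sub_re, Complex.mul_im,
      Complex.mul_re, Complex.conj_im, Complex.conj_re, Complex.ofReal_im, Complex.ofReal_re,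
      Complex.re_ofNat, Complex.im_ofNat]
    push_cast
    linear_combination ((a0 : ℝ) * b3 * s / 4 - a0 * b2 / 4 - a1 * b2 * s / 4 + a1 * b3 * s ^ 2 / 4
      - a1 ^ 2 * s / 2 + s * b1 * a2 / 4 - s * b1 ^ 2 / 2 - s * b0 * a3 / 4 + s * a3 ^ 2
      + s * b3 ^ 2 + b0 * a2 / 4 - s ^ 2 * b1 * a3 / 4) * hs + (s / 2) * hqR

theorem gm_plane : ∃ p ∈ U, ∃ c : ℝ, 0 < c ∧ ∀ A ∈ Gm, c ≤ |act A p 1| / act A p 2 := by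
  have hs0 : 0 < Real.sqrt 5 := by positivity
  have ht0 : 0 < Real.sqrt 3 := by positivity
  have hs : Real.sqrt 5 ^ 2 = 5 := Real.sq_sqrt (by norm_num)
  have ht : (Real.sqrt 3 / 2) ^ 2 = 3 / 4 := by
    rw [div_pow, Real.sq_sqrt (by norm_num)]
    norm_num
  obtain ⟨p, hp⟩ : ∃ p : V3, p = ![0, Real.sqrt 5 / 2, Real.sqrt 3 / 2] := ⟨_, rfl⟩
  have hp0 : p 0 = 0 := by rw [hp]; rfl
  have hp1 : p 1 = Real.sqrt 5 / 2 := by rw [hp]; rfl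
  have hp2 : p 2 = Real.sqrt 3 / 2 := by rw [hp]; rfl
  have hU : p ∈ U := by
    show 0 < p 2
    rw [hp2]
    positivity
  refine ⟨p, hU, 1, one_pos, ?_⟩
  rintro A hA
  have hdet := gm_det A hA
  have hmem := act_mem A hdet _ hU
  obtain ⟨x, rfl, hq, -, -, -, -⟩ := hA
  have h2 : 0 < act (qm x) p 2 := hmem
  obtain ⟨N, η, e1, e2, hη⟩ : ∃ (N : ℝ) (η : ℂ), act (qm x) p 1 = η.im / N ∧
      act (qm x) p 2 = p 2 / N ∧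
      η = ((qm x) 0 0 * (⟨p 0, p 1⟩ : ℂ) + (qm x) 0 1) *
        (starRingEnd ℂ) ((qm x) 1 0 * (⟨p 0, p 1⟩ : ℂ) + (qm x) 1 1)
        + (qm x) 0 0 * (starRingEnd ℂ) ((qm x) 1 0) * ((p 2) ^ 2 : ℝ) := ⟨_, _, rfl, rfl, rfl⟩
  rw [hp0, hp1, hp2] at hη
  have hx : ∀ i, ((x i : GaussianInt) : ℂ) = ⟨((x i).re : ℝ), ((x i).im : ℝ)⟩ := by
    intro i
    apply Complex.ext <;> simp
  have q00 : (qm x) 0 0 = (x 0 : ℂ) + (x 1 : ℂ) * (Real.sqrt 5 : ℝ) := rfl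
  have q01 : (qm x) 0 1 = 2 * ((x 2 : ℂ) + (x 3 : ℂ) * (Real.sqrt 5 : ℝ)) := rfl
  have q10 : (qm x) 1 0 = (x 2 : ℂ) - (x 3 : ℂ) * (Real.sqrt 5 : ℝ) := rfl
  have q11 : (qm x) 1 1 = (x 0 : ℂ) - (x 1 : ℂ) * (Real.sqrt 5 : ℝ) := rfl
  rw [q00, q01, q10, q11, hx 0, hx 1, hx 2, hx 3] at hη
  have hqi : ((x 0).re ^ 2 - (x 0).im ^ 2) - 5 * ((x 1).re ^ 2 - (x 1).im ^ 2)
      - 2 * ((x 2).re ^ 2 - (x 2).im ^ 2) + 10 * ((x 3).re ^ 2 - (x 3).im ^ 2) = 1 := by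
    have h := congrArg Zsqrtd.re hq
    simp only [qn, pow_two, Zsqrtd.re_add, Zsqrtd.re_sub, Zsqrtd.re_mul] at h
    simp at h
    linear_combination h
  obtain ⟨Z, hZ0, hZ⟩ := gm_plane_aux (Real.sqrt 5) (Real.sqrt 3 / 2) hs ht _ _ _ _ _ _ _ _ hqi η hη
  have hN : 0 < N := by
    rw [e2, hp2] at h2
    by_contra hN
    push Not at hN
    have : Real.sqrt 3 / 2 / N ≤ 0 := div_nonpos_of_nonneg_of_nonpos (by positivity) hN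
    linarith
  have hZ1 : (1 : ℝ) ≤ |(Z : ℝ)| := by
    have := Int.one_le_abs hZ0
    exact_mod_cast this
  rw [e1, e2, hp2, hZ, abs_div, abs_of_pos hN, div_div_div_cancel_right₀ hN.ne', abs_mul,
    abs_of_pos (by positivity : 0 < Real.sqrt 5 / 2), le_div_iff₀ (by positivity)]
  have h35 : Real.sqrt 3 ≤ Real.sqrt 5 := Real.sqrt_le_sqrt (by norm_num)
  nlinarith

end Pool.Agent.BL.GPl
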