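import Pool.Agent.BL.Defs

set_option autoImplicit false
open Set Filter Topology MeasureTheory
open scoped ContDiff


namespace Pool.Agent.BL.HgM
open Pool.Agent.BL

open Set Filter Topology MeasureTheory
open scoped ContDiff

/-! ## TARGET (prove this) -/

theorem hg_metric_open : IsOpen U := by
  have h : Continuous (fun x : V3 => x 2) := continuous_apply 2
  exact isOpen_lt continuous_const h

theorem hg_metric_W (u : V3 → ℝ) (hu : ContDiffOn ℝ ∞ u U) (a : ℝ) :
    ContDiffOn ℝ ∞ (fun y => u y - Real.log (y 2) + a) U := by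
  refine (hu.sub ?_).add contDiffOn_const
  refine ContDiffOn.log ?_ ?_
  · exact (contDiff_apply ℝ ℝ (2 : Fin 3)).contDiffOn
  · intro x hx
    exact ne_of_gt hx

theorem hg_metric_dot (D : V3 →L[ℝ] ℝ) (w : V3) :
    dot (fun i : Fin 3 => D (Pi.single i 1)) w = D w := by
  have h : w = w 0 • (Pi.single 0 1 : V3) + w 1 • (Pi.single 1 1 : V3) +
      w 2 • (Pi.single 2 1 : V3) := by
    ext i
    fin_cases i <;> simp
  conv_rhs => rw [h]
  simp only [map_add, map_smul, smul_eq_mul, dot]
  ring

theorem hg_metric_d (W : V3 → ℝ) (z : V3) (h : DifferentiableAt ℝ W z) (x v w : V3) :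
    dmetric (cg W) z x v w = 2 * fderiv ℝ W z x * (Real.exp (2 * W z) * dot v w) := by
  unfold dmetric cg
  have h1 := ((h.hasFDerivAt.const_mul 2).exp).mul_const (dot v w)
  rw [h1.fderiv]
  simp
  ring

theorem hg_metric (u : V3 → ℝ) (hu : ContDiffOn ℝ ∞ u U) (a : ℝ) : IsMetric U (hg u a) := by
  constructor
  · intro z _ v v' w
    simp only [hg, cg, dot, Pi.add_apply]
    ring
  · intro z _ c v w
    simp only [hg, cg, dot, Pi.smul_apply, smul_eq_mul]
    ring
  · intro z _ v w
    simp only [hg, cg, dot]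
    ring
  · intro z _ v hv
    simp only [hg, cg]
    apply mul_pos (Real.exp_pos _)
    by_contra hcon
    push Not at hcon
    apply hv
    simp only [dot] at hcon
    have h0 : v 0 = 0 := by nlinarith [mul_self_nonneg (v 0), mul_self_nonneg (v 1), mul_self_nonneg (v 2)]
    have h1 : v 1 = 0 := by nlinarith [mul_self_nonneg (v 0), mul_self_nonneg (v 1), mul_self_nonneg (v 2)]
    have h2 : v 2 = 0 := by nlinarith [mul_self_nonneg (v 0), mul_self_nonneg (v 1), mul_self_nonneg (v 2)]
    ext i
    fin_cases i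
    · exact h0
    · exact h1
    · exact h2
  · intro v w
    have hW := hg_metric_W u hu a
    show ContDiffOn ℝ ∞ (fun z => Real.exp (2 * (u z - Real.log (z 2) + a)) * dot v w) U
    exact ((contDiffOn_const.mul hW).exp).mul contDiffOn_const


theorem hg_levi (u : V3 → ℝ) (hu : ContDiffOn ℝ ∞ u U) (a : ℝ) :
    IsLeviCivita U (hg u a) (chr (fun y => u y - Real.log (y 2) + a)) := by
  intro z hz x v w
  have hW := (hg_metric_W u hu a).contDiffAt (hg_metric_open.mem_nhds hz)
  have hd : DifferentiableAt ℝ (fun y : V3 => u y - Real.log (y 2) + a) z :=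
    hW.differentiableAt (by simp)
  unfold hg
  rw [hg_metric_d _ z hd, hg_metric_d _ z hd, hg_metric_d _ z hd,
    ← hg_metric_dot (fderiv ℝ (fun y : V3 => u y - Real.log (y 2) + a) z) w]
  simp only [cg, chr, dot, Pi.add_apply, Pi.sub_apply, Pi.smul_apply, smul_eq_mul]
  ring


end Pool.Agent.BL.HgM
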