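import Pool.Agent.BL.Defs

set_option autoImplicit false
open Set Filter Topology MeasureTheory
open scoped ContDiff


namespace Pool.Agent.BL.KCont
open Pool.Agent.BL

open Set Filter Topology MeasureTheory
open scoped ContDiff

/-! ## TARGET (prove this) -/

theorem kappa_cont_formula (χ : ℝ → ℝ) (s c Q : ℝ) : kappa (fun c => s * χ c) c Q =
    -(Real.exp (-2 * (s * χ c))) *
    (1 + 2 * (s * deriv χ c) * c + (s * deriv χ c) ^ 2 * (c ^ 2 - 1)
      + (s * deriv (deriv χ) c - (s * deriv χ c) ^ 2) * Q) := by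
  have e1 : deriv (fun c => s * χ c) = fun c => s * deriv χ c := by
    funext y
    exact deriv_const_mul_field s
  have e2 : deriv (deriv (fun c => s * χ c)) c = s * deriv (deriv χ) c := by
    rw [e1]
    exact deriv_const_mul_field s
  unfold kappa
  rw [e2, e1]

theorem kappa_cont_vanish (χ : ℝ → ℝ) (C₁ : ℝ) (h0 : ∀ c, C₁ ≤ c → χ c = 0) (c : ℝ)
    (hc : C₁ < c) : χ c = 0 ∧ deriv χ c = 0 ∧ deriv (deriv χ) c = 0 := by
  have e : χ =ᶠ[𝓝 c] fun _ => (0 : ℝ) := by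
    filter_upwards [lt_mem_nhds hc] with y hy
    exact h0 y hy.le
  have e1 : deriv χ =ᶠ[𝓝 c] fun _ => (0 : ℝ) := by
    have := e.deriv
    refine this.trans ?_
    exact Filter.Eventually.of_forall fun y => by simp
  refine ⟨h0 c hc.le, e1.eq_of_nhds, ?_⟩
  rw [e1.deriv_eq]
  simp

/-- continuity of the maximal curvature in the family `s * χ` -/
theorem kappa_cont (χ : ℝ → ℝ) (hb : ContDiff ℝ ∞ χ) (C₁ C₂ : ℝ) (h1 : 1 < C₁) (h2 : C₁ < C₂)
    (h0 : ∀ c, C₁ ≤ c → χ c = 0) : ∃ M : ℝ → ℝ, Continuous M ∧ M 0 = -1 ∧ ∀ s,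
      (∃ c Q, 1 ≤ c ∧ c ≤ C₂ ∧ 0 ≤ Q ∧ Q ≤ c ^ 2 - 1 ∧ kappa (fun c => s * χ c) c Q = M s) ∧
      ∀ c' Q', 1 ≤ c' → 0 ≤ Q' → Q' ≤ c' ^ 2 - 1 → kappa (fun c => s * χ c) c' Q' ≤ M s := by
  have hχ : Continuous χ := hb.continuous
  have hd1 : ContDiff ℝ ∞ (deriv χ) := by
    have := (contDiff_infty_iff_deriv.1 hb).2
    exact this
  have hχ1 : Continuous (deriv χ) := hd1.continuous
  have hd2 : ContDiff ℝ ∞ (deriv (deriv χ)) := (contDiff_infty_iff_deriv.1 hd1).2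
  have hχ2 : Continuous (deriv (deriv χ)) := hd2.continuous
  have hf : Continuous (fun q : ℝ × (ℝ × ℝ) => kappa (fun c => q.1 * χ c) q.2.1 q.2.2) := by
    have : (fun q : ℝ × (ℝ × ℝ) => kappa (fun c => q.1 * χ c) q.2.1 q.2.2) =
        fun q : ℝ × (ℝ × ℝ) => -(Real.exp (-2 * (q.1 * χ q.2.1))) *
      (1 + 2 * (q.1 * deriv χ q.2.1) * q.2.1 + (q.1 * deriv χ q.2.1) ^ 2 * (q.2.1 ^ 2 - 1)
      + (q.1 * deriv (deriv χ) q.2.1 - (q.1 * deriv χ q.2.1) ^ 2) * q.2.2) := by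
      funext q
      exact kappa_cont_formula χ q.1 q.2.1 q.2.2
    rw [this]
    have c1 : Continuous (fun q : ℝ × (ℝ × ℝ) => χ q.2.1) :=
      hχ.comp (continuous_fst.comp continuous_snd)
    have c2 : Continuous (fun q : ℝ × (ℝ × ℝ) => deriv χ q.2.1) :=
      hχ1.comp (continuous_fst.comp continuous_snd)
    have c3 : Continuous (fun q : ℝ × (ℝ × ℝ) => deriv (deriv χ) q.2.1) :=
      hχ2.comp (continuous_fst.comp continuous_snd)
    fun_prop
  obtain ⟨K, hKd⟩ : ∃ K : Set (ℝ × ℝ), K =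
    {p : ℝ × ℝ | 1 ≤ p.1 ∧ p.1 ≤ C₂ ∧ 0 ≤ p.2 ∧ p.2 ≤ p.1 ^ 2 - 1} := ⟨_, rfl⟩
  have hKm : ∀ p : ℝ × ℝ, p ∈ K ↔ (1 ≤ p.1 ∧ p.1 ≤ C₂ ∧ 0 ≤ p.2 ∧ p.2 ≤ p.1 ^ 2 - 1) := by
    intro p
    rw [hKd]
    exact Iff.rfl
  have hKc : IsCompact K := by
    have hcl : IsClosed K := by
      rw [hKd]
      refine IsClosed.inter (isClosed_le continuous_const continuous_fst) ?_
      refine IsClosed.inter (isClosed_le continuous_fst continuous_const) ?_
      refine IsClosed.inter (isClosed_le continuous_const continuous_snd) ?_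
      exact isClosed_le continuous_snd (by fun_prop)
    refine IsCompact.of_isClosed_subset (isCompact_Icc.prod isCompact_Icc :
      IsCompact (Icc (1 : ℝ) C₂ ×ˢ Icc (0 : ℝ) (C₂ ^ 2 - 1))) hcl ?_
    intro p hp
    obtain ⟨a, b, c, d⟩ := (hKm p).1 hp
    refine ⟨⟨a, b⟩, ⟨c, ?_⟩⟩
    nlinarith
  have hC2 : 1 ≤ C₂ := by linarith
  have hK0 : (C₂, (0 : ℝ)) ∈ K := by
    rw [hKm]
    refine ⟨hC2, le_refl _, le_refl _, ?_⟩
    show (0 : ℝ) ≤ C₂ ^ 2 - 1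
    nlinarith
  have hKne : K.Nonempty := ⟨_, hK0⟩
  have hv : ∀ s c Q, C₁ < c → kappa (fun c => s * χ c) c Q = -1 := by
    intro s c Q hc
    obtain ⟨a1, a2, a3⟩ := kappa_cont_vanish χ C₁ h0 c hc
    rw [kappa_cont_formula, a1, a2, a3]
    simp
  have hfs : ∀ s : ℝ, Continuous (fun p : ℝ × ℝ => kappa (fun c => s * χ c) p.1 p.2) := by
    intro s
    have : Continuous (fun p : ℝ × ℝ => ((s, p) : ℝ × (ℝ × ℝ))) := by fun_prop
    exact hf.comp this
  refine ⟨fun s => sSup ((fun p : ℝ × ℝ => kappa (fun c => s * χ c) p.1 p.2) '' K), ?_, ?_, ?_⟩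
  · exact hKc.continuous_sSup (f := fun (s : ℝ) (p : ℝ × ℝ) =>
      kappa (fun c => s * χ c) p.1 p.2) hf
  · show sSup ((fun p : ℝ × ℝ => kappa (fun c => 0 * χ c) p.1 p.2) '' K) = -1
    have : (fun p : ℝ × ℝ => kappa (fun c => 0 * χ c) p.1 p.2) '' K = {-1} := by
      ext y
      constructor
      · rintro ⟨p, -, rfl⟩
        show kappa (fun c => 0 * χ c) p.1 p.2 = -1
        rw [kappa_cont_formula]
        simp
      · intro hy
        refine ⟨_, hK0, ?_⟩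
        rw [mem_singleton_iff] at hy
        show kappa (fun c => 0 * χ c) C₂ 0 = y
        rw [kappa_cont_formula, hy]
        simp
    rw [this]
    exact csSup_singleton _
  · intro s
    constructor
    · obtain ⟨p, hp, hpe⟩ := hKc.exists_sSup_image_eq hKne (hfs s).continuousOn
      obtain ⟨a, b, c, d⟩ := (hKm p).1 hp
      exact ⟨p.1, p.2, a, b, c, d, hpe.symm⟩
    · intro c' Q' hc' hQ0 hQ1
      show _ ≤ sSup ((fun p : ℝ × ℝ => kappa (fun c => s * χ c) p.1 p.2) '' K)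
      have hbd : BddAbove ((fun p : ℝ × ℝ => kappa (fun c => s * χ c) p.1 p.2) '' K) :=
        (hKc.image (hfs s)).bddAbove
      rcases le_or_gt c' C₂ with hc2 | hc2
      · exact le_csSup hbd ⟨(c', Q'), (hKm _).2 ⟨hc', hc2, hQ0, hQ1⟩, rfl⟩
      · refine le_csSup hbd ⟨_, hK0, ?_⟩
        show kappa (fun c => s * χ c) C₂ 0 = kappa (fun c => s * χ c) c' Q'
        rw [hv s C₂ 0 h2, hv s c' Q' (h2.trans hc2)]

end Pool.Agent.BL.KCont
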