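import Pool.Agent.BL.Defs
import Pool.Agent.BL.ActAlg
import Pool.Agent.BL.ActSm
import Pool.Agent.BL.ActCh
import Pool.Agent.BL.QAlg
import Pool.Agent.BL.GFree
import Pool.Agent.BL.GFin
import Pool.Agent.BL.GCoc
import Pool.Agent.BL.GPl

set_option autoImplicit false
open Set Filter Topology MeasureTheory
open scoped ContDiff


namespace Pool.Agent.BL.Latt
open Pool.Agent.BL
open Pool.Agent.BL.ActAlg (act_mem act_one act_mul)
open Pool.Agent.BL.ActSm (act_smooth)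
open Pool.Agent.BL.ActCh (act_ch)
open Pool.Agent.BL.QAlg (gm_det gm_one gm_mul gm_inv)
open Pool.Agent.BL.GFree (gm_free)
open Pool.Agent.BL.GFin (gm_finite)
open Pool.Agent.BL.GCoc (gm_cocompact)
open Pool.Agent.BL.GPl (gm_plane)

open Set Filter Topology MeasureTheory
open scoped ContDiff















/-! ## TARGET (prove this) -/

theorem ch_eq (p x : V3) (hp : 0 < p 2) (hx : 0 < x 2) :
    ch p x = ((x 0 - p 0) ^ 2 + (x 1 - p 1) ^ 2 + p 2 ^ 2 + x 2 ^ 2) / (2 * p 2 * x 2) := by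
  unfold ch
  field_simp
  ring

theorem ch_symm (p x : V3) : ch p x = ch x p := by
  unfold ch
  have h1 : (x 0 - p 0) ^ 2 + (x 1 - p 1) ^ 2 + (x 2 - p 2) ^ 2 =
      (p 0 - x 0) ^ 2 + (p 1 - x 1) ^ 2 + (p 2 - x 2) ^ 2 := by ring
  have h2 : 2 * p 2 * x 2 = 2 * x 2 * p 2 := by ring
  rw [h1, h2]

theorem ch_pos (p x : V3) (hp : 0 < p 2) (hx : 0 < x 2) : 0 ≤ ch p x := by
  rw [ch_eq p x hp hx]
  positivity

/-- `cosh (a + b) ≤ 2 cosh a cosh b` -/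
theorem ch_tri (p y w : V3) (hp : 0 < p 2) (hy : 0 < y 2) (hw : 0 < w 2) :
    ch p w ≤ 2 * ch p y * ch y w := by
  rw [ch_eq p w hp hw, ch_eq p y hp hy, ch_eq y w hy hw]
  have h1 : 2 * (((y 0 - p 0) ^ 2 + (y 1 - p 1) ^ 2 + p 2 ^ 2 + y 2 ^ 2) / (2 * p 2 * y 2)) *
      (((w 0 - y 0) ^ 2 + (w 1 - y 1) ^ 2 + y 2 ^ 2 + w 2 ^ 2) / (2 * y 2 * w 2)) =
      ((((y 0 - p 0) ^ 2 + (y 1 - p 1) ^ 2 + p 2 ^ 2 + y 2 ^ 2) *
        ((w 0 - y 0) ^ 2 + (w 1 - y 1) ^ 2 + y 2 ^ 2 + w 2 ^ 2)) / (y 2 ^ 2)) /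
        (2 * p 2 * w 2) := by
    field_simp
  rw [h1]
  apply div_le_div_of_nonneg_right _ (by positivity)
  rw [le_div_iff₀ (by positivity)]
  have h2 : 0 ≤ ((y 0 - p 0) * (w 0 - y 0) + (y 1 - p 1) * (w 1 - y 1) - y 2 ^ 2) ^ 2 +
      ((y 0 - p 0) * (w 1 - y 1) - (y 1 - p 1) * (w 0 - y 0)) ^ 2 +
      ((y 0 - p 0) ^ 2 + (y 1 - p 1) ^ 2) * w 2 ^ 2 +
      p 2 ^ 2 * ((w 0 - y 0) ^ 2 + (w 1 - y 1) ^ 2) + p 2 ^ 2 * w 2 ^ 2 := by positivity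
  linarith

theorem ch_compact (R : ℝ) : IsCompact {x : U | ch o3 x ≤ R} := by
  rw [Subtype.isCompact_iff]
  have hset : (Subtype.val '' {x : U | ch o3 x ≤ R} : Set V3) =
      {z : V3 | z 0 ^ 2 + z 1 ^ 2 + (z 2 - 1) ^ 2 ≤ 2 * (R - 1) * z 2 ∧ 0 ≤ z 2} := by
    have key : ∀ z : V3, 0 < z 2 → (ch o3 z ≤ R ↔
        z 0 ^ 2 + z 1 ^ 2 + (z 2 - 1) ^ 2 ≤ 2 * (R - 1) * z 2) := by
      intro z hz
      have h1 : ch o3 z = 1 + (z 0 ^ 2 + z 1 ^ 2 + (z 2 - 1) ^ 2) / (2 * z 2) := by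
        unfold ch o3
        simp
      rw [h1]
      have h2 : 1 + (z 0 ^ 2 + z 1 ^ 2 + (z 2 - 1) ^ 2) / (2 * z 2) ≤ R ↔
          (z 0 ^ 2 + z 1 ^ 2 + (z 2 - 1) ^ 2) / (2 * z 2) ≤ R - 1 := by
        constructor <;> intro h <;> linarith
      rw [h2, div_le_iff₀ (by positivity)]
      constructor <;> intro h <;> linarith
    ext z
    constructor
    · rintro ⟨x, hx, rfl⟩
      exact ⟨(key x x.2).1 hx, le_of_lt x.2⟩
    · rintro ⟨h1, h2⟩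
      have h3 : 0 < z 2 := by
        rcases h2.lt_or_eq with h | h
        · exact h
        · exfalso
          rw [← h] at h1
          nlinarith [sq_nonneg (z 0), sq_nonneg (z 1)]
      exact ⟨⟨z, h3⟩, (key z h3).2 h1, rfl⟩
  rw [hset]
  have hcl : IsClosed {z : V3 | z 0 ^ 2 + z 1 ^ 2 + (z 2 - 1) ^ 2 ≤ 2 * (R - 1) * z 2 ∧
      0 ≤ z 2} := by
    have e1 : IsClosed {z : V3 | z 0 ^ 2 + z 1 ^ 2 + (z 2 - 1) ^ 2 ≤ 2 * (R - 1) * z 2} :=
      isClosed_le (by fun_prop) (by fun_prop)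
    have e2 : IsClosed {z : V3 | 0 ≤ z 2} := isClosed_le continuous_const (by fun_prop)
    exact e1.inter e2
  apply (isCompact_closedBall (0 : V3) (2 * (|R| + 1))).of_isClosed_subset hcl
  rintro z ⟨h1, h2⟩
  rw [mem_closedBall_zero_iff, pi_norm_le_iff_of_nonneg (by positivity)]
  have hR := le_abs_self R
  have hR0 := abs_nonneg R
  have h3 : z 2 ≤ 2 * |R| := by
    by_contra h
    push Not at h
    nlinarith [sq_nonneg (z 0), sq_nonneg (z 1)]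
  have h4 : z 0 ^ 2 + z 1 ^ 2 ≤ (2 * (|R| + 1)) ^ 2 := by
    have h5 : 2 * (R - 1) * z 2 ≤ 2 * (|R| + 1) * z 2 :=
      mul_le_mul_of_nonneg_right (by linarith) h2
    have h6 : 2 * (|R| + 1) * z 2 ≤ 2 * (|R| + 1) * (2 * (|R| + 1)) :=
      mul_le_mul_of_nonneg_left (by linarith) (by positivity)
    nlinarith [sq_nonneg (z 2 - 1)]
  intro i
  rw [Real.norm_eq_abs]
  fin_cases i
  · apply abs_le_of_sq_le_sq _ (by positivity)
    change z 0 ^ 2 ≤ _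
    nlinarith [sq_nonneg (z 1)]
  · apply abs_le_of_sq_le_sq _ (by positivity)
    change z 1 ^ 2 ≤ _
    nlinarith [sq_nonneg (z 0)]
  · change |z 2| ≤ _
    rw [abs_of_nonneg h2]
    linarith

theorem ch_cont : Continuous (fun x : U => ch o3 x) := by
  have h1 : ∀ x : U, ch o3 x = 1 + (((x : V3) 0 - o3 0) ^ 2 + ((x : V3) 1 - o3 1) ^ 2 +
      ((x : V3) 2 - o3 2) ^ 2) * (2 * o3 2 * (x : V3) 2)⁻¹ := by
    intro x
    unfold ch
    rw [div_eq_mul_inv]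
  simp only [h1]
  have hc : ∀ i, Continuous (fun x : U => (x : V3) i) := fun i =>
    (continuous_apply i).comp continuous_subtype_val
  apply continuous_const.add
  apply Continuous.mul
  · exact ((((hc 0).sub continuous_const).pow 2).add (((hc 1).sub continuous_const).pow 2)).add
      (((hc 2).sub continuous_const).pow 2)
  · apply Continuous.inv₀
    · exact continuous_const.mul (hc 2)
    · intro x
      have h2 : (0 : ℝ) < (x : V3) 2 := x.2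
      have h3 : o3 2 = 1 := by simp [o3]
      rw [h3]
      positivity

/-- the group -/
def latG : Subgroup (Equiv.Perm U) where
  carrier := {γ | ∃ A ∈ Gm, ∀ x : U, (γ x : V3) = act A x}
  mul_mem' := by
    rintro γ γ' ⟨A, hA, hγ⟩ ⟨B, hB, hγ'⟩
    refine ⟨A * B, gm_mul A B hA hB, fun x => ?_⟩
    rw [Equiv.Perm.mul_apply, hγ, hγ', act_mul A B (gm_det A hA) (gm_det B hB) x x.2]
  one_mem' := ⟨1, gm_one, fun x => by rw [act_one x x.2]; rfl⟩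
  inv_mem' := by
    rintro γ ⟨A, hA, hγ⟩
    obtain ⟨B, hB, hAB, hBA⟩ := gm_inv A hA
    refine ⟨B, hB, fun x => ?_⟩
    obtain ⟨y, rfl⟩ := γ.surjective x
    have h3 : γ⁻¹ (γ y) = y := γ.symm_apply_apply y
    rw [h3, hγ, ← act_mul B A (gm_det B hB) (gm_det A hA) y y.2, hBA,
      act_one y y.2]

theorem latG_of (A : Matrix (Fin 2) (Fin 2) ℂ) (hA : A ∈ Gm) :
    ∃ γ ∈ latG, ∀ x : U, (γ x : V3) = act A x := by
  obtain ⟨B, hB, hAB, hBA⟩ := gm_inv A hA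
  have hdA := gm_det A hA
  have hdB := gm_det B hB
  obtain ⟨γ, hγ⟩ : ∃ γ : Equiv.Perm U, ∀ x : U, (γ x : V3) = act A x :=
    ⟨{ toFun := fun x => ⟨act A x, act_mem A hdA x x.2⟩
       invFun := fun x => ⟨act B x, act_mem B hdB x x.2⟩
       left_inv := fun x => Subtype.ext (by
        change act B (act A x) = x
        rw [← act_mul B A hdB hdA x x.2, hBA, act_one x x.2])
       right_inv := fun x => Subtype.ext (by
        change act A (act B x) = x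
        rw [← act_mul A B hdA hdB x x.2, hAB, act_one x x.2]) }, fun _ => rfl⟩
  exact ⟨γ, ⟨A, hA, hγ⟩, hγ⟩

theorem lattice : ∃ G : Subgroup (Equiv.Perm U),
    (∀ γ ∈ G, ∃ A : Matrix (Fin 2) (Fin 2) ℂ, A.det = 1 ∧ ∀ x : U, (γ x : V3) = act A x) ∧
    (∀ γ ∈ G, (∃ x, γ x = x) → γ = 1) ∧
    (∀ K : Set U, IsCompact K → {γ | γ ∈ G ∧ (γ '' K ∩ K).Nonempty}.Finite) ∧
    (∃ K : Set U, IsCompact K ∧ ∀ x, ∃ γ ∈ G, γ x ∈ K) ∧
    ∃ p : U, ∃ c : ℝ, 0 < c ∧ ∀ γ ∈ G, c ≤ |(γ p : V3) 1| / (γ p : V3) 2 := by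
  refine ⟨latG, ?_, ?_, ?_, ?_, ?_⟩
  · rintro γ ⟨A, hA, hγ⟩
    exact ⟨A, gm_det A hA, hγ⟩
  · rintro γ ⟨A, hA, hγ⟩ ⟨x, hx⟩
    have h1 : act A x = x := by rw [← hγ x, hx]
    have h2 := gm_free A hA x x.2 h1
    ext1 y
    apply Subtype.ext
    rw [hγ, h2, act_one y y.2]
    rfl
  · intro K hK
    obtain ⟨C, hC⟩ : ∃ C : ℝ, ∀ x ∈ K, ch o3 x ≤ C := by
      obtain ⟨C, hC⟩ := hK.bddAbove_image ch_cont.continuousOn
      exact ⟨C, fun x hx => hC (Set.mem_image_of_mem _ hx)⟩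
    have ho3 : (0 : ℝ) < o3 2 := by simp [o3]
    choose! g hg1 hg2 using fun (γ : Equiv.Perm U) (h : γ ∈ latG) =>
      (show ∃ A ∈ Gm, ∀ x : U, (γ x : V3) = act A x from h)
    apply Set.Finite.of_injOn (f := g) (t := {A | A ∈ Gm ∧ ch o3 (act A o3) ≤ 2 * C * C})
      _ _ (gm_finite _)
    · rintro γ ⟨hγ, y, ⟨x, hx, hxy⟩, hy⟩
      refine ⟨hg1 γ hγ, ?_⟩
      have hdet := gm_det _ (hg1 γ hγ)
      have hw : act (g γ) o3 ∈ U := act_mem _ hdet o3 ho3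
      have h1 := ch_tri o3 y (act (g γ) o3) ho3 y.2 hw
      have h2 : ch y (act (g γ) o3) = ch o3 x := by
        rw [← hxy, hg2 γ hγ x, act_ch _ hdet x o3 x.2 ho3, ch_symm]
      rw [h2] at h1
      have h3 := hC x hx
      have h4 := hC y hy
      have h5 := ch_pos o3 x ho3 x.2
      have h6 := ch_pos o3 y ho3 y.2
      have h7 : ch o3 y * ch o3 x ≤ C * C := mul_le_mul h4 h3 h5 (h6.trans h4)
      linarith
    · rintro γ ⟨hγ, _⟩ γ' ⟨hγ', _⟩ h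
      ext1 x
      apply Subtype.ext
      rw [hg2 γ hγ, hg2 γ' hγ', h]
  · obtain ⟨R, hR⟩ := gm_cocompact
    refine ⟨{x : U | ch o3 x ≤ R}, ch_compact R, ?_⟩
    intro x
    obtain ⟨A, hA, h⟩ := hR x x.2
    obtain ⟨γ, hγ, h1⟩ := latG_of A hA
    refine ⟨γ, hγ, ?_⟩
    change ch o3 (γ x : V3) ≤ R
    rw [h1]
    exact h
  · obtain ⟨p, hp, c, hc, h⟩ := gm_plane
    refine ⟨⟨p, hp⟩, c, hc, ?_⟩
    rintro γ ⟨A, hA, hγ⟩
    rw [hγ]
    exact h A hA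

end Pool.Agent.BL.Latt
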