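import Pool.Agent.BL.Defs
import Pool.Agent.BL.ChPos

set_option autoImplicit false
open Set Filter Topology MeasureTheory
open scoped ContDiff


namespace Pool.Agent.BL.QfB
open Pool.Agent.BL
open Pool.Agent.BL.ChPos (ch_pos)

open Set Filter Topology MeasureTheory
open scoped ContDiff



/-! ## TARGET (prove this) -/

theorem qf_bounds_diff (p z : V3) (hp : p ∈ U) (hz : z ∈ U) : DifferentiableAt ℝ (ch p) z := by
  have hp2 : (0 : ℝ) < p 2 := hp
  have hz2 : (0 : ℝ) < z 2 := hz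
  have h : ContDiffAt ℝ 1 (ch p) z := by
    unfold ch
    apply ContDiffAt.add contDiffAt_const
    apply ContDiffAt.div
    · fun_prop
    · fun_prop
    · positivity
  exact h.differentiableAt (by norm_num)

/-- the gradient -/
theorem qf_bounds_fderiv (p z : V3) (hp : p ∈ U) (hz : z ∈ U) (v : V3) :
    fderiv ℝ (ch p) z v = ((z 0 - p 0) / (p 2 * z 2)) * v 0 + ((z 1 - p 1) / (p 2 * z 2)) * v 1 +
      ((z 2 - p 2) / (p 2 * z 2) -
        ((z 0 - p 0) ^ 2 + (z 1 - p 1) ^ 2 + (z 2 - p 2) ^ 2) / (2 * p 2 * z 2 ^ 2)) * v 2 := by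
  have hp2 : (0 : ℝ) < p 2 := hp
  have hz2 : (0 : ℝ) < z 2 := hz
  have hline : HasDerivAt (fun t : ℝ => z + t • v) v 0 := by
    simpa using ((hasDerivAt_id (0 : ℝ)).smul_const v).const_add z
  have h1 : HasDerivAt (fun t : ℝ => ch p (z + t • v)) (fderiv ℝ (ch p) z v) 0 := by
    have h2 : HasFDerivAt (ch p) (fderiv ℝ (ch p) z) (z + (0 : ℝ) • v) := by
      simpa using (qf_bounds_diff p z hp hz).hasFDerivAt
    exact h2.comp_hasDerivAt 0 hline
  have hc : ∀ i : Fin 3, HasDerivAt (fun t : ℝ => z i + t * v i) (v i) 0 := by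
    intro i
    simpa using ((hasDerivAt_id (0 : ℝ)).mul_const (v i)).const_add (z i)
  have hsq : ∀ i : Fin 3, HasDerivAt (fun t : ℝ => (z i + t * v i - p i) ^ 2)
      (2 * (z i - p i) * v i) 0 := by
    intro i
    have := ((hc i).sub_const (p i)).fun_pow 2
    simpa using this
  have hnum := ((hsq 0).add (hsq 1)).add (hsq 2)
  have hden : HasDerivAt (fun t : ℝ => 2 * p 2 * (z 2 + t * v 2)) (2 * p 2 * v 2) 0 :=
    (hc 2).const_mul (2 * p 2)
  have hne : 2 * p 2 * (z 2 + (0 : ℝ) * v 2) ≠ 0 := by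
    rw [zero_mul, add_zero]
    positivity
  have hdiv := (hnum.div hden hne).const_add 1
  have heq := h1.unique hdiv
  rw [heq]
  simp only [Pi.add_apply, zero_mul, add_zero]
  field_simp
  ring

theorem qf_bounds_gram (x y : V3) (hxy : LinearIndependent ℝ ![x, y]) :
    0 < dot x x * dot y y - dot x y ^ 2 := by
  rw [LinearIndependent.pair_iff] at hxy
  have hid : dot x x * dot y y - dot x y ^ 2 = (x 0 * y 1 - x 1 * y 0) ^ 2 +
      (x 0 * y 2 - x 2 * y 0) ^ 2 + (x 1 * y 2 - x 2 * y 1) ^ 2 := by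
    unfold dot
    ring
  by_contra hcon
  push Not at hcon
  rw [hid] at hcon
  have s1 := sq_nonneg (x 0 * y 1 - x 1 * y 0)
  have s2 := sq_nonneg (x 0 * y 2 - x 2 * y 0)
  have s3 := sq_nonneg (x 1 * y 2 - x 2 * y 1)
  have m1 : x 0 * y 1 - x 1 * y 0 = 0 := by
    rw [← sq_eq_zero_iff]
    linarith
  have m2 : x 0 * y 2 - x 2 * y 0 = 0 := by
    rw [← sq_eq_zero_iff]
    linarith
  have m3 : x 1 * y 2 - x 2 * y 1 = 0 := by
    rw [← sq_eq_zero_iff]
    linarith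
  have e0 : x 0 = 0 := by
    have h := (hxy (y 0) (-(x 0)) (by
      funext i
      fin_cases i
      · simp
        ring
      · simp
        linarith
      · simp
        linarith)).2
    linarith
  have e1 : x 1 = 0 := by
    have h := (hxy (y 1) (-(x 1)) (by
      funext i
      fin_cases i
      · simp
        linarith
      · simp
        ring
      · simp
        linarith)).2
    linarith
  have e2 : x 2 = 0 := by
    have h := (hxy (y 2) (-(x 2)) (by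
      funext i
      fin_cases i
      · simp
        linarith
      · simp
        linarith
      · simp
        ring)).2
    linarith
  have h := (hxy 1 0 (by
    funext i
    fin_cases i
    · simpa using e0
    · simpa using e1
    · simpa using e2)).1
  exact one_ne_zero h

theorem qf_bounds (p z x y : V3) (hp : p ∈ U) (hz : z ∈ U)
    (hxy : LinearIndependent ℝ ![x, y]) : 0 ≤ Qf p z x y ∧ Qf p z x y ≤ (ch p z) ^ 2 - 1 := by
  have hp2 : (0 : ℝ) < p 2 := hp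
  have hz2 : (0 : ℝ) < z 2 := hz
  have hG := qf_bounds_gram x y hxy
  have hch : (ch p z) ^ 2 - 1 = (z 2) ^ 2 * (((z 0 - p 0) / (p 2 * z 2)) ^ 2 +
      ((z 1 - p 1) / (p 2 * z 2)) ^ 2 + ((z 2 - p 2) / (p 2 * z 2) -
        ((z 0 - p 0) ^ 2 + (z 1 - p 1) ^ 2 + (z 2 - p 2) ^ 2) / (2 * p 2 * z 2 ^ 2)) ^ 2) := by
    unfold ch
    field_simp
    ring
  unfold Qf
  rw [hch, qf_bounds_fderiv p z hp hz x, qf_bounds_fderiv p z hp hz y]
  generalize (z 0 - p 0) / (p 2 * z 2) = g0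
  generalize (z 1 - p 1) / (p 2 * z 2) = g1
  generalize (z 2 - p 2) / (p 2 * z 2) -
        ((z 0 - p 0) ^ 2 + (z 1 - p 1) ^ 2 + (z 2 - p 2) ^ 2) / (2 * p 2 * z 2 ^ 2) = g2
  have hA : 0 ≤ (g0 * x 0 + g1 * x 1 + g2 * x 2) ^ 2 * dot y y +
      (g0 * y 0 + g1 * y 1 + g2 * y 2) ^ 2 * dot x x -
      2 * (g0 * x 0 + g1 * x 1 + g2 * x 2) * (g0 * y 0 + g1 * y 1 + g2 * y 2) * dot x y := by
    have h1 : (g0 * x 0 + g1 * x 1 + g2 * x 2) ^ 2 * dot y y +
      (g0 * y 0 + g1 * y 1 + g2 * y 2) ^ 2 * dot x x -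
      2 * (g0 * x 0 + g1 * x 1 + g2 * x 2) * (g0 * y 0 + g1 * y 1 + g2 * y 2) * dot x y =
      ((g0 * x 0 + g1 * x 1 + g2 * x 2) * y 0 - (g0 * y 0 + g1 * y 1 + g2 * y 2) * x 0) ^ 2 +
      ((g0 * x 0 + g1 * x 1 + g2 * x 2) * y 1 - (g0 * y 0 + g1 * y 1 + g2 * y 2) * x 1) ^ 2 +
      ((g0 * x 0 + g1 * x 1 + g2 * x 2) * y 2 - (g0 * y 0 + g1 * y 1 + g2 * y 2) * x 2) ^ 2 := by
      unfold dot
      ring
    rw [h1]
    positivity
  have hB : (g0 * x 0 + g1 * x 1 + g2 * x 2) ^ 2 * dot y y +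
      (g0 * y 0 + g1 * y 1 + g2 * y 2) ^ 2 * dot x x -
      2 * (g0 * x 0 + g1 * x 1 + g2 * x 2) * (g0 * y 0 + g1 * y 1 + g2 * y 2) * dot x y ≤
      (g0 ^ 2 + g1 ^ 2 + g2 ^ 2) * (dot x x * dot y y - dot x y ^ 2) := by
    have h1 : (g0 ^ 2 + g1 ^ 2 + g2 ^ 2) * (dot x x * dot y y - dot x y ^ 2) -
      ((g0 * x 0 + g1 * x 1 + g2 * x 2) ^ 2 * dot y y +
      (g0 * y 0 + g1 * y 1 + g2 * y 2) ^ 2 * dot x x -
      2 * (g0 * x 0 + g1 * x 1 + g2 * x 2) * (g0 * y 0 + g1 * y 1 + g2 * y 2) * dot x y) =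
      (g0 * (x 1 * y 2 - x 2 * y 1) - g1 * (x 0 * y 2 - x 2 * y 0) +
        g2 * (x 0 * y 1 - x 1 * y 0)) ^ 2 := by
      unfold dot
      ring
    have h2 := sq_nonneg (g0 * (x 1 * y 2 - x 2 * y 1) - g1 * (x 0 * y 2 - x 2 * y 0) +
        g2 * (x 0 * y 1 - x 1 * y 0))
    linarith
  constructor
  · exact div_nonneg (mul_nonneg (by positivity) hA) hG.le
  · rw [div_le_iff₀ hG]
    refine (mul_le_mul_of_nonneg_left hB (sq_nonneg (z 2))).trans (le_of_eq ?_)
    ring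

end Pool.Agent.BL.QfB
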