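import Pool.Agent.BL.Defs
import Pool.Agent.BL.ChPos

set_option autoImplicit false
open Set Filter Topology MeasureTheory
open scoped ContDiff


namespace Pool.Agent.BL.QfS
open Pool.Agent.BL
open Pool.Agent.BL.ChPos (ch_pos)

open Set Filter Topology MeasureTheory
open scoped ContDiff



/-! ## TARGET (prove this) -/

theorem qf_surj_fd (p : V3) (hp : 0 < p 2) (l : ℝ) (hl : 0 < l) (v : V3) :
    fderiv ℝ (ch p) ![p 0, p 1, p 2 * l] v = v 2 * ((l ^ 2 - 1) / (2 * p 2 * l ^ 2)) := by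
  set z : V3 := ![p 0, p 1, p 2 * l] with hz
  have z0 : z 0 = p 0 := rfl
  have z1 : z 1 = p 1 := rfl
  have z2 : z 2 = p 2 * l := rfl
  have hden : 2 * p 2 * z 2 ≠ 0 := by rw [z2]; positivity
  have hd : DifferentiableAt ℝ (ch p) z := by
    unfold ch
    apply DifferentiableAt.const_add
    have hinv : DifferentiableAt ℝ (fun y : V3 => (2 * p 2 * y 2)⁻¹) z := by
      have h0 : DifferentiableAt ℝ (fun y : V3 => 2 * p 2 * y 2) z := by fun_prop
      exact (differentiableAt_inv hden).comp z h0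
    have hnum : DifferentiableAt ℝ
        (fun y : V3 => (y 0 - p 0) ^ 2 + (y 1 - p 1) ^ 2 + (y 2 - p 2) ^ 2) z := by fun_prop
    simp only [div_eq_mul_inv]
    exact hnum.mul hinv
  have h1 : HasDerivAt (fun t : ℝ => z + t • v) v 0 := by
    simpa using ((hasDerivAt_id (0 : ℝ)).smul_const v).const_add z
  have h2 : HasDerivAt (fun t : ℝ => ch p (z + t • v)) (fderiv ℝ (ch p) z v) 0 := by
    have h3 : HasFDerivAt (ch p) (fderiv ℝ (ch p) z) (z + (0 : ℝ) • v) := by
      simpa using hd.hasFDerivAt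
    exact h3.comp_hasDerivAt (0 : ℝ) h1
  have h4 : HasDerivAt (fun t : ℝ => ch p (z + t • v))
      (v 2 * ((l ^ 2 - 1) / (2 * p 2 * l ^ 2))) 0 := by
    have e : (fun t : ℝ => ch p (z + t • v)) = fun t : ℝ =>
        1 + ((t * v 0) ^ 2 + (t * v 1) ^ 2 + (p 2 * l - p 2 + t * v 2) ^ 2) /
          (2 * p 2 * (p 2 * l + t * v 2)) := by
      funext t
      unfold ch
      simp only [Pi.add_apply, Pi.smul_apply, smul_eq_mul, z0, z1, z2]
      congr 2
      ring
    rw [e]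
    have a0 : HasDerivAt (fun t : ℝ => t * v 0) (v 0) 0 := by
      simpa using (hasDerivAt_id (0 : ℝ)).mul_const (v 0)
    have a1 : HasDerivAt (fun t : ℝ => t * v 1) (v 1) 0 := by
      simpa using (hasDerivAt_id (0 : ℝ)).mul_const (v 1)
    have a2 : HasDerivAt (fun t : ℝ => t * v 2) (v 2) 0 := by
      simpa using (hasDerivAt_id (0 : ℝ)).mul_const (v 2)
    have num := ((a0.pow 2).add (a1.pow 2)).add ((a2.const_add (p 2 * l - p 2)).pow 2)
    have den := (a2.const_add (p 2 * l)).const_mul (2 * p 2)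
    have hq := (num.div den (by simp only [zero_mul, add_zero]; positivity)).const_add 1
    refine HasDerivAt.congr_deriv hq ?_
    simp
    field_simp
    ring
  exact h2.unique h4

theorem qf_surj (p : V3) (hp : p ∈ U) (c Q : ℝ) (hc : 1 ≤ c) (hQ : 0 ≤ Q) (hQ' : Q ≤ c ^ 2 - 1) :
    ∃ z ∈ U, ∃ x y, LinearIndependent ℝ ![x, y] ∧ ch p z = c ∧ Qf p z x y = Q := by
  have hp2 : 0 < p 2 := hp
  have hc0 : 0 ≤ c ^ 2 - 1 := by nlinarith
  obtain ⟨s, hs⟩ : ∃ s, s = √(c ^ 2 - 1) := ⟨_, rfl⟩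
  have hs0 : 0 ≤ s := by rw [hs]; positivity
  have hs2 : s ^ 2 = c ^ 2 - 1 := by rw [hs, Real.sq_sqrt hc0]
  obtain ⟨l, hl⟩ : ∃ l, l = c + s := ⟨_, rfl⟩
  have hl0 : 0 < l := by rw [hl]; linarith
  obtain ⟨a, ha⟩ : ∃ a, a = Q / (c ^ 2 - 1) := ⟨_, rfl⟩
  have ha0 : 0 ≤ a := by rw [ha]; exact div_nonneg hQ hc0
  have ha1 : a ≤ 1 := by rw [ha]; exact div_le_one_of_le₀ hQ' hc0
  have haQ : a * (c ^ 2 - 1) = Q := by
    rcases eq_or_ne (c ^ 2 - 1) 0 with h | h
    · rw [h, mul_zero]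
      linarith
    · rw [ha, div_mul_cancel₀ _ h]
  refine ⟨![p 0, p 1, p 2 * l], ?_, ![1, 0, 0], ![0, √(1 - a), √a], ?_, ?_, ?_⟩
  · show 0 < p 2 * l
    positivity
  · rw [LinearIndependent.pair_iff]
    intro u w huw
    have e0 := congrFun huw 0
    have e1 := congrFun huw 1
    have e2 := congrFun huw 2
    simp at e0 e1 e2
    refine ⟨e0, ?_⟩
    by_contra hw
    have f1 : √(1 - a) = 0 := e1.resolve_left hw
    have f2 : √a = 0 := e2.resolve_left hw
    have g1 : 1 - a = 0 := by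
      have := Real.sq_sqrt (show (0 : ℝ) ≤ 1 - a by linarith)
      rw [f1] at this
      linarith
    have g2 : a = 0 := by
      have := Real.sq_sqrt ha0
      rw [f2] at this
      linarith
    linarith
  · unfold ch
    simp only [Matrix.cons_val_zero, Matrix.cons_val_one, Matrix.cons_val]
    have hlc : l ^ 2 + 1 = 2 * c * l := by
      rw [hl]
      nlinarith
    field_simp
    nlinarith
  · unfold Qf
    rw [qf_surj_fd p hp2 l hl0, qf_surj_fd p hp2 l hl0]
    have d1 : dot ![(1 : ℝ), 0, 0] ![1, 0, 0] = 1 := by simp [dot]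
    have d2 : dot ![(0 : ℝ), √(1 - a), √a] ![0, √(1 - a), √a] = 1 := by
      simp [dot, Real.mul_self_sqrt ha0, Real.mul_self_sqrt (show (0 : ℝ) ≤ 1 - a by linarith)]
    have d3 : dot ![(1 : ℝ), 0, 0] ![0, √(1 - a), √a] = 0 := by simp [dot]
    rw [d1, d2, d3]
    simp only [Matrix.cons_val_zero, Matrix.cons_val_one, Matrix.cons_val]
    have hls : l ^ 2 - 1 = 2 * l * s := by
      rw [hl]
      nlinarith
    rw [hls]
    have : (p 2 * l) ^ 2 * ((0 * (2 * l * s / (2 * p 2 * l ^ 2))) ^ 2 * 1 +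
        (√a * (2 * l * s / (2 * p 2 * l ^ 2))) ^ 2 * 1 -
        2 * (0 * (2 * l * s / (2 * p 2 * l ^ 2))) * (√a * (2 * l * s / (2 * p 2 * l ^ 2))) * 0) /
        (1 * 1 - 0 ^ 2) = √a ^ 2 * s ^ 2 := by
      field_simp
      ring
    rw [this, Real.sq_sqrt ha0, hs2, haQ]


end Pool.Agent.BL.QfS
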