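import Pool.Agent.BL.Defs
import Pool.Agent.BL.ChPos

set_option autoImplicit false
open Set Filter Topology MeasureTheory
open scoped ContDiff


namespace Pool.Agent.BL.SchB
open Pool.Agent.BL
open Pool.Agent.BL.ChPos (ch_pos)

open Set Filter Topology MeasureTheory
open scoped ContDiff



/-- derivative of `ch p` (explicit) -/
noncomputable def sbdC (p z v : V3) : ℝ :=
  ((z 0 - p 0) * v 0 + (z 1 - p 1) * v 1 + (z 2 - p 2) * v 2) / (p 2 * z 2)
    - ((z 0 - p 0) ^ 2 + (z 1 - p 1) ^ 2 + (z 2 - p 2) ^ 2) * v 2 / (2 * p 2 * (z 2) ^ 2)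

/-- second derivative of `ch p` (explicit) -/
noncomputable def sbddC (p z x y : V3) : ℝ :=
  (x 0 * y 0 + x 1 * y 1 + x 2 * y 2) / (p 2 * z 2)
    - ((z 0 - p 0) * y 0 + (z 1 - p 1) * y 1 + (z 2 - p 2) * y 2) * x 2 / (p 2 * (z 2) ^ 2)
    - ((z 0 - p 0) * x 0 + (z 1 - p 1) * x 1 + (z 2 - p 2) * x 2) * y 2 / (p 2 * (z 2) ^ 2)
    + ((z 0 - p 0) ^ 2 + (z 1 - p 1) ^ 2 + (z 2 - p 2) ^ 2) * x 2 * y 2 / (p 2 * (z 2) ^ 3)

theorem sb_line_apply (z v : V3) (i : Fin 3) :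
    HasDerivAt (fun t : ℝ => (z + t • v) i) (v i) 0 := by
  have h := ((hasDerivAt_id (0 : ℝ)).mul_const (v i)).const_add (z i)
  rw [one_mul] at h
  exact h

theorem sb_fd_of_line {f : V3 → ℝ} {z v : V3} {d : ℝ} (hf : DifferentiableAt ℝ f z)
    (h : HasDerivAt (fun t : ℝ => f (z + t • v)) d 0) : fderiv ℝ f z v = d := by
  have h1 : HasDerivAt (fun t : ℝ => f (z + t • v)) (fderiv ℝ f z v) 0 :=
    hf.hasFDerivAt.hasLineDerivAt v
  exact h1.unique h

theorem sb_line_of_fd {f : V3 → ℝ} {z v : V3} (hf : DifferentiableAt ℝ f z) :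
    HasDerivAt (fun t : ℝ => f (z + t • v)) (fderiv ℝ f z v) 0 :=
  hf.hasFDerivAt.hasLineDerivAt v

theorem sb_diff_ch {p z : V3} (hp : p 2 ≠ 0) (hz : z 2 ≠ 0) : DifferentiableAt ℝ (ch p) z := by
  have h : 2 * p 2 * z 2 ≠ 0 := by positivity
  unfold ch
  fun_prop (disch := assumption)

theorem sb_line_ch {p z : V3} (hp : p 2 ≠ 0) (hz : z 2 ≠ 0) (v : V3) :
    HasDerivAt (fun t : ℝ => ch p (z + t • v)) (sbdC p z v) 0 := by
  have h := sb_line_apply z v
  have hn := ((((h 0).sub_const (p 0)).fun_pow 2).fun_add (((h 1).sub_const (p 1)).fun_pow 2)).fun_add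
    (((h 2).sub_const (p 2)).fun_pow 2)
  have hd := (h 2).const_mul (2 * p 2)
  have hne : 2 * p 2 * (z + (0 : ℝ) • v) 2 ≠ 0 := by
    rw [zero_smul, add_zero]
    positivity
  have hf := (hn.fun_div hd hne).const_add 1
  refine hf.congr_deriv ?_
  simp only [zero_smul, add_zero]
  unfold sbdC
  field_simp
  ring

theorem sb_fd_ch {p z : V3} (hp : p 2 ≠ 0) (hz : z 2 ≠ 0) (v : V3) :
    fderiv ℝ (ch p) z v = sbdC p z v :=
  sb_fd_of_line (sb_diff_ch hp hz) (sb_line_ch hp hz v)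

theorem sb_diff_dC {p z : V3} (hp : p 2 ≠ 0) (hz : z 2 ≠ 0) (y : V3) :
    DifferentiableAt ℝ (fun z' => sbdC p z' y) z := by
  have h1 : p 2 * z 2 ≠ 0 := by positivity
  have h2 : 2 * p 2 * z 2 ^ 2 ≠ 0 := by positivity
  unfold sbdC
  fun_prop (disch := assumption)

theorem sb_line_dC {p z : V3} (hp : p 2 ≠ 0) (hz : z 2 ≠ 0) (x y : V3) :
    HasDerivAt (fun t : ℝ => sbdC p (z + t • x) y) (sbddC p z x y) 0 := by
  have h := sb_line_apply z x
  have h1 := ((((h 0).sub_const (p 0)).mul_const (y 0)).fun_add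
    (((h 1).sub_const (p 1)).mul_const (y 1))).fun_add (((h 2).sub_const (p 2)).mul_const (y 2))
  have hn := ((((h 0).sub_const (p 0)).fun_pow 2).fun_add (((h 1).sub_const (p 1)).fun_pow 2)).fun_add
    (((h 2).sub_const (p 2)).fun_pow 2)
  have hd := (h 2).const_mul (p 2)
  have hd2 := ((h 2).fun_pow 2).const_mul (2 * p 2)
  have hne : p 2 * (z + (0 : ℝ) • x) 2 ≠ 0 := by
    rw [zero_smul, add_zero]
    positivity
  have hne2 : 2 * p 2 * (z + (0 : ℝ) • x) 2 ^ 2 ≠ 0 := by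
    rw [zero_smul, add_zero]
    positivity
  have hf := (h1.fun_div hd hne).fun_sub ((hn.mul_const (y 2)).fun_div hd2 hne2)
  refine hf.congr_deriv ?_
  simp only [zero_smul, add_zero]
  unfold sbddC
  field_simp
  ring

theorem sb_w {b : ℝ → ℝ} (hb : ContDiff ℝ ∞ b) {p z : V3} (hp : p 2 ≠ 0) (hz : z 2 ≠ 0)
    (a : ℝ) (v : V3) :
    fderiv ℝ (fun z' => b (ch p z') - Real.log (z' 2) + a) z v =
      deriv b (ch p z) * sbdC p z v - v 2 / z 2 := by
  have hbd : Differentiable ℝ b := hb.differentiable (by simp)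
  have hC := sb_diff_ch hp hz
  apply sb_fd_of_line
  · have h1 : DifferentiableAt ℝ (fun z' => b (ch p z')) z := (hbd _).comp z hC
    have h2 : DifferentiableAt ℝ (fun z' : V3 => Real.log (z' 2)) z :=
      DifferentiableAt.log (by fun_prop) hz
    exact (h1.fun_sub h2).add_const a
  · have h1 := sb_line_ch hp hz v
    have e0 : z + (0 : ℝ) • v = z := by rw [zero_smul, add_zero]
    have h2 : HasDerivAt (fun t : ℝ => b (ch p (z + t • v)))
        (deriv b (ch p (z + (0 : ℝ) • v)) * sbdC p z v) 0 :=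
      ((hbd _).hasDerivAt).comp (0 : ℝ) h1
    have h3 := (sb_line_apply z v 2).log (by rw [e0]; exact hz)
    have h4 := (h2.fun_sub h3).add_const a
    rw [e0] at h4
    exact h4

theorem sb_ww {b : ℝ → ℝ} (hb : ContDiff ℝ ∞ b) {p z : V3} (hp : p 2 ≠ 0) (hz : z 2 ≠ 0)
    (a : ℝ) (x y : V3) :
    fderiv ℝ (fun z' => fderiv ℝ (fun z'' => b (ch p z'') - Real.log (z'' 2) + a) z' y) z x =
      deriv (deriv b) (ch p z) * sbdC p z x * sbdC p z y + deriv b (ch p z) * sbddC p z x y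
        + x 2 * y 2 / (z 2) ^ 2 := by
  have hb1 : Differentiable ℝ (deriv b) := by
    have h2 : ContDiff ℝ 2 b := by exact_mod_cast contDiff_infty.1 hb 2
    have h3 : ContDiff ℝ 1 (deriv b) := ((contDiff_succ_iff_deriv (n := 1)).1 h2).2.2
    exact h3.differentiable (by simp)
  have hC := sb_diff_ch hp hz
  have heq : (fun z' => fderiv ℝ (fun z'' => b (ch p z'') - Real.log (z'' 2) + a) z' y) =ᶠ[𝓝 z]
      fun z' => deriv b (ch p z') * sbdC p z' y - y 2 / z' 2 := by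
    have hopen : IsOpen {z' : V3 | z' 2 ≠ 0} := isOpen_ne_fun (continuous_apply 2) continuous_const
    filter_upwards [hopen.mem_nhds hz] with z' hz'
    exact sb_w hb hp hz' a y
  rw [heq.fderiv_eq]
  apply sb_fd_of_line
  · have h1 : DifferentiableAt ℝ (fun z' => deriv b (ch p z')) z := (hb1 _).comp z hC
    have h2 := sb_diff_dC hp hz y
    have h3 : DifferentiableAt ℝ (fun z' : V3 => y 2 / z' 2) z := by
      fun_prop (disch := assumption)
    exact (h1.fun_mul h2).fun_sub h3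
  · have e0 : z + (0 : ℝ) • x = z := by rw [zero_smul, add_zero]
    have h1 := sb_line_ch hp hz x
    have h2 : HasDerivAt (fun t : ℝ => deriv b (ch p (z + t • x)))
        (deriv (deriv b) (ch p (z + (0 : ℝ) • x)) * sbdC p z x) 0 :=
      ((hb1 _).hasDerivAt).comp (0 : ℝ) h1
    have h3 := sb_line_dC hp hz x y
    have h4 := (hasDerivAt_const (0 : ℝ) (y 2)).fun_div (sb_line_apply z x 2) (by rw [e0]; exact hz)
    have h5 := (h2.fun_mul h3).fun_sub h4
    refine h5.congr_deriv ?_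
    rw [e0]
    field_simp
    ring

/-! ## TARGET (prove this) -/

theorem schouten_bump (b : ℝ → ℝ) (hb : ContDiff ℝ ∞ b) (p z : V3) (hp : p ∈ U) (hz : z ∈ U)
    (a : ℝ) (x y : V3) :
    schouten (fun z' => b (ch p z') - Real.log (z' 2) + a) z x y =
      (1 / 2 + deriv b (ch p z) * ch p z + (deriv b (ch p z)) ^ 2 * ((ch p z) ^ 2 - 1) / 2)
        * dot x y / (z 2) ^ 2
      + (deriv (deriv b) (ch p z) - (deriv b (ch p z)) ^ 2)
        * (fderiv ℝ (ch p) z x * fderiv ℝ (ch p) z y) := by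
  have hp' : p 2 ≠ 0 := ne_of_gt hp
  have hz' : z 2 ≠ 0 := ne_of_gt hz
  unfold schouten
  rw [sb_ww hb hp' hz', Fin.sum_univ_three]
  simp only [sb_w hb hp' hz', sb_fd_ch hp' hz']
  generalize deriv (deriv b) (ch p z) = B2
  generalize deriv b (ch p z) = B1
  have s00 : (Pi.single (0 : Fin 3) (1 : ℝ) : V3) 0 = 1 := by simp
  have s01 : (Pi.single (0 : Fin 3) (1 : ℝ) : V3) 1 = 0 := by simp
  have s02 : (Pi.single (0 : Fin 3) (1 : ℝ) : V3) 2 = 0 := by simp
  have s10 : (Pi.single (1 : Fin 3) (1 : ℝ) : V3) 0 = 0 := by simp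
  have s11 : (Pi.single (1 : Fin 3) (1 : ℝ) : V3) 1 = 1 := by simp
  have s12 : (Pi.single (1 : Fin 3) (1 : ℝ) : V3) 2 = 0 := by simp
  have s20 : (Pi.single (2 : Fin 3) (1 : ℝ) : V3) 0 = 0 := by simp
  have s21 : (Pi.single (2 : Fin 3) (1 : ℝ) : V3) 1 = 0 := by simp
  have s22 : (Pi.single (2 : Fin 3) (1 : ℝ) : V3) 2 = 1 := by simp
  unfold sbddC sbdC ch dot
  simp only [s00, s01, s02, s10, s11, s12, s20, s21, s22]
  generalize z 0 = z0 at *
  generalize z 1 = z1 at *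
  generalize z 2 = z2 at *
  generalize p 0 = p0 at *
  generalize p 1 = p1 at *
  generalize p 2 = p2 at *
  generalize x 0 = x0
  generalize x 1 = x1
  generalize x 2 = x2
  generalize y 0 = y0
  generalize y 1 = y1
  generalize y 2 = y2
  field_simp
  ring


end Pool.Agent.BL.SchB
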