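import Pool.Agent.BL.Defs
import Pool.Agent.BL.CgSec
import Pool.Agent.BL.SchB
import Pool.Agent.BL.ChPos

set_option autoImplicit false
open Set Filter Topology MeasureTheory
open scoped ContDiff


namespace Pool.Agent.BL.SecB
open Pool.Agent.BL
open Pool.Agent.BL.CgSec (cg_sec)
open Pool.Agent.BL.SchB (schouten_bump)
open Pool.Agent.BL.ChPos (ch_pos)

open Set Filter Topology MeasureTheory
open scoped ContDiff





theorem sec_bump_gram (x y : V3) (hxy : LinearIndependent ℝ ![x, y]) :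
    dot x x * dot y y - dot x y ^ 2 ≠ 0 := by
  intro h
  have hid : dot x x * dot y y - dot x y ^ 2 =
      (x 0 * y 1 - x 1 * y 0) ^ 2 + (x 0 * y 2 - x 2 * y 0) ^ 2 + (x 1 * y 2 - x 2 * y 1) ^ 2 := by
    unfold dot; ring
  rw [hid] at h
  have h01 : x 0 * y 1 - x 1 * y 0 = 0 := by
    have : (x 0 * y 1 - x 1 * y 0) ^ 2 = 0 := by
      nlinarith [sq_nonneg (x 0 * y 1 - x 1 * y 0), sq_nonneg (x 0 * y 2 - x 2 * y 0),
        sq_nonneg (x 1 * y 2 - x 2 * y 1)]
    exact pow_eq_zero_iff (two_ne_zero) |>.mp this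
  have h02 : x 0 * y 2 - x 2 * y 0 = 0 := by
    have : (x 0 * y 2 - x 2 * y 0) ^ 2 = 0 := by
      nlinarith [sq_nonneg (x 0 * y 1 - x 1 * y 0), sq_nonneg (x 0 * y 2 - x 2 * y 0),
        sq_nonneg (x 1 * y 2 - x 2 * y 1)]
    exact pow_eq_zero_iff (two_ne_zero) |>.mp this
  have h12 : x 1 * y 2 - x 2 * y 1 = 0 := by
    have : (x 1 * y 2 - x 2 * y 1) ^ 2 = 0 := by
      nlinarith [sq_nonneg (x 0 * y 1 - x 1 * y 0), sq_nonneg (x 0 * y 2 - x 2 * y 0),
        sq_nonneg (x 1 * y 2 - x 2 * y 1)]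
    exact pow_eq_zero_iff (two_ne_zero) |>.mp this
  rw [LinearIndependent.pair_iff] at hxy
  have hx : ∀ i : Fin 3, x i = 0 := by
    intro i
    have h1 : (y i) • x + (-(x i)) • y = 0 := by
      funext j
      fin_cases i <;> fin_cases j <;>
        simp only [Fin.zero_eta, Fin.mk_one, Fin.reduceFinMk, Pi.add_apply, Pi.smul_apply,
          smul_eq_mul, Pi.zero_apply, Fin.isValue] <;> linarith
    have h2 := (hxy _ _ h1).2
    linarith
  have h1 : (1 : ℝ) • x + (0 : ℝ) • y = 0 := by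
    funext j
    simp only [Pi.add_apply, Pi.smul_apply, smul_eq_mul, Pi.zero_apply, hx j]
    ring
  exact one_ne_zero (hxy _ _ h1).1

theorem sec_bump_schouten (w w' : V3 → ℝ) (z : V3) (h : w =ᶠ[𝓝 z] w') (x y : V3) :
    schouten w z x y = schouten w' z x y := by
  have h1 : fderiv ℝ w z = fderiv ℝ w' z := h.fderiv_eq (𝕜 := ℝ)
  have h2 : (fun z' => fderiv ℝ w z' y) =ᶠ[𝓝 z] (fun z' => fderiv ℝ w' z' y) := by
    have h3 : fderiv ℝ w =ᶠ[𝓝 z] fderiv ℝ w' := h.fderiv (𝕜 := ℝ)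
    filter_upwards [h3] with z' hz'
    rw [hz']
  unfold schouten
  rw [h1, h2.fderiv_eq]

theorem sec_bump_smooth (b : ℝ → ℝ) (hb : ContDiff ℝ ∞ b) (p z : V3) (hp : p ∈ U) (hz : z ∈ U)
    (a : ℝ) : ContDiffAt ℝ ∞ (fun y : V3 => b (ch p y) - Real.log (y 2) + a) z := by
  have hz2 : z 2 ≠ 0 := ne_of_gt hz
  have hp2 : p 2 ≠ 0 := ne_of_gt hp
  have hcoord : ∀ i : Fin 3, ContDiffAt ℝ ∞ (fun y : V3 => y i) z := fun i =>
    (contDiff_apply ℝ ℝ i).contDiffAt
  have hnum : ContDiffAt ℝ ∞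
      (fun y : V3 => (y 0 - p 0) ^ 2 + (y 1 - p 1) ^ 2 + (y 2 - p 2) ^ 2) z :=
    ((((hcoord 0).sub contDiffAt_const).pow 2).add (((hcoord 1).sub contDiffAt_const).pow 2)).add
      (((hcoord 2).sub contDiffAt_const).pow 2)
  have hden : ContDiffAt ℝ ∞ (fun y : V3 => 2 * p 2 * y 2) z := contDiffAt_const.mul (hcoord 2)
  have hc : ContDiffAt ℝ ∞ (fun y : V3 => ch p y) z :=
    contDiffAt_const.add (hnum.div hden (mul_ne_zero (mul_ne_zero two_ne_zero hp2) hz2))
  have hl : ContDiffAt ℝ ∞ (fun y : V3 => Real.log (y 2)) z := (hcoord 2).log hz2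
  exact ((hb.contDiffAt.comp z hc).sub hl).add contDiffAt_const

/-! ## TARGET (prove this) -/

theorem sec_bump (b : ℝ → ℝ) (hb : ContDiff ℝ ∞ b) (p z : V3) (hp : p ∈ U) (hz : z ∈ U)
    (u : V3 → ℝ) (hu : ∀ᶠ y in 𝓝 z, u y = b (ch p y)) (a : ℝ) (x y : V3)
    (hxy : LinearIndependent ℝ ![x, y]) :
    sec (hg u a) (chr (fun y => u y - Real.log (y 2) + a)) z x y =
      Real.exp (-2 * a) * kappa b (ch p z) (Qf p z x y) := by
  have hz2 : 0 < z 2 := hz
  have heq : (fun y : V3 => u y - Real.log (y 2) + a) =ᶠ[𝓝 z]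
      (fun y : V3 => b (ch p y) - Real.log (y 2) + a) := by
    filter_upwards [hu] with y hy
    rw [hy]
  have hsm : ContDiffAt ℝ ∞ (fun y : V3 => u y - Real.log (y 2) + a) z :=
    (sec_bump_smooth b hb p z hp hz a).congr_of_eventuallyEq heq
  have hhg : hg u a = cg (fun y => u y - Real.log (y 2) + a) := rfl
  rw [hhg, cg_sec _ z hsm x y hxy]
  rw [sec_bump_schouten _ _ z heq, sec_bump_schouten _ _ z heq, sec_bump_schouten _ _ z heq]
  rw [schouten_bump b hb p z hp hz, schouten_bump b hb p z hp hz, schouten_bump b hb p z hp hz]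
  have hD := sec_bump_gram x y hxy
  have huz : u z = b (ch p z) := hu.self_of_nhds
  have hexp : Real.exp (-2 * (u z - Real.log (z 2) + a)) =
      Real.exp (-2 * b (ch p z)) * (z 2) ^ 2 * Real.exp (-2 * a) := by
    rw [huz]
    have h1 : -2 * (b (ch p z) - Real.log (z 2) + a) =
        -2 * b (ch p z) + (Real.log (z 2) + Real.log (z 2)) + -2 * a := by ring
    rw [h1, Real.exp_add, Real.exp_add, Real.exp_add, Real.exp_log hz2]
    ring
  rw [hexp]
  unfold kappa Qf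
  set A := fderiv ℝ (ch p) z x
  set B := fderiv ℝ (ch p) z y
  set c := ch p z
  set G11 := dot x x
  set G22 := dot y y
  set G12 := dot x y
  set E1 := Real.exp (-2 * b c)
  set E2 := Real.exp (-2 * a)
  set b1 := deriv b c
  set b2 := deriv (deriv b) c
  field_simp
  ring

end Pool.Agent.BL.SecB
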