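import Pool.Agent.BL.Defs
import Pool.Agent.BL.HgM
import Pool.Agent.BL.SecB
import Pool.Agent.BL.QfB
import Pool.Agent.BL.QfS
import Pool.Agent.BL.ActSm
import Pool.Agent.BL.ActDer
import Pool.Agent.BL.ActAlg
import Pool.Agent.BL.ChPos

set_option autoImplicit false
open Set Filter Topology MeasureTheory
open scoped ContDiff


namespace Pool.Agent.BL.Model
open Pool.Agent.BL
open Pool.Agent.BL.HgM (hg_metric hg_levi)
open Pool.Agent.BL.SecB (sec_bump)
open Pool.Agent.BL.QfB (qf_bounds)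
open Pool.Agent.BL.QfS (qf_surj)
open Pool.Agent.BL.ActSm (act_smooth)
open Pool.Agent.BL.ActDer (act_deriv)
open Pool.Agent.BL.ActAlg (act_mem)
open Pool.Agent.BL.ChPos (ch_pos)

open Set Filter Topology MeasureTheory
open scoped ContDiff











/-- the upper half space is homeomorphic to 3-space -/
noncomputable def h396_homeo : U ≃ₜ V3 where
  toFun x := ![(x : V3) 0, (x : V3) 1, Real.log ((x : V3) 2)]
  invFun y := ⟨![y 0, y 1, Real.exp (y 2)], by simp [U, Real.exp_pos]⟩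
  left_inv := by
    rintro ⟨x, hx⟩
    have hx' : 0 < x 2 := hx
    apply Subtype.ext
    funext i
    fin_cases i
    · simp
    · simp
    · simp [Real.exp_log hx']
  right_inv := by
    intro y
    funext i
    fin_cases i
    · simp
    · simp
    · simp
  continuous_toFun := by
    have hc : ∀ i : Fin 3, Continuous (fun x : U => (x : V3) i) := fun i =>
      (continuous_apply i).comp continuous_subtype_val
    apply continuous_pi
    intro i
    fin_cases i
    · exact hc 0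
    · exact hc 1
    · exact (hc 2).log (fun x => ne_of_gt x.2)
  continuous_invFun := by
    apply Continuous.subtype_mk
    apply continuous_pi
    intro i
    fin_cases i
    · exact continuous_apply 0
    · exact continuous_apply 1
    · exact Real.continuous_exp.comp (continuous_apply 2)

theorem h396_exp (s y a : ℝ) (hy : 0 < y) :
    Real.exp (2 * (s - Real.log y + a)) = Real.exp (2 * (s + a)) * (y⁻¹) ^ 2 := by
  have e : 2 * (s - Real.log y + a) = 2 * (s + a) + (-Real.log y + -Real.log y) := by ring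
  rw [e, Real.exp_add, Real.exp_add, Real.exp_neg, Real.exp_log hy]
  ring

theorem h396_ch_cont (p z : V3) (hp : p ∈ U) (hz : z ∈ U) : ContinuousAt (ch p) z := by
  have hp' : 0 < p 2 := hp
  have hz' : 0 < z 2 := hz
  have hc : ∀ i : Fin 3, ContinuousAt (fun x : V3 => x i) z := fun i =>
    (continuous_apply i).continuousAt
  unfold ch
  refine continuousAt_const.add (ContinuousAt.div ?_ ?_ ?_)
  · exact ((((hc 0).sub continuousAt_const).pow 2).add
      (((hc 1).sub continuousAt_const).pow 2)).add (((hc 2).sub continuousAt_const).pow 2)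
  · exact continuousAt_const.mul (hc 2)
  · positivity

theorem h396_open : IsOpen U := isOpen_lt continuous_const (continuous_apply 2)

/-! ## TARGET (prove this) -/

/-- the main geometric construction: a model from a profile -/
theorem model (G : Subgroup (Equiv.Perm U))
    (hG : ∀ γ ∈ G, ∃ A : Matrix (Fin 2) (Fin 2) ℂ, A.det = 1 ∧ ∀ x : U, (γ x : V3) = act A x)
    (hfree : ∀ γ ∈ G, (∃ x, γ x = x) → γ = 1)
    (hprop : ∀ K : Set U, IsCompact K → {γ | γ ∈ G ∧ (γ '' K ∩ K).Nonempty}.Finite)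
    (hcoc : ∃ K : Set U, IsCompact K ∧ ∀ x, ∃ γ ∈ G, γ x ∈ K)
    (p : U) (C₀ : ℝ) (b : ℝ → ℝ) (hb : ContDiff ℝ ∞ b) (u : V3 → ℝ)
    (hu : ContDiffOn ℝ ∞ u U) (hinv : ∀ γ ∈ G, ∀ x : U, u (γ x) = u x)
    (hloc : ∀ x ∈ U, ∃ γ ∈ G, ∀ᶠ y in 𝓝 x, u y = b (ch (γ p) y))
    (hball : ∀ γ ∈ G, ∀ x : U, ch (γ p) x < C₀ → u x = b (ch (γ p) x))
    (m : ℝ) (hm : 0 < m)
    (hk : ∀ c Q, 1 ≤ c → 0 ≤ Q → Q ≤ c ^ 2 - 1 → kappa b c Q ≤ -m)
    (hatt : ∃ c Q, 1 ≤ c ∧ c < C₀ ∧ 0 ≤ Q ∧ Q ≤ c ^ 2 - 1 ∧ kappa b c Q = -m) :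
    IsModel U (hg u (Real.log m / 2)) G := by
  have hma : Real.exp (-2 * (Real.log m / 2)) = m⁻¹ := by
    have e : -2 * (Real.log m / 2) = -Real.log m := by ring
    rw [e, Real.exp_neg, Real.exp_log hm]
  refine ⟨h396_open, ⟨h396_homeo⟩, hg_metric u hu _, ?_, hfree, hprop, hcoc, ?_⟩
  · intro γ hγ
    obtain ⟨A, hdet, hA⟩ := hG γ hγ
    refine ⟨act A, act_smooth A hdet, hA, ?_⟩
    intro x hx v w
    have hx2 : 0 < x 2 := hx
    have hy : act A x ∈ U := act_mem A hdet x hx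
    have hy2 : 0 < (act A x) 2 := hy
    have huy : u (act A x) = u x := by
      rw [← hA ⟨x, hx⟩]
      exact hinv γ hγ ⟨x, hx⟩
    unfold hg cg
    rw [act_deriv A hdet x hx v w, h396_exp _ _ _ hy2, h396_exp _ _ _ hx2, huy]
    field_simp
  · refine ⟨chr (fun y => u y - Real.log (y 2) + Real.log m / 2), hg_levi u hu _, ?_, ?_⟩
    · intro z hz x y hxy
      obtain ⟨γ, _, hev⟩ := hloc z hz
      rw [sec_bump b hb (γ p) z (γ p).2 hz u hev _ x y hxy, hma]
      obtain ⟨q1, q2⟩ := qf_bounds (γ p) z x y (γ p).2 hz hxy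
      have h1 := hk (ch (γ p) z) (Qf (γ p) z x y) (ch_pos _ _ (γ p).2 hz) q1 q2
      have h2 : m⁻¹ * kappa b (ch (γ p) z) (Qf (γ p) z x y) ≤ m⁻¹ * (-m) :=
        mul_le_mul_of_nonneg_left h1 (by positivity)
      have h3 : m⁻¹ * (-m) = -1 := by field_simp
      linarith
    · obtain ⟨c, Q, hc1, hcC, hQ0, hQ1, hkap⟩ := hatt
      obtain ⟨z, hz, x, y, hxy, hcz, hQz⟩ := qf_surj p p.2 c Q hc1 hQ0 hQ1
      refine ⟨z, hz, x, y, hxy, ?_⟩
      have hev : ∀ᶠ y in 𝓝 z, u y = b (ch p y) := by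
        have h1 : ∀ᶠ y in 𝓝 z, ch p y < C₀ := by
          apply (h396_ch_cont p z p.2 hz).eventually_lt continuousAt_const
          rw [hcz]
          exact hcC
        have h2 : ∀ᶠ y in 𝓝 z, y ∈ U := h396_open.mem_nhds hz
        filter_upwards [h1, h2] with y hy1 hy2
        have h3 := hball 1 (one_mem G) ⟨y, hy2⟩
        simp only [Equiv.Perm.coe_one, id_eq] at h3
        exact h3 hy1
      rw [sec_bump b hb p z p.2 hz u hev _ x y hxy, hma, hcz, hQz, hkap]
      field_simp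

end Pool.Agent.BL.Model
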