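import Pool.Agent.BL.Defs

set_option autoImplicit false
open Set Filter Topology MeasureTheory
open scoped ContDiff


namespace Pool.Agent.BL.NoHol
open Pool.Agent.BL

open Set Filter Topology MeasureTheory
open scoped ContDiff

/-! ## TARGET (prove this) -/

theorem no_holder {β : Type} (ρ : β → β → ℝ) (Φ : β → V3) (hinj : Function.Injective Φ)
    (K K' a : ℝ) (hK : 0 ≤ K) (hΦ : ∀ ξ η, ‖Φ ξ - Φ η‖ ≤ K * ρ ξ η) (ha : 1 < a) (ξ : ℝ → β)
    (h : ∀ s ∈ Icc (0 : ℝ) 1, ∀ t ∈ Icc (0 : ℝ) 1, ρ (ξ s) (ξ t) ≤ K' * |s - t| ^ a)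
    (hne : ξ 0 ≠ ξ 1) : False := by
  apply hne
  apply hinj
  have hlim : Tendsto (fun N : ℕ => K * K' * (N : ℝ) ^ (-(a - 1))) atTop (𝓝 (K * K' * 0)) :=
    ((tendsto_rpow_neg_atTop (by linarith : 0 < a - 1)).comp
      tendsto_natCast_atTop_atTop).const_mul (K * K')
  have hle : ∀ᶠ N : ℕ in atTop, dist (Φ (ξ 0)) (Φ (ξ 1)) ≤ K * K' * (N : ℝ) ^ (-(a - 1)) := by
    filter_upwards [eventually_ge_atTop 1] with N hN
    have hN0 : (0 : ℝ) < N := by exact_mod_cast hN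
    have h1 := dist_le_range_sum_dist (fun i : ℕ => Φ (ξ ((i : ℝ) / N))) N
    have e0 : ((0 : ℕ) : ℝ) / N = 0 := by simp
    have e1 : (N : ℝ) / N = 1 := div_self hN0.ne'
    simp only [e0, e1] at h1
    refine h1.trans ?_
    have h2 : ∀ i ∈ Finset.range N, dist (Φ (ξ ((i : ℝ) / N))) (Φ (ξ (((i + 1 : ℕ) : ℝ) / N))) ≤
        K * K' * (N : ℝ) ^ (-a) := by
      intro i hi
      have hiN : (i : ℝ) + 1 ≤ N := by exact_mod_cast Finset.mem_range.1 hi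
      have hi0 : (0 : ℝ) ≤ i := Nat.cast_nonneg i
      rw [dist_eq_norm]
      have h3 := hΦ (ξ ((i : ℝ) / N)) (ξ (((i + 1 : ℕ) : ℝ) / N))
      have m1 : (i : ℝ) / N ∈ Icc (0 : ℝ) 1 :=
        ⟨by positivity, by rw [div_le_one hN0]; linarith⟩
      have m2 : ((i + 1 : ℕ) : ℝ) / N ∈ Icc (0 : ℝ) 1 :=
        ⟨by positivity, by rw [div_le_one hN0]; push_cast; linarith⟩
      have h4 := h _ m1 _ m2
      have e2 : |(i : ℝ) / N - ((i + 1 : ℕ) : ℝ) / N| = (N : ℝ)⁻¹ := by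
        have : (i : ℝ) / N - ((i + 1 : ℕ) : ℝ) / N = -(N : ℝ)⁻¹ := by
          push_cast
          field_simp
          ring
        rw [this, abs_neg, abs_of_pos (by positivity)]
      rw [e2, Real.inv_rpow hN0.le, ← Real.rpow_neg hN0.le] at h4
      calc ‖Φ (ξ ((i : ℝ) / N)) - Φ (ξ (((i + 1 : ℕ) : ℝ) / N))‖
          ≤ K * ρ (ξ ((i : ℝ) / N)) (ξ (((i + 1 : ℕ) : ℝ) / N)) := h3
        _ ≤ K * (K' * (N : ℝ) ^ (-a)) := mul_le_mul_of_nonneg_left h4 hK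
        _ = K * K' * (N : ℝ) ^ (-a) := by ring
    refine (Finset.sum_le_sum h2).trans (le_of_eq ?_)
    rw [Finset.sum_const, Finset.card_range, nsmul_eq_mul]
    have e3 : (N : ℝ) ^ (-(a - 1)) = N * (N : ℝ) ^ (-a) := by
      rw [show -(a - 1) = 1 + -a by ring, Real.rpow_add hN0, Real.rpow_one]
    rw [e3]
    ring
  have h0 := ge_of_tendsto hlim hle
  rw [mul_zero] at h0
  exact dist_le_zero.1 h0

end Pool.Agent.BL.NoHol
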