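import Pool.Agent.BL.Defs
import Pool.Agent.BL.HdLen
import Pool.Agent.BL.HdPm
import Pool.Agent.BL.DdCur
import Pool.Agent.BL.Geo

set_option autoImplicit false
open Set Filter Topology MeasureTheory
open scoped ContDiff


namespace Pool.Agent.BL.PlIs
open Pool.Agent.BL
open Pool.Agent.BL.HdLen (hd_le_length)
open Pool.Agent.BL.HdPm (hd_pm)
open Pool.Agent.BL.DdCur (le_dd dd_le_curve)
open Pool.Agent.BL.Geo (geodesic)

open Set Filter Topology MeasureTheory
open scoped ContDiff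







/-! ## TARGET (prove this) -/

/-- the projection to the plane -/
noncomputable def plane_isom_pp (z : V3) : V3 := ![z 0, 0, Real.sqrt ((z 1) ^ 2 + (z 2) ^ 2)]

theorem plane_isom_mem (z : V3) (hz : z ∈ U) : plane_isom_pp z ∈ U := by
  have hz' : 0 < z 2 := hz
  change 0 < Real.sqrt ((z 1) ^ 2 + (z 2) ^ 2)
  positivity

theorem plane_isom_fix (z : V3) (hz : z ∈ U) (h1 : z 1 = 0) : plane_isom_pp z = z := by
  have hz' : 0 < z 2 := hz
  funext i
  fin_cases i
  · rfl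
  · change (0:ℝ) = z 1
    exact h1.symm
  · change Real.sqrt ((z 1) ^ 2 + (z 2) ^ 2) = z 2
    rw [h1]
    have : (0:ℝ) ^ 2 + (z 2) ^ 2 = (z 2) ^ 2 := by ring
    rw [this, Real.sqrt_sq hz'.le]

theorem plane_isom_comp {c : ℝ → V3} (hc : ContDiff ℝ 1 c) (i : Fin 3) :
    ContDiff ℝ 1 (fun t => c t i) := contDiff_pi.1 hc i

theorem plane_isom_smooth {c : ℝ → V3} (hc : ContDiff ℝ 1 c)
    (hU : ∀ t ∈ Icc (0 : ℝ) 1, c t ∈ U) :
    ContDiffOn ℝ 1 (fun t => plane_isom_pp (c t)) (Icc 0 1) := by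
  rw [contDiffOn_pi]
  intro i
  fin_cases i
  · exact (plane_isom_comp hc 0).contDiffOn
  · exact contDiffOn_const
  · change ContDiffOn ℝ 1 (fun t => Real.sqrt ((c t 1) ^ 2 + (c t 2) ^ 2)) (Icc 0 1)
    refine ContDiffOn.sqrt ?_ ?_
    · exact (((plane_isom_comp hc 1).pow 2).add ((plane_isom_comp hc 2).pow 2)).contDiffOn
    · intro t ht
      have h2 : 0 < c t 2 := hU t ht
      positivity

theorem plane_isom_deriv {c : ℝ → V3} (hc : ContDiff ℝ 1 c)
    (hU : ∀ t ∈ Icc (0 : ℝ) 1, c t ∈ U) (t : ℝ) (ht : t ∈ Icc (0 : ℝ) 1) :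
    deriv (fun t => plane_isom_pp (c t)) t = ![deriv c t 0, 0,
      (c t 1 * deriv c t 1 + c t 2 * deriv c t 2) / Real.sqrt ((c t 1) ^ 2 + (c t 2) ^ 2)] := by
  apply HasDerivAt.deriv
  have hd : HasDerivAt c (deriv c t) t := (hc.differentiable one_ne_zero t).hasDerivAt
  have hdi : ∀ i, HasDerivAt (fun t => c t i) (deriv c t i) t := hasDerivAt_pi.1 hd
  have h2 : 0 < c t 2 := hU t ht
  rw [hasDerivAt_pi]
  intro i
  fin_cases i
  · exact hdi 0
  · exact hasDerivAt_const t (0:ℝ)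
  · change HasDerivAt (fun t => Real.sqrt ((c t 1) ^ 2 + (c t 2) ^ 2))
      ((c t 1 * deriv c t 1 + c t 2 * deriv c t 2) / Real.sqrt ((c t 1) ^ 2 + (c t 2) ^ 2)) t
    have h3 := (((hdi 1).pow 2).add ((hdi 2).pow 2)).sqrt
      (by change (c t 1) ^ 2 + (c t 2) ^ 2 ≠ 0; positivity)
    refine h3.congr_deriv ?_
    have h4 : Real.sqrt ((c t 1) ^ 2 + (c t 2) ^ 2) ≠ 0 := by positivity
    simp only [Pi.add_apply, Pi.pow_apply]
    field_simp
    ring

theorem plane_isom_bound {c : ℝ → V3} (hc : ContDiff ℝ 1 c)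
    (hU : ∀ t ∈ Icc (0 : ℝ) 1, c t ∈ U) (t : ℝ) (ht : t ∈ Icc (0 : ℝ) 1) (e : ℝ)
    (he : c t 2 / Real.sqrt ((c t 1) ^ 2 + (c t 2) ^ 2) ≤ e) :
    Real.sqrt (dot (deriv (fun t => plane_isom_pp (c t)) t)
      (deriv (fun t => plane_isom_pp (c t)) t)) / plane_isom_pp (c t) 2 ≤
    e * (Real.sqrt (dot (deriv c t) (deriv c t)) / c t 2) := by
  rw [plane_isom_deriv hc hU t ht]
  have h2 : 0 < c t 2 := hU t ht
  obtain ⟨ρ, hρ⟩ : ∃ ρ, ρ = Real.sqrt ((c t 1) ^ 2 + (c t 2) ^ 2) := ⟨_, rfl⟩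
  have hρ0 : 0 < ρ := by rw [hρ]; positivity
  have hρ2 : ρ ^ 2 = (c t 1) ^ 2 + (c t 2) ^ 2 := by
    rw [hρ, Real.sq_sqrt (by positivity)]
  have h3 : plane_isom_pp (c t) 2 = ρ := hρ.symm
  rw [h3, ← hρ]
  rw [← hρ] at he
  have h4 : dot ![deriv c t 0, 0, (c t 1 * deriv c t 1 + c t 2 * deriv c t 2) / ρ]
      ![deriv c t 0, 0, (c t 1 * deriv c t 1 + c t 2 * deriv c t 2) / ρ] ≤
      dot (deriv c t) (deriv c t) := by
    change deriv c t 0 * deriv c t 0 + 0 * 0 +
      (c t 1 * deriv c t 1 + c t 2 * deriv c t 2) / ρ *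
        ((c t 1 * deriv c t 1 + c t 2 * deriv c t 2) / ρ) ≤
      deriv c t 0 * deriv c t 0 + deriv c t 1 * deriv c t 1 + deriv c t 2 * deriv c t 2
    have h5 : (c t 1 * deriv c t 1 + c t 2 * deriv c t 2) / ρ *
        ((c t 1 * deriv c t 1 + c t 2 * deriv c t 2) / ρ) ≤
        deriv c t 1 * deriv c t 1 + deriv c t 2 * deriv c t 2 := by
      rw [div_mul_div_comm, div_le_iff₀ (by positivity)]
      have h6 : ρ * ρ = (c t 1) ^ 2 + (c t 2) ^ 2 := by rw [← hρ2]; ring
      rw [h6]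
      nlinarith [sq_nonneg (c t 1 * deriv c t 2 - c t 2 * deriv c t 1)]
    linarith
  have h7 := Real.sqrt_le_sqrt h4
  have h8 : 0 ≤ Real.sqrt (dot (deriv c t) (deriv c t)) / c t 2 := by positivity
  calc _ ≤ Real.sqrt (dot (deriv c t) (deriv c t)) / ρ := by gcongr
    _ = (c t 2 / ρ) * (Real.sqrt (dot (deriv c t) (deriv c t)) / c t 2) := by
        field_simp
    _ ≤ e * (Real.sqrt (dot (deriv c t) (deriv c t)) / c t 2) :=
        mul_le_mul_of_nonneg_right he h8

theorem plane_isom_cont (u : V3 → ℝ) (hu : Adm u) {c : ℝ → V3} (hc : ContDiff ℝ 1 c)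
    (hU : ∀ t ∈ Icc (0 : ℝ) 1, c t ∈ U) :
    ContinuousOn (fun t => Real.exp (u (c t)) *
      (Real.sqrt (dot (deriv c t) (deriv c t)) / c t 2)) (Icc 0 1) := by
  have h1 : ContinuousOn (fun t => u (c t)) (Icc 0 1) :=
    hu.1.comp hc.continuous.continuousOn hU
  have h2 : Continuous (deriv c) := hc.continuous_deriv le_rfl
  have h2i : ∀ i, Continuous fun t => deriv c t i := fun i => (continuous_apply i).comp h2
  have h3 : Continuous fun t => Real.sqrt (dot (deriv c t) (deriv c t)) := by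
    unfold dot
    exact (((h2i 0).mul (h2i 0)).add ((h2i 1).mul (h2i 1))).add ((h2i 2).mul (h2i 2)) |>.sqrt
  have h4 : Continuous fun t => c t 2 := (continuous_apply 2).comp hc.continuous
  refine (Real.continuous_exp.comp_continuousOn h1).mul
    (h3.continuousOn.div h4.continuousOn ?_)
  intro t ht
  have : 0 < c t 2 := hU t ht
  exact this.ne'

theorem plane_isom (u : V3 → ℝ) (hu : Adm u)
    (h1 : ∀ z ∈ U, z 2 / Real.sqrt ((z 1) ^ 2 + (z 2) ^ 2) ≤ Real.exp (u z))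
    (h0 : ∀ z ∈ U, z 1 = 0 → u z = 0) (x y : U) (hx : (x : V3) 1 = 0) (hy : (y : V3) 1 = 0) :
    DD u x y = hd x y := by
  apply le_antisymm
  · obtain ⟨c, hc, hc0, hc1, hcU, hcl, hcp⟩ := geodesic x y
    have h2 := dd_le_curve u hu c hc hcU
    have e0 : (⟨c 0, hcU 0 (by simp)⟩ : U) = x := Subtype.ext hc0
    have e1 : (⟨c 1, hcU 1 (by simp)⟩ : U) = y := Subtype.ext hc1
    rw [e0, e1] at h2
    refine h2.trans (le_of_eq ?_)
    have h3 : ∫ t in (0 : ℝ)..1, Real.exp (u (c t)) *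
        (Real.sqrt (dot (deriv c t) (deriv c t)) / c t 2) = ∫ t in (0 : ℝ)..1, hd x y := by
      refine intervalIntegral.integral_congr fun t ht => ?_
      rw [uIcc_of_le zero_le_one] at ht
      change Real.exp (u (c t)) * (Real.sqrt (dot (deriv c t) (deriv c t)) / c t 2) = hd x y
      rw [hcl t ht, h0 (c t) (hcU t ht) (hcp hx hy t ht), Real.exp_zero, one_mul]
    rw [h3]
    simp
  · have h2 := le_dd u (fun a b => hd ⟨plane_isom_pp a, plane_isom_mem a a.2⟩
      ⟨plane_isom_pp b, plane_isom_mem b b.2⟩) (fun a => (hd_pm.self _).le)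
      (fun a b d => hd_pm.tri _ _ _) ?_ x y
    · have ex : (⟨plane_isom_pp x, plane_isom_mem x x.2⟩ : U) = x :=
        Subtype.ext (plane_isom_fix x x.2 hx)
      have ey : (⟨plane_isom_pp y, plane_isom_mem y y.2⟩ : U) = y :=
        Subtype.ext (plane_isom_fix y y.2 hy)
      simp only [ex, ey] at h2
      exact h2
    · intro c hc hU
      refine (hd_le_length (fun t => plane_isom_pp (c t)) (plane_isom_smooth hc hU)
        (fun t ht => plane_isom_mem _ (hU t ht))).trans ?_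
      rw [intervalIntegral.integral_of_le zero_le_one, intervalIntegral.integral_of_le zero_le_one]
      refine integral_mono_of_nonneg ?_ ?_ ?_
      · refine ae_restrict_of_forall_mem measurableSet_Ioc fun t ht => ?_
        have h3 : 0 < plane_isom_pp (c t) 2 := plane_isom_mem _ (hU t (Ioc_subset_Icc_self ht))
        change 0 ≤ Real.sqrt _ / plane_isom_pp (c t) 2
        positivity
      · exact ((plane_isom_cont u hu hc hU).integrableOn_Icc).mono_set Ioc_subset_Icc_self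
      · refine ae_restrict_of_forall_mem measurableSet_Ioc fun t ht => ?_
        exact plane_isom_bound hc hU t (Ioc_subset_Icc_self ht) _
          (h1 (c t) (hU t (Ioc_subset_Icc_self ht)))

end Pool.Agent.BL.PlIs
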