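import Pool.Agent.BL.Defs
import Pool.Agent.BL.PlIs
import Pool.Agent.BL.DdGp
import Pool.Agent.BL.GpV
import Pool.Agent.BL.VisL
import Pool.Agent.BL.VisB
import Pool.Agent.BL.GhAll
import Pool.Agent.BL.DdComp
import Pool.Agent.BL.DdPm
import Pool.Agent.BL.HdPm

set_option autoImplicit false
open Set Filter Topology MeasureTheory
open scoped ContDiff


namespace Pool.Agent.BL.PlPt
open Pool.Agent.BL
open Pool.Agent.BL.PlIs (plane_isom)
open Pool.Agent.BL.DdGp (conv_dd)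
open Pool.Agent.BL.GpV (gp_vseq conv_vseq)
open Pool.Agent.BL.VisL (vis_le vis_self)
open Pool.Agent.BL.VisB (vis_ge vis_nonneg)
open Pool.Agent.BL.GhAll (gh_all)
open Pool.Agent.BL.DdComp (dd_comp)
open Pool.Agent.BL.DdPm (dd_pm)
open Pool.Agent.BL.HdPm (hd_pm hd_hyp hd_geod)

open Set Filter Topology MeasureTheory
open scoped ContDiff
















/-! ## TARGET (prove this) -/

theorem plane_points (u : V3 → ℝ) (hu : Adm u)
    (h1 : ∀ z ∈ U, z 2 / Real.sqrt ((z 1) ^ 2 + (z 2) ^ 2) ≤ Real.exp (u z))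
    (h0 : ∀ z ∈ U, z 1 = 0 → u z = 0) : ∃ (ξ : ℝ → Bdry (DD u) oU) (K : ℝ), 0 < K ∧
      (∀ s ∈ Icc (0 : ℝ) 1, ∀ t ∈ Icc (0 : ℝ) 1, vis (DD u) oU (ξ s) (ξ t) ≤ K * |s - t|) ∧
      ξ 0 ≠ ξ 1 := by
  obtain ⟨δ, hδ, hhyp⟩ := hd_hyp
  obtain ⟨C, hC0, hCall⟩ := gh_all hd hd_pm δ hhyp hd_geod (Real.exp 1)
  have hGH : GH (DD u) oU C := hCall (DD u) (dd_comp u hu) oU
  obtain ⟨K, hK⟩ := gp_vseq
  have hpm := dd_pm u hu
  let sq : ℝ → {x : ℕ → U // Conv (DD u) oU x} := fun s =>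
    ⟨vseq s 0, conv_dd u hu _ (conv_vseq s 0)⟩
  have hgp : ∀ s t n, gp (DD u) oU ((sq s).1 n) ((sq t).1 n) =
      gp hd oU (vseq s 0 n) (vseq t 0 n) := by
    intro s t n
    have ho : ((oU : U) : V3) 1 = 0 := by simp [oU, o3]
    have hv : ∀ s, ((vseq s 0 n : U) : V3) 1 = 0 := fun s => by simp [vseq]
    show gp (DD u) oU (vseq s 0 n) (vseq t 0 n) = gp hd oU (vseq s 0 n) (vseq t 0 n)
    unfold gp
    rw [plane_isom u hu h1 h0 oU (vseq s 0 n) ho (hv s),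
      plane_isom u hu h1 h0 oU (vseq t 0 n) ho (hv t),
      plane_isom u hu h1 h0 (vseq s 0 n) (vseq t 0 n) (hv s) (hv t)]
  have hev : ∀ s ∈ Icc (0 : ℝ) 1, ∀ t ∈ Icc (0 : ℝ) 1, s ≠ t → ∀ᶠ n in atTop,
      |gp (DD u) oU ((sq s).1 n) ((sq t).1 n) + Real.log (|s - t|)| ≤ K := by
    intro s hs t ht hst
    have h2 := hK s 0 t 0 ⟨by linarith [hs.1], hs.2⟩ ⟨by norm_num, by norm_num⟩
      ⟨by linarith [ht.1], ht.2⟩ ⟨by norm_num, by norm_num⟩
      (fun h => hst (congrArg Prod.fst h))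
    have h3 := (tendsto_atTop_diagonal (α := ℕ)).eventually h2
    filter_upwards [h3] with n hn
    rw [hgp]
    simpa using hn
  refine ⟨fun s => Bdry.mk (sq s), Real.exp (2 * C + K), Real.exp_pos _, ?_, ?_⟩
  · intro s hs t ht
    by_cases hst : s = t
    · rw [hst, vis_self (DD u) hpm oU C hGH]
      simp
    · have h2 : ∀ᶠ n in atTop, -K - Real.log |s - t| ≤
          gp (DD u) oU ((sq s).1 n) ((sq t).1 n) := by
        filter_upwards [hev s hs t ht hst] with n hn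
        have := (abs_le.mp hn).1
        linarith
      have h3 := vis_le (DD u) hpm oU C hGH (sq s) (sq t) _ h2
      refine h3.trans (le_of_eq ?_)
      have hpos : 0 < |s - t| := abs_pos.mpr (sub_ne_zero.mpr hst)
      rw [show 2 * C - (-K - Real.log |s - t|) = 2 * C + K + Real.log |s - t| by ring,
        Real.exp_add, Real.exp_log hpos]
  · intro heq
    have h2 : vis (DD u) oU (Bdry.mk (sq 0)) (Bdry.mk (sq 1)) = 0 := by
      have heq' : Bdry.mk (sq 0) = Bdry.mk (sq 1) := heq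
      rw [heq']
      exact vis_self (DD u) hpm oU C hGH _
    have h3 : ∀ᶠ n in atTop, gp (DD u) oU ((sq 0).1 n) ((sq 1).1 n) ≤ K := by
      filter_upwards [hev 0 ⟨le_rfl, zero_le_one⟩ 1 ⟨zero_le_one, le_rfl⟩ zero_ne_one] with n hn
      have := (abs_le.mp hn).2
      simp at this
      linarith
    have h4 := vis_ge (DD u) hpm oU (sq 0) (sq 1) K h3.frequently
    rw [h2] at h4
    exact absurd h4 (not_le.mpr (Real.exp_pos _))

end Pool.Agent.BL.PlPt
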