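import Pool.Agent.BL.Defs
import Pool.Agent.BL.PlPt
import Pool.Agent.BL.EqSc
import Pool.Agent.BL.BMap
import Pool.Agent.BL.NoHol
import Pool.Agent.BL.VisB
import Pool.Agent.BL.DdPm
import Pool.Agent.BL.CLen
import Pool.Agent.BL.DdMono
import Pool.Agent.BL.HdPm

set_option autoImplicit false
open Set Filter Topology MeasureTheory
open scoped ContDiff


namespace Pool.Agent.BL.NoBi
open Pool.Agent.BL
open Pool.Agent.BL.PlPt (plane_points)
open Pool.Agent.BL.EqSc (equiv_scaled)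
open Pool.Agent.BL.BMap (ball_map)
open Pool.Agent.BL.NoHol (no_holder)
open Pool.Agent.BL.VisB (vis_nonneg)
open Pool.Agent.BL.DdPm (dd_pm)
open Pool.Agent.BL.CLen (sd_eq)
open Pool.Agent.BL.DdMono (dd_zero)
open Pool.Agent.BL.HdPm (hd_pm)

open Set Filter Topology MeasureTheory
open scoped ContDiff











/-! ## TARGET (prove this) -/

/-- no bilipschitz map, if the second metric is close to a more contracted hyperbolic metric -/
theorem no_bilip (u v : V3 → ℝ) (hu : Adm u) (hv : Adm v)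
    (h1 : ∀ z ∈ U, z 2 / Real.sqrt ((z 1) ^ 2 + (z 2) ^ 2) ≤ Real.exp (u z))
    (h0 : ∀ z ∈ U, z 1 = 0 → u z = 0) (a a' τ : ℝ) (hτ : τ ≤ 1) (hv1 : ∀ x ∈ U, |v x| ≤ τ)
    (hlt : a' + τ < a) (f : Bdry (SD u a) oU ≃ Bdry (SD v a') oU) (L : ℝ) (hL : 0 < L)
    (hf : ∀ ξ η, vis (SD v a') oU (f ξ) (f η) ≤ L * vis (SD u a) oU ξ η) : False := by
  have hpmS : ∀ (w : V3 → ℝ) (hw : Adm w) (c : ℝ), PM (SD w c) := by
    intro w hw c
    have hD := dd_pm w hw
    refine ⟨fun x => ?_, fun x y => ?_, fun x y z => ?_⟩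
    · rw [sd_eq, hD.self, mul_zero]
    · rw [sd_eq, sd_eq, hD.symm]
    · rw [sd_eq, sd_eq, sd_eq, ← mul_add]
      exact mul_le_mul_of_nonneg_left (hD.tri x y z) (Real.exp_pos _).le
  have hadm0 : Adm (0 : V3 → ℝ) := by
    refine ⟨continuousOn_const, fun x _ => ?_⟩
    simp
  obtain ⟨ξ, K, hK, hξ, hne⟩ := plane_points u hu h1 h0
  obtain ⟨e, K1, hK1, he, -⟩ := equiv_scaled u u hu hu 0 a 0 (by norm_num)
    (fun x _ => by linarith) (fun x _ => by linarith)
  have h2 := equiv_scaled v 0 hv hadm0 a' 0 τ hτ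
    (fun x hx => by
      have := (abs_le.1 (hv1 x hx)).2
      simpa using this)
    (fun x hx => by
      have := (abs_le.1 (hv1 x hx)).1
      simp only [Pi.zero_apply]
      linarith)
  have hSD : SD (0 : V3 → ℝ) 0 = hd := by
    funext x y
    exact dd_zero x y
  rw [hSD] at h2
  obtain ⟨e2, K2, hK2, he2, -⟩ := h2
  obtain ⟨Φ, K3, hK3, hinj, hΦ, -, -⟩ := ball_map
  set b : ℝ := Real.exp (-(a' - 0 + τ)) with hb
  set ea : ℝ := Real.exp (-(0 - a + 0)) with hea
  have hb0 : 0 < b := Real.exp_pos _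
  have hea0 : 0 < ea := Real.exp_pos _
  have hexp : 1 < ea * b := by
    rw [hb, hea, ← Real.exp_add]
    apply Real.one_lt_exp_iff.2
    linarith
  refine no_holder (vis hd oU) Φ hinj K3 (K2 * (L * (K1 * K ^ ea)) ^ b) (ea * b) hK3.le hΦ hexp
    (fun t => e2 (f (e (ξ t)))) ?_ ?_
  · intro s hs t ht
    have g1 : vis (SD u a) oU (e (ξ s)) (e (ξ t)) ≤ K1 * (K * |s - t|) ^ ea := by
      refine (he (ξ s) (ξ t)).trans (mul_le_mul_of_nonneg_left ?_ hK1.le)
      exact Real.rpow_le_rpow (vis_nonneg _ (hpmS u hu 0) oU _ _) (hξ s hs t ht) hea0.le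
    have g2 : vis (SD v a') oU (f (e (ξ s))) (f (e (ξ t))) ≤ L * (K1 * (K * |s - t|) ^ ea) :=
      (hf _ _).trans (mul_le_mul_of_nonneg_left g1 hL.le)
    have g3 : vis hd oU (e2 (f (e (ξ s)))) (e2 (f (e (ξ t)))) ≤
        K2 * (L * (K1 * (K * |s - t|) ^ ea)) ^ b := by
      refine (he2 _ _).trans (mul_le_mul_of_nonneg_left ?_ hK2.le)
      exact Real.rpow_le_rpow (vis_nonneg _ (hpmS v hv a') oU _ _) g2 hb0.le
    refine g3.trans (le_of_eq ?_)
    have habs : 0 ≤ |s - t| := abs_nonneg _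
    rw [Real.mul_rpow hK.le habs, Real.rpow_mul habs,
      show L * (K1 * (K ^ ea * |s - t| ^ ea)) = (L * (K1 * K ^ ea)) * |s - t| ^ ea by ring,
      Real.mul_rpow (by positivity) (by positivity)]
    ring
  · intro h
    exact hne (e.injective (f.injective (e2.injective h)))
end Pool.Agent.BL.NoBi
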