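import Pool.Agent.BL.Defs

set_option autoImplicit false
open Set Filter Topology MeasureTheory
open scoped ContDiff


namespace Pool.Agent.BL.Par
open Pool.Agent.BL

open Set Filter Topology MeasureTheory
open scoped ContDiff

/-! ## TARGET (prove this) -/

/-- choice of the parameters -/
theorem params (K s₁ ε₁ : ℝ) (hK : 0 < K) (h0 : 0 < s₁) (h1 : s₁ ≤ 1 / 4) (h2 : 0 < ε₁) :
    ∃ ε τ₀ : ℝ, 0 < ε ∧ ε ≤ 1 ∧ ε ≤ ε₁ ∧ K * ε < 1 ∧ 0 < τ₀ ∧
    ∀ m₀ m₁ τ : ℝ, 1 - K * ε ≤ m₀ → 0 < m₁ → m₁ ≤ 1 - s₁ → 0 ≤ τ → τ ≤ τ₀ →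
      2 * Real.exp ε / Real.sqrt m₀ ≤ 2 * Real.exp (-τ) / Real.sqrt m₁ := by
  have hd : 0 < s₁ / (8 * K) := by positivity
  have hKe : K * (s₁ / (8 * K)) = s₁ / 8 := by field_simp
  refine ⟨min (min 1 ε₁) (min (s₁ / 16) (s₁ / (8 * K))), s₁ / 16, ?_, ?_, ?_, ?_, by positivity, ?_⟩
  · exact lt_min (lt_min one_pos h2) (lt_min (by positivity) hd)
  · exact (min_le_left _ _).trans (min_le_left _ _)
  · exact (min_le_left _ _).trans (min_le_right _ _)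
  · have h3 : K * min (min 1 ε₁) (min (s₁ / 16) (s₁ / (8 * K))) ≤ K * (s₁ / (8 * K)) :=
      mul_le_mul_of_nonneg_left ((min_le_right _ _).trans (min_le_right _ _)) hK.le
    linarith
  · intro m₀ m₁ τ hm₀ hm₁ hm₁' hτ hτ'
    have h3 : K * min (min 1 ε₁) (min (s₁ / 16) (s₁ / (8 * K))) ≤ K * (s₁ / (8 * K)) :=
      mul_le_mul_of_nonneg_left ((min_le_right _ _).trans (min_le_right _ _)) hK.le
    have h4 : min (min 1 ε₁) (min (s₁ / 16) (s₁ / (8 * K))) ≤ s₁ / 16 :=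
      (min_le_right _ _).trans (min_le_left _ _)
    generalize min (min 1 ε₁) (min (s₁ / 16) (s₁ / (8 * K))) = ε at hm₀ h3 h4 ⊢
    have hm0 : 1 - s₁ / 8 ≤ m₀ := by linarith
    have hm0p : 0 < m₀ := by linarith
    have hs0 : 1 - s₁ / 8 ≤ Real.sqrt m₀ := by
      apply Real.le_sqrt_of_sq_le
      nlinarith
    have hs1 : Real.sqrt m₁ ≤ 1 - s₁ / 2 := by
      rw [Real.sqrt_le_iff]
      constructor
      · linarith
      · nlinarith
    have he : 1 - s₁ / 8 ≤ Real.exp (-τ - ε) := by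
      have := Real.add_one_le_exp (-τ - ε)
      linarith
    have hsp0 : 0 < Real.sqrt m₀ := Real.sqrt_pos.2 hm0p
    have hsp1 : 0 < Real.sqrt m₁ := Real.sqrt_pos.2 hm₁
    have h5 : Real.sqrt m₁ ≤ Real.exp (-τ - ε) * Real.sqrt m₀ := by
      calc Real.sqrt m₁ ≤ 1 - s₁ / 2 := hs1
        _ ≤ (1 - s₁ / 8) * (1 - s₁ / 8) := by nlinarith
        _ ≤ Real.exp (-τ - ε) * Real.sqrt m₀ :=
          mul_le_mul he hs0 (by linarith) (Real.exp_pos _).le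
    rw [div_le_div_iff₀ hsp0 hsp1]
    have h6 : Real.exp (-τ) = Real.exp ε * Real.exp (-τ - ε) := by
      rw [← Real.exp_add]
      congr 1
      ring
    rw [h6]
    have h7 := mul_le_mul_of_nonneg_left h5 (Real.exp_pos ε).le
    nlinarith

end Pool.Agent.BL.Par
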