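import Pool.Agent.BL.Defs

set_option autoImplicit false
open Set Filter Topology MeasureTheory
open scoped ContDiff


namespace Pool.Agent.BL.Prof0
open Pool.Agent.BL

open Set Filter Topology MeasureTheory
open scoped ContDiff

/-! ## TARGET (prove this) -/

theorem kappa_bound_aux (ε b b1 b2 c Q B C₁ : ℝ) (hC₁ : 1 < C₁) (h0 : 0 ≤ ε) (h1 : ε ≤ 1)
    (hb0 : 0 ≤ b) (hb1 : b ≤ 1) (hB0 : 0 ≤ B) (hB1 : |b1| ≤ B) (hB2 : |b2| ≤ B)
    (hc1 : 1 ≤ c) (hcC : c ≤ C₁) (hQ0 : 0 ≤ Q) (hQ : Q ≤ c ^ 2 - 1) :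
    |-(Real.exp (-2 * (-(ε * b)))) *
    (1 + 2 * (-(ε * b1)) * c + (-(ε * b1)) ^ 2 * (c ^ 2 - 1)
      + (-(ε * b2) - (-(ε * b1)) ^ 2) * Q) + 1| ≤
      (Real.exp 2 * (2 + (2 * B * C₁ + B ^ 2 * C₁ ^ 2 + (B + B ^ 2) * C₁ ^ 2))) * ε := by
  set t : ℝ := -2 * (-(ε * b)) with ht
  have ht' : t = 2 * (ε * b) := by rw [ht]; ring
  have hεb : ε * b ≤ ε := by nlinarith
  have hεb0 : 0 ≤ ε * b := mul_nonneg h0 hb0
  have ht0 : 0 ≤ t := by rw [ht']; linarith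
  have ht2 : t ≤ 2 * ε := by rw [ht']; linarith
  have hexp2 : Real.exp t ≤ Real.exp 2 := Real.exp_le_exp.mpr (by linarith)
  have hexp1 : 1 ≤ Real.exp t := Real.one_le_exp ht0
  have hexpm : Real.exp t - 1 ≤ 2 * ε * Real.exp 2 := by
    have h3 : 1 - t ≤ Real.exp (-t) := by
      have := Real.add_one_le_exp (-t)
      linarith
    have h4 : Real.exp t * Real.exp (-t) = 1 := by
      rw [← Real.exp_add]; simp
    have h5 : Real.exp t - 1 ≤ t * Real.exp t := by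
      nlinarith [Real.exp_pos t]
    have h6 : t * Real.exp t ≤ 2 * ε * Real.exp 2 :=
      mul_le_mul ht2 hexp2 (Real.exp_pos t).le (by linarith)
    linarith
  set X : ℝ := -2 * b1 * c + ε * b1 ^ 2 * (c ^ 2 - 1) + (-b2 - ε * b1 ^ 2) * Q with hX
  have hXeq : (1 + 2 * (-(ε * b1)) * c + (-(ε * b1)) ^ 2 * (c ^ 2 - 1)
      + (-(ε * b2) - (-(ε * b1)) ^ 2) * Q) = 1 + ε * X := by
    rw [hX]; ring
  have hc2 : c ^ 2 ≤ C₁ ^ 2 := by nlinarith
  have hc21 : 0 ≤ c ^ 2 - 1 := by nlinarith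
  have hc22 : c ^ 2 - 1 ≤ C₁ ^ 2 := by linarith
  have hQC : Q ≤ C₁ ^ 2 := by linarith
  have hb1sq : b1 ^ 2 ≤ B ^ 2 := by
    rw [← sq_abs b1]; exact pow_le_pow_left₀ (abs_nonneg _) hB1 2
  have hεb1 : ε * b1 ^ 2 ≤ B ^ 2 := by nlinarith [sq_nonneg b1]
  have hεb10 : 0 ≤ ε * b1 ^ 2 := mul_nonneg h0 (sq_nonneg _)
  have hXa : |X| ≤ 2 * B * C₁ + B ^ 2 * C₁ ^ 2 + (B + B ^ 2) * C₁ ^ 2 := by
    have e1 : |-2 * b1 * c| ≤ 2 * B * C₁ := by
      rw [abs_mul, abs_mul, abs_of_nonneg (by linarith : (0:ℝ) ≤ c)]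
      have : |(-2 : ℝ)| = 2 := by norm_num
      rw [this]
      exact mul_le_mul (by linarith) hcC (by linarith) (by linarith)
    have e2 : |ε * b1 ^ 2 * (c ^ 2 - 1)| ≤ B ^ 2 * C₁ ^ 2 := by
      rw [abs_of_nonneg (mul_nonneg hεb10 hc21)]
      exact mul_le_mul hεb1 hc22 hc21 (sq_nonneg _)
    have e3 : |(-b2 - ε * b1 ^ 2) * Q| ≤ (B + B ^ 2) * C₁ ^ 2 := by
      rw [abs_mul, abs_of_nonneg hQ0]
      refine mul_le_mul ?_ hQC hQ0 (by positivity)
      calc |-b2 - ε * b1 ^ 2| ≤ |-b2| + |ε * b1 ^ 2| := abs_sub _ _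
        _ ≤ B + B ^ 2 := by
          rw [abs_neg, abs_of_nonneg hεb10]; linarith
    calc |X| ≤ |-2 * b1 * c + ε * b1 ^ 2 * (c ^ 2 - 1)| + |(-b2 - ε * b1 ^ 2) * Q| := abs_add_le _ _
      _ ≤ |-2 * b1 * c| + |ε * b1 ^ 2 * (c ^ 2 - 1)| + |(-b2 - ε * b1 ^ 2) * Q| := by
        have := abs_add_le (-2 * b1 * c) (ε * b1 ^ 2 * (c ^ 2 - 1))
        linarith
      _ ≤ _ := by linarith
  rw [hXeq]
  have e : -(Real.exp t) * (1 + ε * X) + 1 = -(Real.exp t - 1) + -(Real.exp t * (ε * X)) := by ring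
  rw [e]
  have f1 : |-(Real.exp t - 1)| ≤ 2 * ε * Real.exp 2 := by
    rw [abs_neg, abs_of_nonneg (by linarith)]; exact hexpm
  have f2 : |-(Real.exp t * (ε * X))| ≤ Real.exp 2 *
      (ε * (2 * B * C₁ + B ^ 2 * C₁ ^ 2 + (B + B ^ 2) * C₁ ^ 2)) := by
    rw [abs_neg, abs_mul, abs_mul, abs_of_nonneg h0, abs_of_pos (Real.exp_pos t)]
    exact mul_le_mul hexp2 (mul_le_mul_of_nonneg_left hXa h0) (mul_nonneg h0 (abs_nonneg _))
      (Real.exp_pos _).le
  calc _ ≤ |-(Real.exp t - 1)| + |-(Real.exp t * (ε * X))| := abs_add_le _ _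
    _ ≤ 2 * ε * Real.exp 2 + Real.exp 2 *
      (ε * (2 * B * C₁ + B ^ 2 * C₁ ^ 2 + (B + B ^ 2) * C₁ ^ 2)) := by linarith
    _ = _ := by ring

theorem profile0 (C₁ : ℝ) (hC₁ : 1 < C₁) : ∃ (β : ℝ → ℝ) (K c1 : ℝ), ContDiff ℝ ∞ β ∧
    (∀ c, 0 ≤ β c ∧ β c ≤ 1) ∧ 1 < c1 ∧ (∀ c, c ≤ c1 → β c = 1) ∧ (∀ c, C₁ ≤ c → β c = 0) ∧
    0 < K ∧ ∀ ε, 0 ≤ ε → ε ≤ 1 → ∀ c Q, 1 ≤ c → 0 ≤ Q → Q ≤ c ^ 2 - 1 →
      |kappa (fun c => -(ε * β c)) c Q + 1| ≤ K * ε := by
  set c1 : ℝ := (1 + C₁) / 2 with hc1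
  have hc11 : 1 < c1 := by rw [hc1]; linarith
  have hc1C : c1 < C₁ := by rw [hc1]; linarith
  set β : ℝ → ℝ := fun c => 1 - Real.smoothTransition ((c - c1) / (C₁ - c1)) with hβ
  have hsm : ContDiff ℝ ∞ β := by
    rw [hβ]
    refine contDiff_const.sub ?_
    exact Real.smoothTransition.contDiff.comp ((contDiff_id.sub contDiff_const).div_const _)
  have hβ01 : ∀ c, 0 ≤ β c ∧ β c ≤ 1 := by
    intro c
    have h1 := Real.smoothTransition.le_one ((c - c1) / (C₁ - c1))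
    have h2 := Real.smoothTransition.nonneg ((c - c1) / (C₁ - c1))
    simp only [hβ]
    constructor <;> linarith
  have hβ1 : ∀ c, c ≤ c1 → β c = 1 := by
    intro c hc
    simp only [hβ]
    rw [Real.smoothTransition.zero_of_nonpos (div_nonpos_of_nonpos_of_nonneg (by linarith)
      (by linarith))]
    ring
  have hβ0 : ∀ c, C₁ ≤ c → β c = 0 := by
    intro c hc
    simp only [hβ]
    rw [Real.smoothTransition.one_of_one_le (by rw [le_div_iff₀ (by linarith)]; linarith)]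
    ring
  have hd1 : Continuous (deriv β) := hsm.continuous_deriv (by simp)
  have hd2 : Continuous (deriv (deriv β)) := by
    have h3 : ContDiff ℝ ∞ (deriv β) := by
      have := (contDiff_infty_iff_deriv).mp hsm
      exact this.2
    exact h3.continuous_deriv (by simp)
  have hdiff : Differentiable ℝ β := hsm.differentiable (by simp)
  have hdiff1 : Differentiable ℝ (deriv β) := by
    have h3 : ContDiff ℝ ∞ (deriv β) := by
      have := (contDiff_infty_iff_deriv).mp hsm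
      exact this.2
    exact h3.differentiable (by simp)
  obtain ⟨B1, hB1⟩ := isCompact_Icc.exists_bound_of_continuousOn (s := Icc (1:ℝ) C₁)
    hd1.continuousOn
  obtain ⟨B2, hB2⟩ := isCompact_Icc.exists_bound_of_continuousOn (s := Icc (1:ℝ) C₁)
    hd2.continuousOn
  set B : ℝ := max (max B1 B2) 0 with hB
  have hB0 : 0 ≤ B := le_max_right _ _
  refine ⟨β, Real.exp 2 * (2 + (2 * B * C₁ + B ^ 2 * C₁ ^ 2 + (B + B ^ 2) * C₁ ^ 2)), c1, hsm,
    hβ01, hc11, hβ1, hβ0, ?_, ?_⟩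
  · positivity
  · intro ε h0 h1 c Q hc hQ0 hQ
    have e1 : deriv (fun c => -(ε * β c)) = fun c => -(ε * deriv β c) := by
      funext x
      exact ((hdiff x).hasDerivAt.const_mul ε).neg.deriv
    have e2 : deriv (fun c => -(ε * deriv β c)) = fun c => -(ε * deriv (deriv β) c) := by
      funext x
      exact ((hdiff1 x).hasDerivAt.const_mul ε).neg.deriv
    unfold kappa
    simp only [e1, e2]
    by_cases hcC : c ≤ C₁
    · refine kappa_bound_aux ε (β c) (deriv β c) (deriv (deriv β) c) c Q B C₁ hC₁ h0 h1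
        (hβ01 c).1 (hβ01 c).2 hB0 ?_ ?_ hc hcC hQ0 hQ
      · have := hB1 c ⟨hc, hcC⟩
        rw [Real.norm_eq_abs] at this
        exact this.trans ((le_max_left _ _).trans (le_max_left _ _))
      · have := hB2 c ⟨hc, hcC⟩
        rw [Real.norm_eq_abs] at this
        exact this.trans ((le_max_right _ _).trans (le_max_left _ _))
    · push Not at hcC
      have hev : β =ᶠ[𝓝 c] fun _ => 0 := by
        filter_upwards [Ioi_mem_nhds hcC] with x hx
        exact hβ0 x (le_of_lt hx)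
      have hev1 : deriv β =ᶠ[𝓝 c] fun _ => 0 := by
        have := hev.deriv
        filter_upwards [this] with x hx
        rw [hx]; simp
      have g0 : β c = 0 := hβ0 c hcC.le
      have g1 : deriv β c = 0 := hev1.eq_of_nhds
      have g2 : deriv (deriv β) c = 0 := by
        rw [hev1.deriv_eq]; simp
      rw [g0, g1, g2]
      simp
      positivity

end Pool.Agent.BL.Prof0
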