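import Pool.Agent.BL.Defs

set_option autoImplicit false
open Set Filter Topology MeasureTheory
open scoped ContDiff


namespace Pool.Agent.BL.Prof1
open Pool.Agent.BL

open Set Filter Topology MeasureTheory
open scoped ContDiff

/-! ## TARGET (prove this) -/

/-- the basic profile -/
noncomputable def p1x (x : ℝ) : ℝ := Real.smoothTransition (2 - 2 * x) * (1 - x)

theorem p1_cd : ContDiff ℝ ∞ p1x := by
  unfold p1x
  apply ContDiff.mul
  · apply Real.smoothTransition.contDiff.comp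
    fun_prop
  · fun_prop

theorem p1_zero (x : ℝ) (hx : 1 ≤ x) : p1x x = 0 := by
  unfold p1x
  rw [Real.smoothTransition.zero_of_nonpos (by linarith), zero_mul]

theorem p1_nonneg (x : ℝ) : 0 ≤ p1x x := by
  rcases le_total 1 x with h | h
  · rw [p1_zero x h]
  · exact mul_nonneg (Real.smoothTransition.nonneg _) (by linarith)

theorem p1_d0 : deriv p1x 0 = -1 := by
  have h1 : p1x =ᶠ[𝓝 0] fun x => 1 - x := by
    filter_upwards [Iio_mem_nhds (show (0 : ℝ) < 1 / 2 by norm_num)] with x hx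
    have hx' : x < 1 / 2 := hx
    unfold p1x
    rw [Real.smoothTransition.one_of_one_le (by linarith), one_mul]
  rw [h1.deriv_eq]
  have h2 : HasDerivAt (fun x : ℝ => 1 - x) (-1) 0 := by
    simpa using (hasDerivAt_id (0 : ℝ)).const_sub 1
  exact h2.deriv

theorem p1_dz (x : ℝ) (hx : 1 < x) : deriv p1x x = 0 ∧ deriv (deriv p1x) x = 0 := by
  have h1 : ∀ y : ℝ, 1 < y → deriv p1x y = 0 := by
    intro y hy
    have h2 : p1x =ᶠ[𝓝 y] fun _ => (0 : ℝ) := by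
      filter_upwards [Ioi_mem_nhds hy] with r hr
      exact p1_zero r (le_of_lt hr)
    rw [h2.deriv_eq, deriv_const]
  refine ⟨h1 x hx, ?_⟩
  have h2 : deriv p1x =ᶠ[𝓝 x] fun _ => (0 : ℝ) := by
    filter_upwards [Ioi_mem_nhds hx] with r hr
    exact h1 r hr
  rw [h2.deriv_eq, deriv_const]

theorem p1_cd1 : ContDiff ℝ ∞ (deriv p1x) := (contDiff_infty_iff_deriv.1 p1_cd).2

theorem p1_cd2 : ContDiff ℝ ∞ (deriv (deriv p1x)) := (contDiff_infty_iff_deriv.1 p1_cd1).2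

theorem p1_bd1 (f : ℝ → ℝ) (hf : Continuous f) (h0 : ∀ x, 1 < x → f x = 0) :
    ∃ B : ℝ, 0 ≤ B ∧ ∀ x, 0 ≤ x → |f x| ≤ B := by
  obtain ⟨B, hB⟩ := (isCompact_Icc (a := (0 : ℝ)) (b := 1)).exists_bound_of_continuousOn
    hf.continuousOn
  refine ⟨max B 0, le_max_right _ _, fun x hx => ?_⟩
  rcases le_or_gt x 1 with h | h
  · exact (hB x ⟨hx, h⟩).trans (le_max_left _ _)
  · rw [h0 x h, abs_zero]
    exact le_max_right _ _

theorem p1_bd : ∃ B : ℝ, 1 ≤ B ∧ ∀ x, 0 ≤ x → |p1x x| ≤ B ∧ |deriv p1x x| ≤ B ∧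
    |deriv (deriv p1x) x| ≤ B := by
  obtain ⟨B1, h1, h1'⟩ := p1_bd1 p1x p1_cd.continuous (fun x hx => p1_zero x hx.le)
  obtain ⟨B2, h2, h2'⟩ := p1_bd1 (deriv p1x) p1_cd1.continuous (fun x hx => (p1_dz x hx).1)
  obtain ⟨B3, h3, h3'⟩ := p1_bd1 (deriv (deriv p1x)) p1_cd2.continuous (fun x hx => (p1_dz x hx).2)
  refine ⟨1 + B1 + B2 + B3, by linarith, fun x hx => ⟨?_, ?_, ?_⟩⟩
  · linarith [h1' x hx]
  · linarith [h2' x hx]
  · linarith [h3' x hx]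

theorem p1_inner (ε c : ℝ) : HasDerivAt (fun c : ℝ => (c - 1) / ε) (1 / ε) c := by
  simpa using ((hasDerivAt_id c).sub_const 1).div_const ε

theorem p1_db (s ε : ℝ) (hε : 0 < ε) : deriv (fun c => s * (ε * p1x ((c - 1) / ε))) =
    fun c => s * deriv p1x ((c - 1) / ε) := by
  funext c
  have h1 : HasDerivAt p1x (deriv p1x ((c - 1) / ε)) ((c - 1) / ε) :=
    (p1_cd.differentiable (by simp) _).hasDerivAt
  have h2 := ((h1.comp c (p1_inner ε c)).const_mul ε).const_mul s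
  have h3 : s * (ε * (deriv p1x ((c - 1) / ε) * (1 / ε))) = s * deriv p1x ((c - 1) / ε) := by
    field_simp
  rw [h3] at h2
  exact h2.deriv

theorem p1_ddb (s ε : ℝ) : deriv (fun c => s * deriv p1x ((c - 1) / ε)) =
    fun c => s * (deriv (deriv p1x) ((c - 1) / ε) / ε) := by
  funext c
  have h1 : HasDerivAt (deriv p1x) (deriv (deriv p1x) ((c - 1) / ε)) ((c - 1) / ε) :=
    (p1_cd1.differentiable (by simp) _).hasDerivAt
  have h2 := (h1.comp c (p1_inner ε c)).const_mul s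
  have h3 : s * (deriv (deriv p1x) ((c - 1) / ε) * (1 / ε)) =
      s * (deriv (deriv p1x) ((c - 1) / ε) / ε) := by
    ring
  rw [h3] at h2
  exact h2.deriv

theorem p1_kappa (s ε c Q : ℝ) (hε : 0 < ε) : kappa (fun c => s * (ε * p1x ((c - 1) / ε))) c Q =
    -(Real.exp (-2 * (s * (ε * p1x ((c - 1) / ε))))) *
    (1 + 2 * (s * deriv p1x ((c - 1) / ε)) * c + (s * deriv p1x ((c - 1) / ε)) ^ 2 * (c ^ 2 - 1)
      + (s * (deriv (deriv p1x) ((c - 1) / ε) / ε) - (s * deriv p1x ((c - 1) / ε)) ^ 2) * Q) := by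
  unfold kappa
  rw [p1_db s ε hε, p1_ddb]

theorem p1_est (s ε c Q B p d e : ℝ) (hs : 0 ≤ s) (hε : 0 < ε) (hε1 : ε ≤ 1) (hB : 1 ≤ B)
    (hsB : s * B ≤ 1 / 18) (hc : 1 ≤ c) (hce : c ≤ 1 + ε) (hQ : 0 ≤ Q) (hQc : Q ≤ c ^ 2 - 1)
    (hp0 : 0 ≤ p) (hp : |p| ≤ B) (hd : |d| ≤ B) (he : |e| ≤ B) :
    -(Real.exp (-2 * (s * (ε * p)))) *
    (1 + 2 * (s * d) * c + (s * d) ^ 2 * (c ^ 2 - 1) + (s * (e / ε) - (s * d) ^ 2) * Q) ≤
      -(1 / 2) := by
  have hB0 : 0 < B := by linarith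
  have hsB0 : 0 ≤ s * B := by positivity
  -- the exponential
  have h1 : s * (ε * p) ≤ s * B := by
    apply mul_le_mul_of_nonneg_left _ hs
    have := (abs_le.1 hp).2
    nlinarith
  have h2 : 1 - 2 * (s * B) ≤ Real.exp (-2 * (s * (ε * p))) := by
    have := Real.add_one_le_exp (-2 * (s * (ε * p)))
    linarith
  -- the bracket
  have h3 : -(4 * (s * B)) ≤ 2 * (s * d) * c := by
    have hd1 := (abs_le.1 hd).1
    have hc2 : c ≤ 2 := by linarith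
    have h4 : -(s * B) ≤ s * d := by nlinarith
    have h5 : -(2 * (s * B)) ≤ (s * d) * c := by
      have : -(s * B) * c ≤ (s * d) * c := mul_le_mul_of_nonneg_right h4 (by linarith)
      nlinarith
    linarith
  have h6 : 0 ≤ (s * d) ^ 2 * (c ^ 2 - 1 - Q) := mul_nonneg (sq_nonneg _) (by linarith)
  have h7 : -(3 * (s * B)) ≤ s * (e / ε) * Q := by
    have hQ3 : Q ≤ 3 * ε := by nlinarith
    have h8 : |s * (e / ε) * Q| ≤ 3 * (s * B) := by
      rw [abs_mul, abs_mul, abs_div, abs_of_nonneg hs, abs_of_pos hε, abs_of_nonneg hQ]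
      have h9 : |e| / ε * Q ≤ 3 * B := by
        rw [div_mul_eq_mul_div, div_le_iff₀ hε]
        have := mul_le_mul he hQ3 hQ hB0.le
        linarith
      have := mul_le_mul_of_nonneg_left h9 hs
      linarith
    exact (abs_le.1 h8).1
  have h10 : 1 - 7 * (s * B) ≤
      1 + 2 * (s * d) * c + (s * d) ^ 2 * (c ^ 2 - 1) + (s * (e / ε) - (s * d) ^ 2) * Q := by
    nlinarith
  have h11 : (1 - 2 * (s * B)) * (1 - 7 * (s * B)) ≤ Real.exp (-2 * (s * (ε * p))) *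
      (1 + 2 * (s * d) * c + (s * d) ^ 2 * (c ^ 2 - 1) + (s * (e / ε) - (s * d) ^ 2) * Q) :=
    mul_le_mul h2 h10 (by linarith) (Real.exp_pos _).le
  have h12 : 1 / 2 ≤ (1 - 2 * (s * B)) * (1 - 7 * (s * B)) := by nlinarith
  linarith

theorem profile1 (C₁ : ℝ) (hC₁ : 1 < C₁) : ∃ s₁ : ℝ, 0 < s₁ ∧ s₁ ≤ 1 / 4 ∧ ∀ τ : ℝ, 0 < τ →
    ∃ χ : ℝ → ℝ, ContDiff ℝ ∞ χ ∧ (∀ c, C₁ ≤ c → χ c = 0) ∧ (∀ c, 1 ≤ c → |χ c| ≤ τ) ∧
      (∀ s, 0 ≤ s → s ≤ s₁ → ∀ c Q, 1 ≤ c → 0 ≤ Q → Q ≤ c ^ 2 - 1 →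
        kappa (fun c => s * χ c) c Q ≤ -(1 / 2)) ∧
      -(1 - s₁) ≤ kappa (fun c => s₁ * χ c) 1 0 := by
  obtain ⟨B, hB, hbd⟩ := p1_bd
  have hB0 : 0 < B := by linarith
  refine ⟨min (1 / 4) (1 / (18 * B)), lt_min (by norm_num) (by positivity), min_le_left _ _, ?_⟩
  obtain ⟨s1, hs1⟩ : ∃ s1 : ℝ, s1 = min (1 / 4) (1 / (18 * B)) := ⟨_, rfl⟩
  rw [← hs1]
  have hs1B : s1 * B ≤ 1 / 18 := by
    have h1 : s1 ≤ 1 / (18 * B) := by rw [hs1]; exact min_le_right _ _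
    have h2 := mul_le_mul_of_nonneg_right h1 hB0.le
    have h3 : 1 / (18 * B) * B = 1 / 18 := by field_simp
    linarith
  have hs14 : s1 ≤ 1 / 4 := by rw [hs1]; exact min_le_left _ _
  have hs10 : 0 < s1 := by rw [hs1]; exact lt_min (by norm_num) (by positivity)
  intro τ hτ
  obtain ⟨ε, hεd⟩ : ∃ ε : ℝ, ε = min 1 (min (C₁ - 1) (τ / B)) := ⟨_, rfl⟩
  have hε0 : 0 < ε := by
    rw [hεd]
    exact lt_min one_pos (lt_min (by linarith) (by positivity))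
  have hε1 : ε ≤ 1 := by rw [hεd]; exact min_le_left _ _
  have hεC : ε ≤ C₁ - 1 := by rw [hεd]; exact (min_le_right _ _).trans (min_le_left _ _)
  have hετ : ε * B ≤ τ := by
    have h1 : ε ≤ τ / B := by rw [hεd]; exact (min_le_right _ _).trans (min_le_right _ _)
    rwa [le_div_iff₀ hB0] at h1
  refine ⟨fun c => ε * p1x ((c - 1) / ε), ?_, ?_, ?_, ?_, ?_⟩
  · apply ContDiff.mul contDiff_const
    apply p1_cd.comp
    fun_prop
  · intro c hc
    simp only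
    rw [p1_zero _ (by rw [le_div_iff₀ hε0]; linarith), mul_zero]
  · intro c hc
    simp only
    have hx : 0 ≤ (c - 1) / ε := div_nonneg (by linarith) hε0.le
    rw [abs_mul, abs_of_pos hε0]
    exact (mul_le_mul_of_nonneg_left (hbd _ hx).1 hε0.le).trans hετ
  · intro s hs0 hss c Q hc hQ hQc
    have hx : 0 ≤ (c - 1) / ε := div_nonneg (by linarith) hε0.le
    rw [p1_kappa s ε c Q hε0]
    rcases le_or_gt ((c - 1) / ε) 1 with hx1 | hx1
    · obtain ⟨b1, b2, b3⟩ := hbd _ hx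
      rw [div_le_iff₀ hε0] at hx1
      apply p1_est s ε c Q B _ _ _ hs0 hε0 hε1 hB _ hc (by linarith) hQ hQc (p1_nonneg _) b1 b2 b3
      have := mul_le_mul_of_nonneg_right hss hB0.le
      linarith
    · rw [p1_zero _ hx1.le, (p1_dz _ hx1).1, (p1_dz _ hx1).2]
      simp
      norm_num
  · rw [p1_kappa s1 ε 1 0 hε0]
    have e1 : ((1 : ℝ) - 1) / ε = 0 := by simp
    rw [e1, p1_d0]
    have h1 : Real.exp (-2 * (s1 * (ε * p1x 0))) ≤ 1 := by
      rw [Real.exp_le_one_iff]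
      have := p1_nonneg 0
      have : 0 ≤ s1 * (ε * p1x 0) := by positivity
      linarith
    have h2 : Real.exp (-2 * (s1 * (ε * p1x 0))) * (1 - 2 * s1) ≤ 1 * (1 - 2 * s1) :=
      mul_le_mul_of_nonneg_right h1 (by linarith)
    have h3 : -Real.exp (-2 * (s1 * (ε * p1x 0))) * (1 + 2 * (s1 * -1) * 1 +
        (s1 * -1) ^ 2 * (1 ^ 2 - 1) + (s1 * (deriv (deriv p1x) 0 / ε) - (s1 * -1) ^ 2) * 0) =
        -(Real.exp (-2 * (s1 * (ε * p1x 0))) * (1 - 2 * s1)) := by ring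
    rw [h3]
    linarith

end Pool.Agent.BL.Prof1
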