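import Pool.Agent.BL.Defs
import Pool.Agent.BL.Latt
import Pool.Agent.BL.Ball
import Pool.Agent.BL.Bump
import Pool.Agent.BL.Model
import Pool.Agent.BL.Prof0
import Pool.Agent.BL.Prof1
import Pool.Agent.BL.KCont
import Pool.Agent.BL.Par
import Pool.Agent.BL.Dm2
import Pool.Agent.BL.DmZ
import Pool.Agent.BL.SdH
import Pool.Agent.BL.NoBi
import Pool.Agent.BL.DdMono
import Pool.Agent.BL.DdPm

set_option autoImplicit false
open Set Filter Topology MeasureTheory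
open scoped ContDiff


namespace Pool.Agent.BL.Main
open Pool.Agent.BL
open Pool.Agent.BL.Latt (lattice)
open Pool.Agent.BL.Ball (ball_exists)
open Pool.Agent.BL.Bump (bump)
open Pool.Agent.BL.Model (model)
open Pool.Agent.BL.Prof0 (profile0)
open Pool.Agent.BL.Prof1 (profile1)
open Pool.Agent.BL.KCont (kappa_cont)
open Pool.Agent.BL.Par (params)
open Pool.Agent.BL.Dm2 (dm_gt_two)
open Pool.Agent.BL.DmZ (dm_zero)
open Pool.Agent.BL.SdH (dm_compare sd_hdim)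
open Pool.Agent.BL.NoBi (no_bilip)
open Pool.Agent.BL.DdMono (dd_zero)
open Pool.Agent.BL.DdPm (dd_pm)

open Set Filter Topology MeasureTheory
open scoped ContDiff

















/-! ## TARGET (prove this) -/

/-! ### the action of matrices (copied from other jobs) -/

/-- auxiliary: the complex coordinate. -/
noncomputable def zt (z : V3) : ℂ := ⟨z 0, z 1⟩

/-- auxiliary: denominator. -/
noncomputable def NN (A : Matrix (Fin 2) (Fin 2) ℂ) (z : V3) : ℝ :=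
  Complex.normSq (A 1 0 * zt z + A 1 1) + Complex.normSq (A 1 0) * (z 2) ^ 2

/-- auxiliary: numerator. -/
noncomputable def EE (A : Matrix (Fin 2) (Fin 2) ℂ) (z : V3) : ℂ :=
  (A 0 0 * zt z + A 0 1) * (starRingEnd ℂ) (A 1 0 * zt z + A 1 1)
    + A 0 0 * (starRingEnd ℂ) (A 1 0) * ((z 2) ^ 2 : ℝ)

theorem act_eq (A : Matrix (Fin 2) (Fin 2) ℂ) (z : V3) :
    act A z = ![(EE A z).re / NN A z, (EE A z).im / NN A z, z 2 / NN A z] := rfl

theorem NN_coe (A : Matrix (Fin 2) (Fin 2) ℂ) (z : V3) :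
    (NN A z : ℂ) = (A 1 0 * zt z + A 1 1) * (starRingEnd ℂ) (A 1 0 * zt z + A 1 1)
      + A 1 0 * (starRingEnd ℂ) (A 1 0) * ((z 2) : ℂ) ^ 2 := by
  unfold NN
  push_cast
  rw [Complex.mul_conj, Complex.mul_conj]

theorem NN_pos (A : Matrix (Fin 2) (Fin 2) ℂ) (hA : A.det = 1) (z : V3) (hz : z ∈ U) :
    0 < NN A z := by
  unfold NN
  have hz2 : 0 < z 2 := hz
  rcases eq_or_ne (A 1 0) 0 with hc | hc
  · rw [Matrix.det_fin_two] at hA
    have hd : A 1 1 ≠ 0 := by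
      intro hd
      rw [hc, hd] at hA
      simp at hA
    rw [hc]
    have := Complex.normSq_pos.2 hd
    simpa using hd
  · have h1 := Complex.normSq_pos.2 hc
    have h2 := Complex.normSq_nonneg (A 1 0 * zt z + A 1 1)
    positivity

theorem zt_act (A : Matrix (Fin 2) (Fin 2) ℂ) (z : V3) :
    zt (act A z) = EE A z / (NN A z : ℂ) := by
  rw [act_eq]
  apply Complex.ext
  · simp [zt, Complex.div_ofReal_re]
  · simp [zt, Complex.div_ofReal_im]

theorem t_act (A : Matrix (Fin 2) (Fin 2) ℂ) (z : V3) :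
    act A z 2 = z 2 / NN A z := by
  rw [act_eq]
  simp

theorem act_mem (A : Matrix (Fin 2) (Fin 2) ℂ) (hA : A.det = 1) (z : V3) (hz : z ∈ U) :
    act A z ∈ U := by
  show 0 < act A z 2
  rw [t_act]
  exact div_pos hz (NN_pos A hA z hz)

/-- real form of the denominator -/
def h170_N (c1 c2 d1 d2 x y t : ℝ) : ℝ :=
  (c1 * x - c2 * y + d1) ^ 2 + (c1 * y + c2 * x + d2) ^ 2 + (c1 ^ 2 + c2 ^ 2) * t ^ 2

/-- real part of the numerator -/
def h170_R (a1 a2 b1 b2 c1 c2 d1 d2 x y t : ℝ) : ℝ :=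
  (a1 * x - a2 * y + b1) * (c1 * x - c2 * y + d1) + (a1 * y + a2 * x + b2) * (c1 * y + c2 * x + d2)
    + (a1 * c1 + a2 * c2) * t ^ 2

/-- imaginary part of the numerator -/
def h170_J (a1 a2 b1 b2 c1 c2 d1 d2 x y t : ℝ) : ℝ :=
  (a1 * y + a2 * x + b2) * (c1 * x - c2 * y + d1) - (a1 * x - a2 * y + b1) * (c1 * y + c2 * x + d2)
    + (a2 * c1 - a1 * c2) * t ^ 2

def h170_D (a1 a2 b1 b2 c1 c2 d1 d2 : ℝ) : ℝ :=
  (a1 * d1 - a2 * d2 - b1 * c1 + b2 * c2) ^ 2 + (a1 * d2 + a2 * d1 - b1 * c2 - b2 * c1) ^ 2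

theorem h170_I (a1 a2 b1 b2 c1 c2 d1 d2 x y t : ℝ) :
    h170_N a1 a2 b1 b2 x y t * h170_N c1 c2 d1 d2 x y t -
      (h170_R a1 a2 b1 b2 c1 c2 d1 d2 x y t ^ 2 + h170_J a1 a2 b1 b2 c1 c2 d1 d2 x y t ^ 2) =
      t ^ 2 * h170_D a1 a2 b1 b2 c1 c2 d1 d2 := by
  unfold h170_N h170_R h170_J h170_D
  ring

theorem h170_II (a1 a2 b1 b2 c1 c2 d1 d2 x y t u v s : ℝ) :
    h170_N a1 a2 b1 b2 x y t * h170_N c1 c2 d1 d2 u v s +
      h170_N a1 a2 b1 b2 u v s * h170_N c1 c2 d1 d2 x y t -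
      2 * (h170_R a1 a2 b1 b2 c1 c2 d1 d2 x y t * h170_R a1 a2 b1 b2 c1 c2 d1 d2 u v s +
        h170_J a1 a2 b1 b2 c1 c2 d1 d2 x y t * h170_J a1 a2 b1 b2 c1 c2 d1 d2 u v s) =
      ((x - u) ^ 2 + (y - v) ^ 2 + t ^ 2 + s ^ 2) * h170_D a1 a2 b1 b2 c1 c2 d1 d2 := by
  unfold h170_N h170_R h170_J h170_D
  ring

theorem h170_fin {N R J M N' R' J' M' x y t u v s : ℝ} (hN : 0 < N) (hN' : 0 < N') (ht : 0 < t)
    (hs : 0 < s) (e1 : M * N - (R ^ 2 + J ^ 2) = t ^ 2) (e2 : M' * N' - (R' ^ 2 + J' ^ 2) = s ^ 2)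
    (e3 : M * N' + M' * N - 2 * (R * R' + J * J') = (x - u) ^ 2 + (y - v) ^ 2 + t ^ 2 + s ^ 2) :
    1 + ((R' / N' - R / N) ^ 2 + (J' / N' - J / N) ^ 2 + (s / N' - t / N) ^ 2) /
      (2 * (t / N) * (s / N')) = 1 + ((u - x) ^ 2 + (v - y) ^ 2 + (s - t) ^ 2) / (2 * t * s) := by
  have key : (R' * N - R * N') ^ 2 + (J' * N - J * N') ^ 2 + (s * N - t * N') ^ 2 =
      N * N' * ((u - x) ^ 2 + (v - y) ^ 2 + (s - t) ^ 2) := by
    linear_combination (-(N' ^ 2)) * e1 + (-(N ^ 2)) * e2 + (N * N') * e3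
  have h1 : (R' / N' - R / N) ^ 2 + (J' / N' - J / N) ^ 2 + (s / N' - t / N) ^ 2 =
      ((u - x) ^ 2 + (v - y) ^ 2 + (s - t) ^ 2) / (N * N') := by
    rw [eq_div_iff (by positivity)]
    have h2 : (R' / N' - R / N) ^ 2 + (J' / N' - J / N) ^ 2 + (s / N' - t / N) ^ 2 =
        ((R' * N - R * N') ^ 2 + (J' * N - J * N') ^ 2 + (s * N - t * N') ^ 2) / (N * N') ^ 2 := by
      field_simp
    rw [h2, key]
    field_simp
  rw [h1]
  congr 1
  field_simp

theorem act_ch (A : Matrix (Fin 2) (Fin 2) ℂ) (hA : A.det = 1) (z w : V3) (hz : z ∈ U)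
    (hw : w ∈ U) : ch (act A z) (act A w) = ch z w := by
  have hz' := act_mem A hA z hz
  have hw' := act_mem A hA w hw
  have hz0 : 0 < z 2 := hz
  have hw0 : 0 < w 2 := hw
  have f2 : ∀ z : V3, act A z 2 = z 2 /
      h170_N (A 1 0).re (A 1 0).im (A 1 1).re (A 1 1).im (z 0) (z 1) (z 2) := by
    intro z
    have : act A z 2 = z 2 / (Complex.normSq (A 1 0 * ⟨z 0, z 1⟩ + A 1 1) +
      Complex.normSq (A 1 0) * (z 2) ^ 2) := rfl
    rw [this]
    congr 1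
    simp only [Complex.normSq_apply, Complex.add_re, Complex.add_im, Complex.mul_re, Complex.mul_im,
      h170_N]
    ring
  have f0 : ∀ z : V3, act A z 0 =
      h170_R (A 0 0).re (A 0 0).im (A 0 1).re (A 0 1).im (A 1 0).re (A 1 0).im (A 1 1).re (A 1 1).im
        (z 0) (z 1) (z 2) /
      h170_N (A 1 0).re (A 1 0).im (A 1 1).re (A 1 1).im (z 0) (z 1) (z 2) := by
    intro z
    have : act A z 0 = ((A 0 0 * ⟨z 0, z 1⟩ + A 0 1) * (starRingEnd ℂ) (A 1 0 * ⟨z 0, z 1⟩ + A 1 1)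
      + A 0 0 * (starRingEnd ℂ) (A 1 0) * ((z 2) ^ 2 : ℝ)).re /
        (Complex.normSq (A 1 0 * ⟨z 0, z 1⟩ + A 1 1) + Complex.normSq (A 1 0) * (z 2) ^ 2) := rfl
    rw [this]
    congr 1
    · simp only [Complex.add_re, Complex.add_im, Complex.mul_re, Complex.mul_im, Complex.conj_re,
        Complex.conj_im, Complex.ofReal_re, Complex.ofReal_im, h170_R]
      ring
    · simp only [Complex.normSq_apply, Complex.add_re, Complex.add_im, Complex.mul_re, Complex.mul_im,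
        h170_N]
      ring
  have f1 : ∀ z : V3, act A z 1 =
      h170_J (A 0 0).re (A 0 0).im (A 0 1).re (A 0 1).im (A 1 0).re (A 1 0).im (A 1 1).re (A 1 1).im
        (z 0) (z 1) (z 2) /
      h170_N (A 1 0).re (A 1 0).im (A 1 1).re (A 1 1).im (z 0) (z 1) (z 2) := by
    intro z
    have : act A z 1 = ((A 0 0 * ⟨z 0, z 1⟩ + A 0 1) * (starRingEnd ℂ) (A 1 0 * ⟨z 0, z 1⟩ + A 1 1)
      + A 0 0 * (starRingEnd ℂ) (A 1 0) * ((z 2) ^ 2 : ℝ)).im /
        (Complex.normSq (A 1 0 * ⟨z 0, z 1⟩ + A 1 1) + Complex.normSq (A 1 0) * (z 2) ^ 2) := rfl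
    rw [this]
    congr 1
    · simp only [Complex.add_re, Complex.add_im, Complex.mul_re, Complex.mul_im, Complex.conj_re,
        Complex.conj_im, Complex.ofReal_re, Complex.ofReal_im, h170_J]
      ring
    · simp only [Complex.normSq_apply, Complex.add_re, Complex.add_im, Complex.mul_re, Complex.mul_im,
        h170_N]
      ring
  have hN0 : ∀ z : V3, 0 ≤ h170_N (A 1 0).re (A 1 0).im (A 1 1).re (A 1 1).im (z 0) (z 1) (z 2) := by
    intro z
    unfold h170_N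
    positivity
  have hNpos : ∀ z : V3, act A z ∈ U →
      0 < h170_N (A 1 0).re (A 1 0).im (A 1 1).re (A 1 1).im (z 0) (z 1) (z 2) := by
    intro z h
    rcases (hN0 z).lt_or_eq with h1 | h1
    · exact h1
    · exfalso
      have h2 : 0 < act A z 2 := h
      rw [f2, ← h1, div_zero] at h2
      exact lt_irrefl _ h2
  have hD : h170_D (A 0 0).re (A 0 0).im (A 0 1).re (A 0 1).im (A 1 0).re (A 1 0).im (A 1 1).re
      (A 1 1).im = 1 := by
    rw [Matrix.det_fin_two] at hA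
    have r1 := congrArg Complex.re hA
    have r2 := congrArg Complex.im hA
    simp only [Complex.sub_re, Complex.sub_im, Complex.mul_re, Complex.mul_im, Complex.one_re,
      Complex.one_im] at r1 r2
    unfold h170_D
    have q1 : (A 0 0).re * (A 1 1).re - (A 0 0).im * (A 1 1).im - (A 0 1).re * (A 1 0).re +
        (A 0 1).im * (A 1 0).im = 1 := by linarith
    have q2 : (A 0 0).re * (A 1 1).im + (A 0 0).im * (A 1 1).re - (A 0 1).re * (A 1 0).im -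
        (A 0 1).im * (A 1 0).re = 0 := by linarith
    rw [q1, q2]
    norm_num
  unfold ch
  rw [f0, f1, f2, f0, f1, f2]
  have e1 := h170_I (A 0 0).re (A 0 0).im (A 0 1).re (A 0 1).im (A 1 0).re (A 1 0).im (A 1 1).re
      (A 1 1).im (z 0) (z 1) (z 2)
  have e2 := h170_I (A 0 0).re (A 0 0).im (A 0 1).re (A 0 1).im (A 1 0).re (A 1 0).im (A 1 1).re
      (A 1 1).im (w 0) (w 1) (w 2)
  have e3 := h170_II (A 0 0).re (A 0 0).im (A 0 1).re (A 0 1).im (A 1 0).re (A 1 0).im (A 1 1).re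
      (A 1 1).im (z 0) (z 1) (z 2) (w 0) (w 1) (w 2)
  rw [hD, mul_one] at e1 e2 e3
  exact h170_fin (hNpos z hz') (hNpos w hw') hz0 hw0 e1 e2 e3


theorem ch_pos (p x : V3) (hp : p ∈ U) (hx : x ∈ U) : 1 ≤ ch p x := by
  have h1 : 0 < p 2 := hp
  have h2 : 0 < x 2 := hx
  unfold ch
  have : 0 ≤ ((x 0 - p 0) ^ 2 + (x 1 - p 1) ^ 2 + (x 2 - p 2) ^ 2) / (2 * p 2 * x 2) := by
    positivity
  linarith

theorem ch_symm (p x : V3) : ch p x = ch x p := by
  unfold ch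
  rw [show 2 * p 2 * x 2 = 2 * x 2 * p 2 by ring,
    show (x 0 - p 0) ^ 2 + (x 1 - p 1) ^ 2 + (x 2 - p 2) ^ 2 =
      (p 0 - x 0) ^ 2 + (p 1 - x 1) ^ 2 + (p 2 - x 2) ^ 2 by ring]

theorem cont_ch (p : U) : Continuous (fun x : U => ch p x) := by
  have hp : 0 < (p : V3) 2 := p.2
  unfold ch
  have h : ∀ i : Fin 3, Continuous (fun x : U => (x : V3) i) := fun i =>
    (continuous_apply i).comp continuous_subtype_val
  refine continuous_const.add (Continuous.div ?_ ?_ ?_)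
  · exact ((((h 0).sub continuous_const).pow 2).add (((h 1).sub continuous_const).pow 2)).add
      (((h 2).sub continuous_const).pow 2)
  · exact continuous_const.mul (h 2)
  · intro x
    have hx : 0 < (x : V3) 2 := x.2
    positivity

theorem syndetic (G : Subgroup (Equiv.Perm U))
    (hG : ∀ γ ∈ G, ∃ A : Matrix (Fin 2) (Fin 2) ℂ, A.det = 1 ∧ ∀ x : U, (γ x : V3) = act A x)
    (hcoc : ∃ K : Set U, IsCompact K ∧ ∀ x, ∃ γ ∈ G, γ x ∈ K) (p : U) :
    ∃ R : ℝ, ∀ x : U, ∃ γ ∈ G, hd x (γ p) ≤ R := by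
  obtain ⟨K, hK, hKG⟩ := hcoc
  obtain ⟨B, hB⟩ := hK.bddAbove_image (cont_ch p).continuousOn
  refine ⟨Real.arcosh (max B 1), fun x => ?_⟩
  obtain ⟨γ, hγ, hx⟩ := hKG x
  refine ⟨γ⁻¹, G.inv_mem hγ, ?_⟩
  obtain ⟨A, hA, hAx⟩ := hG γ hγ
  have h1 : ch (γ x) (γ (γ⁻¹ p)) = ch x (γ⁻¹ p : U) := by
    rw [hAx, hAx]
    exact act_ch A hA _ _ x.2 (γ⁻¹ p).2
  have h2 : γ (γ⁻¹ p) = p := by simp
  rw [h2, ch_symm] at h1
  have h3 : ch p (γ x) ≤ B := hB ⟨γ x, hx, rfl⟩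
  unfold hd
  rw [← h1]
  have h4 : 1 ≤ ch p (γ x) := ch_pos _ _ p.2 (γ x).2
  rw [Real.arcosh_le_arcosh (by linarith) (lt_of_lt_of_le one_pos (le_max_right _ _))]
  exact le_trans h3 (le_max_left _ _)

theorem ub_bound (G : Subgroup (Equiv.Perm U)) (p : U) (C₁ : ℝ) (b : ℝ → ℝ) (u : V3 → ℝ) (τ : ℝ)
    (hτ : 0 ≤ τ) (hb : ∀ c, 1 ≤ c → |b c| ≤ τ)
    (h : ∀ x : U, u x ≠ 0 → ∃ γ ∈ G, ch (γ p) x < C₁ ∧ u x = b (ch (γ p) x)) :
    ∀ x ∈ U, |u x| ≤ τ := by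
  intro x hx
  by_cases hu : u x = 0
  · rw [hu, abs_zero]; exact hτ
  · obtain ⟨γ, hγ, -, h2⟩ := h ⟨x, hx⟩ hu
    have h3 : u x = b (ch (γ p) x) := h2
    rw [h3]
    exact hb _ (ch_pos _ _ (γ p).2 hx)

theorem adm_zero : Adm 0 := by
  refine ⟨continuousOn_const, fun x _ => ?_⟩
  simp

theorem kappa_outside (b : ℝ → ℝ) (C₁ C₂ : ℝ) (h2 : C₁ < C₂) (h0 : ∀ c, C₁ ≤ c → b c = 0) :
    kappa b C₂ 0 = -1 := by
  have h1 : b =ᶠ[𝓝 C₂] fun _ => (0 : ℝ) := by
    filter_upwards [Ioi_mem_nhds h2] with x hx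
    exact h0 x (le_of_lt hx)
  have h3 : deriv b C₂ = 0 := by
    rw [h1.deriv_eq]
    simp
  unfold kappa
  rw [h3, h0 C₂ h2.le]
  simp

theorem plane_bound (c' : ℝ) (hc' : 0 < c') (z : V3) (hz : z ∈ U) (h : c' ≤ |z 1| / z 2) :
    z 2 / Real.sqrt ((z 1) ^ 2 + (z 2) ^ 2) ≤ 1 / Real.sqrt (1 + c' ^ 2) := by
  have hz2 : 0 < z 2 := hz
  rw [le_div_iff₀ hz2] at h
  have h1 : 0 < Real.sqrt (1 + c' ^ 2) := Real.sqrt_pos.2 (by positivity)
  have h2 : 0 < Real.sqrt ((z 1) ^ 2 + (z 2) ^ 2) := Real.sqrt_pos.2 (by positivity)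
  rw [div_le_div_iff₀ h2 h1, one_mul]
  apply Real.le_sqrt_of_sq_le
  rw [mul_pow, Real.sq_sqrt (by positivity)]
  have h3 : (c' * z 2) ^ 2 ≤ |z 1| ^ 2 := by
    apply pow_le_pow_left₀ (by positivity) h
  rw [sq_abs] at h3
  nlinarith

set_option maxHeartbeats 4000000 in
theorem main : ∃ (g₀ g₁ : V3 → V3 → V3 → ℝ) (G : Subgroup (Equiv.Perm U)),
    IsModel U g₀ G ∧ IsModel U g₁ G ∧
      hausdorffDim (vis (fun x y : U => rdist U g₀ x y) oU) =
        hausdorffDim (vis (fun x y : U => rdist U g₁ x y) oU) ∧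
      2 < hausdorffDim (vis (fun x y : U => rdist U g₀ x y) oU) ∧
      ¬ ∃ (f : Bdry (fun x y : U => rdist U g₀ x y) oU ≃ Bdry (fun x y : U => rdist U g₁ x y) oU)
        (L : ℝ), 0 < L ∧ ∀ ξ η,
          vis (fun x y : U => rdist U g₀ x y) oU ξ η / L ≤
            vis (fun x y : U => rdist U g₁ x y) oU (f ξ) (f η) ∧
          vis (fun x y : U => rdist U g₁ x y) oU (f ξ) (f η) ≤
            L * vis (fun x y : U => rdist U g₀ x y) oU ξ η := by
  obtain ⟨G, hG, hfree, hprop, hcoc, p, c, hc, hp⟩ := lattice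
  obtain ⟨C₀, c', hC₀, hc', hdis, hfar⟩ := ball_exists G hG hprop p c hc hp
  obtain ⟨ub, hub⟩ := bump G hG hprop p C₀ hC₀ hdis
  obtain ⟨C₁, hC₁, hC₁'⟩ : ∃ C₁, 1 < C₁ ∧ C₁ < C₀ := exists_between hC₀
  obtain ⟨C₂, hC₂, hC₂'⟩ : ∃ C₂, C₁ < C₂ ∧ C₂ < C₀ := exists_between hC₁'
  obtain ⟨β, K, c1, hβ, hβ1, hc1, hβc1, hβ0, hK, hβk⟩ := profile0 C₁ hC₁
  obtain ⟨s₁, hs₁, hs₁', hprof⟩ := profile1 C₁ hC₁
  have hc1' : c1 < C₁ := by
    by_contra h
    push Not at h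
    have h1 := hβ0 c1 h
    rw [hβc1 c1 le_rfl] at h1
    norm_num at h1
  have hsq : 1 < Real.sqrt (1 + c' ^ 2) := by
    rw [Real.lt_sqrt (by norm_num)]
    have : 0 < c' ^ 2 := by positivity
    linarith
  obtain ⟨ε, τ₀, hε, hε1, hεε, hKε, hτ₀, hpar⟩ :=
    params K s₁ (Real.log (Real.sqrt (1 + c' ^ 2))) hK hs₁ hs₁' (Real.log_pos hsq)
  -- the first metric
  set b0 : ℝ → ℝ := fun c => (-ε) * β c with hb0
  have hb0s : ContDiff ℝ ∞ b0 := contDiff_const.mul hβ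
  have hb00 : ∀ c, C₁ ≤ c → b0 c = 0 := fun c hc => by simp [hb0, hβ0 c hc]
  have hb0' : b0 = fun c => -(ε * β c) := by funext c; simp [hb0]
  obtain ⟨hu0s, hu0inv, hu0loc, hu0ball, hu0nz⟩ := hub b0 C₁ hb0s hC₁' hb00
  set u0 : V3 → ℝ := ub b0 with hu0
  have hb0bd : ∀ c, |b0 c| ≤ ε := by
    intro c
    rw [hb0']
    simp only [abs_neg]
    rw [abs_of_nonneg (mul_nonneg hε.le (hβ1 c).1)]
    have := (hβ1 c).2
    nlinarith
  have hb0neg : ∀ c, b0 c ≤ 0 := by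
    intro c
    rw [hb0']
    have := mul_nonneg hε.le (hβ1 c).1
    simp only
    linarith
  have hu0bd : ∀ x ∈ U, |u0 x| ≤ ε :=
    ub_bound G p C₁ b0 u0 ε hε.le (fun c _ => hb0bd c) hu0nz
  have hu0adm : Adm u0 := ⟨hu0s.continuousOn, fun x hx => le_trans (hu0bd x hx) hε1⟩
  have hu0neg : ∀ x ∈ U, u0 x ≤ 0 := by
    intro x hx
    by_cases h : u0 x = 0
    · exact h.le
    · obtain ⟨γ, hγ, -, h2⟩ := hu0nz ⟨x, hx⟩ h
      have h3 : u0 x = b0 (ch (γ p) x) := h2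
      rw [h3]
      exact hb0neg _
  obtain ⟨M₀, -, -, hM₀⟩ := kappa_cont β hβ C₁ C₂ hC₁ hC₂ hβ0
  obtain ⟨⟨k1, q1, hk1, hk1', hq1, hq1', hatt⟩, hmax⟩ := hM₀ (-ε)
  have hm0lo : 1 - K * ε ≤ -(M₀ (-ε)) := by
    have h1 := hβk ε hε.le hε1 k1 q1 hk1 hq1 hq1'
    rw [← hb0'] at h1
    have h2 : kappa b0 k1 q1 = M₀ (-ε) := hatt
    rw [h2] at h1
    have h3 := (abs_le.1 h1).2
    linarith
  have hm0hi : -(M₀ (-ε)) ≤ 1 := by
    have h1 := hmax C₂ 0 (by linarith) le_rfl (by nlinarith)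
    have h2 : kappa b0 C₂ 0 = -1 := kappa_outside b0 C₁ C₂ hC₂ hb00
    have h3 : kappa b0 C₂ 0 ≤ M₀ (-ε) := h1
    linarith
  set m0 : ℝ := -(M₀ (-ε)) with hm0
  have hm0pos : 0 < m0 := by linarith
  have hmodel0 : IsModel U (hg u0 (Real.log m0 / 2)) G := by
    refine model G hG hfree hprop hcoc p C₀ b0 hb0s u0 hu0s hu0inv hu0loc hu0ball m0 hm0pos ?_ ?_
    · intro c Q hc hQ hQ'
      have := hmax c Q hc hQ hQ'
      rw [hm0, neg_neg]
      exact this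
    · refine ⟨k1, q1, hk1, lt_of_le_of_lt hk1' hC₂', hq1, hq1', ?_⟩
      rw [hm0, neg_neg]
      exact hatt
  -- the conditions for `no_bilip`
  have hnb1 : ∀ z ∈ U, z 2 / Real.sqrt ((z 1) ^ 2 + (z 2) ^ 2) ≤ Real.exp (u0 z) := by
    intro z hz
    have hz2 : 0 < z 2 := hz
    by_cases h : u0 z = 0
    · rw [h, Real.exp_zero]
      apply div_le_one_of_le₀ _ (Real.sqrt_nonneg _)
      apply Real.le_sqrt_of_sq_le
      nlinarith [sq_nonneg (z 1)]
    · obtain ⟨γ, hγ, h1, h2⟩ := hu0nz ⟨z, hz⟩ h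
      have h3 : c' ≤ |z 1| / z 2 := hfar γ hγ ⟨z, hz⟩ (h1.trans hC₁').le
      refine le_trans (plane_bound c' hc' z hz h3) ?_
      have h4 : -ε ≤ u0 z := (abs_le.1 (hu0bd z hz)).1
      have h5 : 1 / Real.sqrt (1 + c' ^ 2) = Real.exp (-(Real.log (Real.sqrt (1 + c' ^ 2)))) := by
        rw [Real.exp_neg, Real.exp_log (by linarith), one_div]
      rw [h5]
      apply Real.exp_le_exp.2
      linarith
  have hnb0 : ∀ z ∈ U, z 1 = 0 → u0 z = 0 := by
    intro z hz hz1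
    by_contra h
    obtain ⟨γ, hγ, h1, h2⟩ := hu0nz ⟨z, hz⟩ h
    have h3 : c' ≤ |z 1| / z 2 := hfar γ hγ ⟨z, hz⟩ (h1.trans hC₁').le
    rw [hz1] at h3
    simp at h3
    linarith
  -- dimension
  have hdim0 : 2 < Dm u0 := by
    obtain ⟨R, hR⟩ := syndetic G hG hcoc p
    refine dm_gt_two u0 hu0adm hu0neg R (Real.arcosh c1) ε (Real.arcosh_pos hc1) hε ?_
    intro x
    obtain ⟨γ, hγ, hx⟩ := hR x
    refine ⟨γ p, hx, fun y hy => ?_⟩
    unfold hd at hy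
    have h1 : 1 ≤ ch (γ p) y := ch_pos _ _ (γ p).2 y.2
    rw [Real.arcosh_le_arcosh (by linarith) (by linarith)] at hy
    rw [hu0ball γ hγ y (by linarith), hb0']
    simp only
    rw [hβc1 _ hy]
    linarith
  obtain ⟨hD0, -⟩ := dm_zero
  have hu0le : Dm u0 ≤ Real.exp ε * 2 := by
    have := dm_compare u0 0 hu0adm adm_zero ε hε1
      (fun x hx => by have := (abs_le.1 (hu0bd x hx)).2; simpa using this)
      (fun x hx => by have := (abs_le.1 (hu0bd x hx)).1; simp only [Pi.zero_apply]; linarith)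
    rwa [hD0] at this
  -- the second family
  have hlog : 0 < Real.log (Dm u0 / 2) := Real.log_pos (by linarith)
  obtain ⟨τ, hτ, hττ₀, hτ4, hτlog⟩ : ∃ τ : ℝ, 0 < τ ∧ τ ≤ τ₀ ∧ τ ≤ 1 / 4 ∧
      τ ≤ Real.log (Dm u0 / 2) / 4 := by
    refine ⟨min (min τ₀ (1 / 4)) (Real.log (Dm u0 / 2) / 4), ?_, ?_, ?_, ?_⟩
    · exact lt_min (lt_min hτ₀ (by norm_num)) (by positivity)
    · exact (min_le_left _ _).trans (min_le_left _ _)
    · exact (min_le_left _ _).trans (min_le_right _ _)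
    · exact min_le_right _ _
  obtain ⟨χ, hχ, hχ0, hχb, hχk, hχs⟩ := hprof τ hτ
  obtain ⟨M, hMc, hM0, hM⟩ := kappa_cont χ hχ C₁ C₂ hC₁ hC₂ hχ0
  have hbs : ∀ s : ℝ, ContDiff ℝ ∞ (fun c => s * χ c) := fun s => contDiff_const.mul hχ
  have hbs0 : ∀ s : ℝ, ∀ c, C₁ ≤ c → (fun c => s * χ c) c = 0 := fun s c hc => by
    simp [hχ0 c hc]
  have hV := fun s : ℝ => hub (fun c => s * χ c) C₁ (hbs s) hC₁' (hbs0 s)
  set v : ℝ → V3 → ℝ := fun s => ub (fun c => s * χ c) with hv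
  have hvdiff : ∀ s s' : ℝ, ∀ x ∈ U, |v s x - v s' x| ≤ |s - s'| * τ := by
    intro s s' x hx
    by_cases h : ∃ γ ∈ G, ch (γ p) x < C₀
    · obtain ⟨γ, hγ, h1⟩ := h
      have h2 : v s x = s * χ (ch (γ p) x) := (hV s).2.2.2.1 γ hγ ⟨x, hx⟩ h1
      have h3 : v s' x = s' * χ (ch (γ p) x) := (hV s').2.2.2.1 γ hγ ⟨x, hx⟩ h1
      rw [h2, h3, ← sub_mul, abs_mul]
      exact mul_le_mul_of_nonneg_left (hχb _ (ch_pos _ _ (γ p).2 hx)) (abs_nonneg _)
    · have h2 : ∀ s, v s x = 0 := by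
        intro s
        by_contra h3
        obtain ⟨γ, hγ, h4, -⟩ := (hV s).2.2.2.2 ⟨x, hx⟩ h3
        exact h ⟨γ, hγ, lt_trans h4 hC₁'⟩
      rw [h2, h2]
      simp
      positivity
  have hv0 : ∀ x ∈ U, v 0 x = 0 := by
    intro x hx
    by_contra h
    obtain ⟨γ, hγ, h4, h5⟩ := (hV 0).2.2.2.2 ⟨x, hx⟩ h
    apply h
    have h6 : v 0 x = 0 * χ (ch (γ p) x) := h5
    rw [h6, zero_mul]
  have hvbd : ∀ s ∈ Icc (0 : ℝ) s₁, ∀ x ∈ U, |v s x| ≤ τ := by
    intro s hs x hx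
    have h1 := hvdiff s 0 x hx
    rw [hv0 x hx, sub_zero, sub_zero, abs_of_nonneg hs.1] at h1
    have h2 : s ≤ 1 := by linarith [hs.2]
    nlinarith
  have hvadm : ∀ s ∈ Icc (0 : ℝ) s₁, Adm (v s) := by
    intro s hs
    exact ⟨(hV s).1.continuousOn, fun x hx => le_trans (hvbd s hs x hx) (by linarith)⟩
  have hvlo : ∀ s ∈ Icc (0 : ℝ) s₁, 2 ≤ Real.exp τ * Dm (v s) := by
    intro s hs
    have := dm_compare 0 (v s) adm_zero (hvadm s hs) τ (by linarith)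
      (fun x hx => by
        have := (abs_le.1 (hvbd s hs x hx)).1
        simp only [Pi.zero_apply]; linarith)
      (fun x hx => by
        have := (abs_le.1 (hvbd s hs x hx)).2
        simp only [Pi.zero_apply]; linarith)
    rwa [hD0] at this
  have hvhi : ∀ s ∈ Icc (0 : ℝ) s₁, Dm (v s) ≤ Real.exp τ * 2 := by
    intro s hs
    have := dm_compare (v s) 0 (hvadm s hs) adm_zero τ (by linarith)
      (fun x hx => by
        have := (abs_le.1 (hvbd s hs x hx)).2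
        simp only [Pi.zero_apply]; linarith)
      (fun x hx => by
        have := (abs_le.1 (hvbd s hs x hx)).1
        simp only [Pi.zero_apply]; linarith)
    rwa [hD0] at this
  have hvpos : ∀ s ∈ Icc (0 : ℝ) s₁, 0 < Dm (v s) := by
    intro s hs
    by_contra h
    push Not at h
    have h1 := hvlo s hs
    have h2 : Real.exp τ * Dm (v s) ≤ 0 := mul_nonpos_of_nonneg_of_nonpos (Real.exp_pos _).le h
    linarith
  have hvlip : ∀ s ∈ Icc (0 : ℝ) s₁, ∀ s' ∈ Icc (0 : ℝ) s₁,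
      Real.log (Dm (v s)) ≤ Real.log (Dm (v s')) + |s - s'| := by
    intro s hs s' hs'
    have hss : |s - s'| ≤ 1 := by
      rw [abs_le]
      constructor <;> linarith [hs.1, hs.2, hs'.1, hs'.2]
    have hb : ∀ x ∈ U, |v s x - v s' x| ≤ |s - s'| := by
      intro x hx
      refine (hvdiff s s' x hx).trans ?_
      have := abs_nonneg (s - s')
      nlinarith
    have h1 := dm_compare (v s) (v s') (hvadm s hs) (hvadm s' hs') |s - s'| hss
      (fun x hx => by have := (abs_le.1 (hb x hx)).2; linarith)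
      (fun x hx => by have := (abs_le.1 (hb x hx)).1; linarith)
    have h2 := Real.log_le_log (hvpos s hs) h1
    rw [Real.log_mul (Real.exp_pos _).ne' (hvpos s' hs').ne', Real.log_exp] at h2
    linarith
  have hMneg : ∀ s ∈ Icc (0 : ℝ) s₁, M s ≤ -(1 / 2) := by
    intro s hs
    obtain ⟨⟨c, Q, hc, -, hQ, hQ', h1⟩, -⟩ := hM s
    rw [← h1]
    exact hχk s hs.1 hs.2 c Q hc hQ hQ'
  have hFc : ContinuousOn (fun s => -(Real.log (-(M s)) / 2) + Real.log (Dm (v s)))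
      (Icc 0 s₁) := by
    apply ContinuousOn.add
    · apply ContinuousOn.neg
      apply ContinuousOn.div_const
      apply ContinuousOn.log
      · exact hMc.neg.continuousOn
      · intro s hs
        have := hMneg s hs
        intro h
        linarith
    · have : LipschitzOnWith 1 (fun s => Real.log (Dm (v s))) (Icc 0 s₁) := by
        apply LipschitzOnWith.of_dist_le_mul
        intro s hs s' hs'
        rw [Real.dist_eq, Real.dist_eq, NNReal.coe_one, one_mul, abs_le]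
        have h1 := hvlip s hs s' hs'
        have h2 := hvlip s' hs' s hs
        rw [abs_sub_comm] at h2
        constructor <;> linarith
      exact this.continuousOn
  have hIVT := intermediate_value_Icc hs₁.le hFc
  have h0mem : (0 : ℝ) ∈ Icc (0 : ℝ) s₁ := ⟨le_rfl, hs₁.le⟩
  have h1mem : s₁ ∈ Icc (0 : ℝ) s₁ := ⟨hs₁.le, le_rfl⟩
  have hDv0 : Dm (v 0) = 2 := by
    have e1 := dm_compare (v 0) 0 (hvadm 0 h0mem) adm_zero 0 (by norm_num)
      (fun x hx => by rw [hv0 x hx]; simp) (fun x hx => by rw [hv0 x hx]; simp)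
    have e2 := dm_compare 0 (v 0) adm_zero (hvadm 0 h0mem) 0 (by norm_num)
      (fun x hx => by rw [hv0 x hx]; simp) (fun x hx => by rw [hv0 x hx]; simp)
    rw [Real.exp_zero, one_mul, hD0] at e1 e2
    linarith
  have hlogm0 : Real.log m0 ≤ 0 := Real.log_nonpos hm0pos.le hm0hi
  have hDpos : 0 < Dm u0 := by linarith
  have hT0 : -(Real.log (-(M 0)) / 2) + Real.log (Dm (v 0)) ≤
      -(Real.log m0 / 2) + Real.log (Dm u0) := by
    rw [hM0, hDv0, neg_neg, Real.log_one]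
    have := Real.log_le_log (by norm_num) hdim0.le
    linarith
  have hT1 : -(Real.log m0 / 2) + Real.log (Dm u0) ≤
      -(Real.log (-(M s₁)) / 2) + Real.log (Dm (v s₁)) := by
    have hm1pos : 0 < -(M s₁) := by have := hMneg s₁ h1mem; linarith
    have hm1hi : -(M s₁) ≤ 1 - s₁ := by
      have := (hM s₁).2 1 0 le_rfl le_rfl (by norm_num)
      linarith
    have h1 := hpar m0 (-(M s₁)) τ hm0lo hm1pos hm1hi hτ.le hττ₀
    have hs0 : 0 < Real.sqrt m0 := Real.sqrt_pos.2 hm0pos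
    have hs1 : 0 < Real.sqrt (-(M s₁)) := Real.sqrt_pos.2 hm1pos
    have h2 := Real.log_le_log (by positivity) h1
    rw [Real.log_div (by positivity) hs0.ne', Real.log_div (by positivity) hs1.ne',
      Real.log_mul (by norm_num) (Real.exp_pos _).ne', Real.log_mul (by norm_num)
      (Real.exp_pos _).ne', Real.log_exp, Real.log_exp, Real.log_sqrt hm0pos.le,
      Real.log_sqrt hm1pos.le] at h2
    have h3 := Real.log_le_log hDpos hu0le
    rw [Real.log_mul (Real.exp_pos _).ne' (by norm_num), Real.log_exp] at h3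
    have h4 := Real.log_le_log (by norm_num) (hvlo s₁ h1mem)
    rw [Real.log_mul (Real.exp_pos _).ne' (hvpos s₁ h1mem).ne', Real.log_exp] at h4
    linarith
  obtain ⟨s, hs, hsF⟩ := hIVT ⟨hT0, hT1⟩
  simp only at hsF
  have hmspos : 0 < -(M s) := by have := hMneg s hs; linarith
  obtain ⟨⟨k2, q2, hk2, hk2', hq2, hq2', hatt2⟩, hmax2⟩ := hM s
  have hmodel1 : IsModel U (hg (v s) (Real.log (-(M s)) / 2)) G := by
    obtain ⟨w1, w2, w3, w4, w5⟩ := hV s
    refine model G hG hfree hprop hcoc p C₀ (fun c => s * χ c) (hbs s) (v s) w1 w2 w3 w4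
      (-(M s)) hmspos ?_ ?_
    · intro c Q hc hQ hQ'
      rw [neg_neg]
      exact hmax2 c Q hc hQ hQ'
    · refine ⟨k2, q2, hk2, lt_of_le_of_lt hk2' hC₂', hq2, hq2', ?_⟩
      rw [neg_neg]
      exact hatt2
  have hdimeq : hausdorffDim (vis (SD u0 (Real.log m0 / 2)) oU) =
      hausdorffDim (vis (SD (v s) (Real.log (-(M s)) / 2)) oU) := by
    rw [sd_hdim u0 hu0adm, sd_hdim (v s) (hvadm s hs)]
    have h1 : Real.exp (-(Real.log m0 / 2)) * Dm u0 =
        Real.exp (-(Real.log m0 / 2) + Real.log (Dm u0)) := by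
      rw [Real.exp_add, Real.exp_log hDpos]
    have h2 : Real.exp (-(Real.log (-(M s)) / 2)) * Dm (v s) =
        Real.exp (-(Real.log (-(M s)) / 2) + Real.log (Dm (v s))) := by
      rw [Real.exp_add, Real.exp_log (hvpos s hs)]
    rw [h1, h2, hsF]
  have hdimgt : 2 < hausdorffDim (vis (SD u0 (Real.log m0 / 2)) oU) := by
    rw [sd_hdim u0 hu0adm]
    have h1 : 1 ≤ Real.exp (-(Real.log m0 / 2)) := Real.one_le_exp (by linarith)
    nlinarith
  have hlt : Real.log (-(M s)) / 2 + τ < Real.log m0 / 2 := by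
    have h3 := Real.log_le_log (hvpos s hs) (hvhi s hs)
    rw [Real.log_mul (Real.exp_pos _).ne' (by norm_num), Real.log_exp] at h3
    rw [Real.log_div hDpos.ne' (by norm_num)] at hτlog hlog
    linarith
  refine ⟨hg u0 (Real.log m0 / 2), hg (v s) (Real.log (-(M s)) / 2), G, hmodel0, hmodel1,
    hdimeq, hdimgt, ?_⟩
  rintro ⟨f, L, hL, hf⟩
  exact no_bilip u0 (v s) hu0adm (hvadm s hs) hnb1 hnb0 (Real.log m0 / 2)
    (Real.log (-(M s)) / 2) τ (by linarith) (hvbd s hs) hlt f L hL (fun ξ η => (hf ξ η).2)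

end Pool.Agent.BL.Main
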